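import Pool.Agent.Lib_helper41.Lat.Pr

/-!
# Task U: uniform lattices, irreducibility and finite index subgroups
-/

namespace Pool.Agent.Lat

open Set Topology

universe u

section U

theorem disc_of_lattice {L : Type*} [Group L] [TopologicalSpace L] [IsTopologicalGroup L]
    {Γ : Subgroup L} (h : IsUniformLattice Γ) : Disc Γ := by
  haveI := h.1
  have h1 : IsOpen ({1} : Set Γ) := isOpen_discrete _
  rw [isOpen_induced_iff] at h1
  obtain ⟨U, hU, hU1⟩ := h1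
  refine ⟨U, hU.mem_nhds ?_, ?_⟩
  · have : (1 : Γ) ∈ (Subtype.val ⁻¹' U : Set Γ) := by rw [hU1]; rfl
    exact this
  · intro γ hγ hγU
    have : (⟨γ, hγ⟩ : Γ) ∈ (Subtype.val ⁻¹' U : Set Γ) := hγU
    rw [hU1] at this
    exact congrArg Subtype.val (Set.mem_singleton_iff.1 this)

theorem cocompact_of_lattice {L : Type*} [Group L] [TopologicalSpace L] [IsTopologicalGroup L]
    [LocallyCompactSpace L] {Γ : Subgroup L} (h : IsUniformLattice Γ) :
    Cocompact (Γ : Set L) := by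
  haveI := h.2
  obtain ⟨K, hK, hK1⟩ := exists_compact_mem_nhds (1 : L)
  -- translates of the interior of `K`
  have hopen : ∀ x : L, IsOpen ((fun l : L => (l : L ⧸ Γ)) '' ((fun y => x * y) '' interior K)) := by
    intro x
    exact QuotientGroup.isOpenMap_coe _ ((Homeomorph.mulLeft x).isOpenMap _ isOpen_interior)
  have hcov : (univ : Set (L ⧸ Γ)) ⊆
      ⋃ x : L, (fun l : L => (l : L ⧸ Γ)) '' ((fun y => x * y) '' interior K) := by
    rintro c -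
    obtain ⟨x, rfl⟩ := QuotientGroup.mk_surjective c
    refine mem_iUnion.2 ⟨x, x, ⟨1, mem_interior_iff_mem_nhds.2 hK1, mul_one x⟩, rfl⟩
  obtain ⟨t, ht⟩ := isCompact_univ.elim_finite_subcover _ hopen hcov
  refine ⟨(⋃ x ∈ t, (fun y => x * y) '' K)⁻¹, ?_, ?_⟩
  · exact (t.isCompact_biUnion fun x _ => hK.image (continuous_const_mul x)).inv
  · intro g
    obtain ⟨x, hx, l, ⟨y, hy, rfl⟩, hl⟩ := by
      simpa only [mem_iUnion, exists_prop] using ht (mem_univ ((g⁻¹ : L) : L ⧸ Γ))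
    have hmem : (x * y)⁻¹ * g⁻¹ ∈ Γ := QuotientGroup.eq.1 hl
    refine ⟨((x * y)⁻¹ * g⁻¹)⁻¹, Γ.inv_mem hmem, (x * y)⁻¹, ?_, by group⟩
    rw [Set.mem_inv, inv_inv]
    exact mem_iUnion₂.2 ⟨x, hx, y, interior_subset hy, rfl⟩

theorem irrProp_of_algIrreducible {L : Type u} [Group L] {Γ : Subgroup L}
    (h : AlgIrreducible Γ) : IrrProp Γ := by
  intro N C hN hC hcomm hinf ⟨S, hS, hcov⟩
  let f : N × C →* Γ := MonoidHom.noncommCoprod (Subgroup.inclusion hN) (Subgroup.inclusion hC)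
    (fun a c => Subtype.ext (hcomm a a.2 c c.2))
  have hfval : ∀ p : N × C, ((f p : Γ) : L) = (p.1 : L) * (p.2 : L) := fun p => rfl
  have hf : Function.Injective f := by
    rw [injective_iff_map_eq_one]
    rintro ⟨a, c⟩ hac
    have h1 : (a : L) * (c : L) = 1 := by
      rw [← hfval (a, c), hac]; rfl
    have h2 : (a : L) = (c : L)⁻¹ := eq_inv_of_mul_eq_one_left h1
    have h3 : (a : L) ∈ N ⊓ C := ⟨a.2, by rw [h2]; exact C.inv_mem c.2⟩
    rw [hinf, Subgroup.mem_bot] at h3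
    have h4 : (c : L) = 1 := by
      rw [h3] at h2
      exact inv_eq_one.1 h2.symm
    ext
    · exact h3
    · exact h4
  have hfi : f.range.FiniteIndex := by
    have hfin : Finite (Γ ⧸ f.range) := by
      let S' : Set Γ := {s | (s : L) ∈ S}
      have hS' : S'.Finite := hS.preimage (Subtype.val_injective.injOn)
      have : (univ : Set (Γ ⧸ f.range)) ⊆ (fun s : Γ => ((s⁻¹ : Γ) : Γ ⧸ f.range)) '' S' := by
        rintro q -
        obtain ⟨γ, rfl⟩ := QuotientGroup.mk_surjective q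
        obtain ⟨a, ha, c, hc, s, hs, he⟩ := hcov ((γ⁻¹ : Γ) : L) (γ⁻¹).2
        have hsΓ : s ∈ Γ := by
          have : s = (a * c)⁻¹ * ((γ⁻¹ : Γ) : L) := by rw [he]; group
          rw [this]
          exact Γ.mul_mem (Γ.inv_mem (Γ.mul_mem (hN ha) (hC hc))) (γ⁻¹).2
        refine ⟨⟨s, hsΓ⟩, hs, ?_⟩
        refine QuotientGroup.eq.2 ?_
        refine ⟨(⟨a, ha⟩, ⟨c, hc⟩)⁻¹, ?_⟩
        rw [map_inv]
        apply Subtype.ext
        have he' : ((γ : Γ) : L)⁻¹ = a * c * s := he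
        have : ((γ : Γ) : L) = (a * c * s)⁻¹ := by rw [← he', inv_inv]
        change (a * c)⁻¹ = (s⁻¹)⁻¹ * (γ : L)
        rw [this]; group
      exact Set.finite_univ_iff.1 ((hS'.image _).subset this)
    exact Subgroup.finiteIndex_of_finite_quotient
  have he : Nonempty (f.range ≃* N × C) := ⟨(MonoidHom.ofInjective hf).symm⟩
  rcases h f.range hfi N C he with h1 | h1
  · exact Or.inl (Set.toFinite _)
  · exact Or.inr (Set.toFinite _)

variable {G P : Type*} [Group G] [TopologicalSpace G] [IsTopologicalGroup G]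
  [Group P] [TopologicalSpace P] [IsTopologicalGroup P]

omit [TopologicalSpace G] [IsTopologicalGroup G] [TopologicalSpace P] [IsTopologicalGroup P] in
theorem incl_injective (G₀ : Subgroup G) : Function.Injective (incl G₀ P) := by
  rintro ⟨a, b⟩ ⟨c, d⟩ h
  have h1 : (a : G) = c := congrArg Prod.fst h
  have h2 : b = d := congrArg Prod.snd h
  rw [Subtype.ext h1, h2]

omit [IsTopologicalGroup G] [IsTopologicalGroup P] in
theorem continuous_incl (G₀ : Subgroup G) : Continuous (incl G₀ P) :=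
  continuous_subtype_val.prodMap continuous_id

theorem disc_comap (G₀ : Subgroup G) (Γ : Subgroup (G × P)) (h : Disc Γ) :
    Disc (Γ.comap (incl G₀ P)) := by
  obtain ⟨U, hU, h⟩ := h
  refine ⟨incl G₀ P ⁻¹' U, ?_, ?_⟩
  · refine (continuous_incl (P := P) G₀).continuousAt.preimage_mem_nhds ?_
    rwa [map_one]
  · intro γ hγ hγU
    exact incl_injective G₀ (by rw [map_one]; exact h _ hγ hγU)

theorem cocompact_comap (G₀ : Subgroup G) (hopen : IsOpen (G₀ : Set G)) (Γ : Subgroup (G × P))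
    (h : Cocompact (Γ : Set (G × P))) :
    Cocompact ((Γ.comap (incl G₀ P) : Subgroup (G₀ × P)) : Set (G₀ × P)) := by
  let M₀ : Subgroup (G × P) := Subgroup.comap (MonoidHom.fst G P) G₀
  have hM₀o : IsOpen (M₀ : Set (G × P)) := hopen.preimage continuous_fst
  have hM₀c : IsClosed (M₀ : Set (G × P)) := Subgroup.isClosed_of_isOpen _ hM₀o
  have h1 : CocompactIn (Γ : Set (G × P)) (⊤ : Subgroup (G × P)) := by
    obtain ⟨Q, hQ, h⟩ := h
    exact ⟨Q, hQ, fun _ _ => trivial, fun g _ => h g⟩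
  obtain ⟨Q, hQ, hQM, hcov⟩ := cocompactIn_inter (le_top : Γ ≤ ⊤) h1 (le_top : M₀ ≤ ⊤)
    ⟨M₀, hM₀o.mem_nhds M₀.one_mem, fun m _ hm => hm⟩ hM₀c
  have hemb : IsClosedEmbedding (incl G₀ P) := by
    have h2 : IsClosedEmbedding (Subtype.val : G₀ → G) :=
      (Subgroup.isClosed_of_isOpen _ hopen).isClosedEmbedding_subtypeVal
    exact h2.prodMap IsClosedEmbedding.id
  refine ⟨incl G₀ P ⁻¹' Q, hemb.isCompact_preimage hQ, ?_⟩
  intro g
  obtain ⟨b, ⟨hbΓ, hbM⟩, q, hq, he⟩ := hcov (incl G₀ P g) g.1.2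
  refine ⟨(⟨b.1, hbM⟩, b.2), hbΓ, (⟨q.1, hQM hq⟩, q.2), hq, ?_⟩
  apply incl_injective G₀
  rw [map_mul, he]; rfl

omit [TopologicalSpace G] [IsTopologicalGroup G] [TopologicalSpace P] [IsTopologicalGroup P] in
theorem finiteIndex_comap (G₀ : Subgroup G) (hfi : G₀.FiniteIndex) (Γ : Subgroup (G × P)) :
    ∃ S : Set (G × P), S.Finite ∧ ∀ γ ∈ Γ, ∃ γ₀ ∈ Γ.comap (incl G₀ P), ∃ s ∈ S,
      γ = incl G₀ P γ₀ * s := by
  classical
  let rep : G ⧸ G₀ → G × P := fun c =>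
    if h : ∃ γ ∈ Γ, ((γ.1⁻¹ : G) : G ⧸ G₀) = c then h.choose else 1
  have hrep : ∀ c, (∃ γ ∈ Γ, ((γ.1⁻¹ : G) : G ⧸ G₀) = c) →
      rep c ∈ Γ ∧ (((rep c).1⁻¹ : G) : G ⧸ G₀) = c := by
    intro c h
    simp only [rep, dif_pos h]
    exact h.choose_spec
  haveI : Finite (G ⧸ G₀) := Subgroup.finite_quotient_of_finiteIndex
  refine ⟨range rep, finite_range rep, ?_⟩
  intro γ hγ
  obtain ⟨h1, h2⟩ := hrep ((γ.1⁻¹ : G) : G ⧸ G₀) ⟨γ, hγ, rfl⟩
  set s := rep ((γ.1⁻¹ : G) : G ⧸ G₀) with hs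
  have h3 : (s.1⁻¹)⁻¹ * γ.1⁻¹ ∈ G₀ := QuotientGroup.eq.1 h2
  have h4 : γ.1 * s.1⁻¹ ∈ G₀ := by
    have := G₀.inv_mem h3
    rwa [mul_inv_rev, inv_inv, inv_inv] at this
  refine ⟨(⟨γ.1 * s.1⁻¹, h4⟩, γ.2 * s.2⁻¹), ?_, s, ⟨_, rfl⟩, ?_⟩
  · change γ * s⁻¹ ∈ Γ
    exact Γ.mul_mem hγ (Γ.inv_mem h1)
  · change γ = (γ * s⁻¹) * s
    group

omit [TopologicalSpace G] [IsTopologicalGroup G] [TopologicalSpace P] [IsTopologicalGroup P] in
theorem irr_comap (G₀ : Subgroup G) (hfi : G₀.FiniteIndex) (Γ : Subgroup (G × P))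
    (h : IrrProp Γ) : IrrProp (Γ.comap (incl G₀ P)) := by
  intro N C hN hC hcomm hinf ⟨S, hS, hcov⟩
  obtain ⟨T, hT, hcovT⟩ := finiteIndex_comap G₀ hfi Γ
  have hfin := h (N.map (incl G₀ P)) (C.map (incl G₀ P)) ?_ ?_ ?_ ?_ ?_
  · rcases hfin with h1 | h1
    · left
      exact Set.Finite.of_finite_image (f := incl G₀ P) h1 (incl_injective G₀).injOn
    · right
      exact Set.Finite.of_finite_image (f := incl G₀ P) h1 (incl_injective G₀).injOn
  · rintro _ ⟨a, ha, rfl⟩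
    exact hN ha
  · rintro _ ⟨a, ha, rfl⟩
    exact hC ha
  · rintro _ ⟨a, ha, rfl⟩ _ ⟨c, hc, rfl⟩
    rw [← map_mul, ← map_mul, hcomm a ha c hc]
  · rw [← Subgroup.map_inf _ _ _ (incl_injective G₀), hinf, Subgroup.map_bot]
  · refine ⟨(fun p : (G₀ × P) × (G × P) => incl G₀ P p.1 * p.2) '' (S ×ˢ T),
      (hS.prod hT).image _, ?_⟩
    intro γ hγ
    obtain ⟨γ₀, hγ₀, t, ht, rfl⟩ := hcovT γ hγ
    obtain ⟨a, ha, c, hc, s, hs, rfl⟩ := hcov γ₀ hγ₀
    refine ⟨incl G₀ P a, ⟨a, ha, rfl⟩, incl G₀ P c, ⟨c, hc, rfl⟩, incl G₀ P s * t,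
      ⟨(s, t), ⟨hs, ht⟩, rfl⟩, ?_⟩
    rw [map_mul, map_mul]; group

omit [TopologicalSpace G] [IsTopologicalGroup G] [TopologicalSpace P] [IsTopologicalGroup P] in
theorem pow_mem_comap (G₀ : Subgroup G) (hfi : G₀.FiniteIndex) (Γ : Subgroup (G × P))
    (γ : G × P) (hγ : γ ∈ Γ) : ∃ k : ℕ, 0 < k ∧ ∃ γ₀ ∈ Γ.comap (incl G₀ P),
      incl G₀ P γ₀ = γ ^ k := by
  obtain ⟨k, hk, -, hk2⟩ := G₀.exists_pow_mem_of_index_ne_zero hfi.index_ne_zero γ.1
  refine ⟨k, hk, (⟨γ.1 ^ k, hk2⟩, γ.2 ^ k), ?_, rfl⟩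
  exact Γ.pow_mem hγ k

end U

end Pool.Agent.Lat
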