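import Mathlib

set_option autoImplicit false

namespace Pool.Agent.Lib_helper31.MD

open SimpleGraph

variable {V : Type*} {G : SimpleGraph V}

lemma exists_adj_closer (hG : G.Connected) {u v : V} (h : u ≠ v) :
    ∃ w, G.Adj u w ∧ G.dist w v + 1 = G.dist u v := by
  obtain ⟨p, hp⟩ := hG.exists_walk_length_eq_dist u v
  cases p with
  | nil => exact absurd rfl h
  | @cons _ w _ hadj q =>
    refine ⟨w, hadj, ?_⟩
    have h1 : G.dist w v ≤ q.length := dist_le q
    have h2 : G.dist u v ≤ G.dist u w + G.dist w v := hG.dist_triangle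
    have h3 : G.dist u w = 1 := dist_eq_one_iff_adj.mpr hadj
    rw [Walk.length_cons] at hp
    omega

/-- geodesic exit from a set -/
lemma exit_geod (hG : G.Connected) (A : V → Prop) {s : V} (hs : ¬ A s) :
    ∀ (n : ℕ) (u : V), G.dist u s = n → A u →
      ∃ w w', A w ∧ ¬ A w' ∧ G.Adj w w' ∧ G.dist u s = G.dist u w + 1 + G.dist w' s := by
  intro n
  induction n with
  | zero =>
    intro u hn hu
    have : u = s := by
      rwa [hG.dist_eq_zero_iff] at hn
    exact absurd (this ▸ hu) hs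
  | succ n ih =>
    intro u hn hu
    have hne : u ≠ s := by
      rintro rfl
      exact hs hu
    obtain ⟨w, hadj, hw⟩ := exists_adj_closer hG hne
    by_cases hA : A w
    · obtain ⟨z, z', hz, hz', hadj', hd⟩ := ih w (by omega) hA
      refine ⟨z, z', hz, hz', hadj', ?_⟩
      have h1 : G.dist u z ≤ G.dist u w + G.dist w z := hG.dist_triangle
      have h2 : G.dist u s ≤ G.dist u z + G.dist z s := hG.dist_triangle
      have h3 : G.dist z s ≤ G.dist z z' + G.dist z' s := hG.dist_triangle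
      have h4 : G.dist u w = 1 := dist_eq_one_iff_adj.mpr hadj
      have h5 : G.dist z z' = 1 := dist_eq_one_iff_adj.mpr hadj'
      omega
    · refine ⟨u, w, hu, hA, hadj, ?_⟩
      rw [SimpleGraph.dist_self]
      omega

lemma exit_geod' (hG : G.Connected) (A : V → Prop) {u s : V} (hu : A u) (hs : ¬ A s) :
    ∃ w w', A w ∧ ¬ A w' ∧ G.Adj w w' ∧ G.dist u s = G.dist u w + 1 + G.dist w' s :=
  exit_geod hG A hs _ u rfl hu

lemma lev_adj (hG : G.Connected) {r a b : V} (h : G.Adj a b) :
    G.dist r b ≤ G.dist r a + 1 := by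
  have h1 : G.dist r b ≤ G.dist r a + G.dist a b := hG.dist_triangle
  have h2 : G.dist a b = 1 := dist_eq_one_iff_adj.mpr h
  omega

/-- A breadth-first tree of `G` with root `r`, given by its parent function. -/
structure BT (G : SimpleGraph V) (r : V) where
  par : V → V
  par_root : par r = r
  adj : ∀ v, v ≠ r → G.Adj v (par v)
  lev : ∀ v, v ≠ r → G.dist r (par v) + 1 = G.dist r v

lemma exists_BT (hG : G.Connected) (r : V) : Nonempty (BT G r) := by
  classical
  have h : ∀ v, ∃ w, (v = r → w = r) ∧ (v ≠ r → G.Adj v w ∧ G.dist r w + 1 = G.dist r v) := by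
    intro v
    by_cases hv : v = r
    · exact ⟨r, fun _ => rfl, fun h => absurd hv h⟩
    · obtain ⟨w, hadj, hw⟩ := exists_adj_closer hG hv
      refine ⟨w, fun h => absurd h hv, fun _ => ⟨hadj, ?_⟩⟩
      rw [dist_comm, hw, dist_comm]
  choose f hf using h
  exact ⟨⟨f, (hf r).1 rfl, fun v hv => ((hf v).2 hv).1, fun v hv => ((hf v).2 hv).2⟩⟩

/-- vertices unresolved by `S` -/
def Unres (G : SimpleGraph V) (S : Set V) (u v : V) : Prop :=
  u ≠ v ∧ ∀ s ∈ S, G.dist u s = G.dist v s

namespace BT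

variable {r : V} (T : BT G r)

/-- `a` is an ancestor of `w` -/
def anc (a w : V) : Prop := ∃ k : ℕ, T.par^[k] w = a

/-- nontree edge -/
def NT (a b : V) : Prop := G.Adj a b ∧ T.par a ≠ b ∧ T.par b ≠ a

/-- end of a nontree edge -/
def N (a : V) : Prop := ∃ b, T.NT a b

/-- upper end of a vertical nontree edge -/
def Up (a : V) : Prop := ∃ b, T.NT a b ∧ G.dist r b = G.dist r a + 1

/-- `u` lies on a geodesic from the root to `s` -/
def mb (_T : BT G r) (u s : V) : Prop := G.dist r s = G.dist r u + G.dist u s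

/-- the subtree of `z` meets no nontree edge -/
def Pend (z : V) : Prop := ∀ w, T.anc z w → ¬ T.N w

lemma NT.symm {a b : V} (h : T.NT a b) : T.NT b a := ⟨h.1.symm, h.2.2, h.2.1⟩

lemma anc_refl (a : V) : T.anc a a := ⟨0, rfl⟩

lemma anc_trans {a b c : V} (h1 : T.anc a b) (h2 : T.anc b c) : T.anc a c := by
  obtain ⟨k, hk⟩ := h1
  obtain ⟨j, hj⟩ := h2
  refine ⟨k + j, ?_⟩
  rw [Function.iterate_add_apply, hj, hk]

lemma anc_par_self (w : V) : T.anc (T.par w) w := ⟨1, rfl⟩

lemma anc_of_anc_par {a w : V} (h : T.anc a (T.par w)) : T.anc a w :=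
  T.anc_trans h (T.anc_par_self w)

lemma anc_par_of_ne {a w : V} (h : T.anc a w) (hne : a ≠ w) : T.anc a (T.par w) := by
  obtain ⟨k, hk⟩ := h
  cases k with
  | zero => exact absurd hk.symm hne
  | succ k =>
    refine ⟨k, ?_⟩
    rwa [Function.iterate_succ_apply] at hk

lemma anc_comparable {a b w : V} (h1 : T.anc a w) (h2 : T.anc b w) : T.anc a b ∨ T.anc b a := by
  obtain ⟨k, hk⟩ := h1
  obtain ⟨j, hj⟩ := h2
  rcases le_total k j with h | h
  · right
    refine ⟨j - k, ?_⟩
    rw [← hk, ← Function.iterate_add_apply, Nat.sub_add_cancel h, hj]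
  · left
    refine ⟨k - j, ?_⟩
    rw [← hj, ← Function.iterate_add_apply, Nat.sub_add_cancel h, hk]

lemma anc_dist_le (hG : G.Connected) (w : V) (k : ℕ) :
    G.dist (T.par^[k] w) w + G.dist r (T.par^[k] w) ≤ G.dist r w := by
  induction k with
  | zero => simp
  | succ k ih =>
    rw [Function.iterate_succ_apply']
    set a := T.par^[k] w with ha
    by_cases har : a = r
    · rw [har, T.par_root]
      rw [har] at ih
      exact ih
    · have h1 := T.lev a har
      have h2 : G.dist (T.par a) w ≤ G.dist (T.par a) a + G.dist a w := hG.dist_triangle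
      have h3 : G.dist (T.par a) a = 1 := dist_eq_one_iff_adj.mpr (T.adj a har).symm
      omega

lemma anc_dist (hG : G.Connected) {a w : V} (h : T.anc a w) :
    G.dist r w = G.dist r a + G.dist a w := by
  obtain ⟨k, rfl⟩ := h
  have h1 := T.anc_dist_le hG w k
  have h2 : G.dist r w ≤ G.dist r (T.par^[k] w) + G.dist (T.par^[k] w) w := hG.dist_triangle
  omega

lemma mb_of_anc (hG : G.Connected) {a w : V} (h : T.anc a w) : T.mb a w := T.anc_dist hG h

lemma anc_lev_le (hG : G.Connected) {a w : V} (h : T.anc a w) : G.dist r a ≤ G.dist r w := by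
  have := T.anc_dist hG h
  omega

lemma eq_of_anc_of_lev (hG : G.Connected) {a w : V} (h : T.anc a w)
    (hl : G.dist r a = G.dist r w) : a = w := by
  have h1 := T.anc_dist hG h
  have : G.dist a w = 0 := by omega
  rwa [hG.dist_eq_zero_iff] at this

lemma anc_unique (hG : G.Connected) {a b w : V} (h1 : T.anc a w) (h2 : T.anc b w)
    (hl : G.dist r a = G.dist r b) : a = b := by
  rcases T.anc_comparable h1 h2 with h | h
  · exact T.eq_of_anc_of_lev hG h hl
  · exact (T.eq_of_anc_of_lev hG h hl.symm).symm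

lemma anc_antisymm (hG : G.Connected) {a b : V} (h1 : T.anc a b) (h2 : T.anc b a) : a = b := by
  have := T.anc_lev_le hG h1
  have := T.anc_lev_le hG h2
  exact T.eq_of_anc_of_lev hG h1 (by omega)

lemma anc_root (hG : G.Connected) (w : V) : T.anc r w := by
  obtain ⟨n, hn⟩ : ∃ n, G.dist r w = n := ⟨_, rfl⟩
  induction n generalizing w with
  | zero =>
    rw [hG.dist_eq_zero_iff] at hn
    subst hn
    exact T.anc_refl _
  | succ n ih =>
    have hne : w ≠ r := by
      rintro rfl
      rw [SimpleGraph.dist_self] at hn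
      omega
    have := T.lev w hne
    exact T.anc_of_anc_par (ih (T.par w) (by omega))

lemma eq_root_of_anc_root (hG : G.Connected) {a : V} (h : T.anc a r) : a = r :=
  T.anc_antisymm hG h (T.anc_root hG a)

lemma not_N_root (hG : G.Connected) : ¬ T.N r := by
  rintro ⟨b, hadj, h1, h2⟩
  have hb : b ≠ r := hadj.ne'
  have hl := T.lev b hb
  have h3 : G.dist r b = 1 := dist_eq_one_iff_adj.mpr hadj
  have h4 : G.dist r (T.par b) = 0 := by omega
  rw [hG.dist_eq_zero_iff] at h4
  exact h2 h4.symm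

lemma Up.N {a : V} (h : T.Up a) : T.N a := by
  obtain ⟨b, hb, _⟩ := h
  exact ⟨b, hb⟩

lemma NT.N {a b : V} (h : T.NT a b) : T.N a := ⟨b, h⟩

lemma NT.N' {a b : V} (h : T.NT a b) : T.N b := ⟨a, h.symm⟩

lemma mb_trans (hG : G.Connected) {a b c : V} (h1 : T.mb a b) (h2 : T.mb b c) : T.mb a c := by
  unfold mb at *
  have h3 : G.dist a c ≤ G.dist a b + G.dist b c := hG.dist_triangle
  have h4 : G.dist r c ≤ G.dist r a + G.dist a c := hG.dist_triangle
  omega

lemma mb_lev {a b : V} (h : T.mb a b) : G.dist r a ≤ G.dist r b := by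
  unfold mb at h
  omega

lemma exit_mono (hG : G.Connected) {v s : V} (h : T.mb v s) (hn : ¬ T.anc v s) :
    ∃ w w', T.anc v w ∧ ¬ T.anc v w' ∧ T.NT w w' ∧ G.dist r w' = G.dist r w + 1 ∧
      T.mb w' s := by
  obtain ⟨w, w', hw, hw', hadj, hd⟩ := exit_geod' hG (fun z => T.anc v z) (T.anc_refl v) hn
  have h1 : G.dist r s = G.dist r v + G.dist v s := h
  have h2 : G.dist r w = G.dist r v + G.dist v w := T.anc_dist hG hw
  have h3 : G.dist r s ≤ G.dist r w' + G.dist w' s := hG.dist_triangle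
  have h4 : G.dist r w' ≤ G.dist r w + 1 := lev_adj hG hadj
  have h5 : G.dist r w' = G.dist r w + 1 := by omega
  refine ⟨w, w', hw, hw', ⟨hadj, ?_, ?_⟩, h5, ?_⟩
  · intro hp
    by_cases hwr : w = r
    · subst hwr
      rw [T.par_root] at hp
      exact hadj.ne hp
    · have := T.lev w hwr
      rw [hp] at this
      omega
  · intro hp
    apply hw'
    apply T.anc_of_anc_par
    rw [hp]
    exact hw
  · show G.dist r s = G.dist r w' + G.dist w' s
    omega

/-- descent: no upper end in the two subtrees belongs to `S` -/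
lemma Q1 (hG : G.Connected) (S : Set V)
    (hUp : ∀ w w', T.NT w w' → G.dist r w' = G.dist r w + 1 →
      w ∈ S ∨ (∀ t, T.mb w' t → ¬ T.Up t)) :
    ∀ (n : ℕ) (u v w : V), G.dist r w = n → u ≠ v → G.dist r u = G.dist r v →
      (∀ s ∈ S, T.mb u s ↔ T.mb v s) → T.Up w → T.anc u w → w ∉ S := by
  intro n
  induction n using Nat.strong_induction_on with
  | _ n ih =>
    intro u v w hn huv hl heq hup hanc hwS
    have h1 : T.mb v w := (heq w hwS).mp (T.mb_of_anc hG hanc)
    have h2 : ¬ T.anc v w := fun h => huv (T.anc_unique hG hanc h hl)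
    obtain ⟨z, z', hz, hz', hNT, hlz, hmz⟩ := T.exit_mono hG h1 h2
    rcases hUp z z' hNT hlz with hS | hE
    · have h3 := T.mb_lev hmz
      exact ih (G.dist r z) (by omega) v u z rfl huv.symm hl.symm
        (fun s hs => (heq s hs).symm) ⟨z', hNT, hlz⟩ hz hS
    · exact hE w hmz hup

lemma Q2 (hG : G.Connected) (S : Set V)
    (hUp : ∀ w w', T.NT w w' → G.dist r w' = G.dist r w + 1 →
      w ∈ S ∨ (∀ t, T.mb w' t → ¬ T.Up t))
    {u v s : V} (huv : u ≠ v) (hl : G.dist r u = G.dist r v)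
    (heq : ∀ s ∈ S, T.mb u s ↔ T.mb v s) (hs : s ∈ S) (hanc : T.anc u s) :
    ∃ z z', T.anc v z ∧ T.NT z z' ∧ G.dist r z' = G.dist r z + 1 ∧ T.mb z' s ∧ z ∉ S := by
  have h1 : T.mb v s := (heq s hs).mp (T.mb_of_anc hG hanc)
  have h2 : ¬ T.anc v s := fun h => huv (T.anc_unique hG hanc h hl)
  obtain ⟨z, z', hz, hz', hNT, hlz, hmz⟩ := T.exit_mono hG h1 h2
  refine ⟨z, z', hz, hNT, hlz, hmz, ?_⟩
  exact T.Q1 hG S hUp _ v u z rfl huv.symm hl.symm (fun s hs => (heq s hs).symm)
    ⟨z', hNT, hlz⟩ hz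

lemma pend_dist (hG : G.Connected) {u s : V} (hp : T.Pend u) (hs : ¬ T.anc u s) :
    G.dist u s = G.dist (T.par u) s + 1 := by
  obtain ⟨w, w', hw, hw', hadj, hd⟩ := exit_geod' hG (fun z => T.anc u z) (T.anc_refl u) hs
  have hnN := hp w hw
  have h1 : T.par w = w' ∨ T.par w' = w := by
    by_contra hcon
    push Not at hcon
    exact hnN ⟨w', hadj, hcon.1, hcon.2⟩
  rcases h1 with h1 | h1
  · have hwu : u = w := by
      by_contra hne
      exact hw' (h1 ▸ T.anc_par_of_ne hw hne)
    subst hwu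
    subst h1
    rw [SimpleGraph.dist_self] at hd
    omega
  · exact absurd (T.anc_of_anc_par (by rw [h1]; exact hw)) hw'

lemma vertex_core (hG : G.Connected) (S : Set V) (hr : r ∈ S)
    (hP : ∀ k1 k2, k1 ≠ k2 → k1 ≠ r → k2 ≠ r → T.par k1 = T.par k2 → T.Pend k1 → T.Pend k2 →
      ∃ s ∈ S, T.anc k1 s ∨ T.anc k2 s)
    (hC : ∀ u v, Unres G S u v → T.Pend u ∧ T.Pend v ∧ ∀ s ∈ S, ¬ T.anc u s ∧ ¬ T.anc v s) :
    ∀ u v, ¬ Unres G S u v := by
  have key : ∀ (n : ℕ) (u v : V), G.dist r u = n → ¬ Unres G S u v := by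
    intro n
    induction n using Nat.strong_induction_on with
    | _ n ih =>
      intro u v hn hU
      obtain ⟨hpu, hpv, hSS⟩ := hC u v hU
      have hur : u ≠ r := by
        rintro rfl
        exact (hSS u hr).1 (T.anc_refl u)
      have hvr : v ≠ r := by
        rintro rfl
        exact (hSS v hr).2 (T.anc_refl v)
      have hd : ∀ s ∈ S, G.dist (T.par u) s = G.dist (T.par v) s := by
        intro s hs
        have h1 := T.pend_dist hG hpu (hSS s hs).1
        have h2 := T.pend_dist hG hpv (hSS s hs).2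
        have h3 := hU.2 s hs
        omega
      by_cases hpp : T.par u = T.par v
      · obtain ⟨s, hs, h | h⟩ := hP u v hU.1 hur hvr hpp hpu hpv
        · exact (hSS s hs).1 h
        · exact (hSS s hs).2 h
      · have := T.lev u hur
        exact ih (G.dist r (T.par u)) (by omega) (T.par u) (T.par v) rfl ⟨hpp, hd⟩
  intro u v
  exact key _ u v rfl

end BT

end Pool.Agent.Lib_helper31.MD
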