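import Pool.Agent.Lib_helper31.MDBasic

set_option autoImplicit false

namespace Pool.Agent.Lib_helper31.MD

open SimpleGraph

variable {V : Type*} {G : SimpleGraph V}

/-- distance from an unordered pair to a vertex -/
noncomputable def eD (G : SimpleGraph V) (e : Sym2 V) (s : V) : ℕ :=
  Sym2.lift ⟨fun a b => min (G.dist a s) (G.dist b s), fun a b => min_comm _ _⟩ e

@[simp] lemma eD_mk (a b s : V) : eD G s(a, b) s = min (G.dist a s) (G.dist b s) := rfl

def EdgeRes (G : SimpleGraph V) (S : Set V) : Prop :=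
  ∀ e ∈ G.edgeSet, ∀ f ∈ G.edgeSet, (∀ s ∈ S, eD G e s = eD G f s) → e = f

lemma mem_of_eD_eq_zero (hG : G.Connected) {e : Sym2 V} {a : V} (h : eD G e a = 0) : a ∈ e := by
  induction e with
  | _ x y =>
    rw [eD_mk] at h
    have : G.dist x a = 0 ∨ G.dist y a = 0 := by omega
    rcases this with h | h
    · rw [hG.dist_eq_zero_iff] at h
      subst h
      exact Sym2.mem_mk_left _ _
    · rw [hG.dist_eq_zero_iff] at h
      subst h
      exact Sym2.mem_mk_right _ _

namespace BT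

variable {r : V} (T : BT G r)

lemma edge_cases {e : Sym2 V} (he : e ∈ G.edgeSet) :
    (∃ x, x ≠ r ∧ e = s(T.par x, x)) ∨ (∃ a b, T.NT a b ∧ e = s(a, b)) := by
  induction e with
  | _ a b =>
    have hadj : G.Adj a b := by simpa using he
    by_cases h1 : T.par a = b
    · left
      refine ⟨a, ?_, ?_⟩
      · rintro rfl
        rw [T.par_root] at h1
        exact hadj.ne h1
      · rw [h1, Sym2.eq_swap]
    · by_cases h2 : T.par b = a
      · left
        refine ⟨b, ?_, ?_⟩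
        · rintro rfl
          rw [T.par_root] at h2
          exact hadj.ne' h2
        · rw [h2]
      · right
        exact ⟨a, b, ⟨hadj, h1, h2⟩, rfl⟩

lemma edge_core (hG : G.Connected) (S : Set V) (e1 : Sym2 V)
    (hNT : ∀ a b, T.NT a b → s(a, b) ≠ e1 → a ∈ S ∧ b ∈ S)
    (hTT : ∀ x x', x ≠ r → x' ≠ r → x ≠ x' →
      (∀ s ∈ S, eD G s(T.par x, x) s = eD G s(T.par x', x') s) → False)
    (hE1 : e1 ∈ G.edgeSet → ∀ x, x ≠ r → e1 ≠ s(T.par x, x) →
      (∀ s ∈ S, eD G e1 s = eD G s(T.par x, x) s) → False) :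
    EdgeRes G S := by
  have hkey : ∀ a b, T.NT a b → s(a, b) ≠ e1 → ∀ f ∈ G.edgeSet,
      (∀ s ∈ S, eD G s(a, b) s = eD G f s) → s(a, b) = f := by
    intro a b hab hne f _ heq
    obtain ⟨ha, hb⟩ := hNT a b hab hne
    have h1 : a ∈ f := by
      apply mem_of_eD_eq_zero hG
      rw [← heq a ha]
      simp
    have h2 : b ∈ f := by
      apply mem_of_eD_eq_zero hG
      rw [← heq b hb]
      simp
    exact ((Sym2.mem_and_mem_iff hab.1.ne).mp ⟨h1, h2⟩).symm
  intro e he f hf heq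
  by_contra hne
  rcases T.edge_cases he with ⟨x, hx, rfl⟩ | ⟨a, b, hab, rfl⟩
  · rcases T.edge_cases hf with ⟨x', hx', rfl⟩ | ⟨a', b', hab', rfl⟩
    · refine hTT x x' hx hx' ?_ heq
      rintro rfl
      exact hne rfl
    · by_cases h1 : s(a', b') = e1
      · rw [h1] at hf heq hne
        exact hE1 hf x hx (Ne.symm hne) (fun s hs => (heq s hs).symm)
      · exact hne (hkey a' b' hab' h1 _ he (fun s hs => (heq s hs).symm)).symm
  · by_cases h1 : s(a, b) = e1
    · rcases T.edge_cases hf with ⟨x', hx', rfl⟩ | ⟨a', b', hab', rfl⟩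
      · rw [h1] at he heq hne
        exact hE1 he x' hx' hne heq
      · by_cases h2 : s(a', b') = e1
        · exact hne (h1.trans h2.symm)
        · exact hne (hkey a' b' hab' h2 _ he (fun s hs => (heq s hs).symm)).symm
    · exact hne (hkey a b hab h1 f hf heq)

lemma TT_mb (hG : G.Connected) {x s : V} (hx : x ≠ r) :
    T.mb x s ↔ G.dist r s = G.dist r x + eD G s(T.par x, x) s := by
  unfold mb
  have h1 := T.lev x hx
  have h2 : G.dist r s ≤ G.dist r (T.par x) + G.dist (T.par x) s := hG.dist_triangle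
  have h3 : G.dist r s ≤ G.dist r x + G.dist x s := hG.dist_triangle
  rw [eD_mk]
  omega

lemma TT_lev {x x' : V} (hx : x ≠ r) (hx' : x' ≠ r)
    (h : eD G s(T.par x, x) r = eD G s(T.par x', x') r) : G.dist r x = G.dist r x' := by
  have h1 := T.lev x hx
  have h2 := T.lev x' hx'
  rw [eD_mk, eD_mk, G.dist_comm (u := T.par x), G.dist_comm (u := x), G.dist_comm (u := T.par x'),
    G.dist_comm (u := x')] at h
  omega

lemma TT_pend (hG : G.Connected) (S : Set V) {x x' : V} (hxx : x ≠ x')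
    (hp : T.Pend x) (hp' : T.Pend x') (hS : ∀ s ∈ S, ¬ T.anc x s ∧ ¬ T.anc x' s)
    (heq : ∀ s ∈ S, eD G s(T.par x, x) s = eD G s(T.par x', x') s) : Unres G S x x' := by
  refine ⟨hxx, fun s hs => ?_⟩
  have h1 := T.pend_dist hG hp (hS s hs).1
  have h2 := T.pend_dist hG hp' (hS s hs).2
  have h3 := heq s hs
  rw [eD_mk, eD_mk] at h3
  omega

/-- property of the set of chosen leaves -/
def PP (S : Set V) : Prop :=
  ∀ k1 k2, k1 ≠ k2 → k1 ≠ r → k2 ≠ r → T.par k1 = T.par k2 → T.Pend k1 → T.Pend k2 →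
      ∃ s ∈ S, T.anc k1 s ∨ T.anc k2 s

lemma PP.mono {S S' : Set V} (h : T.PP S) (hS : S ⊆ S') : T.PP S' := by
  intro k1 k2 h1 h2 h3 h4 h5 h6
  obtain ⟨s, hs, h7⟩ := h k1 k2 h1 h2 h3 h4 h5 h6
  exact ⟨s, hS hs, h7⟩

lemma S0_step (hG : G.Connected) (S : Set V) (hN : ∀ w, T.N w → w ∈ S)
    {u v : V} (huv : u ≠ v) (hl : G.dist r u = G.dist r v)
    (heq : ∀ s ∈ S, T.mb u s ↔ T.mb v s) :
    T.Pend u ∧ T.Pend v ∧ ∀ s ∈ S, ¬ T.anc u s ∧ ¬ T.anc v s := by
  have hUp : ∀ w w', T.NT w w' → G.dist r w' = G.dist r w + 1 →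
      w ∈ S ∨ (∀ t, T.mb w' t → ¬ T.Up t) := fun w w' h _ => Or.inl (hN w ⟨w', h⟩)
  have h1 : ∀ s ∈ S, ¬ T.anc u s := by
    intro s hs hanc
    obtain ⟨z, z', _, h2, _, _, h3⟩ := T.Q2 hG S hUp huv hl heq hs hanc
    exact h3 (hN z ⟨z', h2⟩)
  have h2 : ∀ s ∈ S, ¬ T.anc v s := by
    intro s hs hanc
    obtain ⟨z, z', _, h2, _, _, h3⟩ := T.Q2 hG S hUp huv.symm hl.symm
      (fun s hs => (heq s hs).symm) hs hanc
    exact h3 (hN z ⟨z', h2⟩)
  exact ⟨fun w hw hNw => h1 w (hN w hNw) hw, fun w hw hNw => h2 w (hN w hNw) hw,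
    fun s hs => ⟨h1 s hs, h2 s hs⟩⟩

lemma Unres.lev {S : Set V} (hr : r ∈ S) {u v : V} (h : Unres G S u v) :
    G.dist r u = G.dist r v := by
  have := h.2 r hr
  rwa [G.dist_comm, G.dist_comm (u := v)] at this

lemma Unres.mb_iff {S : Set V} (hr : r ∈ S) {u v : V} (h : Unres G S u v) :
    ∀ s ∈ S, T.mb u s ↔ T.mb v s := by
  intro s hs
  unfold mb
  rw [Unres.lev hr h, h.2 s hs]

lemma S0_vertex (hG : G.Connected) (S : Set V) (hr : r ∈ S) (hN : ∀ w, T.N w → w ∈ S)
    (hP : T.PP S) : ∀ u v, ¬ Unres G S u v := by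
  apply T.vertex_core hG S hr hP
  intro u v hU
  exact T.S0_step hG S hN hU.1 (Unres.lev hr hU) (Unres.mb_iff T hr hU)

lemma S0_edge (hG : G.Connected) (S : Set V) (hr : r ∈ S) (hN : ∀ w, T.N w → w ∈ S)
    (hP : T.PP S) : EdgeRes G S := by
  apply T.edge_core hG S s(r, r)
  · intro a b hab _
    exact ⟨hN a hab.N, hN b hab.N'⟩
  · intro x x' hx hx' hxx heq
    have hl := T.TT_lev hx hx' (heq r hr)
    have hmb : ∀ s ∈ S, T.mb x s ↔ T.mb x' s := by
      intro s hs
      rw [T.TT_mb hG hx, T.TT_mb hG hx', hl, heq s hs]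
    obtain ⟨h1, h2, h3⟩ := T.S0_step hG S hN hxx hl hmb
    exact T.S0_vertex hG S hr hN hP x x' (T.TT_pend hG S hxx h1 h2 h3 heq)
  · intro h
    simp at h

end BT

section DR

variable {q : V}

lemma DR_dist (hG : G.Connected) (D : V → Prop)
    (hcl : ∀ a b, D a → ¬ D b → G.Adj a b → b = q) {a b : V} (ha : D a) (hb : ¬ D b) :
    G.dist a b = G.dist a q + G.dist q b := by
  obtain ⟨w, w', hw, hw', hadj, hd⟩ := exit_geod' hG D ha hb
  have := hcl w w' hw hw' hadj
  subst this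
  have h1 : G.dist a w' ≤ G.dist a w + G.dist w w' := hG.dist_triangle
  have h2 : G.dist w w' = 1 := dist_eq_one_iff_adj.mpr hadj
  have h3 : G.dist a b ≤ G.dist a w' + G.dist w' b := hG.dist_triangle
  omega

lemma DR_obj (hG : G.Connected) (D : V → Prop) (hq : ¬ D q)
    (hcl : ∀ a b, D a → ¬ D b → G.Adj a b → b = q) {s1 s2 : V} (h1 : D s1) (h2 : ¬ D s2)
    {a b c d : V} (hab : a = b ∨ G.Adj a b) (hcd : c = d ∨ G.Adj c d)
    (he1 : min (G.dist a s1) (G.dist b s1) = min (G.dist c s1) (G.dist d s1))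
    (he2 : min (G.dist a s2) (G.dist b s2) = min (G.dist c s2) (G.dist d s2)) :
    min (G.dist a q) (G.dist b q) = min (G.dist c q) (G.dist d q) := by
  have hDq : ∀ a, (D a ∨ a = q) → G.dist a s2 = G.dist a q + G.dist q s2 := by
    rintro a (h | rfl)
    · exact DR_dist hG D hcl h h2
    · rw [SimpleGraph.dist_self, zero_add]
  have hnD : ∀ a, ¬ D a → G.dist a s1 = G.dist a q + G.dist q s1 := by
    intro a h
    have h5 := DR_dist hG D hcl h1 h
    rw [G.dist_comm (u := s1) (v := a), G.dist_comm (u := s1) (v := q),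
      G.dist_comm (u := q) (v := a)] at h5
    omega
  have htri : ∀ a s, G.dist a s ≤ G.dist a q + G.dist q s := fun a s => hG.dist_triangle
  have hside : ∀ a b, (a = b ∨ G.Adj a b) →
      ((D a ∨ a = q) ∧ (D b ∨ b = q)) ∨ (¬ D a ∧ ¬ D b) := by
    intro a b hab
    by_cases ha : D a
    · by_cases hb : D b
      · exact Or.inl ⟨Or.inl ha, Or.inl hb⟩
      · rcases hab with rfl | hab
        · exact absurd ha hb
        · exact Or.inl ⟨Or.inl ha, Or.inr (hcl a b ha hb hab)⟩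
    · by_cases hb : D b
      · rcases hab with rfl | hab
        · exact absurd hb ha
        · exact Or.inl ⟨Or.inr (hcl b a hb ha hab.symm), Or.inl hb⟩
      · exact Or.inr ⟨ha, hb⟩
  have ha1 := htri a s1
  have hb1 := htri b s1
  have hc1 := htri c s1
  have hd1 := htri d s1
  have ha2 := htri a s2
  have hb2 := htri b s2
  have hc2 := htri c s2
  have hd2 := htri d s2
  rcases hside a b hab with ⟨ha, hb⟩ | ⟨ha, hb⟩ <;> rcases hside c d hcd with ⟨hc, hd⟩ | ⟨hc, hd⟩
  · have := hDq a ha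
    have := hDq b hb
    have := hDq c hc
    have := hDq d hd
    omega
  · have := hDq a ha
    have := hDq b hb
    have := hnD c hc
    have := hnD d hd
    omega
  · have := hnD a ha
    have := hnD b hb
    have := hDq c hc
    have := hDq d hd
    omega
  · have := hnD a ha
    have := hnD b hb
    have := hnD c hc
    have := hnD d hd
    omega

lemma DR_vertex (hG : G.Connected) (D : V → Prop) (hq : ¬ D q)
    (hcl : ∀ a b, D a → ¬ D b → G.Adj a b → b = q) (S : Set V)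
    (hV : ∀ u v, ¬ Unres G (insert q S) u v) {s1 s2 : V} (hs1 : s1 ∈ S) (h1 : D s1)
    (hs2 : s2 ∈ S) (h2 : ¬ D s2) : ∀ u v, ¬ Unres G S u v := by
  intro u v hU
  apply hV u v
  refine ⟨hU.1, ?_⟩
  intro s hs
  rcases hs with rfl | hs
  · have := DR_obj hG D hq hcl h1 h2 (a := u) (b := u) (c := v) (d := v) (Or.inl rfl)
      (Or.inl rfl) (by simpa using hU.2 s1 hs1) (by simpa using hU.2 s2 hs2)
    simpa using this
  · exact hU.2 s hs

lemma DR_edge (hG : G.Connected) (D : V → Prop) (hq : ¬ D q)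
    (hcl : ∀ a b, D a → ¬ D b → G.Adj a b → b = q) (S : Set V)
    (hV : EdgeRes G (insert q S)) {s1 s2 : V} (hs1 : s1 ∈ S) (h1 : D s1)
    (hs2 : s2 ∈ S) (h2 : ¬ D s2) : EdgeRes G S := by
  intro e he f hf heq
  apply hV e he f hf
  intro s hs
  rcases hs with rfl | hs
  · induction e with
    | _ a b =>
      induction f with
      | _ c d =>
        have hab : G.Adj a b := by simpa using he
        have hcd : G.Adj c d := by simpa using hf
        exact DR_obj hG D hq hcl h1 h2 (Or.inr hab) (Or.inr hcd) (heq s1 hs1) (heq s2 hs2)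
  · exact heq s hs

end DR

end Pool.Agent.Lib_helper31.MD
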