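import Pool.Agent.Lib_helper31.MDHor

set_option autoImplicit false

namespace Pool.Agent.Lib_helper31.MD

open SimpleGraph

variable {V : Type*} {G : SimpleGraph V} [Fintype V] [DecidableEq V] [DecidableRel G.Adj]

namespace BT

variable {r : V} (T : BT G r)

lemma tree_edge_inj (v w : V) (hv : v ≠ r) (hw : w ≠ r)
    (h : s(T.par v, v) = s(T.par w, w)) : v = w := by
  have h1 := T.lev v hv
  have h2 := T.lev w hw
  rw [Sym2.eq_iff] at h
  rcases h with ⟨_, h⟩ | ⟨h3, h4⟩
  · exact h
  · exfalso
    rw [h3] at h1
    rw [← h4] at h2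
    omega

lemma tree_edge_not_NT {a b v : V} (h : T.NT a b) : s(a, b) ≠ s(T.par v, v) := by
  intro h1
  rw [Sym2.eq_iff] at h1
  rcases h1 with ⟨h2, h3⟩ | ⟨h2, h3⟩
  · exact h.2.2 (by rw [h3, h2])
  · exact h.2.1 (by rw [h2, h3])

variable (G) in
/-- edges inside `X` -/
def inside (X : Finset V) : Finset (Sym2 V) := G.edgeFinset.filter (fun e => ∀ v ∈ e, v ∈ X)

lemma inside_ge (X : Finset V) {t : V} (ht : t ∈ X)
    (hX : ∀ v ∈ X, v ≠ t → v ≠ r ∧ T.par v ∈ X) {a b : V} (ha : a ∈ X) (hb : b ∈ X)
    (hab : T.NT a b) : X.card ≤ (inside G X).card := by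
  classical
  set F : Finset (Sym2 V) := (X.erase t).image (fun v => s(T.par v, v)) with hF
  have hFc : F.card = X.card - 1 := by
    rw [hF, Finset.card_image_of_injOn, Finset.card_erase_of_mem ht]
    intro v hv w hw hvw
    have hv' := Finset.mem_erase.mp (Finset.mem_coe.mp hv)
    have hw' := Finset.mem_erase.mp (Finset.mem_coe.mp hw)
    exact T.tree_edge_inj v w (hX v hv'.2 hv'.1).1 (hX w hw'.2 hw'.1).1 hvw
  have hnot : s(a, b) ∉ F := by
    intro h
    rw [hF, Finset.mem_image] at h
    obtain ⟨v, _, hv⟩ := h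
    exact T.tree_edge_not_NT hab hv.symm
  have hsub : insert s(a, b) F ⊆ inside G X := by
    intro e he
    rw [Finset.mem_insert] at he
    rw [inside, Finset.mem_filter, mem_edgeFinset]
    rcases he with rfl | he
    · refine ⟨hab.1, fun v hv => ?_⟩
      rcases Sym2.mem_iff.mp hv with rfl | rfl
      · exact ha
      · exact hb
    · rw [hF, Finset.mem_image] at he
      obtain ⟨v, hv, rfl⟩ := he
      rw [Finset.mem_erase] at hv
      obtain ⟨hvr, hpv⟩ := hX v hv.2 hv.1
      refine ⟨(T.adj v hvr).symm, fun w hw => ?_⟩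
      rcases Sym2.mem_iff.mp hw with rfl | rfl
      · exact hpv
      · exact hv.2
  have h1 := Finset.card_le_card hsub
  rw [Finset.card_insert_of_notMem hnot, hFc] at h1
  have h2 : 0 < X.card := Finset.card_pos.mpr ⟨t, ht⟩
  omega

lemma exists_NT_inside (X : Finset V) (hr : r ∈ X) (hX : X.card ≤ (inside G X).card) :
    ∃ a b, T.NT a b ∧ a ∈ X ∧ b ∈ X := by
  classical
  by_contra hcon
  push Not at hcon
  set F : Finset (Sym2 V) := (X.erase r).image (fun v => s(T.par v, v)) with hF
  have hsub : inside G X ⊆ F := by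
    intro e he
    rw [inside, Finset.mem_filter, mem_edgeFinset] at he
    rcases T.edge_cases he.1 with ⟨v, hv, rfl⟩ | ⟨a, b, hab, rfl⟩
    · rw [hF, Finset.mem_image]
      exact ⟨v, Finset.mem_erase.mpr ⟨hv, he.2 v (Sym2.mem_mk_right _ _)⟩, rfl⟩
    · exact absurd (he.2 b (Sym2.mem_mk_right _ _)) (hcon a b hab (he.2 a (Sym2.mem_mk_left _ _)))
  have h1 := Finset.card_le_card hsub
  have h2 : F.card ≤ (X.erase r).card := Finset.card_image_le
  rw [Finset.card_erase_of_mem hr] at h2
  have h3 : 0 < X.card := Finset.card_pos.mpr ⟨r, hr⟩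
  omega

/-- the counting lemma for nontree edges -/
lemma exists_ntE : ∃ E : Finset (Sym2 V), (∀ e, e ∈ E ↔ ∃ a b, T.NT a b ∧ e = s(a, b)) ∧
    E.card + (Fintype.card V - 1) = G.edgeFinset.card := by
  classical
  set F : Finset (Sym2 V) := (Finset.univ.erase r).image (fun v => s(T.par v, v)) with hF
  have hFc : F.card = Fintype.card V - 1 := by
    rw [hF, Finset.card_image_of_injOn, Finset.card_erase_of_mem (Finset.mem_univ r),
      Finset.card_univ]
    intro v hv w hw hvw
    have hv' := Finset.mem_erase.mp (Finset.mem_coe.mp hv)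
    have hw' := Finset.mem_erase.mp (Finset.mem_coe.mp hw)
    exact T.tree_edge_inj v w hv'.1 hw'.1 hvw
  have hFsub : F ⊆ G.edgeFinset := by
    intro e he
    rw [hF, Finset.mem_image] at he
    obtain ⟨v, hv, rfl⟩ := he
    rw [mem_edgeFinset]
    exact (T.adj v (Finset.mem_erase.mp hv).1).symm
  refine ⟨G.edgeFinset \ F, ?_, ?_⟩
  · intro e
    rw [Finset.mem_sdiff, mem_edgeFinset]
    constructor
    · rintro ⟨he, hn⟩
      rcases T.edge_cases he with ⟨v, hv, rfl⟩ | h
      · exfalso
        apply hn
        rw [hF, Finset.mem_image]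
        exact ⟨v, Finset.mem_erase.mpr ⟨hv, Finset.mem_univ _⟩, rfl⟩
      · exact h
    · rintro ⟨a, b, hab, rfl⟩
      refine ⟨hab.1, ?_⟩
      intro h
      rw [hF, Finset.mem_image] at h
      obtain ⟨v, _, hv⟩ := h
      exact T.tree_edge_not_NT hab hv.symm
  · rw [Finset.card_sdiff_of_subset hFsub, hFc]
    have := Finset.card_le_card hFsub
    omega

lemma exists_NF (E : Finset (Sym2 V)) (hE : ∀ e, e ∈ E ↔ ∃ a b, T.NT a b ∧ e = s(a, b)) :
    ∃ A : Finset V, (∀ v, v ∈ A ↔ T.N v) ∧ A.card ≤ 2 * E.card ∧
      (¬ T.Dis → A.card + 1 ≤ 2 * E.card) := by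
  classical
  have hcard : ∀ e ∈ E, (Finset.univ.filter (fun v => v ∈ e)).card ≤ 2 := by
    intro e he
    obtain ⟨a, b, hab, rfl⟩ := (hE e).mp he
    have : Finset.univ.filter (fun v => v ∈ s(a, b)) ⊆ {a, b} := by
      intro v hv
      rw [Finset.mem_filter] at hv
      rcases Sym2.mem_iff.mp hv.2 with h | h
      · simp [h]
      · simp [h]
    exact (Finset.card_le_card this).trans Finset.card_le_two
  refine ⟨Finset.univ.filter (fun v => T.N v), by simp, ?_, ?_⟩
  · have hsub : Finset.univ.filter (fun v => T.N v) ⊆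
        E.biUnion (fun e => Finset.univ.filter (fun v => v ∈ e)) := by
      intro v hv
      rw [Finset.mem_filter] at hv
      obtain ⟨b, hb⟩ := hv.2
      rw [Finset.mem_biUnion]
      exact ⟨s(v, b), (hE _).mpr ⟨v, b, hb, rfl⟩, by simp⟩
    refine (Finset.card_le_card hsub).trans ?_
    refine (Finset.card_biUnion_le_card_mul _ _ 2 hcard).trans ?_
    omega
  · intro hnd
    unfold Dis at hnd
    push Not at hnd
    obtain ⟨a, b, c, hab, hac, hbc⟩ := hnd
    set E' := E.erase s(a, c) with hE'
    have hmem : s(a, c) ∈ E := (hE _).mpr ⟨a, c, hac, rfl⟩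
    have hsub : Finset.univ.filter (fun v => T.N v) ⊆
        insert c (E'.biUnion (fun e => Finset.univ.filter (fun v => v ∈ e))) := by
      intro v hv
      rw [Finset.mem_filter] at hv
      obtain ⟨d, hd⟩ := hv.2
      rw [Finset.mem_insert, Finset.mem_biUnion]
      by_cases hvc : v = c
      · exact Or.inl hvc
      right
      by_cases h : s(v, d) = s(a, c)
      · refine ⟨s(a, b), Finset.mem_erase.mpr ⟨?_, (hE _).mpr ⟨a, b, hab, rfl⟩⟩, ?_⟩
        · intro h'
          rw [Sym2.eq_iff] at h'
          rcases h' with ⟨_, h'⟩ | ⟨h', _⟩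
          · exact hbc h'
          · exact hac.1.ne h'
        · have : v ∈ s(a, c) := by
            rw [← h]
            simp
          rcases Sym2.mem_iff.mp this with h' | h'
          · simp [h']
          · exact absurd h' hvc
      · exact ⟨s(v, d), Finset.mem_erase.mpr ⟨h, (hE _).mpr ⟨v, d, hd, rfl⟩⟩, by simp⟩
    have h1 := Finset.card_le_card hsub
    have h2 := Finset.card_insert_le c
      (E'.biUnion (fun e => Finset.univ.filter (fun v => v ∈ e)))
    have h3 := Finset.card_biUnion_le_card_mul E'
      (fun e => Finset.univ.filter (fun v => v ∈ e)) 2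
      (fun e he => hcard e (Finset.mem_of_mem_erase he))
    have h4 : E'.card = E.card - 1 := Finset.card_erase_of_mem hmem
    have h5 : 0 < E.card := Finset.card_pos.mpr ⟨_, hmem⟩
    omega

lemma exists_deep (E : Finset (Sym2 V)) (hE : ∀ e, e ∈ E ↔ ∃ a b, T.NT a b ∧ e = s(a, b))
    (hc : 0 < E.card) : ∃ x y, T.Deep x y := by
  classical
  obtain ⟨e, he⟩ := Finset.card_pos.mp hc
  obtain ⟨a, b, hab, _⟩ := (hE e).mp he
  have hne : (Finset.univ.filter (fun v => T.N v)).Nonempty := ⟨a, by simpa using hab.N⟩
  obtain ⟨y, hy, hmax⟩ := Finset.exists_max_image _ (fun v => G.dist r v) hne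
  have hyN : T.N y := by simpa using hy
  obtain ⟨x, hxy⟩ := hyN
  refine ⟨x, y, hxy.symm, hmax x (by simpa using hxy.symm.N), ?_⟩
  intro w hw
  exact hmax w (by simpa using hw)

lemma exists_second (E : Finset (Sym2 V)) (hE : ∀ e, e ∈ E ↔ ∃ a b, T.NT a b ∧ e = s(a, b))
    (hc : 2 ≤ E.card) (hdis : T.Dis) {x y : V} (hxy : T.NT x y) :
    ∃ a b, T.NT a b ∧ a ≠ x ∧ a ≠ y ∧ b ≠ x ∧ b ≠ y := by
  classical
  obtain ⟨e, he, hne⟩ := Finset.exists_mem_ne (by omega : 1 < E.card) s(x, y)
  obtain ⟨a, b, hab, rfl⟩ := (hE e).mp he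
  refine ⟨a, b, hab, ?_, ?_, ?_, ?_⟩
  · rintro rfl
    have := hdis a b y hab hxy
    subst this
    exact hne rfl
  · rintro rfl
    have := hdis a b x hab hxy.symm
    subst this
    exact hne Sym2.eq_swap
  · rintro rfl
    have := hdis b a y hab.symm hxy
    subst this
    exact hne Sym2.eq_swap
  · rintro rfl
    have := hdis b a x hab.symm hxy.symm
    subst this
    exact hne rfl

end BT

/-! ### legs -/

/-- the set of leaves joined to `v` by a path with inner vertices of degree two -/
def Legs (G : SimpleGraph V) [DecidableRel G.Adj] (v : V) : Set V :=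
  {u : V | G.degree u = 1 ∧ ∃ p : G.Walk v u, p.IsPath ∧
    ∀ w ∈ p.support, w ≠ v → w ≠ u → G.degree w = 2}

variable (G) in
lemma exists_legset : ∃ S : Finset V,
    S.card ≤ ∑ v ∈ Finset.univ.filter (fun v => 3 ≤ G.degree v), ((Legs G v).ncard - 1) ∧
    (∀ v, 3 ≤ G.degree v → ∀ u ∈ Legs G v, ∀ u' ∈ Legs G v, u ≠ u' → u ∈ S ∨ u' ∈ S) := by
  classical
  have h : ∀ v, ∃ A : Finset V, A.card ≤ (Legs G v).ncard - 1 ∧
      (∀ u ∈ Legs G v, ∀ u' ∈ Legs G v, u ≠ u' → u ∈ A ∨ u' ∈ A) := by
    intro v
    by_cases hne : ∃ u, u ∈ Legs G v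
    · obtain ⟨o, ho⟩ := hne
      refine ⟨(Legs G v).toFinset.erase o, ?_, ?_⟩
      · rw [Finset.card_erase_of_mem (by simpa using ho), Set.ncard_eq_toFinset_card']
      · intro u hu u' hu' huu
        by_cases huo : u = o
        · right
          rw [Finset.mem_erase]
          exact ⟨by rw [← huo]; exact huu.symm, by simpa using hu'⟩
        · left
          rw [Finset.mem_erase]
          exact ⟨huo, by simpa using hu⟩
    · refine ⟨∅, by simp, ?_⟩
      intro u hu
      exact absurd ⟨u, hu⟩ hne
  choose A hA1 hA2 using h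
  refine ⟨(Finset.univ.filter (fun v => 3 ≤ G.degree v)).biUnion A, ?_, ?_⟩
  · refine Finset.card_biUnion_le.trans ?_
    exact Finset.sum_le_sum (fun v _ => hA1 v)
  · intro v hv u hu u' hu' huu
    rcases hA2 v u hu u' hu' huu with h | h
    · left
      rw [Finset.mem_biUnion]
      exact ⟨v, by simpa using hv, h⟩
    · right
      rw [Finset.mem_biUnion]
      exact ⟨v, by simpa using hv, h⟩

namespace BT

variable {r : V} (T : BT G r)

lemma leaf_path (hG : G.Connected) (M : ℕ) (hM : ∀ v, G.dist r v ≤ M) :
    ∀ (n : ℕ) (k : V), M - G.dist r k = n → k ≠ r → T.Pend k →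
      (∀ w, T.anc k w → ∀ c1 c2, c1 ≠ r → c2 ≠ r → T.par c1 = w → T.par c2 = w → c1 = c2) →
      ∃ l, T.anc k l ∧ G.degree l = 1 ∧ ∃ p : G.Walk (T.par k) l,
        ∀ w ∈ p.support, w ≠ T.par k → w ≠ l → G.degree w = 2 := by
  intro n
  induction n using Nat.strong_induction_on with
  | _ n ih =>
    intro k hn hkr hp huniq
    have hadj := T.adj k hkr
    have hnb : ∀ b, G.Adj k b → b = T.par k ∨ T.par b = k := by
      intro b hb
      by_contra hcon
      push Not at hcon
      exact hp k (T.anc_refl k) ⟨b, hb, fun h => hcon.1 h.symm, hcon.2⟩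
    by_cases hch : ∃ c, c ≠ r ∧ T.par c = k
    · obtain ⟨c, hcr, hck⟩ := hch
      have hlc := T.lev c hcr
      rw [hck] at hlc
      have hMc := hM c
      have hanc : ∀ w, T.anc c w → T.anc k w := fun w hw =>
        T.anc_trans ⟨1, hck⟩ hw
      obtain ⟨l, hl1, hl2, p, hp'⟩ := ih (M - G.dist r c) (by omega) c rfl hcr
        (fun w hw => hp w (hanc w hw)) (fun w hw => huniq w (hanc w hw))
      refine ⟨l, hanc l hl1, hl2, Walk.cons hadj.symm (p.copy hck rfl), ?_⟩
      intro w hw hw1 hw2
      rw [Walk.support_cons, List.mem_cons, Walk.support_copy] at hw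
      rcases hw with hw | hw
      · exact absurd hw hw1
      · by_cases hwk : w = k
        · -- degree two
          have hdeg : G.neighborFinset k = {T.par k, c} := by
            ext b
            rw [mem_neighborFinset, Finset.mem_insert, Finset.mem_singleton]
            constructor
            · intro hb
              rcases hnb b hb with h | h
              · exact Or.inl h
              · right
                have hbr : b ≠ r := by
                  rintro rfl
                  rw [T.par_root] at h
                  exact hkr h.symm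
                exact huniq k (T.anc_refl k) b c hbr hcr h hck
            · rintro (rfl | rfl)
              · exact hadj
              · rw [← hck]
                exact (T.adj b hcr).symm
          have hne : T.par k ≠ c := by
            intro h
            have := T.lev k hkr
            rw [h] at this
            omega
          rw [hwk, ← card_neighborFinset_eq_degree, hdeg, Finset.card_pair hne]
        · exact hp' w hw (by rw [hck]; exact hwk) hw2
    · push Not at hch
      have hdeg : G.neighborFinset k = {T.par k} := by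
        ext b
        rw [mem_neighborFinset, Finset.mem_singleton]
        constructor
        · intro hb
          rcases hnb b hb with h | h
          · exact h
          · exfalso
            have hbr : b ≠ r := by
              rintro rfl
              rw [T.par_root] at h
              exact hkr h.symm
            exact hch b hbr h
        · rintro rfl
          exact hadj
      refine ⟨k, T.anc_refl k, ?_, Walk.cons hadj.symm Walk.nil, ?_⟩
      · rw [← card_neighborFinset_eq_degree, hdeg, Finset.card_singleton]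
      · intro w hw hw1 hw2
        rw [Walk.support_cons, List.mem_cons, Walk.support_nil, List.mem_singleton] at hw
        rcases hw with hw | hw
        · exact absurd hw hw1
        · exact absurd hw hw2

lemma exists_child (hG : G.Connected) {a : V} :
    ∀ (n : ℕ) (w : V), G.dist r w = n → T.anc a w → a ≠ w →
      ∃ c, c ≠ r ∧ T.par c = a ∧ T.anc c w := by
  intro n
  induction n using Nat.strong_induction_on with
  | _ n ih =>
    intro w hn hanc hne
    have hwr : w ≠ r := by
      rintro rfl
      exact hne (T.eq_root_of_anc_root hG hanc)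
    by_cases h : T.par w = a
    · exact ⟨w, hwr, h, T.anc_refl w⟩
    · have h1 := T.lev w hwr
      obtain ⟨c, hc1, hc2, hc3⟩ := ih (G.dist r (T.par w)) (by omega) (T.par w) rfl
        (T.anc_par_of_ne hanc hne) (Ne.symm h)
      exact ⟨c, hc1, hc2, T.anc_of_anc_par hc3⟩

lemma legset_PP (hG : G.Connected) (hex : ∃ w, T.N w) (S : Finset V)
    (hS : ∀ v, 3 ≤ G.degree v → ∀ u ∈ Legs G v, ∀ u' ∈ Legs G v, u ≠ u' → u ∈ S ∨ u' ∈ S) :
    T.PP (S : Set V) := by
  classical
  obtain ⟨M, hM⟩ : ∃ M, ∀ v, G.dist r v ≤ M :=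
    ⟨Finset.univ.sup (fun v => G.dist r v), fun v => Finset.le_sup (f := fun v => G.dist r v)
      (Finset.mem_univ v)⟩
  have key : ∀ (n : ℕ) (k1 k2 : V), M - G.dist r k1 = n → k1 ≠ k2 → k1 ≠ r → k2 ≠ r →
      T.par k1 = T.par k2 → T.Pend k1 → T.Pend k2 →
      (∀ s ∈ S, ¬ T.anc k1 s ∧ ¬ T.anc k2 s) → False := by
    intro n
    induction n using Nat.strong_induction_on with
    | _ n ih =>
      intro k1 k2 hn hne h1r h2r hpar hp1 hp2 hSn
      have hl1 := T.lev k1 h1r
      have hl2 := T.lev k2 h2r
      rw [← hpar] at hl2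
      have huniq : ∀ k, (k = k1 ∨ k = k2) → ∀ w, T.anc k w → ∀ c1 c2, c1 ≠ r → c2 ≠ r →
          T.par c1 = w → T.par c2 = w → c1 = c2 := by
        intro k hk w hw c1 c2 hc1 hc2 hw1 hw2
        by_contra hcc
        have hpk : T.Pend k := by
          rcases hk with rfl | rfl
          · exact hp1
          · exact hp2
        have hSk : ∀ s ∈ S, ¬ T.anc k s := by
          rcases hk with rfl | rfl
          · exact fun s hs => (hSn s hs).1
          · exact fun s hs => (hSn s hs).2
        have hkl : G.dist r k = G.dist r k1 := by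
          rcases hk with rfl | rfl
          · rfl
          · omega
        have hc1k : T.anc k c1 := T.anc_trans hw ⟨1, hw1⟩
        have hc2k : T.anc k c2 := T.anc_trans hw ⟨1, hw2⟩
        have hlc := T.lev c1 hc1
        rw [hw1] at hlc
        have hlw := T.anc_lev_le hG hw
        have hMc := hM c1
        refine ih (M - G.dist r c1) (by omega) c1 c2 rfl hcc hc1 hc2 (by rw [hw1, hw2]) ?_ ?_ ?_
        · exact fun w' hw' => hpk w' (T.anc_trans hc1k hw')
        · exact fun w' hw' => hpk w' (T.anc_trans hc2k hw')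
        · exact fun s hs => ⟨fun h => hSk s hs (T.anc_trans hc1k h),
            fun h => hSk s hs (T.anc_trans hc2k h)⟩
      obtain ⟨l1, ha1, hd1, p1, hw1⟩ := T.leaf_path hG M hM _ k1 rfl h1r hp1
        (huniq k1 (Or.inl rfl))
      obtain ⟨l2, ha2, hd2, p2, hw2⟩ := T.leaf_path hG M hM _ k2 rfl h2r hp2
        (huniq k2 (Or.inr rfl))
      have hll : l1 ≠ l2 := by
        rintro rfl
        exact hne (T.anc_unique hG ha1 ha2 (by omega))
      -- the attachment vertex has degree at least three
      have hdeg : 3 ≤ G.degree (T.par k1) := by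
        obtain ⟨k3, hk3a, hk31, hk32⟩ : ∃ k3, G.Adj (T.par k1) k3 ∧ k3 ≠ k1 ∧ k3 ≠ k2 := by
          by_cases har : T.par k1 = r
          · obtain ⟨w, hw⟩ := hex
            have hwr : r ≠ w := by
              rintro rfl
              exact T.not_N_root hG hw
            obtain ⟨c, hc1, hc2, hc3⟩ := T.exists_child hG _ w rfl (T.anc_root hG w) hwr
            refine ⟨c, ?_, ?_, ?_⟩
            · rw [har, ← hc2]
              exact (T.adj c hc1).symm
            · rintro rfl
              exact hp1 w hc3 hw
            · rintro rfl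
              exact hp2 w hc3 hw
          · have hlp := T.lev (T.par k1) har
            refine ⟨T.par (T.par k1), T.adj _ har, ?_, ?_⟩
            · intro h
              rw [h] at hlp
              omega
            · intro h
              rw [h] at hlp
              omega
        have hsub : ({k1, k2, k3} : Finset V) ⊆ G.neighborFinset (T.par k1) := by
          intro b hb
          rw [mem_neighborFinset]
          rw [Finset.mem_insert, Finset.mem_insert, Finset.mem_singleton] at hb
          rcases hb with rfl | rfl | rfl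
          · exact (T.adj b h1r).symm
          · rw [hpar]
            exact (T.adj b h2r).symm
          · exact hk3a
        have := Finset.card_le_card hsub
        rw [card_neighborFinset_eq_degree] at this
        have h3 : ({k1, k2, k3} : Finset V).card = 3 := by
          rw [Finset.card_eq_three]
          exact ⟨k1, k2, k3, hne, hk31.symm, hk32.symm, rfl⟩
        omega
      have hm1 : l1 ∈ Legs G (T.par k1) := by
        refine ⟨hd1, p1.bypass, p1.bypass_isPath, ?_⟩
        intro w hw h1 h2
        exact hw1 w (p1.support_bypass_subset hw) h1 h2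
      have hm2 : l2 ∈ Legs G (T.par k1) := by
        rw [hpar]
        refine ⟨hd2, p2.bypass, p2.bypass_isPath, ?_⟩
        intro w hw h1 h2
        exact hw2 w (p2.support_bypass_subset hw) h1 h2
      rcases hS (T.par k1) hdeg l1 hm1 l2 hm2 hll with h | h
      · exact (hSn l1 h).1 ha1
      · exact (hSn l2 h).2 ha2
  intro k1 k2 h1 h2 h3 h4 h5 h6
  by_contra hcon
  push Not at hcon
  exact key _ k1 k2 rfl h1 h2 h3 h4 h5 h6 (fun s hs => hcon s hs)

end BT

end Pool.Agent.Lib_helper31.MD
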