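import Pool.Agent.Lib_helper31.MDVert

set_option autoImplicit false

namespace Pool.Agent.Lib_helper31.MD

open SimpleGraph

variable {V : Type*} {G : SimpleGraph V}

namespace BT

variable {r : V} (T : BT G r)

lemma anc_of_noUp (hG : G.Connected) {v s : V} (h : ∀ w, T.anc v w → ¬ T.Up w)
    (hm : T.mb v s) : T.anc v s := by
  by_contra hn
  obtain ⟨w, w', hw, _, hNT, hl, _⟩ := T.exit_mono hG hm hn
  exact h w hw ⟨w', hNT, hl⟩

section hor

variable {x y : V} (hG : G.Connected) (hD : T.Deep x y) (hdis : T.Dis) (hβ : T.NB x y)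
  (S : Set V) (hr : r ∈ S) (hN : ∀ w, T.N w → w ≠ x → w ∈ S)
  (hh : G.dist r y = G.dist r x)
  (hnb : ∀ k, T.KK x k → ¬ T.KK x (T.par k) → ¬ T.mb (T.par k) y)

include hD hdis hN hh in
lemma hor_Up {w : V} (hw : T.Up w) : w ∈ S := by
  obtain ⟨w', hNT, hlw⟩ := hw
  apply hN w hNT.N
  rintro rfl
  have := hdis w w' y hNT hD.nt
  subst this
  omega

include hG hD hdis hN hh in
lemma hor_half {u v s : V} (huv : u ≠ v) (hl : G.dist r u = G.dist r v)
    (heq : ∀ s ∈ S, T.mb u s ↔ T.mb v s) (hs : s ∈ S) : ¬ T.anc u s := by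
  intro hanc
  have hUp : ∀ w w', T.NT w w' → G.dist r w' = G.dist r w + 1 →
      w ∈ S ∨ (∀ t, T.mb w' t → ¬ T.Up t) :=
    fun w w' h1 h2 => Or.inl (T.hor_Up hD hdis S hN hh ⟨w', h1, h2⟩)
  obtain ⟨z, z', hz, hNT, hlz, hmz, hzS⟩ := T.Q2 hG S hUp huv hl heq hs hanc
  exact hzS (T.hor_Up hD hdis S hN hh ⟨z', hNT, hlz⟩)

include hG hD hdis hN hh in
lemma hor_none {u v : V} (huv : u ≠ v) (hl : G.dist r u = G.dist r v)
    (heq : ∀ s ∈ S, T.mb u s ↔ T.mb v s) : ∀ s ∈ S, ¬ T.anc u s ∧ ¬ T.anc v s :=
  fun s hs => ⟨T.hor_half hG hD hdis S hN hh huv hl heq hs,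
    T.hor_half hG hD hdis S hN hh huv.symm hl.symm (fun s hs => (heq s hs).symm) hs⟩

include hG hD hr hN hh in
lemma hor_aux {u v : V} (hl : G.dist r u = G.dist r v)
    (hS : ∀ s ∈ S, ¬ T.anc v s) (hux : T.anc u x) (hvx : ¬ T.anc v x)
    (heq : ∀ s ∈ S, G.dist u s = G.dist v s) : False := by
  have hxy : x ≠ y := hD.nt.1.ne
  have hyS : y ∈ S := hN y hD.nt.N' hxy.symm
  have hpv : T.Pend v := by
    intro w hw hNw
    by_cases hwx : w = x
    · subst hwx
      exact hvx hw
    · exact hS w (hN w hNw hwx) hw
  have hvr : v ≠ r := by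
    rintro rfl
    exact hS _ hr (T.anc_refl _)
  have h1 := T.anc_dist hG hux
  have h2 : G.dist u y ≤ G.dist u x + G.dist x y := hG.dist_triangle
  have h3 : G.dist x y = 1 := dist_eq_one_iff_adj.mpr hD.nt.1
  have h4 := T.pend_dist hG hpv (hS y hyS)
  have h5 : G.dist r y ≤ G.dist r (T.par v) + G.dist (T.par v) y := hG.dist_triangle
  have h6 := T.lev v hvr
  have h7 := heq y hyS
  omega

include hG hD hdis hr hN hh in
lemma hor_vertex (hP : T.PP S) : ∀ u v, ¬ Unres G S u v := by
  apply T.vertex_core hG S hr hP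
  intro u v hU
  have hl := Unres.lev hr hU
  have hnone := T.hor_none hG hD hdis S hN hh hU.1 hl (Unres.mb_iff T hr hU)
  have hux : ¬ T.anc u x := by
    intro hux
    have hvx : ¬ T.anc v x := fun h => hU.1 (T.anc_unique hG hux h hl)
    exact T.hor_aux hG hD S hr hN hh hl (fun s hs => (hnone s hs).2) hux hvx hU.2
  have hvx : ¬ T.anc v x := by
    intro hvx
    exact T.hor_aux hG hD S hr hN hh hl.symm (fun s hs => (hnone s hs).1) hvx hux
      (fun s hs => (hU.2 s hs).symm)
  refine ⟨?_, ?_, hnone⟩
  · intro w hw hNw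
    by_cases hwx : w = x
    · subst hwx
      exact hux hw
    · exact (hnone w (hN w hNw hwx)).1 hw
  · intro w hw hNw
    by_cases hwx : w = x
    · subst hwx
      exact hvx hw
    · exact (hnone w (hN w hNw hwx)).2 hw

include hG hdis hD in
lemma exit_KK {u s : V} (hu : T.KK x u) (hs : ¬ T.anc u s) :
    G.dist u s = G.dist (T.par u) s + 1 ∨ G.dist u s = G.dist u x + 1 + G.dist y s := by
  obtain ⟨w, w', hw, hw', hadj, hd⟩ := exit_geod' hG (fun z => T.anc u z) (T.anc_refl u) hs
  by_cases hNT : T.NT w w'
  · have h1 := hu.2 w hw hNT.N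
    subst h1
    have := hdis w w' y hNT hD.nt
    subst this
    right
    exact hd
  · have htree : T.par w = w' ∨ T.par w' = w := by
      by_contra hcon
      push Not at hcon
      exact hNT ⟨hadj, hcon.1, hcon.2⟩
    rcases htree with h | h
    · have hyw : u = w := by
        by_contra hne
        apply hw'
        rw [← h]
        exact T.anc_par_of_ne hw hne
      subst hyw
      left
      rw [SimpleGraph.dist_self] at hd
      rw [h]
      omega
    · exact absurd (T.anc_of_anc_par (by rw [h]; exact hw)) hw'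

include hG hD hdis hβ hr hN hh hnb in
lemma hor_H3 {u v : V} (hur : u ≠ r) (hvr : v ≠ r)
    (hl : G.dist r u = G.dist r v)
    (hSu : ∀ s ∈ S, ¬ T.anc u s)
    (hSv : ∀ s ∈ S, ¬ T.anc v s) (hux : T.anc u x) (hvx : ¬ T.anc v x)
    (heq : ∀ s ∈ S, eD G s(T.par u, u) s = eD G s(T.par v, v) s) : False := by
  have hxy : x ≠ y := hD.nt.1.ne
  have hyS : y ∈ S := hN y hD.nt.N' hxy.symm
  have hKu : T.KK x u := by
    refine ⟨hux, fun w hw hNw => ?_⟩
    by_contra hwx
    exact hSu w (hN w hNw hwx) hw
  have hpv : T.Pend v := by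
    intro w hw hNw
    by_cases hwx : w = x
    · subst hwx
      exact hvx hw
    · exact hSv w (hN w hNw hwx) hw
  have hlu := T.lev u hur
  have hlv := T.lev v hvr
  have hxu := T.anc_dist hG hux
  have hxy1 : G.dist x y = 1 := dist_eq_one_iff_adj.mpr hD.nt.1
  -- the distances of the leg edge
  have hf : ∀ s ∈ S, G.dist (T.par v) s = min (G.dist (T.par u) s) (G.dist u s) := by
    intro s hs
    have h1 := T.pend_dist hG hpv (hSv s hs)
    have h2 := heq s hs
    rw [eD_mk, eD_mk] at h2
    omega
  have hmy : T.mb (T.par v) y := by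
    have h1 := hf y hyS
    have h2 : G.dist u y ≤ G.dist u x + G.dist x y := hG.dist_triangle
    have h3 : G.dist r y ≤ G.dist r (T.par v) + G.dist (T.par v) y := hG.dist_triangle
    unfold mb
    omega
  by_cases hpp : T.par v = T.par u
  · rw [hpp] at hmy
    by_cases hK : T.KK x (T.par u)
    · have h1 : ∀ w, T.anc (T.par u) w → ¬ T.Up w := by
        rintro w hw ⟨w', hNT, hlw⟩
        have h2 := hK.2 w hw hNT.N
        subst h2
        have := hdis w w' y hNT hD.nt
        subst this
        omega
      have h2 := T.anc_of_noUp hG h1 hmy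
      exact hxy (hK.2 y h2 hD.nt.N').symm
    · exact hnb u hKu hK hmy
  · have hlp : G.dist r (T.par v) = G.dist r (T.par u) := by omega
    have hmb : ∀ s ∈ S, T.mb (T.par v) s → T.mb (T.par u) s ∨ T.mb y s := by
      intro s hs hm
      have h1 := hf s hs
      have h2 := T.exit_KK hG hD hdis hKu (hSu s hs)
      have h3 : G.dist r s ≤ G.dist r (T.par u) + G.dist (T.par u) s := hG.dist_triangle
      have h4 : G.dist r s ≤ G.dist r y + G.dist y s := hG.dist_triangle
      unfold mb at *
      omega
    have hmb' : ∀ s ∈ S, T.mb (T.par u) s → T.mb (T.par v) s := by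
      intro s hs hm
      have h1 := hf s hs
      have h3 : G.dist r s ≤ G.dist r (T.par v) + G.dist (T.par v) s := hG.dist_triangle
      unfold mb at *
      omega
    have hUpS : ∀ w, T.Up w → w ∈ S := fun w hw => T.hor_Up hD hdis S hN hh hw
    have hmbU : ∀ w ∈ {w | T.Up w}, T.mb (T.par v) w ↔ T.mb (T.par u) w := by
      intro w hw
      constructor
      · intro hm
        rcases hmb w (hUpS w hw) hm with h | h
        · exact h
        · exact absurd hw (hD.not_up T (T.mb_lev h))
      · exact hmb' w (hUpS w hw)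
    have hUpU : ∀ w w', T.NT w w' → G.dist r w' = G.dist r w + 1 →
        w ∈ {w | T.Up w} ∨ (∀ t, T.mb w' t → ¬ T.Up t) := by
      intro w w' h1 h2
      left
      exact ⟨w', h1, h2⟩
    have hno1 : ∀ w, T.anc (T.par v) w → ¬ T.Up w := fun w hw hup =>
      T.Q1 hG _ hUpU _ _ _ w rfl hpp hlp hmbU hup hw hup
    have hno2 : ∀ w, T.anc (T.par u) w → ¬ T.Up w := fun w hw hup =>
      T.Q1 hG _ hUpU _ _ _ w rfl (Ne.symm hpp) hlp.symm (fun s hs => (hmbU s hs).symm) hup hw hup
    have hSp : ∀ s ∈ S, ¬ T.anc (T.par u) s := by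
      intro s hs h
      have h1 := hmb' s hs (T.mb_of_anc hG h)
      have h2 := T.anc_of_noUp hG hno1 h1
      exact hpp (T.anc_unique hG h2 h hlp)
    have hpx : T.anc (T.par u) x := T.anc_trans (T.anc_par_self u) hux
    have hKv : T.KK y (T.par v) := by
      refine ⟨T.anc_of_noUp hG hno1 hmy, fun w hw hNw => ?_⟩
      have hwx : w ≠ x := by
        rintro rfl
        exact hpp (T.anc_unique hG hw hpx hlp)
      have hwS := hN w hNw hwx
      rcases hmb w hwS (T.mb_of_anc hG hw) with h | h
      · exact absurd (T.anc_of_noUp hG hno2 h) (hSp w hwS)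
      · have h1 := hD.anc_of_mb T hG h
        have h2 := T.anc_lev_le hG h1
        have h3 := hD.deep w hNw
        exact (T.eq_of_anc_of_lev hG h1 (by omega)).symm
    obtain ⟨k, k', s, hkr, hkr', hk, hk', hkv, hku, hs, hks, hks', hne⟩ :=
      T.mirror_data hG hD hdis hβ S hr hN hKu hKv
    have h1 := T.K_upper hG (s := s) (Or.inl hkv)
    have h2 := T.K_upper hG (s := s) (Or.inl hku)
    have h3 := T.K_lower hG hD.nt hdis hk hk' hkr hkr' hks hks' (Or.inl hkv)
    have h4 := T.K_lower hG hD.nt.symm hdis hk' hk hkr' hkr hks' hks (Or.inl hku)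
    have g1 := T.K_upper hG (s := s) (T.anc_par_or hkv)
    have g3 := T.K_lower hG hD.nt hdis hk hk' hkr hkr' hks hks' (T.anc_par_or hkv)
    have h5 := hf s hs
    omega

include hG hD hdis hβ hr hN hh hnb in
lemma hor_edge (hP : T.PP S) (hz : ∀ z, z ≠ r → T.par z = y → ∃ s ∈ S, T.anc z s) :
    EdgeRes G S := by
  have hxy : x ≠ y := hD.nt.1.ne
  have hyS : y ∈ S := hN y hD.nt.N' hxy.symm
  apply T.edge_core hG S s(x, y)
  · intro a b hab hne
    constructor
    · apply hN a hab.N
      rintro rfl
      have := hdis a b y hab hD.nt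
      subst this
      exact hne rfl
    · apply hN b hab.N'
      rintro rfl
      have := hdis b a y hab.symm hD.nt
      subst this
      exact hne Sym2.eq_swap
  · intro a b ha hb hab heq
    have hl := T.TT_lev ha hb (heq r hr)
    have hmb : ∀ s ∈ S, T.mb a s ↔ T.mb b s := by
      intro s hs
      rw [T.TT_mb hG ha, T.TT_mb hG hb, hl, heq s hs]
    have hnone := T.hor_none hG hD hdis S hN hh hab hl hmb
    by_cases hax : T.anc a x
    · have hbx : ¬ T.anc b x := fun h => hab (T.anc_unique hG hax h hl)
      exact T.hor_H3 hG hD hdis hβ S hr hN hh hnb ha hb hl (fun s hs => (hnone s hs).1)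
        (fun s hs => (hnone s hs).2) hax hbx heq
    by_cases hbx : T.anc b x
    · exact T.hor_H3 hG hD hdis hβ S hr hN hh hnb hb ha hl.symm (fun s hs => (hnone s hs).2)
        (fun s hs => (hnone s hs).1) hbx hax (fun s hs => (heq s hs).symm)
    have h1 : T.Pend a := by
      intro w hw hNw
      by_cases hwx : w = x
      · subst hwx
        exact hax hw
      · exact (hnone w (hN w hNw hwx)).1 hw
    have h2 : T.Pend b := by
      intro w hw hNw
      by_cases hwx : w = x
      · subst hwx
        exact hbx hw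
      · exact (hnone w (hN w hNw hwx)).2 hw
    exact T.hor_vertex hG hD hdis S hr hN hh hP a b (T.TT_pend hG S hab h1 h2 hnone heq)
  · intro _ z hzr hne heq
    have hyf : y ∈ s(T.par z, z) := by
      apply mem_of_eD_eq_zero hG
      rw [← heq y hyS]
      simp
    have hlz := T.lev z hzr
    have hr1 := heq r hr
    rw [eD_mk, eD_mk, G.dist_comm (u := T.par z), G.dist_comm (u := x), G.dist_comm (u := y),
      G.dist_comm (u := z)] at hr1
    have hyz : y = T.par z := by
      rcases Sym2.mem_iff.mp hyf with h | h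
      · exact h
      · exfalso
        rw [← h] at hr1 hlz
        omega
    obtain ⟨s, hs, hzs⟩ := hz z hzr hyz.symm
    have h1 := heq s hs
    rw [eD_mk, eD_mk] at h1
    have h2 := T.anc_dist hG hzs
    have h3 : G.dist r s ≤ G.dist r x + G.dist x s := hG.dist_triangle
    have h4 : G.dist r s ≤ G.dist r y + G.dist y s := hG.dist_triangle
    rw [← hyz] at hlz
    omega

/-- replacing the landmark `par z` by `z` -/
lemma repl_edge (hG : G.Connected) (S : Set V) (hr : r ∈ S) {z : V} (hz : T.Pend z)
    (hzr : z ≠ r) (hzS : z ∈ S) (hres : EdgeRes G (insert (T.par z) S)) : EdgeRes G S := by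
  intro e he f hf heq
  apply hres e he f hf
  intro s hs
  rcases hs with rfl | hs
  swap
  · exact heq s hs
  have hlz := T.lev z hzr
  -- classification of an edge
  have hcl : ∀ e ∈ G.edgeSet,
      (eD G e z = eD G e (T.par z) + 1) ∨
      (eD G e r = G.dist r (T.par z) + eD G e (T.par z) ∧ eD G e z ≤ eD G e (T.par z)) := by
    intro e he
    induction e with
    | _ a b =>
      have hab : G.Adj a b := by simpa using he
      have hout : ∀ a, ¬ T.anc z a → G.dist a z = G.dist a (T.par z) + 1 := by
        intro a ha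
        have := T.pend_dist hG hz ha
        rw [G.dist_comm, this, G.dist_comm]
      have hin : ∀ a, T.anc z a → G.dist a r = G.dist r (T.par z) + G.dist a (T.par z) ∧
          G.dist a z + 1 = G.dist a (T.par z) := by
        intro a ha
        have h1 := T.anc_dist hG ha
        have h2 := T.anc_dist hG (T.anc_trans (T.anc_par_self z) ha)
        rw [G.dist_comm (u := a) (v := r), G.dist_comm (u := a), G.dist_comm (u := a)]
        omega
      have htouch : ∀ a b, G.Adj a b → T.anc z a → ¬ T.anc z b → a = z ∧ b = T.par z := by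
        intro a b hab ha hb
        have hnN := hz a ha
        have htree : T.par a = b ∨ T.par b = a := by
          by_contra hcon
          push Not at hcon
          exact hnN ⟨b, hab, hcon.1, hcon.2⟩
        rcases htree with h | h
        · have haz : a = z := by
            by_contra hne
            apply hb
            rw [← h]
            exact T.anc_par_of_ne ha (Ne.symm hne)
          exact ⟨haz, by rw [← h, haz]⟩
        · exact absurd (T.anc_of_anc_par (by rw [h]; exact ha)) hb
      rw [eD_mk, eD_mk, eD_mk]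
      by_cases ha : T.anc z a
      · by_cases hb : T.anc z b
        · right
          have h1 := hin a ha
          have h2 := hin b hb
          omega
        · right
          obtain ⟨rfl, rfl⟩ := htouch a b hab ha hb
          have h1 := hin a ha
          rw [SimpleGraph.dist_self, SimpleGraph.dist_self,
            G.dist_comm (u := T.par a) (v := r)]
          omega
      · by_cases hb : T.anc z b
        · right
          obtain ⟨rfl, rfl⟩ := htouch b a hab.symm hb ha
          have h1 := hin b hb
          rw [SimpleGraph.dist_self, SimpleGraph.dist_self,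
            G.dist_comm (u := T.par b) (v := r)]
          omega
        · left
          have h1 := hout a ha
          have h2 := hout b hb
          omega
  have htri : ∀ e : Sym2 V, eD G e r ≤ G.dist r (T.par z) + eD G e (T.par z) := by
    intro e
    induction e with
    | _ a b =>
      rw [eD_mk, eD_mk]
      have h1 : G.dist a r ≤ G.dist a (T.par z) + G.dist (T.par z) r := hG.dist_triangle
      have h2 : G.dist b r ≤ G.dist b (T.par z) + G.dist (T.par z) r := hG.dist_triangle
      rw [G.dist_comm (u := T.par z) (v := r)] at h1 h2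
      omega
  have h1 := hcl e he
  have h2 := hcl f hf
  have h3 := htri e
  have h4 := htri f
  have h5 := heq r hr
  have h6 := heq z hzS
  omega

include hG hD in
lemma beta_mb (hh : G.dist r y = G.dist r x) {k k' : V} (hk : T.KK x k) (hk' : T.KK y k')
    (hkr' : k' ≠ r) (hm : T.mb (T.par k) y) (hdis : T.Dis) : T.mb (T.par k) (T.par k') := by
  have hxy : x ≠ y := hD.nt.1.ne
  have hax : T.anc (T.par k) x := T.anc_trans (T.anc_par_self k) hk.1
  have h1 : ¬ T.anc k' (T.par k) := fun h =>
    hxy (hk'.2 x (T.anc_trans h hax) hD.nt.N)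
  obtain ⟨z, z', hz, hz', hadj, hd⟩ :=
    exit_geod' hG (fun z => ¬ T.anc k' z) h1 (fun h => h hk'.1)
  have hz'' : T.anc k' z' := by
    by_contra h
    exact hz' h
  have hlk := T.lev k' hkr'
  have hky := T.anc_dist hG hk'.1
  by_cases hNT : T.NT z z'
  · exfalso
    have h2 := hk'.2 z' hz'' hNT.N'
    subst h2
    have := hdis z' z x hNT.symm hD.nt.symm
    subst this
    rw [SimpleGraph.dist_self] at hd
    have h3 : G.dist r z ≤ G.dist r (T.par k) + G.dist (T.par k) z := hG.dist_triangle
    unfold mb at hm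
    omega
  · have htree : T.par z = z' ∨ T.par z' = z := by
      by_contra hcon
      push Not at hcon
      exact hNT ⟨hadj, hcon.1, hcon.2⟩
    rcases htree with h | h
    · exact absurd (T.anc_of_anc_par (by rw [h]; exact hz'')) hz
    · have hzk : z' = k' := by
        by_contra hne
        apply hz
        rw [← h]
        exact T.anc_par_of_ne hz'' (Ne.symm hne)
      subst hzk
      rw [h]
      rw [h] at hlk
      have h3 : G.dist r z ≤ G.dist r (T.par k) + G.dist (T.par k) z := hG.dist_triangle
      unfold mb at hm ⊢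
      omega

end hor

end BT

end Pool.Agent.Lib_helper31.MD
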