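import Pool.Agent.Lib_helper31.MDCount

set_option autoImplicit false

namespace Pool.Agent.Lib_helper31.MD

open SimpleGraph

variable {V : Type*} {G : SimpleGraph V} [Fintype V] [DecidableEq V] [DecidableRel G.Adj]

namespace BT

variable {r : V} (T : BT G r)

omit [Fintype V] [DecidableEq V] [DecidableRel G.Adj] in
lemma Deep.symm {x y : V} (hD : T.Deep x y) (hh : G.dist r y = G.dist r x) : T.Deep y x :=
  ⟨hD.nt.symm, hh.le, fun w hw => (hD.deep w hw).trans hh.le⟩

omit [Fintype V] [DecidableEq V] [DecidableRel G.Adj] in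
lemma NB.symm {x y : V} (h : T.NB x y) : T.NB y x :=
  fun k k' h1 h2 h3 h4 => (h k' k h3 h4 h1 h2).symm

omit [Fintype V] [DecidableEq V] [DecidableRel G.Adj] in
/-- the case of a separating attachment vertex -/
lemma D_closed {x y k k' : V} (hD : T.Deep x y) (hdis : T.Dis)
    (hk : T.KK x k) (hk' : T.KK y k') (hpar : T.par k = T.par k') :
    ∀ a b, (T.anc k a ∨ T.anc k' a) → ¬ (T.anc k b ∨ T.anc k' b) → G.Adj a b →
      b = T.par k := by
  intro z z' hz hz' hadj
  have htree : T.par z = z' ∨ T.par z' = z := by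
    by_contra hcon
    push Not at hcon
    have hNT : T.NT z z' := ⟨hadj, hcon.1, hcon.2⟩
    rcases hz with h | h
    · have h1 := hk.2 z h hNT.N
      subst h1
      have h2 := hdis z z' y hNT hD.nt
      subst h2
      exact hz' (Or.inr hk'.1)
    · have h1 := hk'.2 z h hNT.N
      subst h1
      have h2 := hdis z z' x hNT hD.nt.symm
      subst h2
      exact hz' (Or.inl hk.1)
  have hpz : T.par z = z' := by
    rcases htree with h | h
    · exact h
    · exfalso
      apply hz'
      rcases hz with h1 | h1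
      · exact Or.inl (T.anc_of_anc_par (by rw [h]; exact h1))
      · exact Or.inr (T.anc_of_anc_par (by rw [h]; exact h1))
  rcases hz with h1 | h1
  · have hzk : z = k := by
      by_contra hne'
      apply hz'
      left
      rw [← hpz]
      exact T.anc_par_of_ne h1 (Ne.symm hne')
    rw [← hpz, hzk]
  · have hzk : z = k' := by
      by_contra hne'
      apply hz'
      right
      rw [← hpz]
      exact T.anc_par_of_ne h1 (Ne.symm hne')
    rw [← hpz, hzk, hpar]

end BT

/-- the conclusion, for sets -/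
def Good (G : SimpleGraph V) (n : ℕ) : Prop :=
  (∃ S : Finset V, (∀ u v, ¬ Unres G (S : Set V) u v) ∧ S.card ≤ n) ∧
  (∃ S : Finset V, EdgeRes G (S : Set V) ∧ S.card ≤ n)

/-- the cut vertex case -/
lemma cut_case (hG : G.Connected) {r x y k k' : V} (T : BT G r) (hD : T.Deep x y)
    (hdis : T.Dis) (hk : T.KK x k) (hk' : T.KK y k') (hkr : k ≠ r) (hkr' : k' ≠ r)
    (hpar : T.par k = T.par k')
    (E : Finset (Sym2 V)) (hE : ∀ e, e ∈ E ↔ ∃ a b, T.NT a b ∧ e = s(a, b))
    (hEc : E.card + (Fintype.card V - 1) = G.edgeFinset.card)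
    (hc : 2 ≤ E.card) (L : Finset V)
    (hL : ∀ v, 3 ≤ G.degree v → ∀ u ∈ Legs G v, ∀ u' ∈ Legs G v, u ≠ u' → u ∈ L ∨ u' ∈ L) :
    Good G (L.card + 2 * E.card) := by
  classical
  set q := T.par k with hq
  obtain ⟨T'⟩ := exists_BT hG q
  obtain ⟨E', hE', hEc'⟩ := T'.exists_ntE
  have hEE : E'.card = E.card := by omega
  obtain ⟨A, hA, hAc, _⟩ := T'.exists_NF E' hE'
  set D : V → Prop := fun v => T.anc k v ∨ T.anc k' v with hDdef
  have hlk := T.lev k hkr
  have hlk' := T.lev k' hkr'
  rw [← hpar] at hlk'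
  rw [← hq] at hlk
  have hqD : ¬ D q := by
    rintro (h | h)
    · have := T.anc_lev_le hG h
      omega
    · have := T.anc_lev_le hG h
      omega
  have hcl : ∀ a b, D a → ¬ D b → G.Adj a b → b = q := T.D_closed hD hdis hk hk' hpar
  have hrD : ¬ D r := by
    rintro (h | h)
    · exact hkr (T.eq_root_of_anc_root hG h)
    · exact hkr' (T.eq_root_of_anc_root hG h)
  -- a nontree edge of T' on the D side
  obtain ⟨a1, b1, hab1, ha1, hb1⟩ : ∃ a b, T'.NT a b ∧ a ∈ Finset.univ.filter (fun v => D v ∨ v = q)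
      ∧ b ∈ Finset.univ.filter (fun v => D v ∨ v = q) := by
    apply T'.exists_NT_inside _ (by simp)
    refine T.inside_ge _ (t := q) (by simp) ?_ (a := x) (b := y)
      (by simp only [Finset.mem_filter, Finset.mem_univ, true_and]; exact Or.inl (Or.inl hk.1))
      (by simp only [Finset.mem_filter, Finset.mem_univ, true_and]; exact Or.inl (Or.inr hk'.1))
      hD.nt
    intro v hv hvq
    simp only [Finset.mem_filter, Finset.mem_univ, true_and] at hv ⊢
    have hvD : D v := hv.resolve_right hvq
    have hvr : v ≠ r := by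
      rintro rfl
      exact hrD hvD
    refine ⟨hvr, ?_⟩
    by_cases hpD : D (T.par v)
    · exact Or.inl hpD
    · exact Or.inr (hcl v (T.par v) hvD hpD (T.adj v hvr))
  obtain ⟨c1, d1, hcd1, hc1, hd1⟩ : ∃ a b, T'.NT a b ∧ a ∈ Finset.univ.filter (fun v => ¬ D v)
      ∧ b ∈ Finset.univ.filter (fun v => ¬ D v) := by
    apply T'.exists_NT_inside _
      (by simp only [Finset.mem_filter, Finset.mem_univ, true_and]; exact hqD)
    obtain ⟨a, b, hab, hax, hay, hbx, hby⟩ := T.exists_second E hE hc hdis hD.nt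
    refine T.inside_ge _ (t := r)
      (by simp only [Finset.mem_filter, Finset.mem_univ, true_and]; exact hrD)
      ?_ (a := a) (b := b) ?_ ?_ hab
    · intro v hv hvr
      simp only [Finset.mem_filter, Finset.mem_univ, true_and] at hv ⊢
      refine ⟨hvr, ?_⟩
      rintro (h | h)
      · exact hv (Or.inl (T.anc_of_anc_par h))
      · exact hv (Or.inr (T.anc_of_anc_par h))
    · simp only [Finset.mem_filter, Finset.mem_univ, true_and]
      rintro (h | h)
      · exact hax (hk.2 a h hab.N)
      · exact hay (hk'.2 a h hab.N)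
    · simp only [Finset.mem_filter, Finset.mem_univ, true_and]
      rintro (h | h)
      · exact hbx (hk.2 b h hab.N')
      · exact hby (hk'.2 b h hab.N')
  simp only [Finset.mem_filter, Finset.mem_univ, true_and] at ha1 hc1
  have ha1q : a1 ≠ q := by
    rintro rfl
    exact T'.not_N_root hG hab1.N
  have ha1D : D a1 := ha1.resolve_right ha1q
  have hP : T'.PP (L : Set V) := T'.legset_PP hG ⟨a1, hab1.N⟩ L hL
  have hins : (insert q ((A ∪ L : Finset V) : Set V)) = ((insert q (A ∪ L) : Finset V) : Set V) := by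
    simp
  have hr' : q ∈ insert q ((A ∪ L : Finset V) : Set V) := Set.mem_insert _ _
  have hN' : ∀ w, T'.N w → w ∈ insert q ((A ∪ L : Finset V) : Set V) := by
    intro w hw
    right
    simp [(hA w).mpr hw]
  have hP' : T'.PP (insert q ((A ∪ L : Finset V) : Set V)) := by
    apply hP.mono
    intro w hw
    right
    simp only [Finset.coe_union, Set.mem_union, Finset.mem_coe]
    exact Or.inr hw
  have hs1 : a1 ∈ ((A ∪ L : Finset V) : Set V) := by
    simp [(hA a1).mpr hab1.N]
  have hs2 : c1 ∈ ((A ∪ L : Finset V) : Set V) := by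
    simp [(hA c1).mpr hcd1.N]
  have hcard : (A ∪ L).card ≤ L.card + 2 * E.card := by
    have := Finset.card_union_le A L
    omega
  refine ⟨⟨A ∪ L, ?_, hcard⟩, ⟨A ∪ L, ?_, hcard⟩⟩
  · exact DR_vertex hG D hqD hcl _ (T'.S0_vertex hG _ hr' hN' hP') hs1 ha1D hs2 hc1
  · exact DR_edge hG D hqD hcl _ (T'.S0_edge hG _ hr' hN' hP') hs1 ha1D hs2 hc1

/-- the horizontal case, oriented -/
lemma hor_case (hG : G.Connected) {r x y : V} (T : BT G r) (hD : T.Deep x y)
    (hdis : T.Dis) (hβ : T.NB x y) (hh : G.dist r y = G.dist r x)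
    (hnb : ∀ k, T.KK x k → ¬ T.KK x (T.par k) → ¬ T.mb (T.par k) y)
    (A : Finset V) (hA : ∀ v, v ∈ A ↔ T.N v) (c : ℕ) (hAc : A.card ≤ 2 * c)
    (L : Finset V) (hP : T.PP (L : Set V)) :
    Good G (L.card + 2 * c) := by
  classical
  have hxA : x ∈ A := (hA x).mpr hD.nt.N
  have hyA : y ∈ A := (hA y).mpr hD.nt.N'
  have hxy : x ≠ y := hD.nt.1.ne
  have hApos : 2 ≤ A.card := by
    have : ({x, y} : Finset V) ⊆ A := by
      intro v hv
      rw [Finset.mem_insert, Finset.mem_singleton] at hv
      rcases hv with rfl | rfl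
      · exact hxA
      · exact hyA
    have h1 := Finset.card_le_card this
    rwa [Finset.card_pair hxy] at h1
  set S : Finset V := insert r (A.erase x ∪ L) with hS
  have hcard : S.card ≤ L.card + 2 * c := by
    have h1 := Finset.card_insert_le r (A.erase x ∪ L)
    rw [← hS] at h1
    have h2 := Finset.card_union_le (A.erase x) L
    have h3 := Finset.card_erase_of_mem hxA
    omega
  have hr : r ∈ (S : Set V) := by simp [hS]
  have hN : ∀ w, T.N w → w ≠ x → w ∈ (S : Set V) := by
    intro w hw hwx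
    simp [hS, (hA w).mpr hw, hwx]
  have hPS : T.PP (S : Set V) := by
    apply hP.mono
    intro w hw
    have : w ∈ L := hw
    simp [hS, this]
  refine ⟨⟨S, T.hor_vertex hG hD hdis _ hr hN hh hPS, hcard⟩, ?_⟩
  by_cases hz : ∀ z, z ≠ r → T.par z = y → ∃ s ∈ (S : Set V), T.anc z s
  · exact ⟨S, T.hor_edge hG hD hdis hβ _ hr hN hh hnb hPS hz, hcard⟩
  · push Not at hz
    obtain ⟨z, hzr, hzy, hzS⟩ := hz
    have hlz := T.lev z hzr
    rw [hzy] at hlz
    have hpend : ∀ z', z' ≠ r → T.par z' = y → (∀ s ∈ (S : Set V), ¬ T.anc z' s) →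
        T.Pend z' := by
      intro z' hzr' hzy' hzS' w hw hNw
      by_cases hwx : w = x
      · subst hwx
        have h1 := T.anc_lev_le hG hw
        have h2 := T.lev z' hzr'
        rw [hzy'] at h2
        omega
      · exact hzS' w (hN w hNw hwx) hw
    set S' : Finset V := insert r (insert z (((A.erase x).erase y) ∪ L)) with hS'
    have hyex : y ∈ A.erase x := Finset.mem_erase.mpr ⟨hxy.symm, hyA⟩
    have hcard' : S'.card ≤ L.card + 2 * c := by
      have h1 := Finset.card_insert_le r (insert z (((A.erase x).erase y) ∪ L))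
      rw [← hS'] at h1
      have h4 := Finset.card_insert_le z (((A.erase x).erase y) ∪ L)
      have h2 := Finset.card_union_le ((A.erase x).erase y) L
      have h3 := Finset.card_erase_of_mem hxA
      have h5 := Finset.card_erase_of_mem hyex
      omega
    refine ⟨S', ?_, hcard'⟩
    have hzS' : z ∈ (S' : Set V) := by simp [hS']
    have hsub : (S : Set V) ⊆ insert (T.par z) (S' : Set V) := by
      intro w hw
      rw [hzy]
      by_cases hwy : w = y
      · exact Or.inl hwy
      · right
        have : w = r ∨ (w ∈ A ∧ w ≠ x) ∨ w ∈ L := by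
          simpa [hS] using hw
        rcases this with h | ⟨h2, h1⟩ | h
        · simp [hS', h]
        · simp [hS', h1, h2, hwy]
        · simp [hS', h]
    apply T.repl_edge hG (S' : Set V) (by simp [hS']) (hpend z hzr hzy hzS) hzr hzS'
    apply T.hor_edge hG hD hdis hβ _ (hsub hr) (fun w h1 h2 => hsub (hN w h1 h2)) hh hnb
      (hPS.mono T hsub)
    intro z' hzr' hzy'
    by_cases hzz : z' = z
    · exact ⟨z, Or.inr hzS', by rw [hzz]; exact T.anc_refl z⟩
    · by_contra hcon
      push Not at hcon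
      have hcon' : ∀ s ∈ (S : Set V), ¬ T.anc z' s := fun s hs => hcon s (hsub hs)
      obtain ⟨s, hs, h | h⟩ := hPS z z' (Ne.symm hzz) hzr hzr' (by rw [hzy, hzy'])
        (hpend z hzr hzy hzS) (hpend z' hzr' hzy' hcon')
      · exact hzS s hs h
      · exact hcon' s hs h

theorem good (hG : G.Connected) (hc : Fintype.card V + 1 ≤ G.edgeFinset.card) (L : Finset V)
    (hL : ∀ v, 3 ≤ G.degree v → ∀ u ∈ Legs G v, ∀ u' ∈ Legs G v, u ≠ u' → u ∈ L ∨ u' ∈ L) :
    Good G (L.card + 2 * (G.edgeFinset.card + 1 - Fintype.card V)) := by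
  classical
  obtain ⟨r⟩ := hG.nonempty
  obtain ⟨T⟩ := exists_BT hG r
  obtain ⟨E, hE, hEc⟩ := T.exists_ntE
  have hVpos : 0 < Fintype.card V := Fintype.card_pos_iff.mpr ⟨r⟩
  have hcE : G.edgeFinset.card + 1 - Fintype.card V = E.card := by omega
  rw [hcE]
  have hE2 : 2 ≤ E.card := by omega
  obtain ⟨A, hA, hAc, hAdis⟩ := T.exists_NF E hE
  obtain ⟨x, y, hD⟩ := T.exists_deep E hE (by omega)
  have hP : T.PP (L : Set V) := T.legset_PP hG ⟨x, hD.nt.N⟩ L hL
  by_cases hdis : T.Dis
  swap
  · -- two nontree edges with a common end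
    have hAc' := hAdis hdis
    set S : Finset V := insert r (A ∪ L) with hS
    have hcard : S.card ≤ L.card + 2 * E.card := by
      have h1 := Finset.card_insert_le r (A ∪ L)
      rw [← hS] at h1
      have h2 := Finset.card_union_le A L
      omega
    have hr : r ∈ (S : Set V) := by simp [hS]
    have hN : ∀ w, T.N w → w ∈ (S : Set V) := by
      intro w hw
      simp [hS, (hA w).mpr hw]
    have hPS : T.PP (S : Set V) := by
      apply hP.mono
      intro w hw
      have : w ∈ L := hw
      simp [hS, this]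
    exact ⟨⟨S, T.S0_vertex hG _ hr hN hPS, hcard⟩, ⟨S, T.S0_edge hG _ hr hN hPS, hcard⟩⟩
  by_cases hβ : T.NB x y
  swap
  · unfold BT.NB at hβ
    push Not at hβ
    obtain ⟨k, k', hk, hkt, hk', hkt', hpar⟩ := hβ
    have hkr : k ≠ r := by
      rintro rfl
      rw [T.par_root] at hkt
      exact hkt hk
    have hkr' : k' ≠ r := by
      rintro rfl
      rw [T.par_root] at hkt'
      exact hkt' hk'
    exact cut_case hG T hD hdis hk hk' hkr hkr' hpar E hE hEc hE2 L hL
  have hxA : x ∈ A := (hA x).mpr hD.nt.N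
  have hxy : x ≠ y := hD.nt.1.ne
  by_cases hh : G.dist r y = G.dist r x
  · by_cases hnb : ∀ k, T.KK x k → ¬ T.KK x (T.par k) → ¬ T.mb (T.par k) y
    · exact hor_case hG T hD hdis hβ hh hnb A hA E.card hAc L hP
    · push Not at hnb
      obtain ⟨k, hk, hkt, hm⟩ := hnb
      refine hor_case hG T (hD.symm T hh) hdis (hβ.symm T) hh.symm ?_ A hA E.card hAc L hP
      intro k' hk' hkt' hm'
      have hkr : k ≠ r := by
        rintro rfl
        rw [T.par_root] at hkt
        exact hkt hk
      have hkr' : k' ≠ r := by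
        rintro rfl
        rw [T.par_root] at hkt'
        exact hkt' hk'
      have h1 := T.beta_mb hG hD hh hk hk' hkr' hm hdis
      have h2 := T.beta_mb hG (hD.symm T hh) hh.symm hk' hk hkr hm' hdis
      have h3 : G.dist (T.par k) (T.par k') = 0 := by
        unfold BT.mb at h1 h2
        omega
      rw [hG.dist_eq_zero_iff] at h3
      exact hβ k k' hk hkt hk' hkt' h3
  · have hv : G.dist r y = G.dist r x + 1 := by
      have h1 := hD.le
      have h2 : G.dist r y ≤ G.dist r x + 1 := lev_adj hG hD.nt.1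
      omega
    set S : Finset V := insert r (A.erase x ∪ L) with hS
    have hcard : S.card ≤ L.card + 2 * E.card := by
      have h1 := Finset.card_insert_le r (A.erase x ∪ L)
      rw [← hS] at h1
      have h2 := Finset.card_union_le (A.erase x) L
      have h3 := Finset.card_erase_of_mem hxA
      have h4 : 0 < A.card := Finset.card_pos.mpr ⟨x, hxA⟩
      omega
    have hr : r ∈ (S : Set V) := by simp [hS]
    have hN : ∀ w, T.N w → w ≠ x → w ∈ (S : Set V) := by
      intro w hw hwx
      simp [hS, (hA w).mpr hw, hwx]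
    have hPS : T.PP (S : Set V) := by
      apply hP.mono
      intro w hw
      have : w ∈ L := hw
      simp [hS, this]
    exact ⟨⟨S, T.vert_vertex hG hD hdis hβ _ hr hN hv hPS, hcard⟩,
      ⟨S, T.vert_edge hG hD hdis hβ _ hr hN hv hPS, hcard⟩⟩

end Pool.Agent.Lib_helper31.MD
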