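import Pool.Agent.Lib_helper31.MDCore

set_option autoImplicit false

namespace Pool.Agent.Lib_helper31.MD

open SimpleGraph

variable {V : Type*} {G : SimpleGraph V}

namespace BT

variable {r : V} (T : BT G r)

/-- `v` is an ancestor of `x` and `x` is the only end of a nontree edge below `v` -/
def KK (x v : V) : Prop := T.anc v x ∧ ∀ w, T.anc v w → T.N w → w = x

/-- each vertex is in at most one nontree edge -/
def Dis : Prop := ∀ a b c, T.NT a b → T.NT a c → b = c

lemma exists_top (hG : G.Connected) {x y : V} (hyx : y ≠ x) (hy : T.N y) :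
    ∀ (n : ℕ) (v : V), G.dist r v = n → T.KK x v →
      ∃ k, T.KK x k ∧ ¬ T.KK x (T.par k) ∧ k ≠ r ∧ T.anc k v := by
  intro n
  induction n using Nat.strong_induction_on with
  | _ n ih =>
    intro v hn hv
    have hvr : v ≠ r := by
      rintro rfl
      exact hyx (hv.2 y (T.anc_root hG y) hy)
    by_cases h : T.KK x (T.par v)
    · have h1 := T.lev v hvr
      obtain ⟨k, hk1, hk2, hk3, hk4⟩ := ih (G.dist r (T.par v)) (by omega) (T.par v) rfl h
      exact ⟨k, hk1, hk2, hk3, T.anc_of_anc_par hk4⟩
    · exact ⟨v, hv, h, hvr, T.anc_refl v⟩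

lemma top_anc {x k v : V} (hk : T.KK x k) (hk' : ¬ T.KK x (T.par k)) (hv : T.KK x v) :
    T.anc k v := by
  rcases T.anc_comparable hk.1 hv.1 with h | h
  · exact h
  · by_cases hkv : v = k
    · subst hkv
      exact T.anc_refl _
    · exfalso
      apply hk'
      have h1 := T.anc_par_of_ne h hkv
      exact ⟨T.anc_trans (T.anc_par_self k) hk.1, fun w hw hNw => hv.2 w (T.anc_trans h1 hw) hNw⟩

lemma KK_disj {x y k k' w : V} (hxy : x ≠ y) (hx : T.N x) (hy : T.N y) (hk : T.KK x k)
    (hk' : T.KK y k') (h1 : T.anc k w) (h2 : T.anc k' w) : False := by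
  rcases T.anc_comparable h1 h2 with h | h
  · exact hxy (hk.2 y (T.anc_trans h hk'.1) hy).symm
  · exact hxy (hk'.2 x (T.anc_trans h hk.1) hx)

lemma K_upper (hG : G.Connected) {k w s : V} (hw : T.anc k w ∨ w = T.par k) :
    G.dist w s + G.dist r (T.par k) ≤ G.dist r w + G.dist (T.par k) s := by
  have h1 : T.anc (T.par k) w := by
    rcases hw with h | rfl
    · exact T.anc_trans (T.anc_par_self k) h
    · exact T.anc_refl _
  have h2 := T.anc_dist hG h1
  have h3 : G.dist w s ≤ G.dist w (T.par k) + G.dist (T.par k) s := hG.dist_triangle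
  rw [G.dist_comm (u := w) (v := T.par k)] at h3
  omega

lemma K_lower (hG : G.Connected) {x y k k' w s : V} (hxy : T.NT x y) (hdis : T.Dis)
    (hk : T.KK x k) (hk' : T.KK y k') (hkr : k ≠ r) (hkr' : k' ≠ r)
    (hs : ¬ T.anc k s) (hs' : ¬ T.anc k' s) (hw : T.anc k w ∨ w = T.par k) :
    G.dist r w + G.dist (T.par k) s ≤ G.dist w s + G.dist r (T.par k) ∨
    1 + G.dist r y + G.dist (T.par k') s ≤ G.dist w s + G.dist r (T.par k') := by
  rcases hw with hw | rfl
  swap
  · left
    omega
  have hlk := T.lev k hkr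
  have hlk' := T.lev k' hkr'
  have hNx : T.N x := hxy.N
  have hNy : T.N y := hxy.N'
  have hne : x ≠ y := hxy.1.ne
  obtain ⟨z, z', hz, hz', hadj, hd⟩ :=
    exit_geod' hG (fun z => T.anc k z ∨ T.anc k' z) (Or.inl hw) (by
      rintro (h | h)
      · exact hs h
      · exact hs' h)
  have htree : T.par z = z' ∨ T.par z' = z := by
    by_contra hcon
    push Not at hcon
    have hNT : T.NT z z' := ⟨hadj, hcon.1, hcon.2⟩
    rcases hz with h | h
    · have h1 := hk.2 z h hNT.N
      subst h1
      have h2 := hdis z z' y hNT hxy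
      subst h2
      exact hz' (Or.inr hk'.1)
    · have h1 := hk'.2 z h hNT.N
      subst h1
      have h2 := hdis z z' x hNT hxy.symm
      subst h2
      exact hz' (Or.inl hk.1)
  have hpz : T.par z = z' := by
    rcases htree with h | h
    · exact h
    · exfalso
      apply hz'
      rcases hz with h1 | h1
      · exact Or.inl (T.anc_of_anc_par (by rw [h]; exact h1))
      · exact Or.inr (T.anc_of_anc_par (by rw [h]; exact h1))
  have hzk : z = k ∨ z = k' := by
    rcases hz with h1 | h1
    · left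
      by_contra hne'
      apply hz'
      left
      rw [← hpz]
      exact T.anc_par_of_ne h1 (Ne.symm hne')
    · right
      by_contra hne'
      apply hz'
      right
      rw [← hpz]
      exact T.anc_par_of_ne h1 (Ne.symm hne')
  have hwk := T.anc_dist hG hw
  rw [G.dist_comm (u := k) (v := w)] at hwk
  rcases hzk with rfl | rfl
  · left
    rw [hpz]
    rw [hpz] at hlk
    omega
  · -- exit from the subtree of k
    have hkk' : ¬ T.anc k z := fun h => T.KK_disj hne hNx hNy hk hk' h (T.anc_refl z)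
    obtain ⟨c, c', hc, hc', hadj2, hd2⟩ := exit_geod' hG (fun z => T.anc k z) hw hkk'
    by_cases hNT2 : T.NT c c'
    · right
      have h1 := hk.2 c hc hNT2.N
      subst h1
      have h2 := hdis c c' y hNT2 hxy
      subst h2
      have h3 := T.anc_dist hG hk'.1
      rw [G.dist_comm (u := z)] at h3
      rw [hpz]
      rw [hpz] at hlk'
      omega
    · left
      have htree2 : T.par c = c' ∨ T.par c' = c := by
        by_contra hcon
        push Not at hcon
        exact hNT2 ⟨hadj2, hcon.1, hcon.2⟩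
      have hpc : T.par c = c' := by
        rcases htree2 with h | h
        · exact h
        · exact absurd (T.anc_of_anc_par (by rw [h]; exact hc)) hc'
      have hck : c = k := by
        by_contra hne'
        apply hc'
        rw [← hpc]
        exact T.anc_par_of_ne hc (Ne.symm hne')
      subst hck
      rw [hpc]
      rw [hpc] at hlk
      have h4 : G.dist c' s ≤ G.dist c' z + G.dist z s := hG.dist_triangle
      have h5 : G.dist z s ≤ G.dist z z' + G.dist z' s := hG.dist_triangle
      have h6 : G.dist z z' = 1 := dist_eq_one_iff_adj.mpr hadj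
      omega

/-- deepest nontree edge `x y` with `y` the lower end -/
structure Deep (x y : V) : Prop where
  nt : T.NT x y
  le : G.dist r x ≤ G.dist r y
  deep : ∀ w, T.N w → G.dist r w ≤ G.dist r y

lemma Deep.not_up {x y : V} (h : T.Deep x y) {t : V} (ht : G.dist r y ≤ G.dist r t) : ¬ T.Up t := by
  rintro ⟨b, hb, hlb⟩
  have := h.deep b hb.N'
  omega

lemma Deep.anc_of_mb (hG : G.Connected) {x y s : V} (h : T.Deep x y) (hm : T.mb y s) :
    T.anc y s := by
  by_contra hn
  obtain ⟨w, w', hw, _, hNT, hl, _⟩ := T.exit_mono hG hm hn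
  have h1 := T.anc_lev_le hG hw
  exact h.not_up T h1 ⟨w', hNT, hl⟩

lemma top_meets {x y k k' : V} (hxy : x ≠ y) (hx : T.N x) (hy : T.N y)
    (hG : G.Connected) (hk : T.KK x k) (hkt : ¬ T.KK x (T.par k))
    (hk' : T.KK y k') (hkt' : ¬ T.KK y (T.par k')) (hβ : T.par k ≠ T.par k') :
    ∃ s, (s = r ∨ T.N s) ∧ s ≠ x ∧ s ≠ y ∧ T.anc (T.par k) s := by
  by_contra hcon
  push Not at hcon
  have hrx : r ≠ x := by
    rintro rfl
    exact T.not_N_root hG hx
  have hry : r ≠ y := by
    rintro rfl
    exact T.not_N_root hG hy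
  have hN : ∀ w, T.anc (T.par k) w → T.N w → w = x ∨ w = y := by
    intro w hw hNw
    by_contra h
    push Not at h
    exact hcon w (Or.inr hNw) h.1 h.2 hw
  have hax : T.anc (T.par k) x := T.anc_trans (T.anc_par_self k) hk.1
  have hay : T.anc (T.par k) y := by
    by_contra h
    apply hkt
    refine ⟨hax, fun w hw hNw => ?_⟩
    rcases hN w hw hNw with h1 | h1
    · exact h1
    · rw [h1] at hw
      exact absurd hw h
  have h1 : T.anc (T.par k) k' := by
    rcases T.anc_comparable hay hk'.1 with h | h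
    · exact h
    · exact absurd (hk'.2 x (T.anc_trans h hax) hx) hxy
  have hne1 : T.par k ≠ k' := by
    intro h
    rw [h] at hax
    exact hxy (hk'.2 x hax hx)
  have h2 : T.anc (T.par k) (T.par k') := T.anc_par_of_ne h1 hne1
  have hay' : T.anc (T.par k') y := T.anc_trans (T.anc_par_self k') hk'.1
  have hax' : T.anc (T.par k') x := by
    by_contra h
    apply hkt'
    refine ⟨hay', fun w hw hNw => ?_⟩
    rcases hN w (T.anc_trans h2 hw) hNw with h1 | h1
    · rw [h1] at hw
      exact absurd hw h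
    · exact h1
  have h3 : T.anc (T.par k') k := by
    rcases T.anc_comparable hax' hk.1 with h | h
    · exact h
    · exact absurd (hk.2 y (T.anc_trans h hay') hy).symm hxy
  have hne2 : T.par k' ≠ k := by
    intro h
    rw [h] at hay'
    exact hxy (hk.2 y hay' hy).symm
  have h4 : T.anc (T.par k') (T.par k) := T.anc_par_of_ne h3 hne2
  exact hβ (T.anc_antisymm hG h2 h4)

lemma exists_asym (hG : G.Connected) {x y k k' : V} (hD : T.Deep x y) (hdis : T.Dis)
    (hk : T.KK x k) (hkt : ¬ T.KK x (T.par k))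
    (hk' : T.KK y k') (hkt' : ¬ T.KK y (T.par k')) (hβ : T.par k ≠ T.par k') :
    ∃ s, (s = r ∨ T.N s) ∧ s ≠ x ∧ s ≠ y ∧
      G.dist (T.par k) s + G.dist r (T.par k') ≠ G.dist (T.par k') s + G.dist r (T.par k) := by
  by_contra hcon
  push Not at hcon
  have hxy : x ≠ y := hD.nt.1.ne
  have hNx : T.N x := hD.nt.N
  have hNy : T.N y := hD.nt.N'
  obtain ⟨s1, hs1, hs1x, hs1y, hs1a⟩ := T.top_meets hxy hNx hNy hG hk hkt hk' hkt' hβ
  obtain ⟨s2, hs2, hs2y, hs2x, hs2a⟩ := T.top_meets hxy.symm hNy hNx hG hk' hkt' hk hkt hβ.symm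
  have e1 := hcon s1 hs1 hs1x hs1y
  have e2 := hcon s2 hs2 hs2x hs2y
  have d1 := T.anc_dist hG hs1a
  have d2 := T.anc_dist hG hs2a
  have t1 : G.dist r s1 ≤ G.dist r (T.par k') + G.dist (T.par k') s1 := hG.dist_triangle
  have t2 : G.dist r s2 ≤ G.dist r (T.par k) + G.dist (T.par k) s2 := hG.dist_triangle
  have hl : G.dist r (T.par k) = G.dist r (T.par k') := by omega
  set S : Set V := {s | (s = r ∨ T.N s) ∧ s ≠ x ∧ s ≠ y} with hS
  have hmb : ∀ s ∈ S, T.mb (T.par k) s ↔ T.mb (T.par k') s := by
    intro s hs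
    have e := hcon s hs.1 hs.2.1 hs.2.2
    unfold mb
    omega
  have hUp : ∀ w w', T.NT w w' → G.dist r w' = G.dist r w + 1 →
      w ∈ S ∨ (∀ t, T.mb w' t → ¬ T.Up t) := by
    intro w w' hNT hlw
    by_cases hwx : w = x
    · right
      subst hwx
      have := hdis w w' y hNT hD.nt
      subst this
      intro t ht
      exact hD.not_up T (T.mb_lev ht)
    · by_cases hwy : w = y
      · subst hwy
        have := hD.deep w' hNT.N'
        omega
      · left
        exact ⟨Or.inr hNT.N, hwx, hwy⟩
  have hs1S : s1 ∈ S := ⟨hs1, hs1x, hs1y⟩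
  obtain ⟨z, z', _, hNT, hlz, hmz, hzS⟩ := T.Q2 hG S hUp hβ hl hmb hs1S hs1a
  have hzx : z = x := by
    by_contra hzx
    by_cases hzy : z = y
    · subst hzy
      have := hD.deep z' hNT.N'
      omega
    · exact hzS ⟨Or.inr hNT.N, hzx, hzy⟩
  subst hzx
  have := hdis z z' y hNT hD.nt
  subst this
  have ha := hD.anc_of_mb T hG hmz
  rcases hs1 with h | h
  · subst h
    have := T.eq_root_of_anc_root hG ha
    exact hs1y this.symm
  · have h1 := hD.deep s1 h
    have h2 := T.anc_lev_le hG ha
    exact hs1y (T.eq_of_anc_of_lev hG ha (by omega)).symm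

end BT

end Pool.Agent.Lib_helper31.MD
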