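import Pool.Agent.Lib_helper31.MDMirror

set_option autoImplicit false

namespace Pool.Agent.Lib_helper31.MD

open SimpleGraph

variable {V : Type*} {G : SimpleGraph V}

namespace BT

variable {r : V} (T : BT G r)

/-- the two attachment vertices are different -/
def NB (x y : V) : Prop :=
  ∀ k k', T.KK x k → ¬ T.KK x (T.par k) → T.KK y k' → ¬ T.KK y (T.par k') →
    T.par k ≠ T.par k'

lemma mirror_data (hG : G.Connected) {x y u v : V} (hD : T.Deep x y) (hdis : T.Dis)
    (hβ : T.NB x y) (S : Set V) (hr : r ∈ S) (hN : ∀ w, T.N w → w ≠ x → w ∈ S)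
    (hv : T.KK x v) (hu : T.KK y u) :
    ∃ k k' s, k ≠ r ∧ k' ≠ r ∧ T.KK x k ∧ T.KK y k' ∧ T.anc k v ∧ T.anc k' u ∧ s ∈ S ∧
      ¬ T.anc k s ∧ ¬ T.anc k' s ∧
      G.dist (T.par k) s + G.dist r (T.par k') ≠ G.dist (T.par k') s + G.dist r (T.par k) := by
  have hxy : x ≠ y := hD.nt.1.ne
  have hNx : T.N x := hD.nt.N
  have hNy : T.N y := hD.nt.N'
  obtain ⟨k, hk, hkt, hkr, hkv⟩ := T.exists_top hG hxy.symm hNy _ v rfl hv
  obtain ⟨k', hk', hkt', hkr', hku⟩ := T.exists_top hG hxy hNx _ u rfl hu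
  obtain ⟨s, hs, hsx, hsy, hne⟩ := T.exists_asym hG hD hdis hk hkt hk' hkt'
    (hβ k k' hk hkt hk' hkt')
  refine ⟨k, k', s, hkr, hkr', hk, hk', hkv, hku, ?_, ?_, ?_, hne⟩
  · rcases hs with rfl | hs
    · exact hr
    · exact hN s hs hsx
  · intro h
    rcases hs with rfl | hs
    · exact hkr (T.eq_root_of_anc_root hG h)
    · exact hsx (hk.2 s h hs)
  · intro h
    rcases hs with rfl | hs
    · exact hkr' (T.eq_root_of_anc_root hG h)
    · exact hsy (hk'.2 s h hs)

lemma anc_par_or {k v : V} (h : T.anc k v) : T.anc k (T.par v) ∨ T.par v = T.par k := by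
  by_cases hkv : k = v
  · subst hkv
    right
    rfl
  · left
    exact T.anc_par_of_ne h hkv

section vert

variable {x y : V} (hG : G.Connected) (hD : T.Deep x y) (hdis : T.Dis) (hβ : T.NB x y)
  (S : Set V) (hr : r ∈ S) (hN : ∀ w, T.N w → w ≠ x → w ∈ S)
  (hv : G.dist r y = G.dist r x + 1)

include hG hD hdis hβ hr hN in
lemma mirror_vertex {u v : V} (hKv : T.KK x v) (hKu : T.KK y u)
    (hl : G.dist r u = G.dist r v) (heq : ∀ s ∈ S, G.dist u s = G.dist v s) : False := by
  obtain ⟨k, k', s, hkr, hkr', hk, hk', hkv, hku, hs, hks, hks', hne⟩ :=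
    T.mirror_data hG hD hdis hβ S hr hN hKv hKu
  have h1 := T.K_upper hG (s := s) (Or.inl hkv)
  have h2 := T.K_upper hG (s := s) (Or.inl hku)
  have h3 := T.K_lower hG hD.nt hdis hk hk' hkr hkr' hks hks' (Or.inl hkv)
  have h4 := T.K_lower hG hD.nt.symm hdis hk' hk hkr' hkr hks' hks (Or.inl hku)
  have h5 := T.anc_lev_le hG hKv.1
  have h6 := heq s hs
  have h7 := hD.le
  omega

include hG hD hdis hβ hr hN in
lemma mirror_edge {u v : V} (hKv : T.KK x v) (hKu : T.KK y u)
    (hur : u ≠ r) (hvr : v ≠ r)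
    (hl : G.dist r u = G.dist r v)
    (heq : ∀ s ∈ S, eD G s(T.par u, u) s = eD G s(T.par v, v) s) : False := by
  obtain ⟨k, k', s, hkr, hkr', hk, hk', hkv, hku, hs, hks, hks', hne⟩ :=
    T.mirror_data hG hD hdis hβ S hr hN hKv hKu
  have h1 := T.K_upper hG (s := s) (Or.inl hkv)
  have h2 := T.K_upper hG (s := s) (Or.inl hku)
  have h3 := T.K_lower hG hD.nt hdis hk hk' hkr hkr' hks hks' (Or.inl hkv)
  have h4 := T.K_lower hG hD.nt.symm hdis hk' hk hkr' hkr hks' hks (Or.inl hku)
  have g1 := T.K_upper hG (s := s) (T.anc_par_or hkv)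
  have g2 := T.K_upper hG (s := s) (T.anc_par_or hku)
  have g3 := T.K_lower hG hD.nt hdis hk hk' hkr hkr' hks hks' (T.anc_par_or hkv)
  have g4 := T.K_lower hG hD.nt.symm hdis hk' hk hkr' hkr hks' hks (T.anc_par_or hku)
  have h5 := T.anc_lev_le hG hKv.1
  have h6 := heq s hs
  have h7 := hD.le
  have h8 := T.lev u hur
  have h9 := T.lev v hvr
  rw [eD_mk, eD_mk] at h6
  omega

include hG hD hdis hβ hr hN hv in
lemma mirror_e1 (hKx : T.KK x x) (hKu : T.KK y (T.par y))
    (heq : ∀ s ∈ S, eD G s(x, y) s = eD G s(T.par y, y) s) : False := by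
  obtain ⟨k, k', s, hkr, hkr', hk, hk', hkv, hku, hs, hks, hks', hne⟩ :=
    T.mirror_data hG hD hdis hβ S hr hN hKx hKu
  have hyr : y ≠ r := by
    rintro rfl
    exact T.not_N_root hG hD.nt.N'
  have hky : T.anc k' y := hk'.1
  have h1 := T.K_upper hG (s := s) (Or.inl hkv)
  have h2 := T.K_upper hG (s := s) (Or.inl hku)
  have h3 := T.K_lower hG hD.nt hdis hk hk' hkr hkr' hks hks' (Or.inl hkv)
  have h4 := T.K_lower hG hD.nt.symm hdis hk' hk hkr' hkr hks' hks (Or.inl hku)
  have g2 := T.K_upper hG (s := s) (Or.inl hky)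
  have g4 := T.K_lower hG hD.nt.symm hdis hk' hk hkr' hkr hks' hks (Or.inl hky)
  have h6 := heq s hs
  have h8 := T.lev y hyr
  rw [eD_mk, eD_mk] at h6
  omega

include hD hdis hN in
lemma vert_hUp : ∀ w w', T.NT w w' → G.dist r w' = G.dist r w + 1 →
      w ∈ S ∨ (∀ t, T.mb w' t → ¬ T.Up t) := by
  intro w w' hNT hlw
  by_cases hwx : w = x
  · right
    subst hwx
    have := hdis w w' y hNT hD.nt
    subst this
    intro t ht
    exact hD.not_up T (T.mb_lev ht)
  · left
    exact hN w hNT.N hwx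

include hG hD hdis hN hv in
lemma vert_half {u v s : V} (huv : u ≠ v) (hl : G.dist r u = G.dist r v)
    (heq : ∀ s ∈ S, T.mb u s ↔ T.mb v s) (hs : s ∈ S) (hanc : T.anc u s) :
    T.KK x v ∧ T.KK y u := by
  have hxy : x ≠ y := hD.nt.1.ne
  have hUp := T.vert_hUp hD hdis S hN
  -- every element of S below u is below y
  have hkey : ∀ w ∈ S, T.anc u w → T.anc v x ∧ T.mb y w := by
    intro w hw hanc
    obtain ⟨z, z', hz, hNT, hlz, hmz, hzS⟩ := T.Q2 hG S hUp huv hl heq hw hanc
    have hzx : z = x := by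
      by_contra hzx
      exact hzS (hN z hNT.N hzx)
    subst hzx
    have := hdis z z' y hNT hD.nt
    subst this
    exact ⟨hz, hmz⟩
  have hkey' : ∀ w ∈ S, T.anc v w → T.anc u x ∧ T.mb y w := by
    intro w hw hanc
    obtain ⟨z, z', hz, hNT, hlz, hmz, hzS⟩ := T.Q2 hG S hUp huv.symm hl.symm
      (fun s hs => (heq s hs).symm) hw hanc
    have hzx : z = x := by
      by_contra hzx
      exact hzS (hN z hNT.N hzx)
    subst hzx
    have := hdis z z' y hNT hD.nt
    subst this
    exact ⟨hz, hmz⟩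
  obtain ⟨hvx, hys⟩ := hkey s hs hanc
  have hux : ¬ T.anc u x := fun h => huv (T.anc_unique hG h hvx hl)
  have hyS : y ∈ S := hN y hD.nt.N' hxy.symm
  refine ⟨⟨hvx, ?_⟩, ?_, ?_⟩
  · intro w hw hNw
    by_contra hwx
    exact hux (hkey' w (hN w hNw hwx) hw).1
  · have hmxy : T.mb x y := by
      unfold mb
      rw [hv, dist_eq_one_iff_adj.mpr hD.nt.1]
    have hmvy : T.mb v y := T.mb_trans hG (T.mb_of_anc hG hvx) hmxy
    have hmuy : T.mb u y := (heq y hyS).mpr hmvy
    by_contra hn
    obtain ⟨w, w', hw, _, hNT, hlw, _⟩ := T.exit_mono hG hmuy hn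
    have hwS : w ∈ S := by
      apply hN w hNT.N
      rintro rfl
      exact hux hw
    exact T.Q1 hG S hUp _ u v w rfl huv hl heq ⟨w', hNT, hlw⟩ hw hwS
  · intro w hw hNw
    have hwx : w ≠ x := by
      rintro rfl
      exact hux hw
    have h1 := (hkey w (hN w hNw hwx) hw).2
    have h2 := hD.anc_of_mb T hG h1
    have h3 := hD.deep w hNw
    have h4 := T.anc_lev_le hG h2
    exact (T.eq_of_anc_of_lev hG h2 (by omega)).symm

include hG hD hdis hN hv in
lemma vert_step {u v : V} (huv : u ≠ v) (hl : G.dist r u = G.dist r v)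
    (heq : ∀ s ∈ S, T.mb u s ↔ T.mb v s) :
    (T.Pend u ∧ T.Pend v ∧ ∀ s ∈ S, ¬ T.anc u s ∧ ¬ T.anc v s) ∨
    (T.KK x v ∧ T.KK y u) ∨ (T.KK x u ∧ T.KK y v) := by
  have hxy : x ≠ y := hD.nt.1.ne
  have hUp := T.vert_hUp hD hdis S hN
  by_cases h1 : ∃ s ∈ S, T.anc u s
  · obtain ⟨s, hs, hanc⟩ := h1
    exact Or.inr (Or.inl (T.vert_half hG hD hdis S hN hv huv hl heq hs hanc))
  by_cases h2 : ∃ s ∈ S, T.anc v s
  · obtain ⟨s, hs, hanc⟩ := h2
    exact Or.inr (Or.inr (T.vert_half hG hD hdis S hN hv huv.symm hl.symm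
      (fun s hs => (heq s hs).symm) hs hanc))
  left
  push Not at h1 h2
  have hyS : y ∈ S := hN y hD.nt.N' hxy.symm
  have hmxy : T.mb x y := by
    unfold mb
    rw [hv, dist_eq_one_iff_adj.mpr hD.nt.1]
  have key : ∀ u v : V, u ≠ v → G.dist r u = G.dist r v → (∀ s ∈ S, T.mb u s ↔ T.mb v s) →
      (∀ s ∈ S, ¬ T.anc v s) → ¬ T.anc u x := by
    intro u v huv hl heq hv' hux
    have hmuy : T.mb u y := T.mb_trans hG (T.mb_of_anc hG hux) hmxy
    have hmvy : T.mb v y := (heq y hyS).mp hmuy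
    have hn : ¬ T.anc v y := hv' y hyS
    obtain ⟨w, w', hw, _, hNT, hlw, _⟩ := T.exit_mono hG hmvy hn
    by_cases hwx : w = x
    · subst hwx
      exact huv (T.anc_unique hG hux hw hl)
    · exact hv' w (hN w hNT.N hwx) hw
  have hux := key u v huv hl heq h2
  have hvx := key v u huv.symm hl.symm (fun s hs => (heq s hs).symm) h1
  refine ⟨?_, ?_, fun s hs => ⟨h1 s hs, h2 s hs⟩⟩
  · intro w hw hNw
    by_cases hwx : w = x
    · subst hwx
      exact hux hw
    · exact h1 w (hN w hNw hwx) hw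
  · intro w hw hNw
    by_cases hwx : w = x
    · subst hwx
      exact hvx hw
    · exact h2 w (hN w hNw hwx) hw

include hG hD hdis hβ hr hN hv in
lemma vert_vertex (hP : T.PP S) : ∀ u v, ¬ Unres G S u v := by
  apply T.vertex_core hG S hr hP
  intro u v hU
  have hl := Unres.lev hr hU
  rcases T.vert_step hG hD hdis S hN hv hU.1 hl (Unres.mb_iff T hr hU) with h | h | h
  · exact h
  · exact (T.mirror_vertex hG hD hdis hβ S hr hN h.1 h.2 hl hU.2).elim
  · exact (T.mirror_vertex hG hD hdis hβ S hr hN h.1 h.2 hl.symm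
      (fun s hs => (hU.2 s hs).symm)).elim

include hG hD hdis in
lemma exit_y {s : V} (hs : ¬ T.anc y s) :
    G.dist y s = G.dist x s + 1 ∨ G.dist y s = G.dist (T.par y) s + 1 := by
  obtain ⟨w, w', hw, hw', hadj, hd⟩ := exit_geod' hG (fun z => T.anc y z) (T.anc_refl y) hs
  by_cases hNT : T.NT w w'
  · have h1 := hD.deep w hNT.N
    have h2 := T.anc_lev_le hG hw
    have h3 := T.eq_of_anc_of_lev hG hw (by omega)
    subst h3
    have := hdis y w' x hNT hD.nt.symm
    subst this
    left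
    rw [SimpleGraph.dist_self] at hd
    omega
  · have htree : T.par w = w' ∨ T.par w' = w := by
      by_contra hcon
      push Not at hcon
      exact hNT ⟨hadj, hcon.1, hcon.2⟩
    rcases htree with h | h
    · have hyw : y = w := by
        by_contra hne
        apply hw'
        rw [← h]
        exact T.anc_par_of_ne hw hne
      subst hyw
      right
      rw [SimpleGraph.dist_self] at hd
      rw [h]
      omega
    · exact absurd (T.anc_of_anc_par (by rw [h]; exact hw)) hw'

include hG hD hdis hβ hr hN hv in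
lemma vert_edge (hP : T.PP S) : EdgeRes G S := by
  have hxy : x ≠ y := hD.nt.1.ne
  have hyS : y ∈ S := hN y hD.nt.N' hxy.symm
  have hyr : y ≠ r := by
    rintro rfl
    exact T.not_N_root hG hD.nt.N'
  have hly := T.lev y hyr
  apply T.edge_core hG S s(x, y)
  · intro a b hab hne
    constructor
    · apply hN a hab.N
      rintro rfl
      have := hdis a b y hab hD.nt
      subst this
      exact hne rfl
    · apply hN b hab.N'
      rintro rfl
      have := hdis b a y hab.symm hD.nt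
      subst this
      exact hne Sym2.eq_swap
  · intro a b ha hb hab heq
    have hl := T.TT_lev ha hb (heq r hr)
    have hmb : ∀ s ∈ S, T.mb a s ↔ T.mb b s := by
      intro s hs
      rw [T.TT_mb hG ha, T.TT_mb hG hb, hl, heq s hs]
    rcases T.vert_step hG hD hdis S hN hv hab hl hmb with ⟨h1, h2, h3⟩ | h | h
    · exact T.vert_vertex hG hD hdis hβ S hr hN hv hP a b (T.TT_pend hG S hab h1 h2 h3 heq)
    · exact T.mirror_edge hG hD hdis hβ S hr hN h.1 h.2 ha hb hl heq
    · exact T.mirror_edge hG hD hdis hβ S hr hN h.1 h.2 hb ha hl.symm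
        (fun s hs => (heq s hs).symm)
  · intro _ z hz hne heq
    have hyf : y ∈ s(T.par z, z) := by
      apply mem_of_eD_eq_zero hG
      rw [← heq y hyS]
      simp
    have hlz := T.lev z hz
    have hr1 := heq r hr
    rw [eD_mk, eD_mk, G.dist_comm (u := T.par z), G.dist_comm (u := x), G.dist_comm (u := y),
      G.dist_comm (u := z)] at hr1
    have hyz : y = z := by
      rcases Sym2.mem_iff.mp hyf with h | h
      · exfalso
        rw [← h] at hr1 hlz
        omega
      · exact h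
    subst hyz
    have hpx : T.par y ≠ x := hD.nt.2.2
    have hlp : G.dist r (T.par y) = G.dist r x := by omega
    have hmb : ∀ s ∈ S, T.mb (T.par y) s ↔ T.mb x s := by
      intro s hs
      by_cases hanc : T.anc y s
      · have h1 : T.mb y s := T.mb_of_anc hG hanc
        have h2 : T.mb x y := by
          unfold mb
          rw [hv, dist_eq_one_iff_adj.mpr hD.nt.1]
        have h3 : T.mb (T.par y) y := T.mb_of_anc hG (T.anc_par_self y)
        exact ⟨fun _ => T.mb_trans hG h2 h1, fun _ => T.mb_trans hG h3 h1⟩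
      · have h1 := T.exit_y hG hD hdis hanc
        have h2 := heq s hs
        rw [eD_mk, eD_mk] at h2
        have h3 : G.dist r s ≤ G.dist r x + G.dist x s := hG.dist_triangle
        have h4 : G.dist r s ≤ G.dist r (T.par y) + G.dist (T.par y) s := hG.dist_triangle
        unfold mb
        omega
    rcases T.vert_step hG hD hdis S hN hv hpx hlp hmb with ⟨_, h2, _⟩ | h | h
    · exact h2 x (T.anc_refl x) hD.nt.N
    · exact T.mirror_e1 hG hD hdis hβ S hr hN hv h.1 h.2 heq
    · exact hxy (h.2.2 x (T.anc_refl x) hD.nt.N)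

end vert

end BT

end Pool.Agent.Lib_helper31.MD
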