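import Pool.Agent.Lib_helper31.PLDefs

set_option autoImplicit false

namespace Pool.Agent.Lib_helper31.PL

open Finset

lemma F_add_two (a b : ℤ) (n : ℕ) : F a b (n + 2) = F a b (n + 1) + F a b n := rfl

/-- the set of periods is nonempty -/
lemma period_exists (a b : ℤ) (p : ℕ) (hp : 0 < p) :
    ∃ t : ℕ, 0 < t ∧ ∀ n : ℕ, (p : ℤ) ∣ F a b (n + t) - F a b n := by
  have : NeZero p := ⟨hp.ne'⟩
  let e : Equiv.Perm (ZMod p × ZMod p) :=
    { toFun := fun x => (x.2, x.1 + x.2)
      invFun := fun x => (x.2 - x.1, x.1)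
      left_inv := fun x => by simp
      right_inv := fun x => by simp }
  have hiter : ∀ n : ℕ, (e ^ n) ((F a b 0 : ZMod p), (F a b 1 : ZMod p)) =
      ((F a b n : ZMod p), (F a b (n + 1) : ZMod p)) := by
    intro n
    induction n with
    | zero => simp
    | succ n ih =>
      rw [pow_succ', Equiv.Perm.mul_apply, ih]
      show ((F a b (n + 1) : ZMod p), (F a b n : ZMod p) + (F a b (n + 1) : ZMod p)) = _
      refine Prod.ext rfl ?_
      show (F a b n : ZMod p) + (F a b (n + 1) : ZMod p) = ((F a b (n + 1) + F a b n : ℤ) : ZMod p)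
      push_cast
      ring
  refine ⟨orderOf e, orderOf_pos e, fun n => ?_⟩
  have h1 := hiter (n + orderOf e)
  rw [pow_add, pow_orderOf_eq_one, mul_one, hiter n] at h1
  have h2 : (F a b n : ZMod p) = (F a b (n + orderOf e) : ZMod p) := congrArg Prod.fst h1
  rw [← ZMod.intCast_zmod_eq_zero_iff_dvd]
  push_cast
  rw [← h2, sub_self]

lemma pisano_spec (a b : ℤ) (p : ℕ) (hp : 0 < p) :
    0 < pisano a b p ∧ ∀ n : ℕ, (p : ℤ) ∣ F a b (n + pisano a b p) - F a b n :=
  Nat.sInf_mem (period_exists a b p hp)

lemma periodic_leg (a b : ℤ) (p : ℕ) [hp : Fact p.Prime] :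
    Function.Periodic (fun n => legendreSym p (F a b n)) (pisano a b p) := by
  intro n
  have h1 := (pisano_spec a b p hp.out.pos).2 n
  have h2 : (F a b (n + pisano a b p) : ZMod p) = (F a b n : ZMod p) := by
    rw [← ZMod.intCast_zmod_eq_zero_iff_dvd] at h1
    push_cast at h1
    exact sub_eq_zero.mp h1
  simp only [legendreSym]
  rw [h2]

/-- counting over a shifted period -/
lemma card_shift (a b : ℤ) (p : ℕ) [hp : Fact p.Prime] (m : ℕ) (i : ℤ) :
    ((range (pisano a b p)).filter (fun n => legendreSym p (F a b (n + m)) = i)).card =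
      N a b p i := by
  have hper : Function.Periodic (fun n => legendreSym p (F a b n) = i) (pisano a b p) := by
    intro n
    show (legendreSym p (F a b (n + pisano a b p)) = i) = (legendreSym p (F a b n) = i)
    have := periodic_leg a b p n
    simp only at this
    rw [this]
  have h1 := Nat.filter_Ico_card_eq_of_periodic m (pisano a b p)
    (fun n => legendreSym p (F a b n) = i) hper
  rw [Nat.count_eq_card_filter_range] at h1
  rw [N, ← h1]
  apply card_bij (fun n _ => n + m)
  · intro n hn
    rw [mem_filter, mem_range] at hn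
    rw [mem_filter, mem_Ico]
    exact ⟨⟨by omega, by omega⟩, hn.2⟩
  · intro n _ n' _ h
    omega
  · intro n hn
    rw [mem_filter, mem_Ico] at hn
    refine ⟨n - m, ?_, by omega⟩
    rw [mem_filter, mem_range]
    refine ⟨by omega, ?_⟩
    rw [Nat.sub_add_cancel hn.1.1]
    exact hn.2

/-- sign-reversing shift and no zeros: `0`-PL -/
lemma zeroPL_of_shift (a b : ℤ) (p : ℕ) [hp : Fact p.Prime] (m : ℕ) (c : ℤ)
    (hc : legendreSym p c = -1) (h : ∀ n, (F a b (n + m) : ZMod p) = (c : ZMod p) * F a b n)
    (h0 : ∀ n, (F a b n : ZMod p) ≠ 0) :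
    (N a b p 1 : ℤ) - N a b p (-1) - N a b p 0 = 0 := by
  have hN0 : N a b p 0 = 0 := by
    rw [N, card_eq_zero, filter_eq_empty_iff]
    intro n _ h
    rw [legendreSym.eq_zero_iff] at h
    exact h0 n h
  have hsh : ∀ n, legendreSym p (F a b (n + m)) = - legendreSym p (F a b n) := by
    intro n
    have : legendreSym p (F a b (n + m)) = legendreSym p (c * F a b n) := by
      simp only [legendreSym]
      rw [h n]
      push_cast
      rfl
    rw [this, legendreSym.mul, hc]
    ring
  have h1 := card_shift a b p m (-1)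
  have h2 : N a b p 1 = N a b p (-1) := by
    rw [← h1, N]
    congr 1
    apply filter_congr
    intro n _
    rw [hsh n]
    constructor
    · intro h
      rw [h]
    · intro h
      omega
  rw [hN0, h2]
  simp

/-- the norm identity -/
lemma norm_id (a b : ℤ) (n : ℕ) :
    (F a b n) ^ 2 + F a b n * F a b (n + 1) - (F a b (n + 1)) ^ 2 =
      (-1) ^ n * (a ^ 2 + a * b - b ^ 2) := by
  induction n with
  | zero =>
    simp [F]
  | succ n ih =>
    rw [F_add_two, pow_succ]
    linear_combination (-1) * ih

end Pool.Agent.Lib_helper31.PL
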