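import Mathlib

set_option autoImplicit false

namespace Pool.Agent.Lib_helper31.PL

/-- The sequence `F_0 = a`, `F_1 = b`, `F_{n+2} = F_{n+1} + F_n`. -/
def F (a b : ℤ) : ℕ → ℤ
  | 0 => a
  | 1 => b
  | (n + 2) => F a b (n + 1) + F a b n

/-- The least positive period of the sequence `F a b` modulo `p`. -/
noncomputable def pisano (a b : ℤ) (p : ℕ) : ℕ :=
  sInf {t : ℕ | 0 < t ∧ ∀ n : ℕ, (p : ℤ) ∣ F a b (n + t) - F a b n}

/-- The number `N_i` of indices `0 ≤ n < pisano a b p` with Legendre symbol `(F_n / p) = i`. -/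
noncomputable def N (a b : ℤ) (p : ℕ) [Fact p.Prime] (i : ℤ) : ℕ :=
  ((Finset.range (pisano a b p)).filter (fun n => legendreSym p (F a b n) = i)).card

/-- The set of odd primes `p` that are `k`-PL primes for `(a, b)`:
`N_1 - N_{-1} - N_0 = k`. -/
def PLprimes (a b k : ℤ) : Set ℕ :=
  {p : ℕ | ∃ h : p.Prime, p ≠ 2 ∧
    haveI : Fact p.Prime := ⟨h⟩
    (N a b p 1 : ℤ) - N a b p (-1) - N a b p 0 = k}

end Pool.Agent.Lib_helper31.PL
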