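import Pool.Agent.Lib_helper31.PLBasic

set_option autoImplicit false

namespace Pool.Agent.Lib_helper31.PL

open scoped NumberTheorySymbols

lemma shift_aux (a b : ℤ) (p : ℕ) [hp : Fact p.Prime] (h8 : p % 8 = 5)
    (h5 : legendreSym p 5 = -1) (K : Type) [Field K] [Algebra (ZMod p) K] [IsAlgClosed K]
    [CharP K p] :
    ∃ m : ℕ, ∃ c : ZMod p, c ^ 2 = -1 ∧
      ∀ n, (F a b (n + m) : ZMod p) = c * F a b n := by
  have hpp := hp.out
  have hp2 : p ≠ 2 := by
    rintro rfl
    omega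
  have h2K : (2 : K) ≠ 0 := by
    intro h
    have h' : ((2 : ℕ) : K) = 0 := by exact_mod_cast h
    rw [CharP.cast_eq_zero_iff K p] at h'
    exact hp2 ((Nat.prime_dvd_prime_iff_eq hpp Nat.prime_two).mp h')
  obtain ⟨t, ht⟩ := IsAlgClosed.exists_pow_nat_eq (5 : K) (n := 2) (by norm_num)
  have h5K : (5 : ZMod p) ^ (p / 2) = -1 := by
    have := legendreSym.eq_pow p 5
    rw [h5] at this
    push_cast at this
    exact this.symm
  have h5K' : (5 : K) ^ (p / 2) = -1 := by
    have := congrArg (algebraMap (ZMod p) K) h5K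
    rw [map_pow, map_neg, map_one, map_ofNat] at this
    exact this
  have h50 : (5 : K) ≠ 0 := by
    intro h
    rw [h, zero_pow (by omega)] at h5K'
    exact one_ne_zero (neg_eq_zero.mp h5K'.symm)
  have ht0 : t ≠ 0 := by
    rintro rfl
    rw [zero_pow two_ne_zero] at ht
    exact h50 ht.symm
  have htp : t ^ p = -t := by
    have hpe : p = 2 * (p / 2) + 1 := by omega
    calc t ^ p = t ^ (2 * (p / 2) + 1) := by rw [← hpe]
      _ = (t ^ 2) ^ (p / 2) * t := by rw [pow_succ, pow_mul]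
      _ = -t := by rw [ht, h5K']; ring
  have h2p : (2 : K) ^ p = 2 := by
    have : (2 : ZMod p) ^ p = 2 := ZMod.pow_card _
    have := congrArg (algebraMap (ZMod p) K) this
    rwa [map_pow, map_ofNat] at this
  obtain ⟨φ, hφ⟩ : ∃ φ : K, φ = (1 + t) / 2 := ⟨_, rfl⟩
  have hφ2 : φ ^ 2 = φ + 1 := by
    rw [hφ]
    field_simp
    linear_combination ht
  have hφp : φ ^ p = 1 - φ := by
    rw [hφ, div_pow, add_pow_char, one_pow, htp, h2p]
    field_simp
    ring
  obtain ⟨m, hm⟩ : ∃ m, m = (p + 1) / 2 := ⟨_, rfl⟩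
  have hm2 : 2 * m = p + 1 := by omega
  have hφm : (φ ^ m) ^ 2 = -1 := by
    rw [← pow_mul, mul_comm, hm2, pow_succ, hφp]
    linear_combination (-1 : K) * hφ2
  have hneg : IsSquare (-1 : ZMod p) := by
    rw [ZMod.exists_sq_eq_neg_one_iff]
    omega
  obtain ⟨i, hi⟩ := hneg
  have hiK : (algebraMap (ZMod p) K i) ^ 2 = -1 := by
    rw [← map_pow, sq, ← hi, map_neg, map_one]
  obtain ⟨c, hcsq, hcK⟩ : ∃ c : ZMod p, c ^ 2 = -1 ∧ φ ^ m = algebraMap (ZMod p) K c := by
    have h1 : (φ ^ m - algebraMap (ZMod p) K i) * (φ ^ m + algebraMap (ZMod p) K i) = 0 := by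
      linear_combination hφm - hiK
    rcases mul_eq_zero.mp h1 with h | h
    · exact ⟨i, by rw [sq, ← hi], sub_eq_zero.mp h⟩
    · refine ⟨-i, by rw [neg_sq, sq, ← hi], ?_⟩
      rw [map_neg]
      exact eq_neg_of_add_eq_zero_left h
  have hψm : (1 - φ) ^ m = algebraMap (ZMod p) K c := by
    rw [← hφp, ← pow_mul, mul_comm, pow_mul, hcK, ← map_pow, ZMod.pow_card]
  have hform : ∀ n, t * (F a b n : K) = (b - a * (1 - φ)) * φ ^ n - (b - a * φ) * (1 - φ) ^ n := by
    have h2φ : t = 2 * φ - 1 := by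
      rw [hφ]
      field_simp
      ring
    have key : ∀ n, t * (F a b n : K) = (b - a * (1 - φ)) * φ ^ n - (b - a * φ) * (1 - φ) ^ n ∧
        t * (F a b (n + 1) : K) =
          (b - a * (1 - φ)) * φ ^ (n + 1) - (b - a * φ) * (1 - φ) ^ (n + 1) := by
      intro n
      induction n with
      | zero =>
        constructor
        · simp only [F, pow_zero]
          rw [h2φ]
          ring
        · simp only [F, zero_add, pow_one]
          rw [h2φ]
          ring
      | succ n ih =>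
        refine ⟨ih.2, ?_⟩
        rw [show n + 1 + 1 = n + 2 from rfl, F_add_two]
        push_cast
        rw [mul_add, ih.1, ih.2]
        linear_combination ((b - a * φ) * (1 - φ) ^ n - (b - a * (1 - φ)) * φ ^ n) * hφ2
    exact fun n => (key n).1
  refine ⟨m, c, hcsq, ?_⟩
  intro n
  apply (algebraMap (ZMod p) K).injective
  rw [map_mul, map_intCast, map_intCast]
  apply mul_left_cancel₀ ht0
  have h1 := hform (n + m)
  have h2 := hform n
  rw [pow_add, pow_add, hcK, hψm] at h1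
  rw [h1]
  linear_combination (-(algebraMap (ZMod p) K c)) * h2

/-- For a prime `p = 5 mod 8` with `5` a nonresidue, shifting by `(p+1)/2` multiplies by a
square root of `-1`. -/
lemma shift_of_inert (a b : ℤ) (p : ℕ) [hp : Fact p.Prime] (h8 : p % 8 = 5)
    (h5 : legendreSym p 5 = -1) :
    ∃ m : ℕ, ∃ c : ℤ, (c : ZMod p) ^ 2 = -1 ∧
      ∀ n, (F a b (n + m) : ZMod p) = (c : ZMod p) * F a b n := by
  have : CharP (AlgebraicClosure (ZMod p)) p :=
    charP_of_injective_algebraMap (algebraMap (ZMod p) (AlgebraicClosure (ZMod p))).injective p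
  obtain ⟨m, c, hc, h⟩ := shift_aux a b p h8 h5 (AlgebraicClosure (ZMod p))
  refine ⟨m, (c.val : ℤ), ?_, ?_⟩
  · push_cast
    rw [ZMod.natCast_zmod_val, hc]
  · intro n
    push_cast
    rw [ZMod.natCast_zmod_val, h n]

lemma leg_of_sq (p : ℕ) [hp : Fact p.Prime] (h8 : p % 8 = 5) (c : ℤ)
    (hc : (c : ZMod p) ^ 2 = -1) : legendreSym p c = -1 := by
  have hpp := hp.out
  have h1 : ((legendreSym p c : ℤ) : ZMod p) = -1 := by
    rw [legendreSym.eq_pow]
    have : p / 2 = 2 * (p / 4) := by omega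
    rw [this, pow_mul, hc]
    have hodd : Odd (p / 4) := by
      rw [Nat.odd_iff]
      omega
    exact hodd.neg_one_pow
  have hc0 : (c : ZMod p) ≠ 0 := by
    intro h
    rw [h] at hc
    norm_num at hc
  rcases legendreSym.eq_one_or_neg_one p hc0 with h | h
  · exfalso
    rw [h] at h1
    push_cast at h1
    have h2 : (2 : ZMod p) = 0 := by linear_combination h1
    have h3 : ((2 : ℕ) : ZMod p) = 0 := by exact_mod_cast h2
    rw [ZMod.natCast_eq_zero_iff] at h3
    have h4 := (Nat.prime_dvd_prime_iff_eq hpp Nat.prime_two).mp h3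
    omega
  · exact h

lemma ne_zero_of_nonres (a b : ℤ) (p : ℕ) [hp : Fact p.Prime] (h4 : p % 4 = 1)
    (hD : legendreSym p (a ^ 2 + a * b - b ^ 2) = -1) (n : ℕ) : (F a b n : ZMod p) ≠ 0 := by
  intro h0
  have h1 := congrArg (Int.cast : ℤ → ZMod p) (norm_id a b n)
  push_cast at h1
  rw [h0] at h1
  have hneg : IsSquare (-1 : ZMod p) := by
    rw [ZMod.exists_sq_eq_neg_one_iff]
    omega
  obtain ⟨i, hi⟩ := hneg
  rw [legendreSym.eq_neg_one_iff] at hD
  apply hD
  push_cast
  have h2 : ((-1 : ZMod p) ^ n) * ((a : ZMod p) ^ 2 + a * b - b ^ 2) =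
      (i * F a b (n + 1)) * (i * F a b (n + 1)) := by
    rw [← h1]
    linear_combination ((F a b (n + 1) : ZMod p) ^ 2) * hi
  rcases neg_one_pow_eq_or (ZMod p) n with h | h
  · rw [h, one_mul] at h2
    exact ⟨_, h2⟩
  · rw [h] at h2
    refine ⟨i * (i * F a b (n + 1)), ?_⟩
    linear_combination (-1 : ZMod p) * h2 + ((i * F a b (n + 1)) * (i * F a b (n + 1))) * hi

/-- the primes of the theorem are `0`-PL -/
lemma zeroPL_of_nonres (a b : ℤ) (p : ℕ) [hp : Fact p.Prime] (h8 : p % 8 = 5)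
    (h5 : legendreSym p 5 = -1) (hD : legendreSym p (a ^ 2 + a * b - b ^ 2) = -1) :
    (N a b p 1 : ℤ) - N a b p (-1) - N a b p 0 = 0 := by
  obtain ⟨m, c, hc, hsh⟩ := shift_of_inert a b p h8 h5
  exact zeroPL_of_shift a b p m c (leg_of_sq p h8 c hc) hsh
    (ne_zero_of_nonres a b p (by omega) hD)

end Pool.Agent.Lib_helper31.PL
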