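import Pool.Agent.Lib_helper31.PLNonsq

set_option autoImplicit false

namespace Pool.Agent.Lib_helper31.PL

open scoped NumberTheorySymbols

lemma exists_odd_part : ∀ (n : ℕ) (a b : ℤ), a.natAbs + b.natAbs ≤ n →
    a ^ 2 + a * b - b ^ 2 ≠ 0 →
    ∃ (k : ℕ) (D : ℤ), Odd D ∧ a ^ 2 + a * b - b ^ 2 = 4 ^ k * D := by
  intro n
  induction n using Nat.strong_induction_on with
  | _ n ih =>
    intro a b hab hD
    by_cases hodd : Odd (a ^ 2 + a * b - b ^ 2)
    · exact ⟨0, _, hodd, by ring⟩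
    · rw [Int.not_odd_iff_even] at hodd
      have hb : Even b := by
        by_contra hb
        rw [Int.not_even_iff_odd] at hb
        rcases Int.even_or_odd a with ha | ha
        · obtain ⟨x, hx⟩ := ha
          obtain ⟨y, hy⟩ := hb
          obtain ⟨z, hz⟩ := hodd
          subst hx
          subst hy
          ring_nf at hz
          omega
        · obtain ⟨x, hx⟩ := ha
          obtain ⟨y, hy⟩ := hb
          obtain ⟨z, hz⟩ := hodd
          subst hx
          subst hy
          ring_nf at hz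
          omega
      have ha : Even a := by
        by_contra ha
        rw [Int.not_even_iff_odd] at ha
        obtain ⟨x, hx⟩ := ha
        obtain ⟨y, hy⟩ := hb
        obtain ⟨z, hz⟩ := hodd
        subst hx
        subst hy
        ring_nf at hz
        omega
      obtain ⟨x, hx⟩ := ha
      obtain ⟨y, hy⟩ := hb
      have hxy : x ^ 2 + x * y - y ^ 2 ≠ 0 := by
        intro h
        apply hD
        rw [hx, hy]
        linear_combination 4 * h
      have hpos : 0 < a.natAbs + b.natAbs := by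
        rcases Nat.eq_zero_or_pos (a.natAbs + b.natAbs) with h | h
        · exfalso
          apply hD
          have h1 : a = 0 := by omega
          have h2 : b = 0 := by omega
          rw [h1, h2]
          ring
        · exact h
      obtain ⟨k, D, hDo, hDe⟩ := ih (x.natAbs + y.natAbs) (by omega) x y le_rfl hxy
      refine ⟨k + 1, D, hDo, ?_⟩
      rw [hx, hy, pow_succ]
      linear_combination 4 * hDe

lemma exists_t (s : ℕ) (hs : Squarefree s) (hodd : Odd s) (h1 : s ≠ 1) (h5 : s ≠ 5) :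
    ∃ t : ℕ, t ≡ 1 [MOD 40] ∧ t.Coprime s ∧ J((t : ℤ) | s) = -1 := by
  obtain ⟨q, hq, hqs, hq5⟩ : ∃ q : ℕ, q.Prime ∧ q ∣ s ∧ q ≠ 5 := by
    by_cases h5s : 5 ∣ s
    · obtain ⟨s2, rfl⟩ := h5s
      have h2 : s2 ≠ 1 := by
        rintro rfl
        exact h5 rfl
      refine ⟨s2.minFac, Nat.minFac_prime h2, (Nat.minFac_dvd s2).trans (Dvd.intro_left 5 rfl), ?_⟩
      intro h
      have h3 : 5 ∣ s2 := h ▸ Nat.minFac_dvd s2
      obtain ⟨s3, rfl⟩ := h3
      have := hs 5 ⟨s3, by ring⟩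
      rw [Nat.isUnit_iff] at this
      omega
    · refine ⟨s.minFac, Nat.minFac_prime h1, Nat.minFac_dvd s, ?_⟩
      intro h
      exact h5s (h ▸ Nat.minFac_dvd s)
  have hqf : Fact q.Prime := ⟨hq⟩
  obtain ⟨s', rfl⟩ := hqs
  have hq2 : q ≠ 2 := by
    rintro rfl
    rw [Nat.odd_mul] at hodd
    exact absurd hodd.1 (by decide)
  have hs'0 : s' ≠ 0 := by
    rintro rfl
    rw [mul_zero] at hodd
    exact absurd hodd (by decide)
  have hqs' : q.Coprime s' := by
    rw [hq.coprime_iff_not_dvd]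
    rintro ⟨s3, rfl⟩
    have := hs q ⟨s3, by ring⟩
    rw [Nat.isUnit_iff] at this
    exact hq.one_lt.ne' this
  have hq40 : q.Coprime 40 := by
    rw [hq.coprime_iff_not_dvd]
    intro h
    have h40 : (40 : ℕ) = 2 ^ 3 * 5 := by norm_num
    rw [h40, hq.dvd_mul] at h
    rcases h with h | h
    · exact hq2 ((Nat.prime_dvd_prime_iff_eq hq Nat.prime_two).mp (hq.dvd_of_dvd_pow h))
    · exact hq5 ((Nat.prime_dvd_prime_iff_eq hq Nat.prime_five).mp h)
  have hcop : (40 * s').Coprime q := (Nat.Coprime.mul_left hq40.symm hqs'.symm)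
  obtain ⟨v, hv⟩ : ∃ v : ℕ, legendreSym q v = -1 := by
    obtain ⟨x, hx⟩ := quadraticChar_exists_neg_one (F := ZMod q)
      (by rw [ZMod.ringChar_zmod_n]; exact hq2)
    refine ⟨x.val, ?_⟩
    rw [legendreSym]
    push_cast
    rw [ZMod.natCast_zmod_val]
    exact hx
  obtain ⟨t, ht1, ht2⟩ := Nat.chineseRemainder hcop 1 v
  have hts' : t ≡ 1 [MOD s'] := ht1.of_mul_left 40
  have hJq : J((t : ℤ) | q) = -1 := by
    have h2 : J((t : ℤ) | q) = J((v : ℤ) | q) := by
      apply jacobiSym.mod_left'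
      have := (Int.natCast_modEq_iff.mpr ht2)
      exact this
    rw [h2, ← jacobiSym.legendreSym.to_jacobiSym, hv]
  have hJs : J((t : ℤ) | s') = 1 := by
    have h2 : J((t : ℤ) | s') = J(1 | s') := by
      apply jacobiSym.mod_left'
      have := (Int.natCast_modEq_iff.mpr hts')
      exact_mod_cast this
    rw [h2, jacobiSym.one_left]
  have hJ : J((t : ℤ) | (q * s' : ℕ)) = -1 := by
    rw [jacobiSym.mul_right' _ hq.ne_zero hs'0, hJq, hJs, mul_one]
  refine ⟨t, ht1.of_mul_right s', ?_, hJ⟩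
  by_contra hc
  have : J((t : ℤ) | (q * s' : ℕ)) = 0 := by
    rw [jacobiSym.eq_zero_iff]
    refine ⟨Nat.mul_ne_zero hq.ne_zero hs'0, ?_⟩
    intro h
    apply hc
    rw [Int.gcd_natCast_natCast] at h
    exact h
  rw [hJ] at this
  norm_num at this

lemma exists_prime (s : ℕ) (hs : Squarefree s) (hodd : Odd s) (h1 : s ≠ 1) (B : ℕ) :
    ∃ p > B, p.Prime ∧ p ≡ 37 [MOD 40] ∧ J((p : ℤ) | s) = -1 := by
  have hspos : 0 < s := hodd.pos
  obtain ⟨p, hpB, hp, hp40⟩ := Nat.forall_exists_prime_gt_and_modEq (B + s) (q := 40) (a := 37)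
    (by norm_num) (by decide)
  have hps : p.Coprime s := by
    rw [hp.coprime_iff_not_dvd]
    intro h
    have := Nat.le_of_dvd hspos h
    omega
  by_cases hJ : J((p : ℤ) | s) = -1
  · exact ⟨p, by omega, hp, hp40, hJ⟩
  have hJ1 : J((p : ℤ) | s) = 1 := by
    rcases jacobiSym.eq_one_or_neg_one (a := (p : ℤ)) (b := s)
      (by rw [Int.gcd_natCast_natCast]; exact hps) with h | h
    · exact h
    · exact absurd h hJ
  have h5 : s ≠ 5 := by
    rintro rfl
    have h2 : J((p : ℤ) | 5) = J(2 | 5) := by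
      apply jacobiSym.mod_left'
      have h3 : p % 5 = 2 := by
        have : p % 40 = 37 := hp40
        omega
      omega
    rw [h2] at hJ1
    norm_num at hJ1
  obtain ⟨t, ht40, hts, hJt⟩ := exists_t s hs hodd h1 h5
  have ht40' : t.Coprime 40 := by
    have : Nat.gcd t 40 = Nat.gcd 1 40 := ht40.gcd_eq
    rw [Nat.coprime_iff_gcd_eq_one, this]
    rfl
  have hp40' : p.Coprime 40 := by
    have : Nat.gcd p 40 = Nat.gcd 37 40 := hp40.gcd_eq
    rw [Nat.coprime_iff_gcd_eq_one, this]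
    rfl
  have hcop : (p * t).Coprime (40 * s) :=
    Nat.Coprime.mul_left (Nat.Coprime.mul_right hp40' hps) (Nat.Coprime.mul_right ht40' hts)
  obtain ⟨p', hp'B, hp', hp'm⟩ := Nat.forall_exists_prime_gt_and_modEq B (q := 40 * s)
    (a := p * t) (by positivity) hcop
  refine ⟨p', hp'B, hp', ?_, ?_⟩
  · have h3 : p' ≡ p * t [MOD 40] := hp'm.of_mul_right s
    exact h3.trans ((hp40.mul ht40).trans (by rfl))
  · have h3 : p' ≡ p * t [MOD s] := hp'm.of_mul_left 40
    have h4 : J((p' : ℤ) | s) = J(((p * t : ℕ) : ℤ) | s) := by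
      apply jacobiSym.mod_left'
      exact Int.natCast_modEq_iff.mpr h3
    rw [h4]
    push_cast
    rw [jacobiSym.mul_left, hJ1, hJt]
    norm_num

lemma exists_good_prime (a b : ℤ) (hsq : ¬ IsSquare |a ^ 2 + a * b - b ^ 2|) (B : ℕ) :
    ∃ (p : ℕ) (hp : p.Prime), B < p ∧ p % 8 = 5 ∧ @legendreSym p ⟨hp⟩ 5 = -1 ∧
      @legendreSym p ⟨hp⟩ (a ^ 2 + a * b - b ^ 2) = -1 := by
  have hD0 : a ^ 2 + a * b - b ^ 2 ≠ 0 := by
    intro h
    apply hsq
    rw [h, abs_zero]
    exact ⟨0, by ring⟩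
  obtain ⟨k, D, hDo, hDe⟩ := exists_odd_part _ a b le_rfl hD0
  obtain ⟨s, c, hcs, hsf⟩ := Nat.sq_mul_squarefree D.natAbs
  -- s squarefree, c^2 * s = |D|
  have hsodd : Odd s := by
    have h1 : Odd D.natAbs := Int.natAbs_odd.mpr hDo
    rw [← hcs, Nat.odd_mul] at h1
    exact h1.2
  have hs1 : s ≠ 1 := by
    rintro rfl
    apply hsq
    rw [hDe, abs_mul, Int.abs_eq_natAbs D, ← hcs]
    refine ⟨2 ^ k * c, ?_⟩
    rw [abs_of_nonneg (by positivity)]
    push_cast
    have : (4 : ℤ) ^ k = 2 ^ k * 2 ^ k := by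
      rw [← mul_pow]
      norm_num
    rw [this]
    ring
  obtain ⟨p, hpB, hp, hp40, hJ⟩ := exists_prime s hsf hsodd hs1 (B + c)
  have hpf : Fact p.Prime := ⟨hp⟩
  have hp40' : p % 40 = 37 := hp40
  have h8 : p % 8 = 5 := by omega
  have hpodd : Odd p := by
    rw [Nat.odd_iff]
    omega
  have hc0 : 0 < c := by
    rcases Nat.eq_zero_or_pos c with h | h
    · exfalso
      rw [h] at hcs
      simp at hcs
      have : D = 0 := by
        rwa [eq_comm, Int.natAbs_eq_zero] at hcs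
      rw [this] at hDo
      exact absurd hDo (by decide)
    · exact h
  refine ⟨p, hp, by omega, h8, ?_, ?_⟩
  · rw [jacobiSym.legendreSym.to_jacobiSym]
    have h1 : J((5 : ℕ) | p) = J((p : ℤ) | 5) :=
      jacobiSym.quadratic_reciprocity_one_mod_four' (by decide) (by omega)
    have h2 : J((p : ℤ) | 5) = J(2 | 5) := by
      apply jacobiSym.mod_left'
      omega
    have h3 : J(2 | 5) = -1 := by norm_num
    rw [h2, h3] at h1
    exact_mod_cast h1
  · rw [jacobiSym.legendreSym.to_jacobiSym, hDe, jacobiSym.mul_left, jacobiSym.pow_left,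
      jacobiSym.at_four hpodd, one_pow, one_mul]
    have hneg : J(-1 | p) = 1 := by
      rw [jacobiSym.at_neg_one hpodd, ZMod.χ₄_nat_one_mod_four (by omega)]
    have hcs' : J((c : ℤ) | p) ^ 2 = 1 := by
      apply jacobiSym.sq_one
      rw [Int.gcd_natCast_natCast, ← Nat.coprime_iff_gcd_eq_one, Nat.coprime_comm,
        hp.coprime_iff_not_dvd]
      intro h
      have := Nat.le_of_dvd hc0 h
      omega
    have hnat : J((D.natAbs : ℤ) | p) = -1 := by
      rw [← hcs]
      push_cast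
      rw [jacobiSym.mul_left, jacobiSym.pow_left, hcs', one_mul,
        jacobiSym.quadratic_reciprocity_one_mod_four' hsodd (by omega), hJ]
    rcases Int.natAbs_eq D with h | h
    · rw [h]
      exact hnat
    · rw [h, neg_eq_neg_one_mul, jacobiSym.mul_left, hneg, one_mul]
      exact hnat

theorem infinite_zeroPL (a b : ℤ) (hsq : ¬ IsSquare |a ^ 2 + a * b - b ^ 2|) :
    (PLprimes a b 0).Infinite := by
  rw [Set.infinite_iff_exists_gt]
  intro B
  obtain ⟨p, hp, hBp, h8, h5, hD⟩ := exists_good_prime a b hsq B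
  refine ⟨p, ⟨hp, ?_, ?_⟩, hBp⟩
  · rintro rfl
    omega
  · exact @zeroPL_of_nonres a b p ⟨hp⟩ h8 h5 hD

end Pool.Agent.Lib_helper31.PL
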