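import Pool.Agent.Lib_helper31.RPMeas

open MeasureTheory Set ProbabilityTheory Module
open scoped ENNReal Topology

namespace Pool.Agent.Lib_helper31.RP

variable {E : Type*} [NormedAddCommGroup E] [NormedSpace ℝ E] [FiniteDimensional ℝ E]
variable {ι : Type*} [Fintype ι]
variable [MeasurableSpace E] [BorelSpace E] (μ : Measure E) [μ.IsAddHaarMeasure]

theorem prob_mem_affineSpan (ν : Measure E) [IsProbabilityMeasure ν] (hν : ν ≪ μ) (k : ι)
    (J : Finset ι) (hk : k ∉ J) (hJ : J.card ≤ finrank ℝ E) :
    (Measure.pi fun _ : ι => ν) {X | X k ∈ affineSpan ℝ (X '' J)} = 0 := by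
  classical
  have hA := meas_mem_affineSpan (E := E) k J
  set A := {X : ι → E | X k ∈ affineSpan ℝ (X '' J)} with hAdef
  rw [← lintegral_indicator_one hA]
  obtain ⟨x₀⟩ : Nonempty E := ⟨0⟩
  rw [lintegral_eq_lmarginal_univ (fun _ : ι => x₀)]
  rw [lmarginal_erase' _ (measurable_one.indicator hA) (Finset.mem_univ k)]
  have hin : (fun x : ι → E => ∫⁻ xᵢ, A.indicator 1 (Function.update x k xᵢ) ∂ν) = 0 := by
    ext X
    have h1 : ∀ y : E, A.indicator (1 : (ι → E) → ℝ≥0∞) (Function.update X k y) =
        (affineSpan ℝ (X '' J) : Set E).indicator 1 y := by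
      intro y
      have himg : Function.update X k y '' (J : Set ι) = X '' (J : Set ι) := by
        apply image_congr
        intro i hi
        rw [Function.update_of_ne]
        rintro rfl
        exact hk hi
      have hiff : Function.update X k y ∈ A ↔ y ∈ (affineSpan ℝ (X '' J) : Set E) := by
        rw [hAdef]
        simp only [mem_ofPred_eq, himg, Function.update_self, SetLike.mem_coe]
      by_cases hy : y ∈ (affineSpan ℝ (X '' J) : Set E)
      · rw [indicator_of_mem hy, indicator_of_mem (hiff.2 hy)]; rfl
      · rw [indicator_of_notMem hy, indicator_of_notMem (fun h => hy (hiff.1 h))]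
    simp only [h1]
    have hcl : IsClosed (affineSpan ℝ (X '' J) : Set E) :=
      AffineSubspace.closed_of_finiteDimensional _
    rw [lintegral_indicator_one hcl.measurableSet]
    simp only [Pi.zero_apply]
    apply hν
    apply Measure.addHaar_affineSubspace
    intro htop
    rcases J.eq_empty_or_nonempty with hJe | hJne
    · subst hJe
      simp at htop
    · have h2 : vectorSpan ℝ ((J.image X : Finset E) : Set E) = ⊤ := by
        rw [Finset.coe_image, ← direction_affineSpan, htop, AffineSubspace.direction_top]
      have h3 := finrank_vectorSpan_image_finset_le ℝ X J (n := J.card - 1) (by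
        have := Finset.card_pos.2 hJne
        omega)
      rw [h2, finrank_top] at h3
      have := Finset.card_pos.2 hJne
      omega
  rw [hin]
  simp [lmarginal]

theorem affineIndependent_finset {X : ι → E}
    (h : ∀ k : ι, ∀ J : Finset ι, k ∉ J → J.card ≤ finrank ℝ E → X k ∉ affineSpan ℝ (X '' J))
    (S : Finset ι) (hS : S.card ≤ finrank ℝ E + 1) :
    AffineIndependent ℝ (fun i : S => X i) := by
  classical
  induction S using Finset.induction_on with
  | empty =>
    have : Subsingleton ((∅ : Finset ι)) := ⟨fun a => absurd a.2 (Finset.notMem_empty _)⟩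
    exact affineIndependent_of_subsingleton ℝ _
  | insert k J hk ih =>
    rw [Finset.card_insert_of_notMem hk] at hS
    have ih' := ih (by omega)
    have h1 := h k J hk (by omega)
    let i₀ : (insert k J : Finset ι) := ⟨k, Finset.mem_insert_self k J⟩
    apply AffineIndependent.affineIndependent_of_notMem_span (i := i₀)
    · -- the others
      let e : {y : (insert k J : Finset ι) // y ≠ i₀} ↪ J :=
        ⟨fun y => ⟨y.1.1, by
          have h2 := y.1.2
          rw [Finset.mem_insert] at h2
          rcases h2 with h2 | h2
          · exact absurd (Subtype.ext h2) y.2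
          · exact h2⟩, fun a b hab => by
            apply Subtype.ext
            apply Subtype.ext
            simpa using hab⟩
      exact ih'.comp_embedding e
    · intro hmem
      apply h1
      have : (fun i : (insert k J : Finset ι) => X i) '' {x | x ≠ i₀} ⊆ X '' J := by
        rintro _ ⟨y, hy, rfl⟩
        refine ⟨y, ?_, rfl⟩
        have h2 := y.2
        rw [Finset.mem_insert] at h2
        rcases h2 with h2 | h2
        · exact absurd (Subtype.ext h2) hy
        · exact h2
      exact affineSpan_mono ℝ this hmem

theorem ae_GP (ν : Measure E) [IsProbabilityMeasure ν] (hν : ν ≪ μ) :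
    ∀ᵐ X ∂(Measure.pi fun _ : ι => ν), GP X := by
  have h1 : ∀ᵐ X ∂(Measure.pi fun _ : ι => ν), ∀ k : ι, ∀ J : Finset ι, k ∉ J →
      J.card ≤ finrank ℝ E → X k ∉ affineSpan ℝ (X '' J) := by
    rw [ae_all_iff]
    intro k
    rw [ae_all_iff]
    intro J
    by_cases hk : k ∈ J
    · exact Filter.Eventually.of_forall (fun X h => absurd hk h)
    · by_cases hJ : J.card ≤ finrank ℝ E
      · have h2 := prob_mem_affineSpan μ ν hν k J hk hJ
        rw [ae_iff]
        simpa [hk, hJ] using h2
      · exact Filter.Eventually.of_forall (fun X _ h => absurd h hJ)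
  filter_upwards [h1] with X hX
  intro S hS
  exact affineIndependent_finset hX S hS

end Pool.Agent.Lib_helper31.RP
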