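import Mathlib

open MeasureTheory Set Module
open scoped ENNReal Pointwise

namespace Pool.Agent.Lib_helper31.RP

variable {E : Type*} [NormedAddCommGroup E] [NormedSpace ℝ E] [FiniteDimensional ℝ E]

theorem zero_mem_interior_of_symm {M : Set E} (hconv : Convex ℝ M) (hsymm : ∀ x ∈ M, -x ∈ M)
    (hint : (interior M).Nonempty) : (0 : E) ∈ interior M := by
  obtain ⟨y, hy⟩ := hint
  have hM : -M = M := by
    ext x
    constructor
    · intro hx
      have := hsymm _ hx
      simpa using this
    · intro hx
      exact hsymm _ hx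
  have hy' : -y ∈ interior M := by
    have : -y ∈ interior (-M) := by
      have h1 : interior (-M) = -interior M := (Homeomorph.neg E).preimage_interior M |>.symm
      rw [h1]
      simpa using hy
    rwa [hM] at this
  have h := hconv.interior hy hy' (by norm_num : (0:ℝ) ≤ 1/2) (by norm_num : (0:ℝ) ≤ 1/2) (by norm_num)
  simpa using h

theorem exists_basis_box {M : Set E} (hc : IsCompact M) (hconv : Convex ℝ M)
    (hsymm : ∀ x ∈ M, -x ∈ M) (hint : (interior M).Nonempty) :
    ∃ b : Basis (Fin (finrank ℝ E)) ℝ E, (∀ i, b i ∈ M) ∧ ∀ z ∈ M, ∀ i, |b.repr z i| ≤ 1 := by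
  classical
  set D := finrank ℝ E with hD
  let e : Basis (Fin D) ℝ E := finBasis ℝ E
  have h0 := zero_mem_interior_of_symm hconv hsymm hint
  -- compact set of families
  let S : Set (Fin D → E) := Set.pi univ (fun _ => M)
  have hS : IsCompact S := isCompact_univ_pi (fun _ => hc)
  have hSne : S.Nonempty := ⟨fun _ => 0, fun i _ => interior_subset h0⟩
  have hcont : Continuous (fun v : Fin D → E => |e.det v|) := by
    have : Continuous (fun v : Fin D → E => e.det v) := by
      simp only [Basis.det_apply]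
      apply Continuous.matrix_det
      refine continuous_pi fun i => continuous_pi fun j => ?_
      simp only [Basis.toMatrix_apply]
      exact (LinearMap.continuous_of_finiteDimensional (e.coord i)).comp (continuous_apply j)
    exact this.abs
  obtain ⟨v, hvS, hvmax⟩ := hS.exists_isMaxOn hSne hcont.continuousOn
  have hvM : ∀ i, v i ∈ M := fun i => hvS i (mem_univ _)
  -- positivity
  have hpos : 0 < |e.det v| := by
    obtain ⟨r, hr, hball⟩ := Metric.isOpen_iff.1 isOpen_interior 0 h0
    obtain ⟨C, hC⟩ : ∃ C : ℝ, ∀ i, ‖e i‖ ≤ C := by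
      refine ⟨∑ i, ‖e i‖, fun i => ?_⟩
      exact Finset.single_le_sum (f := fun i => ‖e i‖) (fun j _ => norm_nonneg _) (Finset.mem_univ i)
    have hC' : 0 < |C| + 1 := by positivity
    let s : ℝ := r / (|C| + 1) / 2
    have hs : 0 < s := by positivity
    have hmem : (fun i => s • e i) ∈ S := by
      intro i _
      apply interior_subset
      apply hball
      simp only [Metric.mem_ball, dist_zero_right, norm_smul, Real.norm_eq_abs, abs_of_pos hs]
      have h1 : s * ‖e i‖ ≤ s * (|C| + 1) := by
        apply mul_le_mul_of_nonneg_left _ hs.le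
        linarith [hC i, le_abs_self C]
      have h2 : s * (|C| + 1) = r / 2 := by
        simp only [s]; field_simp
      linarith
    have h2 := hvmax hmem
    simp only at h2
    have h3 : e.det (fun i => s • e i) = s ^ D := by
      have := e.det.map_smul_univ (fun _ => s) e
      simp only [Finset.prod_const, Finset.card_univ, Fintype.card_fin, Basis.det_self, smul_eq_mul,
        mul_one] at this
      exact this
    change |e.det (fun i => s • e i)| ≤ |e.det v| at h2
    rw [h3] at h2
    have : 0 < |s ^ D| := by positivity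
    linarith
  have hunit : IsUnit (e.det v) := by
    rw [isUnit_iff_ne_zero]
    intro h
    rw [h] at hpos
    simp at hpos
  obtain ⟨hli, hspan⟩ := (Module.Basis.is_basis_iff_det e).2 hunit
  let b : Basis (Fin D) ℝ E := Basis.mk hli hspan.ge
  have hb : ∀ i, b i = v i := fun i => Basis.mk_apply hli hspan.ge i
  refine ⟨b, fun i => by rw [hb]; exact hvM i, fun z hz i => ?_⟩
  have hbv : (⇑b) = v := funext hb
  have key : e.det (Function.update v i z) = e.det v * b.repr z i := by
    have h1 : e.det = e.det b • b.det := AlternatingMap.eq_smul_basis_det b e.det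
    rw [h1]
    simp only [AlternatingMap.smul_apply, smul_eq_mul]
    rw [hbv]
    have h2 : b.det (Function.update v i z) = b.repr z i := by
      rw [← hbv, Basis.det_apply, Basis.toMatrix_update, Basis.toMatrix_self]
      rw [← Matrix.cramer_apply, Matrix.cramer_one]
      rfl
    have h3 : b.det v = 1 := by rw [← hbv]; exact b.det_self
    rw [h2, h3]; ring
  have hmem : Function.update v i z ∈ S := by
    intro j _
    by_cases hj : j = i
    · subst hj; simpa using hz
    · simp only [Function.update_of_ne hj]; exact hvM j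
  have h4 := hvmax hmem
  change |e.det (Function.update v i z)| ≤ |e.det v| at h4
  rw [key, abs_mul] at h4
  by_contra hcon
  push Not at hcon
  nlinarith

variable {D : ℕ}

theorem exists_functional {P : Set E} (hP : Convex ℝ P) {x : E} (hx : x ∉ interior P) (hD : 0 < finrank ℝ E) :
    ∃ f : E →L[ℝ] ℝ, f ≠ 0 ∧ ∀ a ∈ P, f a ≤ f x := by
  by_cases hint : (interior P).Nonempty
  · exact geometric_hahn_banach_of_nonempty_interior_point hP hx hint
  · rcases P.eq_empty_or_nonempty with rfl | ⟨p, hp⟩
    · have : Nontrivial E := Module.nontrivial_of_finrank_pos hD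
      obtain ⟨v, hv⟩ := exists_ne (0 : E)
      obtain ⟨f, hf⟩ := exists_dual_vector ℝ v (norm_ne_zero_iff.2 hv)
      refine ⟨f, ?_, by simp⟩
      intro h
      have := hf.2
      rw [h] at this
      simp at this
      exact hv (norm_eq_zero.1 this.symm)
    · have hspan : affineSpan ℝ P ≠ ⊤ := by
        intro h
        exact hint (hP.interior_nonempty_iff_affineSpan_eq_top.2 h)
      have hdir : (affineSpan ℝ P).direction < ⊤ := by
        rw [lt_top_iff_ne_top]
        intro h
        apply hspan
        rw [AffineSubspace.direction_eq_top_iff_of_nonempty] at h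
        · exact h
        · exact ⟨p, subset_affineSpan ℝ P hp⟩
      obtain ⟨f, hf0, hf⟩ := Submodule.exists_le_ker_of_lt_top _ hdir
      let F : E →L[ℝ] ℝ := LinearMap.toContinuousLinearMap f
      have hF : ∀ a ∈ P, F a = F p := by
        intro a ha
        have h1 : a - p ∈ (affineSpan ℝ P).direction := by
          have := AffineSubspace.vsub_mem_direction (subset_affineSpan ℝ P ha) (subset_affineSpan ℝ P hp)
          simpa using this
        have h2 := hf h1
        rw [LinearMap.mem_ker, map_sub, sub_eq_zero] at h2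
        exact h2
      have hF0 : F ≠ 0 := by
        intro h
        apply hf0
        ext a
        have := congrArg (fun g : E →L[ℝ] ℝ => g a) h
        simpa [F] using this
      by_cases hc : F p ≤ F x
      · exact ⟨F, hF0, fun a ha => by rw [hF a ha]; exact hc⟩
      · refine ⟨-F, neg_ne_zero.2 hF0, fun a ha => ?_⟩
        simp only [_root_.neg_apply, neg_le_neg_iff]
        rw [hF a ha]
        exact (not_le.1 hc).le

/-- sign of a boolean -/
def sg (c : Bool) : ℝ := if c then 1 else -1

/-- the cell associated with a sign pattern -/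
def cell (b : Basis (Fin D) ℝ E) (M : Set E) (ε : Fin D → Bool) : Set E :=
  (fun z => (1 / (4 * (D : ℝ))) • z + (1 / (2 * (D : ℝ))) • ∑ i, sg (ε i) • b i) '' M

theorem cell_subset {M : Set E} (hconv : Convex ℝ M) (hsymm : ∀ x ∈ M, -x ∈ M)
    (b : Basis (Fin D) ℝ E) (hb : ∀ i, b i ∈ M) (h0 : (0:E) ∈ M)
    (hD : 0 < D) (ε : Fin D → Bool) : cell b M ε ⊆ M := by
  rintro _ ⟨z, hz, rfl⟩
  have hDr : (0:ℝ) < D := by exact_mod_cast hD
  have h1 : (1 / (D:ℝ)) • ∑ i, sg (ε i) • b i ∈ M := by
    rw [Finset.smul_sum]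
    apply hconv.sum_mem (fun i _ => by positivity)
    · simp; field_simp
    · intro i _
      unfold sg
      split_ifs
      · simpa using hb i
      · simpa using hsymm _ (hb i)
  have h2 : (1 / 2 : ℝ) • z ∈ M := by
    have := hconv hz h0 (by norm_num : (0:ℝ) ≤ 1/2) (by norm_num : (0:ℝ) ≤ 1/2) (by norm_num)
    simpa using this
  have h3 : (1 / (2 * (D:ℝ))) • z ∈ M := by
    have := hconv hz h0 (a := 1 / (2 * (D:ℝ))) (b := 1 - 1 / (2 * (D:ℝ))) (by positivity) ?_ (by ring)
    · simpa using this
    · rw [sub_nonneg, div_le_one (by positivity)]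
      have : (1:ℝ) ≤ D := by exact_mod_cast hD
      linarith
  have := hconv h3 h1 (by norm_num : (0:ℝ) ≤ 1/2) (by norm_num : (0:ℝ) ≤ 1/2) (by norm_num)
  convert this using 2
  · rw [smul_smul]; congr 1; field_simp; norm_num
  · rw [smul_smul]; congr 1; field_simp

theorem cell_sign {M : Set E} (b : Basis (Fin D) ℝ E)
    (hbox : ∀ z ∈ M, ∀ i, |b.repr z i| ≤ 1)
    (hD : 0 < D) (ε : Fin D → Bool) {z : E} (hz : z ∈ cell b M ε)
    (i : Fin D) : 0 < sg (ε i) * b.repr z i := by
  obtain ⟨y, hy, rfl⟩ := hz
  have hDr : (0:ℝ) < D := by exact_mod_cast hD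
  have h1 : b.repr ((1 / (4 * (D : ℝ))) • y + (1 / (2 * (D : ℝ))) • ∑ i, sg (ε i) • b i) i
      = (1 / (4 * (D : ℝ))) * b.repr y i + (1 / (2 * (D : ℝ))) * sg (ε i) := by
    rw [map_add, map_smul, map_smul, map_sum]
    simp only [map_smul, Basis.repr_self, Finsupp.coe_add, Finsupp.coe_smul, Pi.add_apply,
      Pi.smul_apply, smul_eq_mul, Finsupp.smul_single, mul_one, Finsupp.finsetSum_apply,
      Finsupp.single_apply, Finset.sum_ite_eq', Finset.mem_univ, if_true]
  simp only [h1]
  have h2 := abs_le.1 (hbox y hy i)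
  have h3 : (1 / (2 * (D : ℝ))) = 2 * (1 / (4 * (D : ℝ))) := by field_simp; norm_num
  rw [h3]
  have h4 : (0:ℝ) < 1 / (4 * (D : ℝ)) := by positivity
  unfold sg
  split_ifs <;> nlinarith

theorem mem_interior_of_cells {M : Set E} (b : Basis (Fin D) ℝ E)
    (hbox : ∀ z ∈ M, ∀ i, |b.repr z i| ≤ 1) (hD : 0 < D) {P : Set E}
    (hP : Convex ℝ P) (x : E) (h : ∀ ε, ∃ z ∈ cell b M ε, x + z ∈ P) : x ∈ interior P := by
  classical
  by_contra hx
  obtain ⟨f, hf0, hf⟩ := exists_functional hP hx (by rw [finrank_eq_card_basis b]; simpa using hD)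
  obtain ⟨z, hz, hzP⟩ := h (fun i => decide (0 ≤ f (b i)))
  have h1 := hf _ hzP
  rw [map_add] at h1
  have h2 : f z = ∑ i, b.repr z i * f (b i) := by
    conv_lhs => rw [← b.sum_repr z]
    rw [map_sum]
    simp
  have h3 : ∀ i, 0 ≤ b.repr z i * f (b i) := by
    intro i
    have h4 := cell_sign b hbox hD _ hz i
    unfold sg at h4
    by_cases hi : 0 ≤ f (b i)
    · simp only [hi, decide_true, if_true] at h4
      apply mul_nonneg _ hi
      linarith
    · simp only [hi, decide_false] at h4
      simp at h4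
      push Not at hi
      exact (mul_pos_of_neg_of_neg h4 hi).le
  have h5 : ∃ i, f (b i) ≠ 0 := by
    by_contra hcon
    push Not at hcon
    apply hf0
    have : (f : E →ₗ[ℝ] ℝ) = 0 := b.ext (by simpa using hcon)
    ext v
    have := congrArg (fun g : E →ₗ[ℝ] ℝ => g v) this
    simpa using this
  obtain ⟨i, hi⟩ := h5
  have h6 : 0 < b.repr z i * f (b i) := by
    refine lt_of_le_of_ne (h3 i) (Ne.symm (mul_ne_zero ?_ hi))
    intro h7
    have h4 := cell_sign b hbox hD _ hz i
    rw [h7] at h4
    simp at h4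
  have h7 : 0 < f z := by
    rw [h2]
    exact Finset.sum_pos' (fun i _ => h3 i) ⟨i, Finset.mem_univ i, h6⟩
  linarith

theorem measure_cell [MeasurableSpace E] [BorelSpace E] (μ : Measure E) [μ.IsAddHaarMeasure]
    {M : Set E} (b : Basis (Fin D) ℝ E) (ε : Fin D → Bool) :
    μ (cell b M ε) = ENNReal.ofReal ((1 / (4 * (D : ℝ))) ^ D) * μ M := by
  have hfin : finrank ℝ E = D := by simpa using finrank_eq_card_basis b
  unfold cell
  have h1 : (fun z => (1 / (4 * (D : ℝ))) • z + (1 / (2 * (D : ℝ))) • ∑ i, sg (ε i) • b i) '' M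
      = (fun z => z + (1 / (2 * (D : ℝ))) • ∑ i, sg (ε i) • b i) '' ((1 / (4 * (D : ℝ))) • M) := by
    ext y
    simp only [mem_image, mem_smul_set]
    constructor
    · rintro ⟨z, hz, rfl⟩
      exact ⟨_, ⟨z, hz, rfl⟩, rfl⟩
    · rintro ⟨_, ⟨z, hz, rfl⟩, rfl⟩
      exact ⟨z, hz, rfl⟩
  rw [h1, image_add_right, measure_preimage_add_right, Measure.addHaar_smul, hfin]
  congr 2
  rw [abs_of_nonneg]
  positivity

end Pool.Agent.Lib_helper31.RP
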