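import Pool.Agent.Lib_helper31.RPCurv

open MeasureTheory Set Module
open scoped ENNReal NNReal Topology Pointwise RealInnerProductSpace

namespace Pool.Agent.Lib_helper31.RP

variable {F : Type*} [NormedAddCommGroup F] [InnerProductSpace ℝ F] [FiniteDimensional ℝ F]

theorem OB_closed (K : Set F) (κ : ℝ) : IsClosed {x | OB K κ x} := by
  have : ProperSpace F := FiniteDimensional.proper ℝ _
  have : CompactSpace (Metric.sphere (0 : F) 1) := isCompact_iff_compactSpace.1 (isCompact_sphere _ _)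
  have h : {x : F | OB K κ x} = Prod.fst '' {p : F × Metric.sphere (0 : F) 1 | ∀ y ∈ K, κ * ‖y - p.1‖ ^ 2 ≤ ⟪p.1 - y, (p.2 : F)⟫} := by
    ext x
    constructor
    · rintro ⟨n, hn, h⟩
      exact ⟨(x, ⟨n, by simpa using hn⟩), h, rfl⟩
    · rintro ⟨⟨x', n, hn⟩, h, rfl⟩
      exact ⟨n, by simpa using hn, h⟩
  rw [h]
  apply isClosedMap_fst_of_compactSpace
  simp only [ofPred_forall]
  apply isClosed_iInter
  intro y
  apply isClosed_iInter
  intro _
  apply isClosed_le
  · fun_prop
  · fun_prop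

theorem exists_patch {K : Set F} (hK : IsCompact K) (hne : (frontier K).Nonempty)
    (h : ∀ x ∈ frontier K, ∃ κ > 0, OB K κ x) :
    ∃ κ > 0, ∃ p ∈ frontier K, ∃ η > 0, ∀ q ∈ frontier K, dist q p < η → OB K κ q := by
  have hfc : IsCompact (frontier K) := hK.of_isClosed_subset isClosed_frontier hK.isClosed.frontier_subset
  have : CompactSpace (frontier K) := isCompact_iff_compactSpace.1 hfc
  have : Nonempty (frontier K) := hne.to_subtype
  let A : ℕ → Set (frontier K) := fun N => {x | OB K (1 / ((N:ℝ) + 1)) (x : F)}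
  have hA : ∀ N, IsClosed (A N) := fun N => (OB_closed K _).preimage continuous_subtype_val
  have hU : ⋃ N, A N = univ := by
    rw [eq_univ_iff_forall]
    rintro ⟨x, hx⟩
    obtain ⟨κ, hκ, n, hn, hy⟩ := h x hx
    obtain ⟨N, hN⟩ := exists_nat_one_div_lt hκ
    rw [mem_iUnion]
    refine ⟨N, n, hn, fun y hyK => le_trans ?_ (hy y hyK)⟩
    gcongr
  obtain ⟨N, ⟨p, hpK⟩, hp⟩ := nonempty_interior_of_iUnion_of_closed hA hU
  rw [mem_interior_iff_mem_nhds, Metric.mem_nhds_iff] at hp
  obtain ⟨η, hη, hball⟩ := hp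
  refine ⟨1 / ((N:ℝ) + 1), by positivity, p, hpK, η, hη, fun q hq hqp => ?_⟩
  have : (⟨q, hq⟩ : frontier K) ∈ Metric.ball (⟨p, hpK⟩ : frontier K) η := by
    rw [Metric.mem_ball]; exact hqp
  exact hball this

variable [MeasurableSpace F] [BorelSpace F]

/-- volume of a paraboloid cap -/
theorem cap_volume (hk : 0 < finrank ℝ F) {κ : ℝ} (hκ : 0 < κ) (x n : F) (hn : ‖n‖ = 1) {t : ℝ} (ht : 0 ≤ t) :
    (volume : Measure F) {y | κ * ‖y - x‖ ^ 2 ≤ ⟪x - y, n⟫ ∧ ⟪x - y, n⟫ ≤ t} ≤
      ENNReal.ofReal (2 ^ finrank ℝ F * (1 / κ) ^ (((finrank ℝ F : ℝ) - 1) / 2) * t ^ (((finrank ℝ F : ℝ) + 1) / 2)) := by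
  classical
  set k := finrank ℝ F with hkdef
  let i₀ : Fin k := ⟨0, hk⟩
  obtain ⟨b, hb⟩ := Orthonormal.exists_orthonormalBasis_extension_of_card_eq (𝕜 := ℝ) (E := F)
    (ι := Fin k) (by simp [hkdef]) (v := fun _ => n) (s := {i₀}) (by
      constructor
      · rintro ⟨i, hi⟩; exact hn
      · rintro ⟨i, hi⟩ ⟨j, hj⟩ hij
        exfalso; apply hij
        apply Subtype.ext
        rw [mem_singleton_iff] at hi hj
        simp only; rw [hi, hj])
  have hbi : b i₀ = n := hb i₀ rfl
  let side : Fin k → ℝ := fun i => if i = i₀ then t else √(t / κ)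
  have hside : ∀ i, 0 ≤ side i := by
    intro i
    by_cases hi : i = i₀
    · simp [side, hi, ht]
    · simp [side, hi]
  let Φ : F → (Fin k → ℝ) := fun y => WithLp.ofLp (b.repr (y - x))
  have hΦ : MeasurePreserving Φ (volume : Measure F) volume := by
    have h1 : MeasurePreserving (fun y : F => y - x) volume volume := by
      simp only [sub_eq_add_neg]
      exact measurePreserving_add_right volume (-x)
    exact ((PiLp.volume_preserving_ofLp (Fin k)).comp b.measurePreserving_repr).comp h1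
  have hsub : {y | κ * ‖y - x‖ ^ 2 ≤ ⟪x - y, n⟫ ∧ ⟪x - y, n⟫ ≤ t} ⊆
      Φ ⁻¹' (Set.pi univ (fun i => Icc (-side i) (side i))) := by
    rintro y ⟨hy1, hy2⟩
    intro i _
    rw [mem_Icc, ← abs_le]
    have hΦi : Φ y i = ⟪b i, y - x⟫ := b.repr_apply_apply (y - x) i
    rw [hΦi]
    have h0 : 0 ≤ ⟪x - y, n⟫ := le_trans (by positivity) hy1
    by_cases hi : i = i₀
    · simp only [side, hi, if_true, hbi]
      have : ⟪n, y - x⟫ = -⟪x - y, n⟫ := by
        rw [real_inner_comm, ← inner_neg_left]; congr 1; abel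
      rw [this, abs_neg, abs_of_nonneg h0]
      exact hy2
    · simp only [side, hi, if_false]
      have h1 : |⟪b i, y - x⟫| ≤ ‖y - x‖ := by
        have := abs_real_inner_le_norm (b i) (y - x)
        rwa [b.norm_eq_one, one_mul] at this
      refine h1.trans ?_
      apply Real.le_sqrt_of_sq_le
      rw [le_div_iff₀ hκ]
      linarith
  calc (volume : Measure F) {y | κ * ‖y - x‖ ^ 2 ≤ ⟪x - y, n⟫ ∧ ⟪x - y, n⟫ ≤ t}
      ≤ volume (Φ ⁻¹' (Set.pi univ (fun i => Icc (-side i) (side i)))) := measure_mono hsub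
    _ = volume (Set.pi univ (fun i => Icc (-side i) (side i))) :=
        hΦ.measure_preimage (MeasurableSet.univ_pi (fun i => measurableSet_Icc)).nullMeasurableSet
    _ = ∏ i, ENNReal.ofReal (2 * side i) := by
        rw [volume_pi_pi]
        apply Finset.prod_congr rfl
        intro i _
        rw [Real.volume_Icc]; congr 1; ring
    _ = ENNReal.ofReal (∏ i, (2 * side i)) := by
        rw [ENNReal.ofReal_prod_of_nonneg]
        intro i _
        have := hside i
        positivity
    _ = _ := by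
        congr 1
        rw [Finset.prod_mul_distrib, Finset.prod_const, Finset.card_univ, Fintype.card_fin]
        rw [← Finset.mul_prod_erase Finset.univ side (Finset.mem_univ i₀)]
        have h1 : ∏ i ∈ Finset.univ.erase i₀, side i = (√(t / κ)) ^ (k - 1) := by
          rw [Finset.prod_congr rfl (g := fun _ => √(t / κ))]
          · rw [Finset.prod_const, Finset.card_erase_of_mem (Finset.mem_univ _), Finset.card_univ, Fintype.card_fin]
          · intro i hi
            simp [side, Finset.ne_of_mem_erase hi]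
        rw [h1]
        have h2 : side i₀ = t := by simp [side]
        rw [h2]
        have hk1 : ((k - 1 : ℕ) : ℝ) = (k:ℝ) - 1 := by
          rw [Nat.cast_sub hk]; simp
        have h3 : (√(t / κ)) ^ (k - 1) = (1 / κ) ^ (((k:ℝ) - 1) / 2) * t ^ (((k:ℝ) - 1) / 2) := by
          rw [Real.sqrt_eq_rpow, ← Real.rpow_natCast, ← Real.rpow_mul (by positivity), hk1,
            ← Real.mul_rpow (by positivity) ht]
          congr 1 <;> ring
        rw [h3]
        rcases eq_or_lt_of_le ht with h0 | h0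
        · rw [← h0, Real.zero_rpow (x := ((k:ℝ) + 1) / 2) (by positivity)]; ring
        · have h4 : t * t ^ (((k:ℝ) - 1) / 2) = t ^ (((k:ℝ) + 1) / 2) := by
            nth_rewrite 1 [← Real.rpow_one t]
            rw [← Real.rpow_add h0]; congr 1; ring
          calc (2:ℝ) ^ k * (t * ((1 / κ) ^ (((k:ℝ) - 1) / 2) * t ^ (((k:ℝ) - 1) / 2)))
              = 2 ^ k * (1 / κ) ^ (((k:ℝ) - 1) / 2) * (t * t ^ (((k:ℝ) - 1) / 2)) := by ring
            _ = _ := by rw [h4]

end Pool.Agent.Lib_helper31.RP
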