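import Pool.Agent.Lib_helper31.RPLower

open MeasureTheory Set ProbabilityTheory Module
open scoped ENNReal Topology Pointwise

namespace Pool.Agent.Lib_helper31.RP

variable {E : Type*} [NormedAddCommGroup E] [NormedSpace ℝ E] [FiniteDimensional ℝ E]
variable {ι : Type*} [Fintype ι]
variable [MeasurableSpace E] [BorelSpace E] (μ : Measure E) [μ.IsAddHaarMeasure]

theorem mac_meas (K : Set E) (hK : IsClosed K) : Measurable (fun x => μ (mac K x)) := by
  have h : MeasurableSet {p : E × E | p.1 + p.2 ∈ K ∧ p.1 - p.2 ∈ K} :=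
    ((hK.preimage (by fun_prop : Continuous fun p : E × E => p.1 + p.2)).inter
      (hK.preimage (by fun_prop : Continuous fun p : E × E => p.1 - p.2))).measurableSet
  exact measurable_measure_prodMk_left h

/-- substitution in the first coordinate -/
theorem lintegral_subst (G : E → ℝ≥0∞) (hG : Measurable G) (r : ℝ) (hr : 0 < r) (s : E) :
    ∫⁻ y, G y ∂μ = ENNReal.ofReal (r ^ finrank ℝ E) * ∫⁻ x, G (r • x - s) ∂μ := by
  have h1 : ∫⁻ x, G (r • x - s) ∂μ = ∫⁻ x, G (r • x) ∂μ := by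
    have := lintegral_sub_right_eq_self (μ := μ) (fun x => G (r • x)) (r⁻¹ • s)
    rw [← this]
    apply lintegral_congr
    intro x
    rw [smul_sub, smul_smul, mul_inv_cancel₀ hr.ne', one_smul]
  have h2 : ∫⁻ x, G (r • x) ∂μ = ENNReal.ofReal |(r ^ finrank ℝ E)⁻¹| * ∫⁻ y, G y ∂μ := by
    have hm := Measure.map_addHaar_smul μ hr.ne'
    calc ∫⁻ x, G (r • x) ∂μ = ∫⁻ y, G y ∂(Measure.map (fun x => r • x) μ) := by
          rw [lintegral_map hG (by fun_prop)]
      _ = _ := by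
          rw [hm, lintegral_smul_measure, smul_eq_mul]
  rw [h1, h2, ← mul_assoc, ← ENNReal.ofReal_mul (by positivity)]
  have : r ^ finrank ℝ E * |(r ^ finrank ℝ E)⁻¹| = 1 := by
    rw [abs_of_pos (by positivity)]
    field_simp
  rw [this]; simp

omit [FiniteDimensional ℝ E] [MeasurableSpace E] [BorelSpace E] in
theorem mem_mac_of_centroid {K : Set E} (hconv : Convex ℝ K) {j : ℕ} {Z : Fin j → E} {x : E}
    (hZ : ∀ k, Z k ∈ K) (hy : ((j : ℝ) + 1) • x - ∑ k, Z k ∈ K) :
    x ∈ K ∧ ∀ k, Z k - x ∈ (j : ℝ) • mac K x := by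
  have hj1 : (0:ℝ) < (j:ℝ) + 1 := by positivity
  have hx : x ∈ K := by
    have h1 : x = ∑ i : Option (Fin j), (1 / ((j:ℝ) + 1)) • (Option.elim i (((j : ℝ) + 1) • x - ∑ k, Z k) Z) := by
      rw [Fintype.sum_option]
      simp only [Option.elim]
      rw [← Finset.smul_sum, ← smul_add, sub_add_cancel, smul_smul]
      rw [one_div, inv_mul_cancel₀ hj1.ne', one_smul]
    rw [h1]
    apply hconv.sum_mem
    · intro i _; positivity
    · simp
      field_simp
    · intro i _
      cases i with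
      | none => exact hy
      | some k => exact hZ k
  refine ⟨hx, fun k => ?_⟩
  have hj : 0 < j := k.pos
  have hjr : (0:ℝ) < j := by exact_mod_cast hj
  refine ⟨(1 / (j:ℝ)) • (Z k - x), ⟨?_, ?_⟩, ?_⟩
  · have := hconv hx (hZ k) (a := 1 - 1 / (j:ℝ)) (b := 1 / (j:ℝ)) ?_ (by positivity) (by ring)
    · convert this using 1
      rw [sub_smul, one_smul, smul_sub]
      abel
    · rw [sub_nonneg, div_le_one hjr]
      exact_mod_cast hj
  · have h1 : x - (1 / (j:ℝ)) • (Z k - x) = ∑ i : Fin j, (1 / (j:ℝ)) • (if i = k then (((j : ℝ) + 1) • x - ∑ k, Z k) else Z i) := by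
      rw [← Finset.smul_sum]
      have h2 : ∑ i : Fin j, (if i = k then (((j : ℝ) + 1) • x - ∑ k, Z k) else Z i) = ((j:ℝ) + 1) • x - Z k := by
        rw [Finset.sum_ite, Finset.filter_eq']
        simp only [Finset.mem_univ, if_true, Finset.sum_singleton]
        have h3 : ∑ i ∈ Finset.univ.filter (fun i => ¬ i = k), Z i = ∑ i, Z i - Z k := by
          rw [eq_sub_iff_add_eq, ← Finset.sum_filter_add_sum_filter_not Finset.univ (fun i => ¬ i = k) Z]
          simp [Finset.filter_eq']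
        rw [h3]; abel
      rw [h2, smul_sub, smul_sub, smul_smul]
      have h4 : (1 / (j:ℝ)) * ((j:ℝ) + 1) = 1 + 1 / j := by field_simp
      rw [h4, add_smul, one_smul]
      abel
    rw [h1]
    apply hconv.sum_mem
    · intro i _; positivity
    · simp
      field_simp
    · intro i _
      by_cases hik : i = k
      · simp only [hik, if_true]; exact hy
      · simp only [hik, if_false]; exact hZ i
  · simp only
    rw [smul_smul, mul_one_div_cancel hjr.ne', one_smul]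

theorem centroid_fin {K : Set E} (hK : IsCompact K) (hconv : Convex ℝ K) (h0 : μ K ≠ 0) (j : ℕ)
    (φ : E → ℝ≥0∞) (hφ : Measurable φ) :
    ∫⁻ Y : Fin (j + 1) → E, φ ((1 / ((j:ℝ) + 1)) • ∑ k, Y k) ∂(Measure.pi fun _ => cond μ K) ≤
      ENNReal.ofReal (((j:ℝ) + 1) ^ finrank ℝ E) * ((μ K)⁻¹ *
        ∫⁻ x in K, φ x * ((μ K)⁻¹ * (ENNReal.ofReal ((j:ℝ) ^ finrank ℝ E) * μ (mac K x))) ^ j ∂μ) := by
  classical
  have hP : IsProbabilityMeasure (cond μ K) := cond_isProbabilityMeasure_of_finite h0 hK.measure_lt_top.ne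
  have hj1 : (0:ℝ) < (j:ℝ) + 1 := by positivity
  have hmp := measurePreserving_piFinSuccAbove (fun _ : Fin (j + 1) => cond μ K) 0
  set ν := cond μ K with hν
  have hKm := hK.measurableSet
  -- step 1: split off first coordinate
  have s1 : ∫⁻ Y : Fin (j + 1) → E, φ ((1 / ((j:ℝ) + 1)) • ∑ k, Y k) ∂(Measure.pi fun _ => ν) =
      ∫⁻ Z : Fin j → E, ∫⁻ y, φ ((1 / ((j:ℝ) + 1)) • (y + ∑ k, Z k)) ∂ν ∂(Measure.pi fun _ => ν) := by
    have hmeas : Measurable (fun p : E × (Fin j → E) => φ ((1 / ((j:ℝ) + 1)) • (p.1 + ∑ k, p.2 k))) := by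
      fun_prop
    rw [← lintegral_prod_symm _ hmeas.aemeasurable, ← hmp.lintegral_comp hmeas]
    apply lintegral_congr
    intro Y
    rw [Fin.sum_univ_succ]
    rfl
  -- step 2: substitution
  have s2 : ∀ Z : Fin j → E, ∫⁻ y, φ ((1 / ((j:ℝ) + 1)) • (y + ∑ k, Z k)) ∂ν =
      ENNReal.ofReal (((j:ℝ) + 1) ^ finrank ℝ E) * ((μ K)⁻¹ *
        ∫⁻ x, φ x * K.indicator 1 (((j:ℝ) + 1) • x - ∑ k, Z k) ∂μ) := by
    intro Z
    have h1 : ∫⁻ y, φ ((1 / ((j:ℝ) + 1)) • (y + ∑ k, Z k)) ∂ν =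
        (μ K)⁻¹ * ∫⁻ y, K.indicator 1 y * φ ((1 / ((j:ℝ) + 1)) • (y + ∑ k, Z k)) ∂μ := by
      rw [hν, ProbabilityTheory.cond, lintegral_smul_measure, smul_eq_mul, ← lintegral_indicator hKm]
      congr 1
      apply lintegral_congr
      intro y
      by_cases hy : y ∈ K <;> simp [indicator, hy]
    rw [h1, lintegral_subst μ _ _ _ hj1 (∑ k, Z k)]
    · rw [← mul_assoc, ← mul_assoc, mul_comm (μ K)⁻¹]
      congr 1
      apply lintegral_congr
      intro x
      rw [sub_add_cancel, smul_smul, one_div, inv_mul_cancel₀ hj1.ne', one_smul, mul_comm]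
    · exact (measurable_one.indicator hKm).mul (by fun_prop)
  rw [s1]
  simp only [s2]
  have hmeas2 : Measurable (fun p : (Fin j → E) × E => φ p.2 * K.indicator (1 : E → ℝ≥0∞) (((j:ℝ) + 1) • p.2 - ∑ k, p.1 k)) := by
    apply (hφ.comp measurable_snd).mul
    exact (measurable_one.indicator hKm).comp (by fun_prop)
  have hmeas3 : Measurable (fun Z : Fin j → E => ∫⁻ x, φ x * K.indicator (1 : E → ℝ≥0∞) (((j:ℝ) + 1) • x - ∑ k, Z k) ∂μ) :=
    hmeas2.lintegral_prod_right'
  rw [lintegral_const_mul _ (hmeas3.const_mul _), lintegral_const_mul _ hmeas3]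
  gcongr
  rw [lintegral_lintegral_swap hmeas2.aemeasurable, ← lintegral_indicator hKm]
  apply lintegral_mono
  intro x
  have hmeas4 : Measurable (fun Z : Fin j → E => K.indicator (1 : E → ℝ≥0∞) (((j:ℝ) + 1) • x - ∑ k, Z k)) :=
    (measurable_one.indicator hKm).comp (by fun_prop)
  simp only
  rw [lintegral_const_mul _ hmeas4]
  have hM : IsCompact ((j:ℝ) • mac K x) := (mac_compact hK x).smul _
  set A : Set E := (fun z => z - x) ⁻¹' ((j:ℝ) • mac K x) with hA
  have hAm : MeasurableSet A := hM.measurableSet.preimage (by fun_prop)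
  have hνA : ν A ≤ (μ K)⁻¹ * (ENNReal.ofReal ((j:ℝ) ^ finrank ℝ E) * μ (mac K x)) := by
    rw [hν, cond_apply hKm]
    gcongr
    calc μ (K ∩ A) ≤ μ A := measure_mono inter_subset_right
      _ = μ ((j:ℝ) • mac K x) := by
        rw [hA]
        simp only [sub_eq_add_neg]
        exact measure_preimage_add_right μ (-x) _
      _ = _ := by
        rw [Measure.addHaar_smul, abs_of_nonneg (by positivity)]
  have hbound : ∫⁻ Z : Fin j → E, K.indicator (1 : E → ℝ≥0∞) (((j:ℝ) + 1) • x - ∑ k, Z k) ∂(Measure.pi fun _ => ν) ≤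
      K.indicator 1 x * (ν A) ^ j := by
    have h1 : ∫⁻ Z : Fin j → E, K.indicator (1 : E → ℝ≥0∞) (((j:ℝ) + 1) • x - ∑ k, Z k) ∂(Measure.pi fun _ => ν) ≤
        ∫⁻ Z : Fin j → E, K.indicator 1 x * (Set.pi univ (fun _ : Fin j => A)).indicator 1 Z ∂(Measure.pi fun _ => ν) := by
      apply lintegral_mono_ae
      filter_upwards [ae_mem (ι := Fin j) μ hK h0] with Z hZ
      by_cases hy : ((j:ℝ) + 1) • x - ∑ k, Z k ∈ K
      · obtain ⟨h1, h2⟩ := mem_mac_of_centroid hconv hZ hy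
        have h3 : Z ∈ Set.pi univ (fun _ : Fin j => A) := fun k _ => h2 k
        rw [indicator_of_mem hy, indicator_of_mem h1, indicator_of_mem h3]
        simp
      · rw [indicator_of_notMem hy]
        exact zero_le
    refine h1.trans ?_
    rw [lintegral_const_mul _ (measurable_one.indicator (MeasurableSet.univ_pi (fun _ => hAm))),
      lintegral_indicator_one (MeasurableSet.univ_pi (fun _ => hAm)), Measure.pi_pi]
    simp
  calc φ x * ∫⁻ Z : Fin j → E, K.indicator (1 : E → ℝ≥0∞) (((j:ℝ) + 1) • x - ∑ k, Z k) ∂(Measure.pi fun _ => ν)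
      ≤ φ x * (K.indicator 1 x * (ν A) ^ j) := by gcongr
    _ ≤ φ x * (K.indicator 1 x * ((μ K)⁻¹ * (ENNReal.ofReal ((j:ℝ) ^ finrank ℝ E) * μ (mac K x))) ^ j) := by gcongr
    _ = K.indicator (fun x => φ x * ((μ K)⁻¹ * (ENNReal.ofReal ((j:ℝ) ^ finrank ℝ E) * μ (mac K x))) ^ j) x := by
      by_cases hx : x ∈ K <;> simp [indicator, hx]

end Pool.Agent.Lib_helper31.RP
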