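import Mathlib

open MeasureTheory Set Function
open scoped ENNReal NNReal Topology

namespace Pool.Agent.Lib_helper31.RP

theorem lower_compare {ν ρ : Measure ℝ≥0} {C : ℝ≥0∞}
    (h : ∀ s : ℝ≥0, ν (Iic s) ≤ C * ρ (Iic s)) {L : Set ℝ≥0} (hL : IsLowerSet L) :
    ν L ≤ C * ρ L := by
  by_cases hmax : ∃ s ∈ L, ∀ x ∈ L, x ≤ s
  · obtain ⟨s, hs, hmax⟩ := hmax
    have : L = Iic s := by
      ext x
      exact ⟨fun hx => hmax x hx, fun hx => hL hx hs⟩
    rw [this]; exact h s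
  · push Not at hmax
    obtain ⟨D, hDc, hDd⟩ := TopologicalSpace.exists_countable_dense ℝ≥0
    have hcover : L = ⋃ q ∈ D ∩ L, Iic q := by
      ext x
      simp only [mem_iUnion, mem_Iic, exists_prop]
      constructor
      · intro hx
        obtain ⟨y, hy, hxy⟩ := hmax x hx
        obtain ⟨q, hq, hxq, hqy⟩ := hDd.exists_between hxy
        exact ⟨q, ⟨hq, hL hqy.le hy⟩, hxq.le⟩
      · rintro ⟨q, ⟨_, hq⟩, hxq⟩
        exact hL hxq hq
    have hdir : DirectedOn ((· ⊆ ·) on (fun q : ℝ≥0 => Iic q)) (D ∩ L) := by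
      intro a ha b hb
      rcases le_total a b with hab | hab
      · exact ⟨b, hb, Iic_subset_Iic.2 hab, Iic_subset_Iic.2 le_rfl⟩
      · exact ⟨a, ha, Iic_subset_Iic.2 le_rfl, Iic_subset_Iic.2 hab⟩
    have h1 : ν L = ⨆ q ∈ D ∩ L, ν (Iic q) := by
      conv_lhs => rw [hcover]
      exact measure_biUnion_eq_iSup (hDc.mono inter_subset_left) hdir
    rw [h1]
    apply iSup₂_le
    intro q hq
    refine (h q).trans ?_
    gcongr
    intro x hx
    exact hL hx hq.2

theorem lintegral_layer {α : Type*} [MeasurableSpace α] (ν : Measure α) [SFinite ν] {φ : α → ℝ≥0∞}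
    (hφ : Measurable φ) : ∫⁻ x, φ x ∂ν = ∫⁻ r in Ioi (0:ℝ), ν {x | ENNReal.ofReal r < φ x} := by
  have h1 : ∀ a : ℝ≥0∞, ∫⁻ r in Ioi (0:ℝ), {r | ENNReal.ofReal r < a}.indicator 1 r = a := by
    intro a
    have hm : MeasurableSet {r : ℝ | ENNReal.ofReal r < a} := measurableSet_lt (by fun_prop) (by fun_prop)
    rw [lintegral_indicator_one hm, Measure.restrict_apply hm]
    by_cases ha : a = ⊤
    · subst ha
      have : {r : ℝ | ENNReal.ofReal r < ⊤} ∩ Ioi 0 = Ioi 0 := by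
        ext r; simp
      rw [this]; simp
    · have : {r : ℝ | ENNReal.ofReal r < a} ∩ Ioi 0 = Ioo 0 a.toReal := by
        ext r
        simp only [mem_inter_iff, mem_ofPred_eq, mem_Ioi, mem_Ioo]
        constructor
        · rintro ⟨h1, h2⟩
          refine ⟨h2, ?_⟩
          rwa [ENNReal.ofReal_lt_iff_lt_toReal h2.le ha] at h1
        · rintro ⟨h1, h2⟩
          refine ⟨?_, h1⟩
          rwa [ENNReal.ofReal_lt_iff_lt_toReal h1.le ha]
      rw [this, Real.volume_Ioo, sub_zero, ENNReal.ofReal_toReal ha]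
  have hms : MeasurableSet {p : α × ℝ | ENNReal.ofReal p.2 < φ p.1} :=
    measurableSet_lt (by fun_prop) (by fun_prop)
  calc ∫⁻ x, φ x ∂ν = ∫⁻ x, (∫⁻ r in Ioi (0:ℝ), {p : α × ℝ | ENNReal.ofReal p.2 < φ p.1}.indicator 1 (x, r)) ∂ν := by
        apply lintegral_congr
        intro x
        exact (h1 (φ x)).symm
    _ = ∫⁻ r in Ioi (0:ℝ), (∫⁻ x, {p : α × ℝ | ENNReal.ofReal p.2 < φ p.1}.indicator 1 (x, r) ∂ν) := by
        rw [lintegral_lintegral_swap]
        exact (measurable_one.indicator hms).aemeasurable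
    _ = _ := by
        apply lintegral_congr
        intro r
        have : (fun x => {p : α × ℝ | ENNReal.ofReal p.2 < φ p.1}.indicator (1 : α × ℝ → ℝ≥0∞) (x, r)) =
            {x | ENNReal.ofReal r < φ x}.indicator 1 := by
          ext x; simp [indicator]
        rw [this, lintegral_indicator_one (measurableSet_lt (by fun_prop) hφ)]

theorem one_compare {ν ρ : Measure ℝ≥0} [SFinite ν] [SFinite ρ] {C : ℝ≥0∞}
    (h : ∀ s : ℝ≥0, ν (Iic s) ≤ C * ρ (Iic s)) {φ : ℝ≥0 → ℝ≥0∞} (hφ : Antitone φ) :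
    ∫⁻ x, φ x ∂ν ≤ C * ∫⁻ x, φ x ∂ρ := by
  rw [lintegral_layer ν hφ.measurable, lintegral_layer ρ hφ.measurable, ← lintegral_const_mul]
  · apply lintegral_mono
    intro r
    apply lower_compare h
    intro x y hxy hx
    exact lt_of_lt_of_le hx (hφ hxy)
  · have : Antitone (fun r : ℝ => ρ {x | ENNReal.ofReal r < φ x}) := by
      intro a b hab
      apply measure_mono
      intro x hx
      exact lt_of_le_of_lt (ENNReal.ofReal_le_ofReal hab) hx
    exact this.measurable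

theorem prod_compare (m : ℕ) (ν ρ : Fin m → Measure ℝ≥0) [∀ i, IsFiniteMeasure (ν i)]
    [∀ i, IsFiniteMeasure (ρ i)] (C : Fin m → ℝ≥0∞)
    (h : ∀ i, ∀ s : ℝ≥0, ν i (Iic s) ≤ C i * ρ i (Iic s)) (φ : (Fin m → ℝ≥0) → ℝ≥0∞)
    (hφ : Antitone φ) (hm : Measurable φ) :
    ∫⁻ y, φ y ∂(Measure.pi ν) ≤ (∏ i, C i) * ∫⁻ y, φ y ∂(Measure.pi ρ) := by
  induction m with
  | zero =>
    simp only [Finset.univ_eq_empty, Finset.prod_empty, one_mul]
    have : ν = ρ := by ext i; exact i.elim0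
    rw [this]
  | succ m ih =>
    have hν := measurePreserving_piFinSuccAbove ν 0
    have hρ := measurePreserving_piFinSuccAbove ρ 0
    let e := MeasurableEquiv.piFinSuccAbove (fun _ : Fin (m + 1) => ℝ≥0) 0
    have hanti : ∀ p q : ℝ≥0 × (Fin m → ℝ≥0), p ≤ q → φ (e.symm q) ≤ φ (e.symm p) := by
      intro p q hpq
      apply hφ
      intro i
      refine Fin.cases ?_ (fun i => ?_) i
      · exact hpq.1
      · exact hpq.2 i
    have hme : Measurable (fun p : ℝ≥0 × (Fin m → ℝ≥0) => φ (e.symm p)) := hm.comp e.symm.measurable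
    have h1 : ∫⁻ y, φ y ∂(Measure.pi ν) = ∫⁻ a, ∫⁻ z, φ (e.symm (a, z)) ∂(Measure.pi fun j => ν (Fin.succAbove 0 j)) ∂(ν 0) := by
      rw [← lintegral_prod _ hme.aemeasurable, ← hν.lintegral_comp hme]
      apply lintegral_congr
      intro y
      exact congrArg φ (e.symm_apply_apply y).symm
    have h2 : ∫⁻ y, φ y ∂(Measure.pi ρ) = ∫⁻ a, ∫⁻ z, φ (e.symm (a, z)) ∂(Measure.pi fun j => ρ (Fin.succAbove 0 j)) ∂(ρ 0) := by
      rw [← lintegral_prod _ hme.aemeasurable, ← hρ.lintegral_comp hme]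
      apply lintegral_congr
      intro y
      exact congrArg φ (e.symm_apply_apply y).symm
    rw [h1, h2, Fin.prod_univ_succ]
    have hanti2 : Antitone (fun a => ∫⁻ z, φ (e.symm (a, z)) ∂(Measure.pi fun j => ρ (Fin.succAbove 0 j))) := by
      intro a b hab
      apply lintegral_mono
      intro z
      exact hanti _ _ ⟨hab, le_rfl⟩
    calc ∫⁻ a, ∫⁻ z, φ (e.symm (a, z)) ∂(Measure.pi fun j => ν (Fin.succAbove 0 j)) ∂(ν 0)
        ≤ ∫⁻ a, (∏ i : Fin m, C i.succ) * ∫⁻ z, φ (e.symm (a, z)) ∂(Measure.pi fun j => ρ (Fin.succAbove 0 j)) ∂(ν 0) := by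
          apply lintegral_mono
          intro a
          apply ih (fun j => ν (Fin.succAbove 0 j)) (fun j => ρ (Fin.succAbove 0 j)) (fun i => C i.succ)
            (fun i s => h i.succ s)
          · intro z z' hz
            exact hanti _ _ ⟨le_rfl, hz⟩
          · exact hme.comp measurable_prodMk_left
      _ = (∏ i : Fin m, C i.succ) * ∫⁻ a, ∫⁻ z, φ (e.symm (a, z)) ∂(Measure.pi fun j => ρ (Fin.succAbove 0 j)) ∂(ν 0) := by
          rw [lintegral_const_mul _ hanti2.measurable]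
      _ ≤ (∏ i : Fin m, C i.succ) * (C 0 * ∫⁻ a, ∫⁻ z, φ (e.symm (a, z)) ∂(Measure.pi fun j => ρ (Fin.succAbove 0 j)) ∂(ρ 0)) := by
          gcongr
          exact one_compare (h 0) hanti2
      _ = _ := by ring

end Pool.Agent.Lib_helper31.RP
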