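import Mathlib

open MeasureTheory Set Module
open scoped ENNReal NNReal Topology Pointwise RealInnerProductSpace

namespace Pool.Agent.Lib_helper31.RP

variable {F : Type*} [NormedAddCommGroup F] [InnerProductSpace ℝ F] [FiniteDimensional ℝ F]

omit [FiniteDimensional ℝ F] in
/-- second order Taylor expansion with derivative differentiable at the point only -/
theorem taylor_two {g : F → ℝ} {x : F} (h1 : ∀ᶠ y in 𝓝 x, DifferentiableAt ℝ g y)
    (h2 : DifferentiableAt ℝ (fderiv ℝ g) x) {e : ℝ} (he : 0 < e) :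
    ∃ δ > 0, ∀ w : F, ‖w‖ < δ →
      |g (x + w) - g x - fderiv ℝ g x w - (1 / 2) * fderiv ℝ (fderiv ℝ g) x w w| ≤ e * ‖w‖ ^ 2 := by
  set L := fderiv ℝ g x with hL
  set B := fderiv ℝ (fderiv ℝ g) x with hB
  have hsymm : ∀ v w, B v w = B w v := by
    intro v w
    apply second_derivative_symmetric_of_eventually (f := g) (f' := fderiv ℝ g) (x := x)
    · filter_upwards [h1] with y hy using hy.hasFDerivAt
    · exact h2.hasFDerivAt
  -- derivative estimate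
  have h3 := h2.hasFDerivAt
  rw [hasFDerivAt_iff_isLittleO_nhds_zero] at h3
  have h4 := h3.def he
  rw [Metric.eventually_nhds_iff] at h4
  obtain ⟨δ₁, hδ₁, h4⟩ := h4
  rw [Metric.eventually_nhds_iff] at h1
  obtain ⟨δ₂, hδ₂, h1⟩ := h1
  refine ⟨min δ₁ δ₂, lt_min hδ₁ hδ₂, fun w hw => ?_⟩
  let h : F → ℝ := fun v => g (x + v) - g x - L v - (1 / 2) * B v v
  let h' : F → F →L[ℝ] ℝ := fun v => fderiv ℝ g (x + v) - L - B v
  have hder : ∀ v ∈ Metric.closedBall (0:F) ‖w‖, HasFDerivWithinAt h (h' v) (Metric.closedBall (0:F) ‖w‖) v := by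
    intro v hv
    rw [mem_closedBall_zero_iff] at hv
    have hd : HasFDerivAt g (fderiv ℝ g (x + v)) (x + v) := by
      apply DifferentiableAt.hasFDerivAt
      apply h1
      rw [dist_eq_norm, add_sub_cancel_left]
      exact lt_of_le_of_lt hv (hw.trans_le (min_le_right _ _))
    have hd1 : HasFDerivAt (fun v => g (x + v)) (fderiv ℝ g (x + v)) v :=
      (hasFDerivAt_comp_add_left x).2 hd
    have hd2 : HasFDerivAt (fun v => B v v) (B.flip v + B v) v := by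
      have h5 := (B.hasFDerivAt (x := v)).clm_apply (hasFDerivAt_id v)
      have e5 : (B v).comp (ContinuousLinearMap.id ℝ F) + B.flip (id v) = B.flip v + B v := by
        ext u
        simp [add_comm]
      rw [e5] at h5
      exact h5
    have hd3 : HasFDerivAt h (fderiv ℝ g (x + v) - L - (1 / 2 : ℝ) • (B.flip v + B v)) v := by
      have := ((hd1.sub_const (g x)).sub L.hasFDerivAt).sub (hd2.const_mul (1 / 2))
      exact this
    have hflip : B.flip v = B v := by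
      ext u
      simp only [ContinuousLinearMap.flip_apply]
      exact hsymm u v
    have : fderiv ℝ g (x + v) - L - (1 / 2 : ℝ) • (B.flip v + B v) = h' v := by
      rw [hflip, ← two_smul ℝ (B v), smul_smul]
      norm_num
      rfl
    rw [this] at hd3
    exact hd3.hasFDerivWithinAt
  have hbound : ∀ v ∈ Metric.closedBall (0:F) ‖w‖, ‖h' v‖ ≤ e * ‖w‖ := by
    intro v hv
    rw [mem_closedBall_zero_iff] at hv
    have h5 := h4 (y := v) (by
      rw [dist_zero_right]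
      exact lt_of_le_of_lt hv (hw.trans_le (min_le_left _ _)))
    refine h5.trans ?_
    exact mul_le_mul_of_nonneg_left hv he.le
  have h6 := (convex_closedBall (0:F) ‖w‖).norm_image_sub_le_of_norm_hasFDerivWithin_le hder hbound
    (x := 0) (y := w) (by simp) (by simp)
  have h7 : h 0 = 0 := by simp [h]
  rw [h7, sub_zero, sub_zero] at h6
  rw [Real.norm_eq_abs] at h6
  calc _ = |h w| := rfl
    _ ≤ e * ‖w‖ * ‖w‖ := h6
    _ = _ := by ring

/-- a positive definite form on a subspace given as a kernel is coercive there -/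
theorem coercive_on_ker (L : F →L[ℝ] ℝ) (B : F →L[ℝ] F →L[ℝ] ℝ)
    (h : ∀ v, v ≠ 0 → L v = 0 → 0 < B v v) :
    ∃ κ > 0, ∀ v, L v = 0 → κ * ‖v‖ ^ 2 ≤ B v v := by
  let S : Set F := Metric.sphere 0 1 ∩ {v | L v = 0}
  have hS : IsCompact S := (isCompact_sphere _ _).inter_right (isClosed_eq L.continuous continuous_const)
  rcases S.eq_empty_or_nonempty with hSe | hSne
  · refine ⟨1, one_pos, fun v hv => ?_⟩
    have hv0 : v = 0 := by
      by_contra hne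
      have hmem : (1 / ‖v‖) • v ∈ S := by
        refine ⟨?_, ?_⟩
        · rw [mem_sphere_zero_iff_norm, norm_smul, Real.norm_eq_abs, abs_of_pos (by positivity)]
          have : ‖v‖ ≠ 0 := norm_ne_zero_iff.2 hne
          field_simp
        · simp [hv]
      rw [hSe] at hmem
      exact hmem
    rw [hv0]; simp
  · have hcont : ContinuousOn (fun v => B v v) S := by
      have : Continuous (fun v => B v v) := by fun_prop
      exact this.continuousOn
    obtain ⟨v₀, hv₀, hmin⟩ := hS.exists_isMinOn hSne hcont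
    have hv₀ne : v₀ ≠ 0 := by
      intro h0
      have := hv₀.1
      rw [h0] at this
      simp at this
    refine ⟨B v₀ v₀, h v₀ hv₀ne hv₀.2, fun v hv => ?_⟩
    by_cases hv0 : v = 0
    · rw [hv0]; simp
    · have hn : ‖v‖ ≠ 0 := norm_ne_zero_iff.2 hv0
      have hmem : (1 / ‖v‖) • v ∈ S := by
        refine ⟨?_, ?_⟩
        · rw [mem_sphere_zero_iff_norm, norm_smul, Real.norm_eq_abs, abs_of_pos (by positivity)]
          field_simp
        · simp [hv]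
      have h1 := hmin hmem
      change B v₀ v₀ ≤ B ((1 / ‖v‖) • v) ((1 / ‖v‖) • v) at h1
      have h2 : B ((1 / ‖v‖) • v) ((1 / ‖v‖) • v) = (1 / ‖v‖) ^ 2 * B v v := by
        simp only [map_smul, _root_.smul_apply, smul_eq_mul]
        ring
      rw [h2] at h1
      calc B v₀ v₀ * ‖v‖ ^ 2 ≤ ((1 / ‖v‖) ^ 2 * B v v) * ‖v‖ ^ 2 := by gcongr
        _ = B v v := by field_simp

/-- outer paraboloid condition at `x` with constant `κ` -/
def OB (K : Set F) (κ : ℝ) (x : F) : Prop :=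
  ∃ n : F, ‖n‖ = 1 ∧ ∀ y ∈ K, κ * ‖y - x‖ ^ 2 ≤ ⟪x - y, n⟫

omit [FiniteDimensional ℝ F] in
theorem quad_lower {n : F} (hnn : ‖n‖ = 1) (B : F →L[ℝ] F →L[ℝ] ℝ) {κ₀ : ℝ} (hκ₀ : 0 < κ₀)
    (hcoer : ∀ v, ⟪n, v⟫ = 0 → κ₀ * ‖v‖ ^ 2 ≤ B v v) (w : F) :
    κ₀ * ‖w‖ ^ 2 - (κ₀ + 3 * ‖B‖) * |⟪n, w⟫| * ‖w‖ ≤ B w w := by
  obtain ⟨b, hb⟩ : ∃ b, b = ‖B‖ := ⟨_, rfl⟩
  have hb0 : 0 ≤ b := by rw [hb]; exact norm_nonneg B
  have hBle : ∀ u v, |B u v| ≤ b * ‖u‖ * ‖v‖ := fun u v => by rw [hb]; exact B.le_opNorm₂ u v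
  rw [← hb]
  obtain ⟨s, hs⟩ : ∃ s, s = ⟪n, w⟫ := ⟨_, rfl⟩
  rw [← hs]
  have hsle : |s| ≤ ‖w‖ := by
    have := abs_real_inner_le_norm n w
    rwa [hnn, one_mul, ← hs] at this
  obtain ⟨wT, hwT⟩ : ∃ wT, wT = w - s • n := ⟨_, rfl⟩
  have hn1 : ⟪n, n⟫ = 1 := by rw [real_inner_self_eq_norm_sq, hnn]; norm_num
  have hLT : ⟪n, wT⟫ = 0 := by
    rw [hwT, inner_sub_right, inner_smul_right, hn1, ← hs]; ring
  have hc := hcoer wT hLT
  have hwTn : ‖wT‖ ^ 2 = ‖w‖ ^ 2 - s ^ 2 := by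
    have hwn : ⟪w, n⟫ = s := by rw [real_inner_comm]; exact hs.symm
    rw [← real_inner_self_eq_norm_sq, ← real_inner_self_eq_norm_sq, hwT]
    simp only [inner_sub_left, inner_sub_right, inner_smul_left, inner_smul_right, hn1, conj_trivial]
    rw [hwn, ← hs]; ring
  have hdec : B w w = B wT wT + s * B n wT + s * B wT n + s ^ 2 * B n n := by
    have hw : w = wT + s • n := by rw [hwT]; abel
    conv_lhs => rw [hw]
    simp only [map_add, map_smul, _root_.add_apply, _root_.smul_apply, smul_eq_mul]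
    ring
  have hwTle : ‖wT‖ ≤ ‖w‖ := by
    have : ‖wT‖ ^ 2 ≤ ‖w‖ ^ 2 := by rw [hwTn]; nlinarith [sq_nonneg s]
    exact (abs_le_of_sq_le_sq' this (norm_nonneg _)).2
  have hs0 : 0 ≤ |s| := abs_nonneg s
  have hw0 : 0 ≤ ‖w‖ := norm_nonneg w
  have e1 : -(b * |s| * ‖w‖) ≤ s * B n wT := by
    have h5 : |s * B n wT| ≤ b * |s| * ‖w‖ := by
      rw [abs_mul]
      have h6 := hBle n wT
      rw [hnn, mul_one] at h6
      calc |s| * |B n wT| ≤ |s| * (b * ‖wT‖) := by gcongr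
        _ ≤ |s| * (b * ‖w‖) := by gcongr
        _ = _ := by ring
    exact (abs_le.1 h5).1
  have e2 : -(b * |s| * ‖w‖) ≤ s * B wT n := by
    have h5 : |s * B wT n| ≤ b * |s| * ‖w‖ := by
      rw [abs_mul]
      have h6 := hBle wT n
      rw [hnn, mul_one] at h6
      calc |s| * |B wT n| ≤ |s| * (b * ‖wT‖) := by gcongr
        _ ≤ |s| * (b * ‖w‖) := by gcongr
        _ = _ := by ring
    exact (abs_le.1 h5).1
  have e3 : -(b * |s| * ‖w‖) ≤ s ^ 2 * B n n := by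
    have h5 : |s ^ 2 * B n n| ≤ b * |s| * ‖w‖ := by
      rw [abs_mul]
      have h6 := hBle n n
      rw [hnn, mul_one, mul_one] at h6
      have h7 : |s ^ 2| = |s| * |s| := by rw [abs_pow, sq]
      rw [h7]
      calc |s| * |s| * |B n n| ≤ |s| * ‖w‖ * b := by gcongr
        _ = _ := by ring
    exact (abs_le.1 h5).1
  have e4 : κ₀ * s ^ 2 ≤ κ₀ * |s| * ‖w‖ := by
    have : s ^ 2 = |s| * |s| := by rw [← sq_abs, sq]
    rw [this]
    calc κ₀ * (|s| * |s|) ≤ κ₀ * (|s| * ‖w‖) := by gcongr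
      _ = _ := by ring
  rw [hwTn] at hc
  rw [hdec]
  linarith

omit [FiniteDimensional ℝ F] in
/-- the supporting half-space from the first order information -/
theorem supp_of_grad {K : Set F} (hconv : Convex ℝ K) {x : F} (hxK : x ∈ K) {g : F → ℝ} {δ : ℝ}
    (hδpos : 0 < δ) (hg : ∀ y, dist y x < δ → (y ∈ K ↔ g y ≤ 0)) (hgx : g x = 0) {n : F} {γ : ℝ}
    (hγ : 0 < γ) (B : F →L[ℝ] F →L[ℝ] ℝ) {e : ℝ} (he : 0 < e)
    (hT : ∀ w : F, ‖w‖ < δ → |g (x + w) - g x - γ * ⟪n, w⟫ - (1 / 2) * B w w| ≤ e * ‖w‖ ^ 2)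
    {y : F} (hy : y ∈ K) : ⟪n, y - x⟫ ≤ 0 := by
  by_contra hcon
  push Not at hcon
  obtain ⟨w, hw⟩ : ∃ w, w = y - x := ⟨_, rfl⟩
  rw [← hw] at hcon
  have hw0 : w ≠ 0 := by
    intro h; rw [h] at hcon; simp at hcon
  have hwn : 0 < ‖w‖ := norm_pos_iff.2 hw0
  obtain ⟨a, ha⟩ : ∃ a, a = γ * ⟪n, w⟫ := ⟨_, rfl⟩
  have hapos : 0 < a := by rw [ha]; positivity
  obtain ⟨Q, hQ⟩ : ∃ Q, Q = |B w w| + e * ‖w‖ ^ 2 + 1 := ⟨_, rfl⟩
  have hQpos : 0 < Q := by rw [hQ]; positivity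
  obtain ⟨t, ht⟩ : ∃ t, t = min (min (δ / ‖w‖ / 2) 1) (a / Q / 2) := ⟨_, rfl⟩
  have htpos : 0 < t := by
    rw [ht]
    apply lt_min (lt_min (by positivity) one_pos)
    positivity
  have ht1 : t ≤ 1 := by rw [ht]; exact (min_le_left _ _).trans (min_le_right _ _)
  have htδ : t * ‖w‖ < δ := by
    have : t ≤ δ / ‖w‖ / 2 := by rw [ht]; exact (min_le_left _ _).trans (min_le_left _ _)
    calc t * ‖w‖ ≤ δ / ‖w‖ / 2 * ‖w‖ := by gcongr
      _ = δ / 2 := by field_simp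
      _ < δ := by linarith
  have htQ : t * Q < a := by
    have : t ≤ a / Q / 2 := by rw [ht]; exact min_le_right _ _
    calc t * Q ≤ a / Q / 2 * Q := by gcongr
      _ = a / 2 := by field_simp
      _ < a := by linarith
  have hnorm : ‖t • w‖ = t * ‖w‖ := by rw [norm_smul, Real.norm_eq_abs, abs_of_pos htpos]
  have hmem : x + t • w ∈ K := by
    have := hconv hxK hy (a := 1 - t) (b := t) (by linarith) htpos.le (by ring)
    convert this using 1
    rw [hw, smul_sub, sub_smul, one_smul]; abel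
  have hgle : g (x + t • w) ≤ 0 := by
    apply (hg _ _).1 hmem
    rw [dist_eq_norm, add_sub_cancel_left, hnorm]
    exact htδ
  have hTay := hT (t • w) (by rw [hnorm]; exact htδ)
  rw [hgx, hnorm] at hTay
  have h5 := (abs_le.1 hTay).1
  have h6 : γ * ⟪n, t • w⟫ = t * a := by
    rw [inner_smul_right, ha]; ring
  have h7 : B (t • w) (t • w) = t ^ 2 * B w w := by
    simp only [map_smul, _root_.smul_apply, smul_eq_mul]; ring
  rw [h6, h7] at h5
  have h8 : -|B w w| ≤ B w w := neg_abs_le _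
  have h9 : t * a ≤ t ^ 2 * Q := by
    have h10 : -(t ^ 2 * |B w w|) ≤ t ^ 2 * B w w := by
      have := mul_le_mul_of_nonneg_left h8 (sq_nonneg t)
      linarith
    have h11 : 0 ≤ t ^ 2 * |B w w| := by positivity
    have h12 : 0 ≤ t ^ 2 := sq_nonneg t
    rw [hQ]
    have h13 : (t * ‖w‖) ^ 2 = t ^ 2 * ‖w‖ ^ 2 := by ring
    rw [h13] at h5
    nlinarith
  have h10 : t * a ≤ t * (t * Q) := by
    have : t * (t * Q) = t ^ 2 * Q := by ring
    rw [this]; exact h9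
  have h11 := le_of_mul_le_mul_left h10 htpos
  linarith

omit [FiniteDimensional ℝ F] in
/-- from the local paraboloid estimate to the global one -/
theorem global_of_local {K : Set F} (hK : IsCompact K) (hconv : Convex ℝ K) {x : F} (hxK : x ∈ K)
    {n : F} (hnn : ‖n‖ = 1) {κ₁ δ : ℝ} (hκ₁pos : 0 < κ₁) (hδpos : 0 < δ)
    (hlocal : ∀ y ∈ K, ‖y - x‖ < δ → κ₁ * ‖y - x‖ ^ 2 ≤ -⟪n, y - x⟫) : ∃ κ > 0, OB K κ x := by
  obtain ⟨Dm, hDm0, hDm⟩ : ∃ Dm : ℝ, 0 < Dm ∧ ∀ y ∈ K, ‖y - x‖ ≤ Dm := by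
    obtain ⟨R, hR⟩ := hK.isBounded.subset_closedBall x
    refine ⟨max R 1, lt_max_of_lt_right one_pos, fun y hy => ?_⟩
    have := hR hy
    rw [Metric.mem_closedBall, dist_eq_norm] at this
    exact this.trans (le_max_left _ _)
  refine ⟨min κ₁ (κ₁ * (δ / 2) / Dm), lt_min hκ₁pos (by positivity), n, hnn, fun y hy => ?_⟩
  have hcomm : ⟪x - y, n⟫ = -⟪n, y - x⟫ := by
    rw [real_inner_comm, ← inner_neg_right]; congr 1; abel
  rw [hcomm]
  by_cases hyδ : ‖y - x‖ < δ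
  · calc _ ≤ κ₁ * ‖y - x‖ ^ 2 := by
          gcongr
          exact min_le_left _ _
      _ ≤ _ := hlocal y hy hyδ
  · push Not at hyδ
    obtain ⟨w, hw⟩ : ∃ w, w = y - x := ⟨_, rfl⟩
    have hyD := hDm y hy
    rw [← hw] at hyδ hyD ⊢
    have hwpos : 0 < ‖w‖ := hδpos.trans_le hyδ
    obtain ⟨t, ht⟩ : ∃ t, t = δ / 2 / ‖w‖ := ⟨_, rfl⟩
    have htpos : 0 < t := by rw [ht]; positivity
    have ht1 : t ≤ 1 := by
      rw [ht, div_le_one hwpos]; linarith
    have hmem : x + t • w ∈ K := by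
      have := hconv hxK hy (a := 1 - t) (b := t) (by linarith) htpos.le (by ring)
      convert this using 1
      rw [hw, smul_sub, sub_smul, one_smul]; abel
    have htw : ‖(x + t • w) - x‖ = δ / 2 := by
      rw [add_sub_cancel_left, norm_smul, Real.norm_eq_abs, abs_of_pos htpos, ht]
      field_simp
    have h5 := hlocal _ hmem (by rw [htw]; linarith)
    rw [htw, add_sub_cancel_left, inner_smul_right] at h5
    have h6 : κ₁ * (δ / 2) * ‖w‖ ≤ -⟪n, w⟫ := by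
      have h7 : κ₁ * (δ / 2) ^ 2 = t * (κ₁ * (δ / 2) * ‖w‖) := by
        rw [ht]; field_simp
      rw [h7] at h5
      have h8 : t * (κ₁ * (δ / 2) * ‖w‖) ≤ t * (-⟪n, w⟫) := by linarith
      exact le_of_mul_le_mul_left h8 htpos
    calc min κ₁ (κ₁ * (δ / 2) / Dm) * ‖w‖ ^ 2 ≤ κ₁ * (δ / 2) / Dm * ‖w‖ ^ 2 := by
          gcongr
          exact min_le_right _ _
      _ = κ₁ * (δ / 2) * ‖w‖ * (‖w‖ / Dm) := by field_simp
      _ ≤ κ₁ * (δ / 2) * ‖w‖ * 1 := by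
          gcongr
          rw [div_le_one hDm0]
          exact hyD
      _ ≤ _ := by linarith

theorem outer_of_curv {K : Set F} (hK : IsCompact K) (hconv : Convex ℝ K) {x : F}
    (hx : x ∈ frontier K) {g : F → ℝ} (hg : ∀ᶠ y in 𝓝 x, y ∈ K ↔ g y ≤ 0)
    (h1 : ∀ᶠ y in 𝓝 x, DifferentiableAt ℝ g y) (h2 : DifferentiableAt ℝ (fderiv ℝ g) x)
    (h3 : fderiv ℝ g x ≠ 0)
    (h4 : ∀ v, v ≠ 0 → fderiv ℝ g x v = 0 → 0 < fderiv ℝ (fderiv ℝ g) x v v) :
    ∃ κ > 0, OB K κ x := by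
  obtain ⟨L, hL⟩ : ∃ L, L = fderiv ℝ g x := ⟨_, rfl⟩
  obtain ⟨B, hB⟩ : ∃ B, B = fderiv ℝ (fderiv ℝ g) x := ⟨_, rfl⟩
  have hxK : x ∈ K := hK.isClosed.frontier_subset hx
  -- g x = 0
  have hgx : g x = 0 := by
    have hle : g x ≤ 0 := (hg.self_of_nhds).1 hxK
    by_contra hne
    have hlt : g x < 0 := lt_of_le_of_ne hle hne
    have hcont : ContinuousAt g x := (h1.self_of_nhds).continuousAt
    have hev : ∀ᶠ y in 𝓝 x, g y < 0 := hcont.eventually_lt continuousAt_const hlt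
    have hint : x ∈ interior K := by
      rw [mem_interior_iff_mem_nhds]
      filter_upwards [hev, hg] with y hy1 hy2
      exact hy2.2 hy1.le
    exact hx.2 hint
  obtain ⟨κ₀, hκ₀, hcoer⟩ := coercive_on_ker (fderiv ℝ g x) (fderiv ℝ (fderiv ℝ g) x) h4
  obtain ⟨δ₁, hδ₁, hT⟩ := taylor_two h1 h2 (e := κ₀ / 4) (by positivity)
  rw [← hL] at h3 hcoer hT
  rw [← hB] at hcoer hT
  -- gradient
  obtain ⟨G, hG⟩ : ∃ G, G = (InnerProductSpace.toDual ℝ F).symm L := ⟨_, rfl⟩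
  have hLG : ∀ w, L w = ⟪G, w⟫ := fun w => by
    rw [hG, InnerProductSpace.toDual_symm_apply]
  have hG0 : G ≠ 0 := by
    intro h
    apply h3
    ext w
    rw [hLG, h]; simp
  have hGn : 0 < ‖G‖ := norm_pos_iff.2 hG0
  obtain ⟨n, hn⟩ : ∃ n, n = (1 / ‖G‖) • G := ⟨_, rfl⟩
  have hnn : ‖n‖ = 1 := by
    rw [hn, norm_smul, Real.norm_eq_abs, abs_of_pos (by positivity)]
    field_simp
  have hLn : ∀ w, L w = ‖G‖ * ⟪n, w⟫ := by
    intro w
    rw [hLG, hn, inner_smul_left]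
    simp only [conj_trivial]
    field_simp
  obtain ⟨γ, hγ⟩ : ∃ γ, γ = ‖G‖ := ⟨_, rfl⟩
  rw [← hγ] at hLn hGn
  simp only [hLn] at hcoer hT
  have hquad := quad_lower hnn B hκ₀ (fun v hv => hcoer v (by rw [hv, mul_zero]))
  rw [Metric.eventually_nhds_iff] at hg
  obtain ⟨δ₂, hδ₂, hg⟩ := hg
  obtain ⟨δ, hδ⟩ : ∃ δ, δ = min (min δ₁ δ₂) 1 := ⟨_, rfl⟩
  have hδpos : 0 < δ := by rw [hδ]; exact lt_min (lt_min hδ₁ hδ₂) one_pos
  have hδ1' : δ ≤ δ₁ := by rw [hδ]; exact (min_le_left _ _).trans (min_le_left _ _)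
  have hδ2' : δ ≤ δ₂ := by rw [hδ]; exact (min_le_left _ _).trans (min_le_right _ _)
  have hδ3' : δ ≤ 1 := by rw [hδ]; exact min_le_right _ _
  have hsupp : ∀ y ∈ K, ⟪n, y - x⟫ ≤ 0 := fun y hy =>
    supp_of_grad hconv hxK hδpos (fun y hy => hg (hy.trans_le hδ2')) hgx hGn B (by positivity)
      (fun w hw => hT w (hw.trans_le hδ1')) hy
  obtain ⟨b, hb⟩ : ∃ b, b = ‖B‖ := ⟨_, rfl⟩
  have hb0 : 0 ≤ b := by rw [hb]; exact norm_nonneg B
  rw [← hb] at hquad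
  obtain ⟨P, hP⟩ : ∃ P, P = γ + 1 / 2 * (κ₀ + 3 * b) := ⟨_, rfl⟩
  have hPpos : 0 < P := by rw [hP]; positivity
  apply global_of_local hK hconv hxK hnn (κ₁ := κ₀ / 4 / P) (by positivity) hδpos
  intro y hy hyδ
  obtain ⟨w, hw⟩ : ∃ w, w = y - x := ⟨_, rfl⟩
  have hs := hsupp y hy
  rw [← hw] at hs hyδ ⊢
  have hxw : x + w = y := by rw [hw]; abel
  have hgle : g (x + w) ≤ 0 := by
    rw [hxw]
    apply (hg _).1 hy
    rw [dist_eq_norm, ← hw]
    exact hyδ.trans_le hδ2'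
  have hTay := hT w (hyδ.trans_le hδ1')
  rw [hgx] at hTay
  have h5 := (abs_le.1 hTay).1
  have h6 := hquad w
  rw [abs_of_nonpos hs] at h6
  have hw1 : ‖w‖ ≤ 1 := hyδ.le.trans hδ3'
  have h7 : (κ₀ + 3 * b) * -⟪n, w⟫ * ‖w‖ ≤ (κ₀ + 3 * b) * -⟪n, w⟫ := by
    have : 0 ≤ (κ₀ + 3 * b) * -⟪n, w⟫ := by
      apply mul_nonneg (by positivity); linarith
    nlinarith
  have h8 : κ₀ / 4 * ‖w‖ ^ 2 ≤ P * -⟪n, w⟫ := by
    rw [hP]
    linarith
  rw [div_mul_eq_mul_div, div_le_iff₀ hPpos]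
  linarith

end Pool.Agent.Lib_helper31.RP
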