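import Mathlib

open MeasureTheory Set ProbabilityTheory
open scoped ENNReal Topology

namespace Pool.Agent.Lib_helper31.RP

/-- The number `f_j(P)` of `j`-dimensional faces of a polytope `P`.  A face is a nonempty subset of
`P` of the form `{x ∈ P | ∀ y ∈ P, l y ≤ l x}` for a linear functional `l`; its dimension is the
dimension of its affine hull. -/
noncomputable def faceCount {E : Type*} [NormedAddCommGroup E] [NormedSpace ℝ E]
    (P : Set E) (j : ℕ) : ℕ :=
  Set.ncard {F : Set E | IsExposed ℝ P F ∧ F.Nonempty ∧ Module.finrank ℝ (vectorSpan ℝ F) = j}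

/-- `E f_j(P_n(L))`: the expected number of `j`-dimensional faces of the convex hull of `n`
independent points, each uniformly distributed in `L`. -/
noncomputable def expFaces {E : Type*} [NormedAddCommGroup E] [NormedSpace ℝ E] [MeasureSpace E]
    (L : Set E) (n j : ℕ) : ℝ≥0∞ :=
  ∫⁻ X : Fin n → E, (faceCount (convexHull ℝ (range X)) j : ℝ≥0∞)
    ∂(Measure.pi fun _ : Fin n => cond (volume : Measure E) L)

/-- `E Vol(P_n(L))`: the expected volume of the convex hull of `n` independent points, each
uniformly distributed in `L`. -/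
noncomputable def expVol {E : Type*} [NormedAddCommGroup E] [NormedSpace ℝ E] [MeasureSpace E]
    (L : Set E) (n : ℕ) : ℝ≥0∞ :=
  ∫⁻ X : Fin n → E, volume (convexHull ℝ (range X))
    ∂(Measure.pi fun _ : Fin n => cond (volume : Measure E) L)

/-- `K ⊂ ℝ^k` is a convex body whose boundary is twice differentiable with strictly positive
Gaussian curvature at every point: near each boundary point `x`, the set `K` is `{g ≤ 0}` for a
function `g` which is differentiable near `x`, whose derivative is differentiable at `x`, with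
nonzero gradient at `x`, and whose Hessian at `x` is positive definite on the tangent
space `ker Dg(x)` (i.e. all principal curvatures at `x` are positive). -/
structure IsSmoothBody {k : ℕ} (K : Set (EuclideanSpace ℝ (Fin k))) : Prop where
  convex : Convex ℝ K
  compact : IsCompact K
  interior_nonempty : (interior K).Nonempty
  curvature_pos : ∀ x ∈ frontier K, ∃ g : EuclideanSpace ℝ (Fin k) → ℝ,
    (∀ᶠ y in 𝓝 x, y ∈ K ↔ g y ≤ 0) ∧
    (∀ᶠ y in 𝓝 x, DifferentiableAt ℝ g y) ∧
    DifferentiableAt ℝ (fderiv ℝ g) x ∧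
    fderiv ℝ g x ≠ 0 ∧
    ∀ v, v ≠ 0 → fderiv ℝ g x v = 0 → 0 < fderiv ℝ (fderiv ℝ g) x v v

/-- `a n ≍ b n`: there are real constants `0 < c ≤ C` and `n₀` such that for all `n ≥ n₀` the
number `b n` is positive and finite and `c b n ≤ a n ≤ C b n`. -/
def SameOrder (a b : ℕ → ℝ≥0∞) : Prop :=
  ∃ c C : ℝ, 0 < c ∧ c ≤ C ∧ ∃ n₀ : ℕ, ∀ n ≥ n₀, 0 < b n ∧ b n < ⊤ ∧
    ENNReal.ofReal c * b n ≤ a n ∧ a n ≤ ENNReal.ofReal C * b n

end Pool.Agent.Lib_helper31.RP
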