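import Mathlib

open MeasureTheory Set Module
open scoped ENNReal Topology Pointwise RealInnerProductSpace

namespace Pool.Agent.Lib_helper31.RP

theorem pow_sub_le (k : ℕ) {a b : ℝ} (hb : 0 ≤ b) (hab : b ≤ a) :
    a ^ k - b ^ k ≤ k * (a - b) * a ^ (k - 1) := by
  induction k with
  | zero => simp
  | succ k ih =>
    have ha : 0 ≤ a := hb.trans hab
    have h1 : a ^ (k + 1) - b ^ (k + 1) = a * (a ^ k - b ^ k) + (a - b) * b ^ k := by ring
    rw [h1]
    have h2 : (a - b) * b ^ k ≤ (a - b) * a ^ k :=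
      mul_le_mul_of_nonneg_left (pow_le_pow_left₀ hb hab k) (by linarith)
    have h3 : a * (a ^ k - b ^ k) ≤ k * (a - b) * a ^ k := by
      rcases Nat.eq_zero_or_pos k with rfl | hk
      · simp
      · calc a * (a ^ k - b ^ k) ≤ a * (k * (a - b) * a ^ (k - 1)) := mul_le_mul_of_nonneg_left ih ha
          _ = k * (a - b) * a ^ k := by
            obtain ⟨l, rfl⟩ : ∃ l, k = l + 1 := ⟨k - 1, by omega⟩
            simp only [Nat.add_sub_cancel]
            ring
    have h4 : ((k + 1 : ℕ) : ℝ) * (a - b) * a ^ (k + 1 - 1) = k * (a - b) * a ^ k + (a - b) * a ^ k := by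
      rw [Nat.add_sub_cancel]; push_cast; ring
    rw [h4]
    linarith

variable {F : Type*} [NormedAddCommGroup F] [InnerProductSpace ℝ F] [FiniteDimensional ℝ F]
variable [MeasurableSpace F] [BorelSpace F]

/-- packing bound on a sphere -/
theorem packing_bound (hk : 0 < finrank ℝ F) (x₀ : F) {ρ ε : ℝ} (hρ : 1 ≤ ρ) (hε : 0 < ε) (hε1 : ε ≤ 1)
    (Z : Finset F) (hZ : ∀ z ∈ Z, dist z x₀ = ρ)
    (hsep : ∀ z ∈ Z, ∀ z' ∈ Z, z ≠ z' → ε ≤ dist z z') :
    (Z.card : ℝ) * ε ^ (finrank ℝ F - 1) ≤ finrank ℝ F * 2 ^ finrank ℝ F * (ρ + 1) ^ (finrank ℝ F - 1) := by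
  classical
  set k := finrank ℝ F with hkdef
  have hnt : Nontrivial F := Module.nontrivial_of_finrank_pos hk
  have hdisj : (Z : Set F).PairwiseDisjoint (fun z => Metric.ball z (ε / 2)) := by
    intro z hz z' hz' hne
    apply Metric.ball_disjoint_ball
    have := hsep z hz z' hz' hne
    linarith
  have hsub : (⋃ z ∈ Z, Metric.ball z (ε / 2)) ⊆ Metric.ball x₀ (ρ + ε / 2) \ Metric.ball x₀ (ρ - ε / 2) := by
    intro y hy
    simp only [mem_iUnion, exists_prop] at hy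
    obtain ⟨z, hz, hyz⟩ := hy
    rw [Metric.mem_ball] at hyz
    have h1 := hZ z hz
    constructor
    · rw [Metric.mem_ball]
      have := dist_triangle y z x₀
      linarith
    · rw [Metric.mem_ball, not_lt]
      have := dist_triangle z y x₀
      rw [dist_comm z y] at this
      linarith
  set μ : Measure F := volume with hμ
  have hmeas := measure_mono (μ := μ) hsub
  rw [measure_biUnion_finset hdisj (fun z _ => Metric.isOpen_ball.measurableSet),
    measure_sdiff (Metric.ball_subset_ball (by linarith)) Metric.isOpen_ball.measurableSet.nullMeasurableSet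
      measure_ball_lt_top.ne] at hmeas
  obtain ⟨V, hV⟩ : ∃ V, V = μ (Metric.ball (0:F) 1) := ⟨_, rfl⟩
  have hball : ∀ (z : F) (r : ℝ), 0 ≤ r → μ (Metric.ball z r) = ENNReal.ofReal (r ^ k) * V := by
    intro z r hr
    rw [hV]
    exact Measure.addHaar_ball μ z hr
  rw [Finset.sum_congr rfl (fun z _ => hball z (ε / 2) (by positivity)),
    hball x₀ (ρ + ε / 2) (by linarith), hball x₀ (ρ - ε / 2) (by linarith)] at hmeas
  simp only [Finset.sum_const, nsmul_eq_mul] at hmeas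
  have hV0 : V ≠ 0 := by rw [hV]; exact (Metric.measure_ball_pos μ 0 one_pos).ne'
  have hVt : V ≠ ⊤ := by rw [hV]; exact measure_ball_lt_top.ne
  have h2 : ((Z.card : ℝ) * (ε / 2) ^ k) * V.toReal ≤ ((ρ + ε / 2) ^ k - (ρ - ε / 2) ^ k) * V.toReal := by
    have h3 := ENNReal.toReal_mono (by
      apply ENNReal.sub_ne_top
      exact ENNReal.mul_ne_top ENNReal.ofReal_ne_top hVt) hmeas
    rw [ENNReal.toReal_sub_of_le] at h3
    · simp only [ENNReal.toReal_mul, ENNReal.toReal_natCast] at h3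
      rw [ENNReal.toReal_ofReal (by positivity), ENNReal.toReal_ofReal (by positivity),
        ENNReal.toReal_ofReal (pow_nonneg (by linarith) _)] at h3
      linarith
    · gcongr
      · linarith
      · linarith
    · exact ENNReal.mul_ne_top ENNReal.ofReal_ne_top hVt
  have hVpos : 0 < V.toReal := ENNReal.toReal_pos hV0 hVt
  have h4 := le_of_mul_le_mul_right h2 hVpos
  have h5 := pow_sub_le k (a := ρ + ε / 2) (b := ρ - ε / 2) (by linarith) (by linarith)
  have h6 : (ρ + ε / 2) ^ (k - 1) ≤ (ρ + 1) ^ (k - 1) := by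
    apply pow_le_pow_left₀ (by linarith)
    linarith
  have h7 : (Z.card : ℝ) * (ε / 2) ^ k ≤ k * ε * (ρ + 1) ^ (k - 1) := by
    calc (Z.card : ℝ) * (ε / 2) ^ k ≤ k * (ρ + ε / 2 - (ρ - ε / 2)) * (ρ + ε / 2) ^ (k - 1) := h4.trans h5
      _ = k * ε * (ρ + ε / 2) ^ (k - 1) := by ring
      _ ≤ _ := by gcongr
  obtain ⟨l, hl⟩ : ∃ l, k = l + 1 := ⟨k - 1, by omega⟩
  rw [hl] at h7 ⊢
  simp only [Nat.add_sub_cancel] at h7 ⊢
  have h8 : (Z.card : ℝ) * (ε / 2) ^ (l + 1) = ((Z.card : ℝ) * ε ^ l) * (ε / 2 ^ (l + 1)) := by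
    rw [div_pow]; ring
  rw [h8] at h7
  have h9 : (Z.card : ℝ) * ε ^ l * (ε / 2 ^ (l + 1)) = ((Z.card : ℝ) * ε ^ l / 2 ^ (l + 1)) * ε := by ring
  rw [h9] at h7
  have h10 : ((l + 1 : ℕ) : ℝ) * ε * (ρ + 1) ^ l = (((l + 1 : ℕ) : ℝ) * (ρ + 1) ^ l) * ε := by ring
  rw [h10] at h7
  have h11 := le_of_mul_le_mul_right h7 hε
  rw [div_le_iff₀ (by positivity)] at h11
  linarith

theorem exists_net (hk : 0 < finrank ℝ F) (x₀ : F) {ρ ε : ℝ} (hρ : 1 ≤ ρ) (hε : 0 < ε) (hε1 : ε ≤ 1) :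
    ∃ Z : Finset F, (∀ z', dist z' x₀ = ρ → ∃ z ∈ Z, dist z' z ≤ ε) ∧
      (Z.card : ℝ) * ε ^ (finrank ℝ F - 1) ≤ finrank ℝ F * 2 ^ finrank ℝ F * (ρ + 1) ^ (finrank ℝ F - 1) := by
  classical
  set B : ℝ := finrank ℝ F * 2 ^ finrank ℝ F * (ρ + 1) ^ (finrank ℝ F - 1) with hB
  let P : ℕ → Prop := fun n => ∃ Z : Finset F, Z.card = n ∧ (∀ z ∈ Z, dist z x₀ = ρ) ∧
    (∀ z ∈ Z, ∀ z' ∈ Z, z ≠ z' → ε ≤ dist z z')
  obtain ⟨M, hM⟩ := exists_nat_ge (B / ε ^ (finrank ℝ F - 1))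
  have hbound : ∀ n, P n → n ≤ M := by
    rintro n ⟨Z, hZn, hZ, hsep⟩
    have := packing_bound hk x₀ hρ hε hε1 Z hZ hsep
    rw [hZn] at this
    have h2 : (n : ℝ) ≤ B / ε ^ (finrank ℝ F - 1) := by
      rw [le_div_iff₀ (by positivity)]; exact this
    exact_mod_cast h2.trans hM
  have hP0 : P 0 := ⟨∅, by simp, by simp, by simp⟩
  have hmax := Nat.findGreatest_spec (P := P) (Nat.zero_le M) hP0
  obtain ⟨Z, hZn, hZ, hsep⟩ := hmax
  refine ⟨Z, ?_, packing_bound hk x₀ hρ hε hε1 Z hZ hsep⟩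
  intro z' hz'
  by_contra hcon
  push Not at hcon
  have hz'Z : z' ∉ Z := by
    intro h
    have := hcon z' h
    rw [dist_self] at this
    linarith
  have hP : P (Z.card + 1) := by
    refine ⟨insert z' Z, Finset.card_insert_of_notMem hz'Z, ?_, ?_⟩
    · intro z hz
      rw [Finset.mem_insert] at hz
      rcases hz with rfl | hz
      · exact hz'
      · exact hZ z hz
    · intro z hz y hy hne
      rw [Finset.mem_insert] at hz hy
      rcases hz with rfl | hz
      · rcases hy with rfl | hy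
        · exact absurd rfl hne
        · exact (hcon y hy).le
      · rcases hy with rfl | hy
        · rw [dist_comm]; exact (hcon z hz).le
        · exact hsep z hz y hy hne
  have h1 := hbound _ hP
  have h2 := Nat.le_findGreatest h1 hP
  omega

omit [MeasurableSpace F] [BorelSpace F] [FiniteDimensional ℝ F] in
theorem exists_nearest [CompleteSpace F] {T : Set F} (hT : IsClosed T) (hconv : Convex ℝ T) (hne : T.Nonempty) (u : F) :
    ∃ v ∈ T, ∀ w ∈ T, ⟪u - v, w - v⟫ ≤ 0 := by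
  obtain ⟨v, hv, hmin⟩ := exists_norm_eq_iInf_of_complete_convex hne hT.isComplete hconv u
  exact ⟨v, hv, (norm_eq_iInf_iff_real_inner_le_zero hconv hv).1 hmin⟩

omit [MeasurableSpace F] [BorelSpace F] [FiniteDimensional ℝ F] in
theorem nearest_lipschitz {T : Set F} {u v u' v' : F} (hv : v ∈ T) (hv' : v' ∈ T)
    (h : ∀ w ∈ T, ⟪u - v, w - v⟫ ≤ 0) (h' : ∀ w ∈ T, ⟪u' - v', w - v'⟫ ≤ 0) :
    ‖v - v'‖ ≤ ‖u - u'‖ := by
  have h1 := h v' hv'
  have h2 := h' v hv
  have h3 : ‖v - v'‖ ^ 2 ≤ ⟪u - u', v - v'⟫ := by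
    rw [← real_inner_self_eq_norm_sq]
    have e1 : ⟪u - v, v' - v⟫ = - ⟪u - v, v - v'⟫ := by
      rw [← inner_neg_right]; congr 1; abel
    rw [e1] at h1
    have e2 : ⟪u - u', v - v'⟫ = ⟪u - v, v - v'⟫ - ⟪u' - v', v - v'⟫ + ⟪v - v', v - v'⟫ := by
      rw [← inner_sub_left, ← inner_add_left]; congr 1; abel
    rw [e2]
    linarith
  have h4 := real_inner_le_norm (u - u') (v - v')
  by_contra hcon
  push Not at hcon
  have h5 : 0 < ‖v - v'‖ := lt_of_le_of_lt (norm_nonneg _) hcon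
  nlinarith

omit [MeasurableSpace F] [BorelSpace F] [FiniteDimensional ℝ F] in
/-- Dudley's approximation: if `y` satisfies the tangent half-space constraints at the nearest
points of a fine net of a big sphere then it is close to `T`. -/
theorem dudley {T : Set F} (hne : T.Nonempty) (x₀ : F)
    {R : ℝ} (hTR : ∀ t ∈ T, dist t x₀ ≤ R) {ε : ℝ} (hε : 0 < ε) (hε1 : ε ≤ 1 / 4)
    (Z : Finset F) (hZ : ∀ z', dist z' x₀ = R + 1 → ∃ z ∈ Z, dist z' z ≤ ε)
    (p : F → F) (hp : ∀ u, p u ∈ T) (hp' : ∀ u, ∀ w ∈ T, ⟪u - p u, w - p u⟫ ≤ 0)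
    {y : F} (hy : ∀ z ∈ Z, ⟪z - p z, y - p z⟫ ≤ 0) : ∃ t ∈ T, dist y t ≤ 4 * ε ^ 2 := by
  have hR : 0 ≤ R := by
    obtain ⟨t, ht⟩ := hne
    exact dist_nonneg.trans (hTR t ht)
  refine ⟨p y, hp y, ?_⟩
  by_cases hyp : y = p y
  · rw [← hyp, dist_self]; positivity
  set q := p y with hq
  set δ := ‖y - q‖ with hδ
  have hδ0 : 0 < δ := norm_pos_iff.2 (sub_ne_zero.2 hyp)
  set ν := (1 / δ) • (y - q) with hν
  have hνn : ‖ν‖ = 1 := by
    rw [hν, norm_smul, Real.norm_eq_abs, abs_of_pos (by positivity), ← hδ]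
    field_simp
  -- the point on the big sphere
  obtain ⟨t, ht1, ht2⟩ : ∃ t : ℝ, 1 ≤ t ∧ dist (q + t • ν) x₀ = R + 1 := by
    have hcont : Continuous (fun t : ℝ => dist (q + t • ν) x₀) := by fun_prop
    have h0 : dist (q + (0:ℝ) • ν) x₀ ≤ R + 1 := by
      simp only [zero_smul, add_zero]
      linarith [hTR q (hp y)]
    have h1 : R + 1 ≤ dist (q + (2 * R + 1) • ν) x₀ := by
      have h2 : dist (q + (2 * R + 1) • ν) q = 2 * R + 1 := by
        rw [dist_eq_norm, add_sub_cancel_left, norm_smul, hνn, Real.norm_eq_abs, abs_of_pos (by linarith)]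
        ring
      have h3 := dist_triangle (q + (2 * R + 1) • ν) x₀ q
      have h4 := hTR q (hp y)
      rw [dist_comm] at h4
      linarith
    obtain ⟨t, ht, hteq⟩ := intermediate_value_Icc (show (0:ℝ) ≤ 2 * R + 1 by linarith) hcont.continuousOn ⟨h0, h1⟩
    refine ⟨t, ?_, hteq⟩
    have h5 : dist (q + t • ν) q = t := by
      rw [dist_eq_norm, add_sub_cancel_left, norm_smul, hνn, Real.norm_eq_abs, abs_of_nonneg ht.1, mul_one]
    have h6 := dist_triangle (q + t • ν) q x₀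
    have h7 := hTR q (hp y)
    simp only at hteq
    linarith
  obtain ⟨z, hzZ, hz⟩ := hZ _ ht2
  set z' := q + t • ν with hz'
  have hz'q : ∀ w ∈ T, ⟪z' - q, w - q⟫ ≤ 0 := by
    intro w hw
    have h1 := hp' y w hw
    rw [hz', add_sub_cancel_left, hν, smul_smul, inner_smul_left]
    simp only [conj_trivial]
    have : 0 ≤ t * (1 / δ) := by positivity
    exact mul_nonpos_of_nonneg_of_nonpos this h1
  have hlip : ‖p z - q‖ ≤ ε := by
    have h1 := nearest_lipschitz (hp z) (hp y) (hp' z) hz'q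
    rw [dist_comm, dist_eq_norm] at hz
    exact h1.trans hz
  have hn : ‖(z - p z) - (z' - q)‖ ≤ 2 * ε := by
    have h1 : (z - p z) - (z' - q) = (z - z') - (p z - q) := by abel
    rw [h1]
    refine (norm_sub_le _ _).trans ?_
    rw [dist_comm, dist_eq_norm] at hz
    linarith
  have hyz := hy z hzZ
  have hyν : y - p z = δ • ν - (p z - q) := by
    rw [hν, smul_smul, mul_one_div_cancel hδ0.ne', one_smul]; abel
  rw [hyν, inner_sub_right, inner_smul_right] at hyz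
  -- lower bound for ⟪z - p z, ν⟫
  have h1 : t - 2 * ε ≤ ⟪z - p z, ν⟫ := by
    have e1 : ⟪z - p z, ν⟫ = ⟪z' - q, ν⟫ + ⟪(z - p z) - (z' - q), ν⟫ := by
      rw [← inner_add_left]; congr 1; abel
    have e2 : ⟪z' - q, ν⟫ = t := by
      rw [hz', add_sub_cancel_left, inner_smul_left, real_inner_self_eq_norm_sq, hνn]
      simp
    have e3 : -(2 * ε) ≤ ⟪(z - p z) - (z' - q), ν⟫ := by
      have := abs_real_inner_le_norm ((z - p z) - (z' - q)) ν
      rw [hνn, mul_one] at this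
      have h2 := (abs_le.1 (this.trans hn)).1
      exact h2
    rw [e1, e2]; linarith
  -- upper bound for ⟪z - p z, p z - q⟫
  have h2 : ⟪z - p z, p z - q⟫ ≤ 2 * ε ^ 2 := by
    have e1 : ⟪z - p z, p z - q⟫ = ⟪z' - q, p z - q⟫ + ⟪(z - p z) - (z' - q), p z - q⟫ := by
      rw [← inner_add_left]; congr 1; abel
    have e2 := hz'q (p z) (hp z)
    have e3 : ⟪(z - p z) - (z' - q), p z - q⟫ ≤ 2 * ε * ε := by
      refine (real_inner_le_norm _ _).trans ?_
      apply mul_le_mul hn hlip (norm_nonneg _) (by positivity)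
    rw [e1]; nlinarith
  have h3 : δ * ⟪z - p z, ν⟫ ≤ 2 * ε ^ 2 := by linarith
  have h4 : δ * (1 / 2) ≤ δ * ⟪z - p z, ν⟫ := by
    apply mul_le_mul_of_nonneg_left _ hδ0.le
    linarith
  rw [dist_eq_norm]
  change δ ≤ _
  linarith

end Pool.Agent.Lib_helper31.RP
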