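import Pool.Agent.Lib_helper31.RPDefs

open MeasureTheory Set ProbabilityTheory Module
open scoped ENNReal Topology

namespace Pool.Agent.Lib_helper31.RP

variable {E : Type*} [NormedAddCommGroup E] [NormedSpace ℝ E] [FiniteDimensional ℝ E]
variable {ι : Type*} [Fintype ι]

/-- the centroid of the points indexed by `I` -/
noncomputable def cen (X : ι → E) (I : Finset ι) : E := (1 / (I.card : ℝ)) • ∑ i ∈ I, X i

omit [FiniteDimensional ℝ E] [Fintype ι] in
theorem cen_mem {S : Set E} (hS : Convex ℝ S) (X : ι → E) (I : Finset ι) (hI : I.Nonempty)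
    (h : ∀ i ∈ I, X i ∈ S) : cen X I ∈ S := by
  unfold cen
  rw [Finset.smul_sum]
  apply hS.sum_mem (fun i _ => by positivity) _ h
  have : (I.card : ℝ) ≠ 0 := by
    exact_mod_cast Finset.card_ne_zero.2 hI
  simp
  field_simp

omit [FiniteDimensional ℝ E] [Fintype ι] in
/-- a nonempty exposed subset of the convex hull of `range X` is the hull of the points in it -/
theorem exposed_eq_hull (X : ι → E) {F : Set E} {l : E →L[ℝ] ℝ}
    (hF : F = {x ∈ convexHull ℝ (range X) | ∀ y ∈ convexHull ℝ (range X), l y ≤ l x})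
    (hne : F.Nonempty) : F = convexHull ℝ (X '' {i | X i ∈ F}) := by
  classical
  obtain ⟨x₀, hx₀⟩ := hne
  have hx₀' := hx₀
  rw [hF] at hx₀'
  apply subset_antisymm
  · intro x hx
    have hx' := hx
    rw [hF] at hx'
    obtain ⟨hxP, hxm⟩ := hx'
    rw [mem_convexHull_iff_exists_fintype] at hxP
    obtain ⟨κ, _, w, z, hw0, hw1, hz, hsum⟩ := hxP
    have hzl : ∀ k, l (z k) ≤ l x := fun k => hxm _ (subset_convexHull ℝ _ (hz k))
    have hlx : ∑ k, w k * l (z k) = l x := by
      rw [← hsum, map_sum]; simp
    have heq : ∀ k, w k ≠ 0 → l (z k) = l x := by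
      intro k hk
      by_contra hne
      have hlt : l (z k) < l x := lt_of_le_of_ne (hzl k) hne
      have : ∑ k, w k * l (z k) < ∑ k, w k * l x := by
        apply Finset.sum_lt_sum
        · intro i _; exact mul_le_mul_of_nonneg_left (hzl i) (hw0 i)
        · exact ⟨k, Finset.mem_univ k, mul_lt_mul_of_pos_left hlt (lt_of_le_of_ne (hw0 k) hk.symm)⟩
      rw [hlx, ← Finset.sum_mul, hw1, one_mul] at this
      exact lt_irrefl _ this
    rw [← hsum]
    have hconv : Convex ℝ (convexHull ℝ (X '' {i | X i ∈ F})) := convex_convexHull ℝ _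
    have h1 : ∑ k, w k • z k = ∑ k ∈ Finset.univ.filter (fun k => w k ≠ 0), w k • z k := by
      rw [Finset.sum_filter]
      apply Finset.sum_congr rfl
      intro k _
      by_cases hk : w k = 0
      · simp [hk]
      · simp [hk]
    rw [h1]
    apply hconv.sum_mem
    · intro i _; exact hw0 i
    · rw [← hw1, Finset.sum_filter]
      apply Finset.sum_congr rfl
      intro k _
      by_cases hk : w k = 0
      · simp [hk]
      · simp [hk]
    · intro k hk
      simp only [Finset.mem_filter, Finset.mem_univ, true_and] at hk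
      apply subset_convexHull
      obtain ⟨i, hi⟩ := hz k
      refine ⟨i, ?_, hi⟩
      change X i ∈ F
      rw [hF, hi]
      refine ⟨subset_convexHull ℝ _ (hz k), fun y hy => ?_⟩
      rw [heq k hk]
      exact hxm y hy
  · have hFc : Convex ℝ F := by
      have hexp : IsExposed ℝ (convexHull ℝ (range X)) F := fun _ => ⟨l, hF⟩
      exact hexp.convex (convex_convexHull ℝ _)
    apply convexHull_min _ hFc
    rintro _ ⟨i, hi, rfl⟩
    exact hi

theorem not_mem_interior_of_exposed (X : ι → E) {F : Set E} {l : E →L[ℝ] ℝ}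
    (hF : F = {x ∈ convexHull ℝ (range X) | ∀ y ∈ convexHull ℝ (range X), l y ≤ l x})
    (hfin : finrank ℝ (vectorSpan ℝ F) < finrank ℝ E) {c : E} (hc : c ∈ F) :
    c ∉ interior (convexHull ℝ (range X)) := by
  intro hcint
  have hc' := hc
  rw [hF] at hc'
  set P := convexHull ℝ (range X) with hP
  -- l is zero
  have hl : ∀ v, l v ≤ 0 := by
    intro v
    have hopen : IsOpen (interior P) := isOpen_interior
    have hcont : Continuous (fun t : ℝ => c + t • v) := by fun_prop
    have h0 : (0:ℝ) ∈ (fun t : ℝ => c + t • v) ⁻¹' interior P := by simpa using hcint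
    obtain ⟨r, hr, hball⟩ := Metric.isOpen_iff.1 (hopen.preimage hcont) 0 h0
    have hm : (r / 2) ∈ Metric.ball (0:ℝ) r := by
      rw [Metric.mem_ball, dist_zero_right, Real.norm_eq_abs, abs_of_pos (half_pos hr)]
      linarith
    have h2 := interior_subset (hball hm)
    have h3 := hc'.2 _ h2
    simp only [map_add, map_smul, smul_eq_mul] at h3
    have h4 : r / 2 * l v ≤ 0 := by linarith
    by_contra hcon
    push Not at hcon
    have : 0 < r / 2 * l v := by positivity
    linarith
  have hl0 : ∀ v, l v = 0 := by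
    intro v
    apply le_antisymm (hl v)
    have := hl (-v)
    simp only [map_neg] at this
    linarith
  have hFP : F = P := by
    rw [hF]
    ext x
    simp [hl0]
  have hspan : affineSpan ℝ P = ⊤ := affineSpan_eq_top_of_nonempty_interior ⟨c, by
    have : P = convexHull ℝ P := (convex_convexHull ℝ (range X)).convexHull_eq.symm
    rw [← this]; exact hcint⟩
  have : vectorSpan ℝ P = ⊤ := by
    rw [← direction_affineSpan, hspan, AffineSubspace.direction_top]
  rw [hFP, this, finrank_top] at hfin
  exact lt_irrefl _ hfin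

omit [FiniteDimensional ℝ E] [Fintype ι] in
theorem exposed_eq_inter (X : ι → E) {F : Set E} {l : E →L[ℝ] ℝ}
    (hF : F = {x ∈ convexHull ℝ (range X) | ∀ y ∈ convexHull ℝ (range X), l y ≤ l x})
    {T : Set E} (hT : T ⊆ F) (hspan : affineSpan ℝ T = affineSpan ℝ F) (hne : F.Nonempty) :
    F = convexHull ℝ (range X) ∩ affineSpan ℝ T := by
  obtain ⟨x₀, hx₀⟩ := hne
  have hx₀' := hx₀
  rw [hF] at hx₀'
  apply subset_antisymm
  · intro x hx
    have hx' := hx
    rw [hF] at hx'
    refine ⟨hx'.1, ?_⟩
    rw [hspan]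
    exact subset_affineSpan ℝ F hx
  · rintro x ⟨hxP, hxT⟩
    -- l is constant on affineSpan T
    have hle : affineSpan ℝ T ≤ (AffineSubspace.mk' (l x₀) (⊥ : Submodule ℝ ℝ)).comap
        (l.toLinearMap.toAffineMap) := by
      rw [affineSpan_le]
      intro t ht
      have htF := hT ht
      rw [hF] at htF
      simp only [AffineSubspace.coe_comap, mem_preimage, SetLike.mem_coe]
      rw [AffineSubspace.mem_mk']
      simp only [LinearMap.coe_toAffineMap, vsub_eq_sub, Submodule.mem_bot]
      have h1 := htF.2 x₀ hx₀'.1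
      have h2 := hx₀'.2 t htF.1
      change l t - l x₀ = 0
      linarith
    have h3 := hle hxT
    rw [AffineSubspace.mem_comap, AffineSubspace.mem_mk'] at h3
    simp only [LinearMap.coe_toAffineMap, vsub_eq_sub, Submodule.mem_bot] at h3
    have h4 : l x = l x₀ := by
      change l x - l x₀ = 0 at h3
      linarith
    rw [hF]
    refine ⟨hxP, fun y hy => ?_⟩
    rw [h4]
    exact hx₀'.2 y hy

/-- For every `j`-dimensional face choose `j+1` vertices spanning it. -/
theorem exists_index (X : ι → E) {j : ℕ} (hj : j < finrank ℝ E) {F : Set E}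
    (hexp : IsExposed ℝ (convexHull ℝ (range X)) F) (hne : F.Nonempty)
    (hfin : finrank ℝ (vectorSpan ℝ F) = j) :
    ∃ I : Finset ι, I.card = j + 1 ∧ cen X I ∉ interior (convexHull ℝ (range X)) ∧
      F = convexHull ℝ (range X) ∩ affineSpan ℝ (X '' I) := by
  classical
  obtain ⟨l, hF⟩ := hexp hne
  have hull := exposed_eq_hull X hF hne
  set S : Set ι := {i | X i ∈ F} with hS
  obtain ⟨t, htS, htspan, htind⟩ := exists_affineIndependent ℝ E (X '' S)
  have hspanF : affineSpan ℝ (X '' S) = affineSpan ℝ F := by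
    conv_rhs => rw [hull]
    rw [affineSpan_convexHull]
  have htfin : t.Finite := (Set.toFinite (X '' S)).subset htS
  -- choose indices
  have hch : ∀ y : t, ∃ i ∈ S, X i = y := fun y => htS y.2
  choose g hgS hgX using hch
  have hginj : Function.Injective g := by
    intro a b hab
    apply Subtype.ext
    rw [← hgX a, ← hgX b, hab]
  have : Fintype t := htfin.fintype
  let I : Finset ι := Finset.univ.image g
  have hIim : X '' (I : Set ι) = t := by
    ext y
    simp only [I, Finset.coe_image, Finset.coe_univ, image_univ, mem_image, mem_range]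
    constructor
    · rintro ⟨i, ⟨z, rfl⟩, rfl⟩
      rw [hgX]; exact z.2
    · intro hy
      exact ⟨g ⟨y, hy⟩, ⟨_, rfl⟩, hgX _⟩
  have hcard : I.card = Fintype.card t := by
    rw [Finset.card_image_of_injective _ hginj, Finset.card_univ]
  have htne : Nonempty t := by
    by_contra hcon
    rw [not_nonempty_iff] at hcon
    have : t = ∅ := by
      rw [eq_empty_iff_forall_notMem]
      intro y hy
      exact hcon.false ⟨y, hy⟩
    rw [this, hspanF] at htspan
    simp only [AffineSubspace.span_empty] at htspan
    have : (affineSpan ℝ F : Set E).Nonempty := (affineSpan_nonempty ℝ).2 hne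
    rw [← htspan] at this
    simp at this
  have hcardt : Fintype.card t = j + 1 := by
    have h1 := htind.finrank_vectorSpan_add_one
    have h2 : vectorSpan ℝ (range (Subtype.val : t → E)) = vectorSpan ℝ F := by
      rw [Subtype.range_coe]
      change vectorSpan ℝ t = vectorSpan ℝ F
      rw [← direction_affineSpan, htspan, hspanF, direction_affineSpan]
    rw [← h1, h2, hfin]
  have hIne : I.Nonempty := by
    rw [← Finset.card_pos, hcard, hcardt]; omega
  have hIF : ∀ i ∈ I, X i ∈ F := by
    intro i hi
    simp only [I, Finset.mem_image, Finset.mem_univ, true_and] at hi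
    obtain ⟨y, rfl⟩ := hi
    exact hgS y
  refine ⟨I, by rw [hcard, hcardt], ?_, ?_⟩
  · apply not_mem_interior_of_exposed X hF (by rw [hfin]; exact hj)
    exact cen_mem (hexp.convex (convex_convexHull ℝ _)) X I hIne hIF
  · apply exposed_eq_inter X hF _ _ hne
    · rintro _ ⟨i, hi, rfl⟩
      exact hIF i hi
    · rw [hIim, htspan, hspanF]

theorem faces_finite (X : ι → E) {j : ℕ} (hj : j < finrank ℝ E) :
    {F : Set E | IsExposed ℝ (convexHull ℝ (range X)) F ∧ F.Nonempty ∧
      finrank ℝ (vectorSpan ℝ F) = j}.Finite := by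
  classical
  have hsub : {F : Set E | IsExposed ℝ (convexHull ℝ (range X)) F ∧ F.Nonempty ∧
      finrank ℝ (vectorSpan ℝ F) = j} ⊆
      range (fun I : Finset ι => convexHull ℝ (range X) ∩ (affineSpan ℝ (X '' I) : Set E)) := by
    rintro F ⟨h1, h2, h3⟩
    obtain ⟨I, _, _, h⟩ := exists_index X hj h1 h2 h3
    exact ⟨I, h.symm⟩
  exact (Set.finite_range _).subset hsub

open Classical in
theorem faceCount_le (X : ι → E) {j : ℕ} (hj : j < finrank ℝ E) :
    faceCount (convexHull ℝ (range X)) j ≤
      (Finset.univ.filter (fun I : Finset ι => I.card = j + 1 ∧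
        cen X I ∉ interior (convexHull ℝ (range X)))).card := by
  unfold faceCount
  let f : Finset ι → Set E := fun I => convexHull ℝ (range X) ∩ (affineSpan ℝ (X '' I) : Set E)
  have hsub : {F : Set E | IsExposed ℝ (convexHull ℝ (range X)) F ∧ F.Nonempty ∧
      finrank ℝ (vectorSpan ℝ F) = j} ⊆
      ((Finset.univ.filter (fun I : Finset ι => I.card = j + 1 ∧
        cen X I ∉ interior (convexHull ℝ (range X)))).image f : Finset (Set E)) := by
    rintro F ⟨h1, h2, h3⟩
    obtain ⟨I, hI1, hI2, h⟩ := exists_index X hj h1 h2 h3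
    simp only [Finset.coe_image, Finset.coe_filter, Finset.mem_univ, true_and, mem_image, mem_ofPred_eq]
    exact ⟨I, ⟨hI1, hI2⟩, h.symm⟩
  calc _ ≤ Set.ncard (((Finset.univ.filter (fun I : Finset ι => I.card = j + 1 ∧
        cen X I ∉ interior (convexHull ℝ (range X)))).image f : Finset (Set E)) : Set (Set E)) :=
        Set.ncard_le_ncard hsub (Finset.finite_toSet _)
    _ = _ := Set.ncard_coe_finset _
    _ ≤ _ := Finset.card_image_le

end Pool.Agent.Lib_helper31.RP
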