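import Pool.Agent.Lib_helper31.RPTailLemmas

open MeasureTheory Set Module
open scoped ENNReal NNReal Topology Pointwise RealInnerProductSpace

namespace Pool.Agent.Lib_helper31.RP

variable {F : Type*} [NormedAddCommGroup F] [InnerProductSpace ℝ F] [FiniteDimensional ℝ F]
variable [MeasurableSpace F] [BorelSpace F] (μ : Measure F) [μ.IsAddHaarMeasure]

/-- the closed convex hull of the superlevel set -/
def TT (K : Set F) (s : ℝ≥0∞) : Set F := closure (convexHull ℝ {y | y ∈ K ∧ s < μ (mac K y)})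

theorem tail_step {K : Set F} (hK : IsCompact K) (hconv : Convex ℝ K) (hk : 0 < finrank ℝ F)
    (x₀ : F) {r R : ℝ} (hr : 0 < r) (hball : Metric.closedBall x₀ (2 * r) ⊆ K)
    (hR : K ⊆ Metric.closedBall x₀ R) (c C₁ B : ℝ)
    (hC₁ : C₁ = finrank ℝ F / r * (1 + 1 / r) ^ (finrank ℝ F - 1) * (μ K).toReal)
    (hc : c = 1 / (16 * (μ K).toReal + 8 * C₁))
    (hB : B = finrank ℝ F * 2 ^ finrank ℝ F * (R + 1 + 1) ^ (finrank ℝ F - 1))
    (s : ℝ) (hs : 0 < s) (hs0 : ENNReal.ofReal s < μ (Metric.closedBall (0:F) r)) :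
    (√(c * (μ (K \ TT μ K (ENNReal.ofReal s))).toReal)) ^ (finrank ℝ F + 1) ≤
      c * 2 ^ (finrank ℝ F + 2) * B * s := by
  classical
  set k := finrank ℝ F with hkdef
  set G : Set F := {y | y ∈ K ∧ ENNReal.ofReal s < μ (mac K y)} with hG
  set T := TT μ K (ENNReal.ofReal s) with hT
  have hGK : G ⊆ K := fun y hy => hy.1
  have hTK : T ⊆ K := closure_minimal (convexHull_min hGK hconv) hK.isClosed
  have hTcl : IsClosed T := isClosed_closure
  have hTconv : Convex ℝ T := (convex_convexHull ℝ G).closure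
  have hTc : IsCompact T := hK.of_isClosed_subset hTcl hTK
  have hGT : G ⊆ T := (subset_convexHull ℝ G).trans subset_closure
  have hballT : Metric.closedBall x₀ r ⊆ T := by
    intro x hx
    apply hGT
    rw [Metric.mem_closedBall] at hx
    have hsub : Metric.closedBall (0:F) r ⊆ mac K x := by
      intro v hv
      rw [mem_closedBall_zero_iff] at hv
      constructor
      · apply hball
        rw [Metric.mem_closedBall]
        calc dist (x + v) x₀ ≤ dist (x + v) x + dist x x₀ := dist_triangle _ _ _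
          _ ≤ r + r := by
            apply add_le_add _ hx
            rw [dist_eq_norm, add_sub_cancel_left]; exact hv
          _ = 2 * r := by ring
      · apply hball
        rw [Metric.mem_closedBall]
        calc dist (x - v) x₀ ≤ dist (x - v) x + dist x x₀ := dist_triangle _ _ _
          _ ≤ r + r := by
            apply add_le_add _ hx
            rw [dist_eq_norm, sub_sub_cancel_left, norm_neg]; exact hv
          _ = 2 * r := by ring
    refine ⟨?_, hs0.trans_le (measure_mono hsub)⟩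
    apply hball
    rw [Metric.mem_closedBall]
    linarith
  set A := K \ T with hA
  have hAm : MeasurableSet A := hK.measurableSet.diff hTcl.measurableSet
  have hAu : ∀ x ∈ A, μ (mac K x) ≤ ENNReal.ofReal s := by
    intro x hx
    by_contra hcon
    push Not at hcon
    exact hx.2 (hGT ⟨hx.1, hcon⟩)
  have hKfin : μ K ≠ ⊤ := hK.measure_lt_top.ne
  have hAfin : μ A ≠ ⊤ := ((measure_mono sdiff_subset).trans_lt hK.measure_lt_top).ne
  have hKpos : 0 < (μ K).toReal := by
    apply ENNReal.toReal_pos _ hKfin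
    have h1 : 0 < μ (Metric.closedBall x₀ (2 * r)) := Metric.measure_closedBall_pos μ x₀ (by positivity)
    exact (h1.trans_le (measure_mono hball)).ne'
  have hR0 : 0 ≤ R := by
    have : x₀ ∈ Metric.closedBall x₀ R := hR (hball (Metric.mem_closedBall_self (by positivity)))
    rw [Metric.mem_closedBall, dist_self] at this
    exact this
  have hkr : (0:ℝ) < k := by exact_mod_cast hk
  have hC₁pos : 0 < C₁ := by rw [hC₁]; positivity
  have hcpos : 0 < c := by rw [hc]; positivity
  have hBpos : 0 < B := by rw [hB]; positivity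
  set w := (μ A).toReal with hw
  have hw0 : 0 ≤ w := ENNReal.toReal_nonneg
  have hwK : w ≤ (μ K).toReal := ENNReal.toReal_mono hKfin (measure_mono sdiff_subset)
  rcases eq_or_lt_of_le hw0 with hw00 | hwpos
  · rw [← hw00, mul_zero, Real.sqrt_zero, zero_pow (by omega)]
    positivity
  set ε := √(c * w) with hε
  have hcw : 0 < c * w := by positivity
  have hεpos : 0 < ε := Real.sqrt_pos.2 hcw
  have hε2 : ε ^ 2 = c * w := Real.sq_sqrt hcw.le
  have hcK : c * (16 * (μ K).toReal + 8 * C₁) = 1 := by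
    rw [hc]; field_simp
  have hε2le : ε ^ 2 ≤ 1 / 16 := by
    rw [hε2]
    have : c * (16 * (μ K).toReal) ≤ 1 := by
      rw [← hcK]
      apply mul_le_mul_of_nonneg_left _ hcpos.le
      linarith
    have h2 : c * w ≤ c * (μ K).toReal := mul_le_mul_of_nonneg_left hwK hcpos.le
    linarith
  have hε1 : ε ≤ 1 / 4 := by
    by_contra hcon
    push Not at hcon
    nlinarith
  obtain ⟨Z, hZnet, hZcard⟩ := exists_net hk x₀ (ρ := R + 1) (by linarith) hεpos (by linarith)
  have hTne : T.Nonempty := ⟨x₀, hballT (Metric.mem_closedBall_self hr.le)⟩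
  choose p hp hp' using (fun u : F => exists_nearest hTcl hTconv hTne u)
  let D : F → Set F := fun z => {y | y ∈ K ∧ 0 < ⟪z - p z, y - p z⟫}
  have hDm : ∀ z, MeasurableSet (D z) := by
    intro z
    apply hK.measurableSet.inter
    have : IsOpen {y | 0 < ⟪z - p z, y - p z⟫} := isOpen_lt continuous_const (by fun_prop)
    exact this.measurableSet
  -- covering
  have hcover : A ⊆ ({y | ∃ t ∈ T, dist y t ≤ 4 * ε ^ 2} \ T) ∪ ⋃ z ∈ Z, D z := by
    intro y hy
    by_cases h : ∀ z ∈ Z, ⟪z - p z, y - p z⟫ ≤ 0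
    · left
      refine ⟨?_, hy.2⟩
      exact dudley hTne x₀ (fun t ht => by
        have := hR (hTK ht); rwa [Metric.mem_closedBall] at this) hεpos hε1 Z hZnet p hp hp' h
    · right
      push Not at h
      obtain ⟨z, hz, hyz⟩ := h
      simp only [mem_iUnion, exists_prop]
      exact ⟨z, hz, hy.1, hyz⟩
  have hUK : (⋃ z ∈ Z, D z) ⊆ K := by
    intro y hy
    simp only [mem_iUnion, exists_prop] at hy
    obtain ⟨z, _, hy1, _⟩ := hy
    exact hy1
  set U := ⋃ z ∈ Z, D z with hU
  have hUfin : μ U ≠ ⊤ := ((measure_mono hUK).trans_lt hK.measure_lt_top).ne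
  have hpar : μ ({y | ∃ t ∈ T, dist y t ≤ 4 * ε ^ 2} \ T) ≤ ENNReal.ofReal (w / 2) := by
    have h1 := parallel_volume μ hTconv hTc x₀ hr hballT (η := 4 * ε ^ 2) (by positivity) (by linarith)
    refine h1.trans ?_
    have h2 : μ T ≤ ENNReal.ofReal (μ K).toReal := by
      rw [ENNReal.ofReal_toReal hKfin]; exact measure_mono hTK
    calc _ ≤ ENNReal.ofReal (k * (4 * ε ^ 2 / r) * (1 + 1 / r) ^ (k - 1)) * ENNReal.ofReal (μ K).toReal := by gcongr
      _ = ENNReal.ofReal (C₁ * (4 * ε ^ 2)) := by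
        rw [← ENNReal.ofReal_mul (by positivity)]
        congr 1
        rw [hC₁]; ring
      _ ≤ ENNReal.ofReal (w / 2) := by
        apply ENNReal.ofReal_le_ofReal
        rw [hε2]
        have h3 : c * (8 * C₁) ≤ 1 := by
          rw [← hcK]
          apply mul_le_mul_of_nonneg_left _ hcpos.le
          linarith
        nlinarith
  have hUw : w / 2 ≤ (μ U).toReal := by
    have h1 : μ A ≤ ENNReal.ofReal (w / 2) + μ U :=
      (measure_mono hcover).trans ((measure_union_le _ _).trans (add_le_add hpar le_rfl))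
    have h2 := ENNReal.toReal_mono (ENNReal.add_ne_top.2 ⟨ENNReal.ofReal_ne_top, hUfin⟩) h1
    rw [ENNReal.toReal_add ENNReal.ofReal_ne_top hUfin, ENNReal.toReal_ofReal (by positivity)] at h2
    linarith
  -- pairs
  have hfinr : IsFiniteMeasure (μ.restrict K) := ⟨by
    rw [Measure.restrict_apply_univ]; exact hK.measure_lt_top⟩
  have hpairs := pairs_lower (μ.restrict K) Z D hDm
  have hUr : (μ.restrict K) (⋃ z ∈ Z, D z) = μ U := by
    rw [Measure.restrict_apply' hK.measurableSet, inter_eq_self_of_subset_left hUK]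
  have hsubA : (⋃ z ∈ Z, (D z) ×ˢ (D z)) ⊆
      {q : F × F | q.1 ∈ K ∧ q.2 ∈ K ∧ (1 / 2 : ℝ) • (q.1 + q.2) ∈ A} := by
    rintro ⟨a, b⟩ hab
    simp only [mem_iUnion, exists_prop, mem_prod] at hab
    obtain ⟨z, _, ⟨ha1, ha2⟩, ⟨hb1, hb2⟩⟩ := hab
    refine ⟨ha1, hb1, ?_, ?_⟩
    · have := hconv ha1 hb1 (by norm_num : (0:ℝ) ≤ 1/2) (by norm_num : (0:ℝ) ≤ 1/2) (by norm_num)
      simpa [smul_add] using this
    · intro hmT
      have h1 := hp' z _ hmT
      have h2 : ⟪z - p z, (1 / 2 : ℝ) • (a + b) - p z⟫ = (1 / 2) * (⟪z - p z, a - p z⟫ + ⟪z - p z, b - p z⟫) := by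
        have e1 : (1 / 2 : ℝ) • (a + b) - p z = (1 / 2 : ℝ) • ((a - p z) + (b - p z)) := by
          rw [smul_add, smul_add, smul_sub, smul_sub]
          have : p z = (1 / 2 : ℝ) • p z + (1 / 2 : ℝ) • p z := by rw [← add_smul]; norm_num
          nth_rewrite 1 [this]
          abel
        rw [e1, inner_smul_right, inner_add_right]
      simp only at h1 ha2 hb2
      rw [h2] at h1
      linarith
  have hprod : ((μ.restrict K).prod (μ.restrict K)) (⋃ z ∈ Z, (D z) ×ˢ (D z)) ≤
      ENNReal.ofReal (2 ^ k) * (ENNReal.ofReal s * μ A) := by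
    rw [Measure.prod_restrict]
    calc ((μ.prod μ).restrict (K ×ˢ K)) (⋃ z ∈ Z, (D z) ×ˢ (D z)) ≤ (μ.prod μ) (⋃ z ∈ Z, (D z) ×ˢ (D z)) :=
          Measure.restrict_apply_le _ _
      _ ≤ (μ.prod μ) {q : F × F | q.1 ∈ K ∧ q.2 ∈ K ∧ (1 / 2 : ℝ) • (q.1 + q.2) ∈ A} := measure_mono hsubA
      _ = ENNReal.ofReal (2 ^ k) * ∫⁻ x in A, μ (mac K x) ∂μ := midpoint_measure μ hK hAm
      _ ≤ ENNReal.ofReal (2 ^ k) * ∫⁻ _x in A, ENNReal.ofReal s ∂μ := by
          exact mul_le_mul' le_rfl (setLIntegral_mono measurable_const hAu)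
      _ = _ := by rw [setLIntegral_const]
  rw [hUr] at hpairs
  have hreal : (w / 2) ^ 2 ≤ Z.card * (2 ^ k * (s * w)) := by
    have h1 : (μ U) ^ 2 ≤ Z.card * (ENNReal.ofReal (2 ^ k) * (ENNReal.ofReal s * μ A)) :=
      hpairs.trans (mul_le_mul' le_rfl hprod)
    have h2 := ENNReal.toReal_mono (by
      apply ENNReal.mul_ne_top (by simp)
      apply ENNReal.mul_ne_top ENNReal.ofReal_ne_top
      exact ENNReal.mul_ne_top ENNReal.ofReal_ne_top hAfin) h1
    rw [ENNReal.toReal_pow, ENNReal.toReal_mul, ENNReal.toReal_natCast, ENNReal.toReal_mul,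
      ENNReal.toReal_mul, ENNReal.toReal_ofReal (by positivity), ENNReal.toReal_ofReal hs.le] at h2
    refine le_trans ?_ h2
    apply pow_le_pow_left₀ (by positivity) hUw
  have hw1 : w ≤ 2 ^ (k + 2) * Z.card * s := by
    have h1 : w * w ≤ (2 ^ (k + 2) * Z.card * s) * w := by
      have : (2:ℝ) ^ (k + 2) = 2 ^ k * 4 := by ring
      rw [this]
      nlinarith
    exact le_of_mul_le_mul_right h1 hwpos
  have hfinal : w * ε ^ (k - 1) ≤ 2 ^ (k + 2) * B * s := by
    calc w * ε ^ (k - 1) ≤ (2 ^ (k + 2) * Z.card * s) * ε ^ (k - 1) := by gcongr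
      _ = 2 ^ (k + 2) * (Z.card * ε ^ (k - 1)) * s := by ring
      _ ≤ 2 ^ (k + 2) * B * s := by
        rw [hB]
        gcongr
  calc ε ^ (k + 1) = ε ^ 2 * ε ^ (k - 1) := by
        rw [← pow_add]; congr 1; omega
    _ = c * (w * ε ^ (k - 1)) := by rw [hε2]; ring
    _ ≤ c * (2 ^ (k + 2) * B * s) := by gcongr
    _ = _ := by ring

omit [InnerProductSpace ℝ F] [FiniteDimensional ℝ F] [BorelSpace F] in
theorem mac_pos_of_interior {K : Set F} {x : F} (hx : x ∈ interior K) : μ (mac K x) ≠ 0 := by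
  obtain ⟨r, hr, hball⟩ := Metric.isOpen_iff.1 isOpen_interior x hx
  have hsub : Metric.ball (0:F) r ⊆ mac K x := by
    intro v hv
    rw [mem_ball_zero_iff] at hv
    constructor
    · apply interior_subset
      apply hball
      rw [Metric.mem_ball, dist_eq_norm, add_sub_cancel_left]; exact hv
    · apply interior_subset
      apply hball
      rw [Metric.mem_ball, dist_eq_norm, sub_sub_cancel_left, norm_neg]; exact hv
  exact ((Metric.measure_ball_pos μ 0 hr).trans_le (measure_mono hsub)).ne'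

theorem tail_bound {K : Set F} (hK : IsCompact K) (hconv : Convex ℝ K) (hint : (interior K).Nonempty)
    (hk : 0 < finrank ℝ F) :
    ∃ C : ℝ≥0∞, C ≠ ⊤ ∧ ∀ s : ℝ≥0, μ {x | x ∈ K ∧ (μ (mac K x)).toNNReal ≤ s} ≤
      C * modM (((finrank ℝ F : ℝ) + 1) / 2) (Iic s) := by
  obtain ⟨x₀, hx₀⟩ := hint
  obtain ⟨r', hr', hball'⟩ := Metric.isOpen_iff.1 isOpen_interior x₀ hx₀
  set r := r' / 4 with hr
  have hrpos : 0 < r := by positivity
  have hball : Metric.closedBall x₀ (2 * r) ⊆ K := by
    intro y hy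
    apply interior_subset
    apply hball'
    rw [Metric.mem_closedBall] at hy
    rw [Metric.mem_ball]
    linarith
  obtain ⟨R, hR⟩ := hK.isBounded.subset_closedBall x₀
  set k := finrank ℝ F with hkdef
  have hkr : (0:ℝ) < k := by exact_mod_cast hk
  obtain ⟨C₁, hC₁⟩ : ∃ C₁, C₁ = (k:ℝ) / r * (1 + 1 / r) ^ (k - 1) * (μ K).toReal := ⟨_, rfl⟩
  obtain ⟨c, hc⟩ : ∃ c, c = 1 / (16 * (μ K).toReal + 8 * C₁) := ⟨_, rfl⟩
  obtain ⟨B, hB⟩ : ∃ B, B = (k:ℝ) * 2 ^ k * (R + 1 + 1) ^ (k - 1) := ⟨_, rfl⟩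
  have hstep := tail_step μ hK hconv hk x₀ hrpos hball hR c C₁ B hC₁ hc hB
  have hKfin : μ K ≠ ⊤ := hK.measure_lt_top.ne
  have hKpos : 0 < (μ K).toReal := by
    apply ENNReal.toReal_pos _ hKfin
    have h1 : 0 < μ (Metric.closedBall x₀ (2 * r)) := Metric.measure_closedBall_pos μ x₀ (by positivity)
    exact (h1.trans_le (measure_mono hball)).ne'
  have hR0 : 0 ≤ R := by
    have : x₀ ∈ Metric.closedBall x₀ R := hR (hball (Metric.mem_closedBall_self (by positivity)))
    rw [Metric.mem_closedBall, dist_self] at this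
    exact this
  have hC₁pos : 0 < C₁ := by rw [hC₁]; positivity
  have hcpos : 0 < c := by rw [hc]; positivity
  have hBpos : 0 < B := by rw [hB]; positivity
  set s₀ := (μ (Metric.closedBall (0:F) r)).toReal with hs₀
  have hs₀fin : μ (Metric.closedBall (0:F) r) ≠ ⊤ := measure_closedBall_lt_top.ne
  have hs₀pos : 0 < s₀ := ENNReal.toReal_pos (Metric.measure_closedBall_pos μ _ hrpos).ne' hs₀fin
  set c₁ : ℝ := (1 / ((k:ℝ) + 1)) ^ k with hc₁
  have hc₁pos : 0 < c₁ := by positivity
  set α : ℝ := 2 / ((k:ℝ) + 1) with hα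
  have hαpos : 0 < α := by positivity
  set M : ℝ := c * 2 ^ (k + 2) * B * (2 / c₁) with hM
  have hMpos : 0 < M := by positivity
  set m₀ : ℝ := min 1 ((c₁ * s₀ / 2) ^ α) with hm₀
  have hm₀pos : 0 < m₀ := by
    apply lt_min one_pos
    positivity
  have hm₀1 : m₀ ≤ 1 := min_le_left _ _
  set b : ℝ := (μ K).toReal / m₀ with hb
  have hbK : (μ K).toReal ≤ b := by
    rw [hb, le_div_iff₀ hm₀pos]
    nlinarith
  have hbpos : 0 < b := by positivity
  set a : ℝ := 1 / c * M ^ α with ha
  have hapos : 0 < a := by positivity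
  refine ⟨ENNReal.ofReal (a + b), ENNReal.ofReal_ne_top, fun s => ?_⟩
  have hexp : 1 / (((k:ℝ) + 1) / 2) = α := by rw [hα]; field_simp
  rw [modM_Iic (by positivity), hexp, ← ENNReal.ofReal_mul (by positivity)]
  have hLK : μ {x | x ∈ K ∧ (μ (mac K x)).toNNReal ≤ s} ≤ ENNReal.ofReal (μ K).toReal := by
    rw [ENNReal.ofReal_toReal hKfin]
    exact measure_mono (fun x hx => hx.1)
  rcases eq_or_lt_of_le (zero_le : 0 ≤ s) with hs | hs
  · -- s = 0
    have h1 : {x | x ∈ K ∧ (μ (mac K x)).toNNReal ≤ s} ⊆ frontier K := by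
      rintro x ⟨hxK, hx⟩
      rw [hK.isClosed.frontier_eq]
      refine ⟨hxK, fun hxi => ?_⟩
      have h2 := mac_pos_of_interior μ hxi
      rw [← hs] at hx
      have h3 : (μ (mac K x)).toNNReal = 0 := le_antisymm hx zero_le
      rw [ENNReal.toNNReal_eq_zero_iff] at h3
      rcases h3 with h3 | h3
      · exact h2 h3
      · exact (mac_compact hK x).measure_lt_top.ne h3
    calc _ ≤ μ (frontier K) := measure_mono h1
      _ = 0 := hconv.addHaar_frontier μ
      _ ≤ _ := zero_le
  · have hsr : (0:ℝ) < s := by exact_mod_cast hs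
    by_cases hbig : 1 ≤ (s:ℝ) ^ α
    · refine hLK.trans (ENNReal.ofReal_le_ofReal ?_)
      rw [min_eq_left hbig]
      linarith
    · push Not at hbig
      rw [min_eq_right hbig.le]
      by_cases hs' : 2 / c₁ * s < s₀
      · -- main case
        have h1 := hstep (2 / c₁ * s) (by positivity) (by
          rw [ENNReal.ofReal_lt_iff_lt_toReal (by positivity) hs₀fin]; exact hs')
        set G : Set F := {y | y ∈ K ∧ ENNReal.ofReal (2 / c₁ * s) < μ (mac K y)} with hG
        set T := TT μ K (ENNReal.ofReal (2 / c₁ * s)) with hT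
        have hsub : {x | x ∈ K ∧ (μ (mac K x)).toNNReal ≤ s} ⊆ (K \ T) ∪ frontier (convexHull ℝ G) := by
          rintro x ⟨hxK, hx⟩
          by_cases hxG : x ∈ convexHull ℝ G
          · exfalso
            have h2 := mac_lower_on_hull μ hconv _ hxG
            have hfin : μ (mac K x) ≠ ⊤ := (mac_compact hK x).measure_lt_top.ne
            have h3 : μ (mac K x) ≤ ENNReal.ofReal s := by
              rw [ENNReal.ofReal_coe_nnreal]
              rw [← ENNReal.coe_toNNReal hfin]
              exact_mod_cast hx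
            have h4 := h2.trans h3
            rw [← ENNReal.ofReal_mul (by positivity)] at h4
            rw [ENNReal.ofReal_le_ofReal_iff hsr.le] at h4
            change c₁ * (2 / c₁ * s) ≤ s at h4
            have h5 : c₁ * (2 / c₁ * s) = 2 * s := by field_simp
            rw [h5] at h4
            linarith
          · by_cases hxT : x ∈ T
            · right
              rw [frontier]
              refine ⟨hxT, fun hxi => hxG (interior_subset hxi)⟩
            · left; exact ⟨hxK, hxT⟩
        have hKT : μ (K \ T) ≠ ⊤ := ((measure_mono sdiff_subset).trans_lt hK.measure_lt_top).ne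
        have h2 : μ {x | x ∈ K ∧ (μ (mac K x)).toNNReal ≤ s} ≤ ENNReal.ofReal (μ (K \ T)).toReal := by
          rw [ENNReal.ofReal_toReal hKT]
          calc _ ≤ μ ((K \ T) ∪ frontier (convexHull ℝ G)) := measure_mono hsub
            _ ≤ μ (K \ T) + μ (frontier (convexHull ℝ G)) := measure_union_le _ _
            _ = μ (K \ T) := by rw [(convex_convexHull ℝ G).addHaar_frontier μ, add_zero]
        refine h2.trans (ENNReal.ofReal_le_ofReal ?_)
        set w := (μ (K \ T)).toReal with hw
        have hw0 : 0 ≤ w := ENNReal.toReal_nonneg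
        have h3 : (√(c * w)) ^ (k + 1) ≤ M * s := by
          refine h1.trans (le_of_eq ?_)
          rw [hM]; ring
        have h4 : c * w ≤ (M * s) ^ α := by
          have h5 : c * w = ((√(c * w)) ^ (k + 1)) ^ α := by
            rw [← Real.rpow_natCast, ← Real.rpow_mul (Real.sqrt_nonneg _)]
            have : ((k + 1 : ℕ) : ℝ) * α = 2 := by
              rw [hα]; push_cast; field_simp
            rw [this, Real.rpow_two, Real.sq_sqrt (by positivity)]
          rw [h5]
          exact Real.rpow_le_rpow (by positivity) h3 hαpos.le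
        rw [Real.mul_rpow hMpos.le hsr.le] at h4
        have h6 : w ≤ a * (s:ℝ) ^ α := by
          rw [ha]
          have : w = 1 / c * (c * w) := by field_simp
          rw [this]
          calc 1 / c * (c * w) ≤ 1 / c * (M ^ α * (s:ℝ) ^ α) := by gcongr
            _ = _ := by ring
        have h7 : 0 ≤ b * (s:ℝ) ^ α := by positivity
        linarith
      · push Not at hs'
        refine hLK.trans (ENNReal.ofReal_le_ofReal ?_)
        have h1 : c₁ * s₀ / 2 ≤ s := by
          have : c₁ * s₀ ≤ c₁ * (2 / c₁ * s) := by gcongr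
          have h2 : c₁ * (2 / c₁ * (s:ℝ)) = 2 * s := by field_simp
          linarith
        have h2 : m₀ ≤ (s:ℝ) ^ α := (min_le_right _ _).trans (Real.rpow_le_rpow (by positivity) h1 hαpos.le)
        have h3 : (μ K).toReal = b * m₀ := by rw [hb]; field_simp
        rw [h3]
        have h4 : b * m₀ ≤ b * (s:ℝ) ^ α := by gcongr
        have h5 : 0 ≤ a * (s:ℝ) ^ α := by positivity
        linarith

end Pool.Agent.Lib_helper31.RP
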