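import Pool.Agent.Lib_helper31.RPShell
import Pool.Agent.Lib_helper31.RPTail

open MeasureTheory Set Module
open scoped ENNReal NNReal Topology Pointwise RealInnerProductSpace

namespace Pool.Agent.Lib_helper31.RP

variable {F : Type*} [NormedAddCommGroup F] [InnerProductSpace ℝ F] [FiniteDimensional ℝ F]
variable [MeasurableSpace F] [BorelSpace F]

/-- distance to the boundary -/
noncomputable def bd (K : Set F) (x : F) : ℝ≥0 := (Metric.infDist x (frontier K)).toNNReal

omit [InnerProductSpace ℝ F] [FiniteDimensional ℝ F] in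
theorem bd_measurable (K : Set F) : Measurable (bd K) := by
  unfold bd
  exact (Metric.continuous_infDist_pt _).measurable.real_toNNReal

theorem factor_lower {K : Set F} (hK : IsCompact K) (hconv : Convex ℝ K) (hint : (interior K).Nonempty)
    (hk : 0 < finrank ℝ F) (hcurv : ∀ x ∈ frontier K, ∃ κ > 0, OB K κ x) :
    ∃ G : Set F, MeasurableSet G ∧ G ⊆ K ∧
      (∃ C : ℝ≥0∞, C ≠ ⊤ ∧ ∀ s : ℝ≥0, modM (((finrank ℝ F : ℝ) + 1) / 2) (Iic s) ≤
        C * (volume.restrict G) {x | (bd K x) ^ (((finrank ℝ F : ℝ) + 1) / 2) ≤ s}) ∧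
      ∃ C : ℝ, 0 < C ∧ ∀ x ∈ G, 0 < bd K x ∧ ∃ l : F →L[ℝ] ℝ, (∀ y ∈ K, l y ≤ l x + bd K x) ∧
        ∀ M : ℝ, 0 ≤ M → volume (K ∩ {y | l x - M * bd K x ≤ l y}) ≤
          ENNReal.ofReal (C * ((M + 1) * bd K x) ^ (((finrank ℝ F : ℝ) + 1) / 2)) := by
  have hnt : Nontrivial F := Module.nontrivial_of_finrank_pos hk
  have hfrne : (frontier K).Nonempty := by
    rw [nonempty_iff_ne_empty]
    intro h
    have : IsClopen K := by rwa [isClopen_iff_frontier_eq_empty]
    rcases isClopen_iff.1 this with h1 | h1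
    · rw [h1] at hint; simp at hint
    · have := hK.ne_univ
      exact this h1
  obtain ⟨κ, hκ, p, hp, η, hη, hpatch⟩ := exists_patch hK hfrne hcurv
  obtain ⟨c, hc, hshell⟩ := shell (volume : Measure F) hK hconv hint hk hp (ε := η / 2) (by positivity)
  set k := finrank ℝ F with hkdef
  set e : ℝ := ((k:ℝ) + 1) / 2 with he
  have hkr : (0:ℝ) < k := by exact_mod_cast hk
  have hepos : 0 < e := by positivity
  have hfc : IsCompact (frontier K) := hK.of_isClosed_subset isClosed_frontier hK.isClosed.frontier_subset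
  have hlt : IsOpen {x : F | dist x p < η / 2} := isOpen_lt (continuous_id.dist continuous_const) continuous_const
  have hGm : MeasurableSet {x : F | x ∈ interior K ∧ dist x p < η / 2} :=
    (isOpen_interior.inter hlt).measurableSet
  refine ⟨{x | x ∈ interior K ∧ dist x p < η / 2}, hGm, fun x hx => interior_subset hx.1, ?_, ?_⟩
  · refine ⟨ENNReal.ofReal (1 / c), ENNReal.ofReal_ne_top, fun s => ?_⟩
    rw [modM_Iic hepos]
    rcases eq_or_lt_of_le (zero_le : 0 ≤ s) with hs | hs
    · rw [← hs]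
      have h1 : ((0:ℝ≥0):ℝ) ^ (1 / e) = 0 := by
        rw [NNReal.coe_zero, Real.zero_rpow (by positivity)]
      rw [h1]; simp
    · have hsr : (0:ℝ) < s := by exact_mod_cast hs
      have hτ : 0 < (s:ℝ) ^ (1 / e) := by positivity
      have h1 := hshell _ hτ
      have h2 : volume {x | x ∈ interior K ∧ dist x p < η / 2 ∧ Metric.infDist x (frontier K) ≤ (s:ℝ) ^ (1 / e)} ≤
          (volume.restrict {x | x ∈ interior K ∧ dist x p < η / 2}) {x | (bd K x) ^ e ≤ s} := by
        rw [Measure.restrict_apply' hGm]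
        apply measure_mono
        rintro x ⟨hx1, hx2, hx3⟩
        refine ⟨?_, hx1, hx2⟩
        simp only [mem_ofPred_eq]
        rw [← NNReal.coe_le_coe, NNReal.coe_rpow]
        unfold bd
        rw [Real.coe_toNNReal _ Metric.infDist_nonneg]
        calc Metric.infDist x (frontier K) ^ e ≤ ((s:ℝ) ^ (1 / e)) ^ e := by
              apply Real.rpow_le_rpow Metric.infDist_nonneg hx3 hepos.le
          _ = s := by
              rw [one_div, Real.rpow_inv_rpow s.coe_nonneg hepos.ne']
      calc ENNReal.ofReal (min 1 ((s:ℝ) ^ (1 / e))) = ENNReal.ofReal (1 / c) * ENNReal.ofReal (c * min 1 ((s:ℝ) ^ (1 / e))) := by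
            rw [← ENNReal.ofReal_mul (by positivity)]
            congr 1
            field_simp
        _ ≤ _ := by
            gcongr
            exact h1.trans h2
  · refine ⟨2 ^ k * (1 / κ) ^ (((k:ℝ) - 1) / 2), by positivity, ?_⟩
    rintro x ⟨hxi, hxp⟩
    have hxf : x ∉ frontier K := fun h => h.2 hxi
    have hpos : 0 < Metric.infDist x (frontier K) :=
      (isClosed_frontier.notMem_iff_infDist_pos hfrne).1 hxf
    obtain ⟨δ, hδ⟩ : ∃ δ, δ = Metric.infDist x (frontier K) := ⟨_, rfl⟩
    have hbd : ((bd K x : ℝ≥0) : ℝ) = δ := by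
      unfold bd
      rw [Real.coe_toNNReal _ Metric.infDist_nonneg, hδ]
    rw [← hδ] at hpos
    refine ⟨by rw [← NNReal.coe_lt_coe, hbd]; exact hpos, ?_⟩
    obtain ⟨q, hq, hqx⟩ := hfc.exists_infDist_eq_dist hfrne x
    rw [← hδ] at hqx
    have hδp : δ ≤ dist x p := by rw [hδ]; exact Metric.infDist_le_dist_of_mem hp
    have hqp : dist q p < η := by
      have := dist_triangle q x p
      rw [dist_comm q x, ← hqx] at this
      linarith
    obtain ⟨n, hn, hOB⟩ := hpatch q hq hqp
    refine ⟨innerSL ℝ n, ?_, ?_⟩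
    · intro y hy
      rw [hbd]
      simp only [innerSL_apply_apply]
      have h1 : 0 ≤ ⟪q - y, n⟫ := le_trans (by positivity) (hOB y hy)
      have h2 : ⟪q - x, n⟫ ≤ δ := by
        have := real_inner_le_norm (q - x) n
        rw [hn, mul_one, ← dist_eq_norm, dist_comm, ← hqx] at this
        exact this
      have h3 : ⟪n, y⟫ = ⟪n, x⟫ + ⟪q - x, n⟫ - ⟪q - y, n⟫ := by
        rw [inner_sub_left, inner_sub_left, real_inner_comm n x, real_inner_comm n y]; ring
      rw [h3]; linarith
    · intro M hM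
      rw [hbd]
      have hsub : K ∩ {y | (innerSL ℝ n) x - M * δ ≤ (innerSL ℝ n) y} ⊆
          {y | κ * ‖y - q‖ ^ 2 ≤ ⟪q - y, n⟫ ∧ ⟪q - y, n⟫ ≤ (M + 1) * δ} := by
        rintro y ⟨hyK, hy⟩
        refine ⟨hOB y hyK, ?_⟩
        simp only [innerSL_apply_apply, mem_ofPred_eq] at hy
        have h2 : ⟪q - x, n⟫ ≤ δ := by
          have := real_inner_le_norm (q - x) n
          rw [hn, mul_one, ← dist_eq_norm, dist_comm, ← hqx] at this
          exact this
        have h3 : ⟪q - y, n⟫ = ⟪q - x, n⟫ + ⟪n, x⟫ - ⟪n, y⟫ := by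
          rw [inner_sub_left, inner_sub_left, real_inner_comm n x, real_inner_comm n y]; ring
        rw [h3]; linarith
      exact (measure_mono hsub).trans (cap_volume hk hκ q n hn (by positivity))

end Pool.Agent.Lib_helper31.RP
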