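import Pool.Agent.Lib_helper31.RPFaces

open MeasureTheory Set ProbabilityTheory Module
open scoped ENNReal Topology

namespace Pool.Agent.Lib_helper31.RP

variable {E : Type*} [NormedAddCommGroup E] [NormedSpace ℝ E] [FiniteDimensional ℝ E]
variable {ι : Type*} [Fintype ι]

/-- `I` is exactly the set of indices maximizing some functional -/
def IsFaceSet (X : ι → E) (I : Finset ι) : Prop :=
  ∃ (l : E →ₗ[ℝ] ℝ) (c : ℝ), (∀ i ∈ I, l (X i) = c) ∧ ∀ i, i ∉ I → l (X i) < c

/-- general position -/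
def GP (X : ι → E) : Prop :=
  ∀ S : Finset ι, S.card ≤ finrank ℝ E + 1 → AffineIndependent ℝ (fun i : S => X i)

omit [FiniteDimensional ℝ E] [Fintype ι] in
theorem exists_dual_of_affInd {κ : Type*} (p : κ → E) (hp : AffineIndependent ℝ p) (k₀ : κ)
    (f : κ → ℝ) (hf : f k₀ = 0) : ∃ g : E →ₗ[ℝ] ℝ, ∀ k, g (p k) - g (p k₀) = f k := by
  rw [affineIndependent_iff_linearIndependent_vsub ℝ p k₀] at hp
  let b := Basis.span hp
  let g₀ : _ →ₗ[ℝ] ℝ := b.constr ℝ (fun i => f i)
  obtain ⟨g, hg⟩ := LinearMap.exists_extend g₀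
  refine ⟨g, fun k => ?_⟩
  by_cases hk : k = k₀
  · subst hk; simp [hf]
  · rw [← map_sub]
    have h1 := congrArg (fun h => h (b ⟨k, hk⟩)) hg
    simp only [LinearMap.comp_apply, Submodule.subtype_apply] at h1
    rw [show g₀ (b ⟨k, hk⟩) = f k by simp [g₀]] at h1
    rw [Basis.span_apply] at h1
    simpa using h1

omit [FiniteDimensional ℝ E] [Fintype ι] in
theorem IsFaceSet.subset {X : ι → E} {I J : Finset ι} [Finite ι] (hI : IsFaceSet X I)
    (hind : AffineIndependent ℝ (fun i : I => X i)) (hJI : J ⊆ I) (hJ : J.Nonempty) :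
    IsFaceSet X J := by
  classical
  obtain ⟨l, c, h1, h2⟩ := hI
  obtain ⟨j₀, hj₀⟩ := hJ
  obtain ⟨g, hg⟩ := exists_dual_of_affInd (fun i : I => X i) hind ⟨j₀, hJI hj₀⟩
    (fun i => if (i : ι) ∈ J then 0 else -1) (by simp [hj₀])
  -- choose ε
  obtain ⟨ε, hε, hεp⟩ : ∃ ε : ℝ, 0 < ε ∧ ∀ i, i ∉ I → l (X i) + ε * g (X i) < c + ε * g (X j₀) := by
    have : ∀ i, ∃ ε : ℝ, 0 < ε ∧ ∀ δ, 0 < δ → δ ≤ ε → (i ∉ I → l (X i) + δ * g (X i) < c + δ * g (X j₀)) := by
      intro i
      by_cases hi : i ∈ I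
      · exact ⟨1, one_pos, fun _ _ _ h => absurd hi h⟩
      · have h3 := h2 i hi
        have hpos : 0 < |g (X i) - g (X j₀)| + 1 := by positivity
        refine ⟨(c - l (X i)) / (|g (X i) - g (X j₀)| + 1) / 2, by
          have : 0 < c - l (X i) := by linarith
          positivity, fun δ hδ hδε _ => ?_⟩
        have h4 : δ * (g (X i) - g (X j₀)) ≤ δ * (|g (X i) - g (X j₀)| + 1) := by
          apply mul_le_mul_of_nonneg_left _ hδ.le
          linarith [le_abs_self (g (X i) - g (X j₀))]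
        have h5 : δ * (|g (X i) - g (X j₀)| + 1) ≤ (c - l (X i)) / (|g (X i) - g (X j₀)| + 1) / 2 * (|g (X i) - g (X j₀)| + 1) :=
          mul_le_mul_of_nonneg_right hδε hpos.le
        have h6 : (c - l (X i)) / (|g (X i) - g (X j₀)| + 1) / 2 * (|g (X i) - g (X j₀)| + 1) = (c - l (X i)) / 2 := by
          field_simp
        linarith
    choose ε hε hεp using this
    rcases isEmpty_or_nonempty ι with hemp | hne
    · exact hemp.elim j₀
    · obtain ⟨m, hm⟩ := Finite.exists_min ε
      exact ⟨ε m, hε m, fun i hi => hεp i (ε m) (hε m) (hm i) hi⟩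
  refine ⟨l + ε • g, c + ε * g (X j₀), ?_, ?_⟩
  · intro i hi
    have h3 := hg ⟨i, hJI hi⟩
    simp only [hi, if_true] at h3
    simp only [LinearMap.add_apply, LinearMap.smul_apply, smul_eq_mul]
    rw [h1 i (hJI hi)]
    have : g (X i) = g (X j₀) := by linarith
    rw [this]
  · intro i hi
    simp only [LinearMap.add_apply, LinearMap.smul_apply, smul_eq_mul]
    by_cases hiI : i ∈ I
    · have h3 := hg ⟨i, hiI⟩
      simp only [hi, if_false] at h3
      rw [h1 i hiI]
      have : g (X i) = g (X j₀) - 1 := by linarith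
      rw [this]
      nlinarith
    · exact hεp i hiI

omit [Fintype ι] in
theorem card_le_of_const {X : ι → E} (hGP : GP X) {l : E →ₗ[ℝ] ℝ} (hl : l ≠ 0) {c : ℝ}
    {S : Finset ι} (h : ∀ i ∈ S, l (X i) = c) : S.card ≤ finrank ℝ E := by
  classical
  by_contra hcon
  push Not at hcon
  obtain ⟨T, hTS, hT⟩ := Finset.exists_subset_card_eq (show finrank ℝ E + 1 ≤ S.card by omega)
  have hind := hGP T (by omega)
  have hspan : affineSpan ℝ (range (fun i : T => X i)) = ⊤ := by
    rw [hind.affineSpan_eq_top_iff_card_eq_finrank_add_one]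
    simp [hT]
  apply hl
  have hle : affineSpan ℝ (range (fun i : T => X i)) ≤
      (AffineSubspace.mk' c (⊥ : Submodule ℝ ℝ)).comap (l.toAffineMap) := by
    rw [affineSpan_le]
    rintro _ ⟨i, rfl⟩
    simp only [AffineSubspace.coe_comap, mem_preimage, SetLike.mem_coe]
    rw [AffineSubspace.mem_mk']
    simp only [LinearMap.coe_toAffineMap, vsub_eq_sub, Submodule.mem_bot]
    rw [h i (hTS i.2), sub_self]
  rw [hspan] at hle
  have hall : ∀ v, l v = c := by
    intro v
    have h3 := hle (AffineSubspace.mem_top ℝ E v)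
    rw [AffineSubspace.mem_comap, AffineSubspace.mem_mk'] at h3
    simp only [LinearMap.coe_toAffineMap, vsub_eq_sub, Submodule.mem_bot] at h3
    linarith
  have hc : c = 0 := by rw [← hall 0]; simp
  ext v
  rw [hall v, hc]; simp

theorem IsFaceSet.extend {X : ι → E} (hGP : GP X) (hcard : finrank ℝ E + 1 ≤ Fintype.card ι)
    {I : Finset ι} (hI : IsFaceSet X I) (hne : I.Nonempty) (hlt : I.card < finrank ℝ E) :
    ∃ I' : Finset ι, I ⊂ I' ∧ IsFaceSet X I' ∧ I'.card ≤ finrank ℝ E := by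
  classical
  obtain ⟨l, c, h1, h2⟩ := hI
  obtain ⟨i₀, hi₀⟩ := hne
  -- a functional constant on I, not a multiple of l
  obtain ⟨g, hgI, hgl⟩ : ∃ g : E →ₗ[ℝ] ℝ, (∀ i ∈ I, g (X i) = g (X i₀)) ∧
      g ∉ Submodule.span ℝ {l} := by
    set W := vectorSpan ℝ ((I.image X : Finset E) : Set E) with hW
    have hWfin : finrank ℝ W ≤ I.card - 1 := by
      apply finrank_vectorSpan_image_finset_le
      have : 0 < I.card := Finset.card_pos.2 ⟨i₀, hi₀⟩
      omega
    have hann := Subspace.finrank_add_finrank_dualAnnihilator_eq (K := ℝ) (V := E) W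
    have hnle : ¬ (W.dualAnnihilator ≤ Submodule.span ℝ {l}) := by
      intro hle
      have h3 := Submodule.finrank_mono hle
      have h4 : finrank ℝ (Submodule.span ℝ ({l} : Set (E →ₗ[ℝ] ℝ))) ≤ 1 :=
        (finrank_span_le_card _).trans (by simp)
      have h5 : finrank ℝ (W.dualAnnihilator) ≤ 1 := h3.trans h4
      have : 0 < I.card := Finset.card_pos.2 ⟨i₀, hi₀⟩
      omega
    rw [SetLike.not_le_iff_exists] at hnle
    obtain ⟨g, hgW, hgl⟩ := hnle
    refine ⟨g, fun i hi => ?_, hgl⟩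
    rw [Submodule.mem_dualAnnihilator] at hgW
    have h3 : X i - X i₀ ∈ W := by
      have := vsub_mem_vectorSpan ℝ (s := ((I.image X : Finset E) : Set E)) (p₁ := X i) (p₂ := X i₀)
        (by simpa using ⟨i, hi, rfl⟩) (by simpa using ⟨i₀, hi₀, rfl⟩)
      exact this
    have h4 := hgW _ h3
    rw [map_sub] at h4
    linarith
  -- some index with g different
  have hg0 : g ≠ 0 := by
    rintro rfl
    exact hgl (Submodule.zero_mem _)
  have hex : ∃ k, g (X k) ≠ g (X i₀) := by
    by_contra hcon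
    push Not at hcon
    have := card_le_of_const hGP hg0 (S := Finset.univ) (c := g (X i₀)) (fun i _ => hcon i)
    rw [Finset.card_univ] at this
    omega
  -- WLOG g (X k) > g (X i₀)
  obtain ⟨g', hgI', hgl', k, hk⟩ : ∃ g' : E →ₗ[ℝ] ℝ, (∀ i ∈ I, g' (X i) = g' (X i₀)) ∧
      g' ∉ Submodule.span ℝ {l} ∧ ∃ k, g' (X i₀) < g' (X k) := by
    obtain ⟨k, hk⟩ := hex
    rcases lt_or_gt_of_ne hk with h | h
    · refine ⟨-g, fun i hi => by simp [hgI i hi], ?_, k, by simpa using h⟩
      intro hmem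
      apply hgl
      have := Submodule.neg_mem _ hmem
      simpa using this
    · exact ⟨g, hgI, hgl, k, h⟩
  have hnotI : ∀ k, g' (X i₀) < g' (X k) → k ∉ I := by
    intro k hk hkI
    rw [hgI' k hkI] at hk
    exact lt_irrefl _ hk
  let A := Finset.univ.filter (fun k => g' (X i₀) < g' (X k))
  have hA : A.Nonempty := ⟨k, by simp [A, hk]⟩
  obtain ⟨m, hmA, hm⟩ := Finset.exists_min_image A (fun k => (c - l (X k)) / (g' (X k) - g' (X i₀))) hA
  have hmA' : g' (X i₀) < g' (X m) := by simpa [A] using hmA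
  set s : ℝ := (c - l (X m)) / (g' (X m) - g' (X i₀)) with hs
  have hspos : 0 < s := by
    apply div_pos
    · have := h2 m (hnotI m hmA'); linarith
    · linarith
  set l' : E →ₗ[ℝ] ℝ := l + s • g' with hl'
  have hl'app : ∀ v, l' v = l v + s * g' v := fun v => by simp [hl']
  have hl'0 : l' ≠ 0 := by
    intro h0
    apply hgl'
    rw [Submodule.mem_span_singleton]
    refine ⟨-s⁻¹, ?_⟩
    ext v
    have := congrArg (fun f : E →ₗ[ℝ] ℝ => f v) h0
    simp only [hl'app, LinearMap.zero_apply] at this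
    simp only [LinearMap.smul_apply, smul_eq_mul]
    field_simp
    linarith
  set c' : ℝ := c + s * g' (X i₀) with hc'
  have hle : ∀ i, l' (X i) ≤ c' := by
    intro i
    rw [hl'app, hc']
    have hli : l (X i) ≤ c := by
      by_cases hi : i ∈ I
      · exact (h1 i hi).le
      · exact (h2 i hi).le
    by_cases hgi : g' (X i₀) < g' (X i)
    · have h3 := hm i (by simp [A, hgi])
      rw [le_div_iff₀ (by linarith)] at h3
      nlinarith
    · push Not at hgi
      nlinarith
  refine ⟨Finset.univ.filter (fun i => l' (X i) = c'), ?_, ⟨l', c', ?_, ?_⟩, ?_⟩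
  · rw [Finset.ssubset_iff_of_subset]
    · refine ⟨m, ?_, hnotI m hmA'⟩
      simp only [Finset.mem_filter, Finset.mem_univ, true_and]
      rw [hl'app, hc']
      have : s * (g' (X m) - g' (X i₀)) = c - l (X m) := by
        rw [hs, div_mul_cancel₀]
        linarith
      linarith
    · intro i hi
      simp only [Finset.mem_filter, Finset.mem_univ, true_and]
      rw [hl'app, hc', h1 i hi, hgI' i hi]
  · intro i hi
    simpa using hi
  · intro i hi
    simp only [Finset.mem_filter, Finset.mem_univ, true_and] at hi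
    exact lt_of_le_of_ne (hle i) hi
  · apply card_le_of_const hGP hl'0 (c := c')
    intro i hi
    simpa using hi

omit [FiniteDimensional ℝ E] in
theorem isFaceSet_singleton {X : ι → E} {k : ι} (hk : X k ∉ convexHull ℝ (X '' {i | i ≠ k})) :
    IsFaceSet X {k} := by
  have hfin : (X '' {i | i ≠ k}).Finite := Set.toFinite _
  have hcl : IsClosed (convexHull ℝ (X '' {i | i ≠ k})) := (hfin.isCompact_convexHull ℝ).isClosed
  obtain ⟨f, u, hu1, hu2⟩ := geometric_hahn_banach_point_closed (convex_convexHull ℝ _) hcl hk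
  refine ⟨-(f : E →ₗ[ℝ] ℝ), -f (X k), ?_, ?_⟩
  · intro i hi
    rw [Finset.mem_singleton] at hi
    subst hi; simp
  · intro i hi
    rw [Finset.mem_singleton] at hi
    have := hu2 (X i) (subset_convexHull ℝ _ ⟨i, hi, rfl⟩)
    simp only [LinearMap.neg_apply, ContinuousLinearMap.coe_coe, neg_lt_neg_iff]
    linarith

theorem exists_faceSet {X : ι → E} (hGP : GP X) (hcard : finrank ℝ E + 1 ≤ Fintype.card ι)
    {k : ι} (hk : X k ∉ convexHull ℝ (X '' {i | i ≠ k})) (j : ℕ) (hj : j < finrank ℝ E) :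
    ∃ I : Finset ι, k ∈ I ∧ I.card = j + 1 ∧ IsFaceSet X I := by
  classical
  induction j with
  | zero => exact ⟨{k}, by simp, by simp, isFaceSet_singleton hk⟩
  | succ j ih =>
    obtain ⟨I, hkI, hIc, hI⟩ := ih (by omega)
    obtain ⟨I', hII', hI', hI'c⟩ := hI.extend hGP hcard ⟨k, hkI⟩ (by omega)
    have hlt := Finset.card_lt_card hII'
    obtain ⟨J, hIJ, hJI', hJc⟩ := Finset.exists_subsuperset_card_eq (n := j + 1 + 1) hII'.subset (by omega) (by omega)
    refine ⟨J, hIJ hkI, hJc, hI'.subset (hGP I' (by omega)) hJI' ⟨k, hIJ hkI⟩⟩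

omit [Fintype ι] in
theorem face_of_faceSet {X : ι → E} {I : Finset ι} (hI : IsFaceSet X I)
    (hind : AffineIndependent ℝ (fun i : I => X i)) (hne : I.Nonempty) :
    ∃ F : Set E, IsExposed ℝ (convexHull ℝ (range X)) F ∧ F.Nonempty ∧
      finrank ℝ (vectorSpan ℝ F) = I.card - 1 ∧ ∀ i ∈ I, X i ∈ F := by
  classical
  obtain ⟨l, c, h1, h2⟩ := hI
  obtain ⟨i₀, hi₀⟩ := hne
  let L : E →L[ℝ] ℝ := LinearMap.toContinuousLinearMap l
  have hL : ∀ v, L v = l v := fun v => rfl
  have hle : ∀ y ∈ convexHull ℝ (range X), l y ≤ c := by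
    have hconv : Convex ℝ {y | l y ≤ c} := convex_halfSpace_le l.isLinear c
    have : convexHull ℝ (range X) ⊆ {y | l y ≤ c} := by
      apply convexHull_min _ hconv
      rintro _ ⟨i, rfl⟩
      by_cases hi : i ∈ I
      · exact (h1 i hi).le
      · exact (h2 i hi).le
    exact this
  let F : Set E := {x ∈ convexHull ℝ (range X) | ∀ y ∈ convexHull ℝ (range X), L y ≤ L x}
  have hFI : ∀ i ∈ I, X i ∈ F := by
    intro i hi
    refine ⟨subset_convexHull ℝ _ (mem_range_self i), fun y hy => ?_⟩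
    rw [hL, hL, h1 i hi]
    exact hle y hy
  have hne' : F.Nonempty := ⟨_, hFI i₀ hi₀⟩
  have hset : {i | X i ∈ F} = (I : Set ι) := by
    ext i
    constructor
    · intro hi
      by_contra hcon
      have h3 := h2 i (by simpa using hcon)
      have h4 := hi.2 (X i₀) (hFI i₀ hi₀).1
      rw [hL, hL, h1 i₀ hi₀] at h4
      linarith
    · intro hi
      exact hFI i hi
  refine ⟨F, fun _ => ⟨L, rfl⟩, hne', ?_, hFI⟩
  have hull := exposed_eq_hull X (F := F) (l := L) rfl hne'
  rw [hset] at hull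
  have hv : vectorSpan ℝ F = vectorSpan ℝ (range (fun i : I => X i)) := by
    conv_lhs => rw [hull]
    rw [← direction_affineSpan, affineSpan_convexHull, direction_affineSpan]
    congr 1
    ext y
    simp
  rw [hv]
  have hcI : Fintype.card I = (I.card - 1) + 1 := by
    simp
    have : 0 < I.card := Finset.card_pos.2 ⟨i₀, hi₀⟩
    omega
  exact hind.finrank_vectorSpan hcI

omit [Fintype ι] in
theorem card_in_face {X : ι → E} (hGP : GP X) {j : ℕ} (hj : j < finrank ℝ E) {F : Set E}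
    (hfin : finrank ℝ (vectorSpan ℝ F) = j) {S : Finset ι} (hS : ∀ i ∈ S, X i ∈ F) :
    S.card ≤ j + 1 := by
  classical
  by_contra hcon
  push Not at hcon
  obtain ⟨T, hTS, hT⟩ := Finset.exists_subset_card_eq (show j + 2 ≤ S.card by omega)
  have hind := hGP T (by omega)
  have h1 := hind.finrank_vectorSpan (n := j + 1) (by simp [hT])
  have h2 : vectorSpan ℝ (range (fun i : T => X i)) ≤ vectorSpan ℝ F := by
    apply vectorSpan_mono
    rintro _ ⟨i, rfl⟩
    exact hS i (hTS i.2)
  have h3 := Submodule.finrank_mono h2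
  omega

open Classical in
theorem card_vertices_le {X : ι → E} (hGP : GP X) (hcard : finrank ℝ E + 1 ≤ Fintype.card ι)
    {j : ℕ} (hj : j < finrank ℝ E) :
    (Finset.univ.filter (fun k : ι => X k ∉ convexHull ℝ (X '' {i | i ≠ k}))).card ≤
      (j + 1) * faceCount (convexHull ℝ (range X)) j := by
  set V := Finset.univ.filter (fun k : ι => X k ∉ convexHull ℝ (X '' {i | i ≠ k})) with hV
  have hch : ∀ k : ι, ∃ F : Set E, k ∈ V → (IsExposed ℝ (convexHull ℝ (range X)) F ∧ F.Nonempty ∧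
      finrank ℝ (vectorSpan ℝ F) = j) ∧ X k ∈ F := by
    intro k
    by_cases hk : k ∈ V
    · have hk' : X k ∉ convexHull ℝ (X '' {i | i ≠ k}) := by simpa [hV] using hk
      obtain ⟨I, hkI, hIc, hI⟩ := exists_faceSet hGP hcard hk' j hj
      obtain ⟨F, hF1, hF2, hF3, hF4⟩ := face_of_faceSet hI (hGP I (by omega)) ⟨k, hkI⟩
      exact ⟨F, fun _ => ⟨⟨hF1, hF2, by rw [hF3, hIc]; simp⟩, hF4 k hkI⟩⟩
    · exact ⟨∅, fun h => absurd h hk⟩
  choose f hf using hch
  have h1 : V.card ≤ (j + 1) * (V.image f).card := by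
    apply Finset.card_le_mul_card_image
    intro F hF
    obtain ⟨k, hkV, rfl⟩ := Finset.mem_image.1 hF
    apply card_in_face hGP hj (hf k hkV).1.2.2
    intro i hi
    simp only [Finset.mem_filter] at hi
    rw [← hi.2]
    exact (hf i hi.1).2
  refine h1.trans (Nat.mul_le_mul_left _ ?_)
  unfold faceCount
  rw [← Set.ncard_coe_finset]
  apply Set.ncard_le_ncard _ (faces_finite X hj)
  intro F hF
  simp only [Finset.coe_image, mem_image, Finset.mem_coe] at hF
  obtain ⟨k, hk, rfl⟩ := hF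
  exact (hf k hk).1

end Pool.Agent.Lib_helper31.RP
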