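import Pool.Agent.Lib_helper31.RPAE

open MeasureTheory Set ProbabilityTheory Module
open scoped ENNReal Topology

namespace Pool.Agent.Lib_helper31.RP

variable {E : Type*} [NormedAddCommGroup E] [NormedSpace ℝ E] [FiniteDimensional ℝ E]
variable {ι : Type*} [Fintype ι]
variable [MeasurableSpace E] [BorelSpace E] (μ : Measure E) [μ.IsAddHaarMeasure]

/-- probability that `x` is missed by the random polytope -/
noncomputable def missP (ι : Type*) [Fintype ι] (K : Set E) (x : E) : ℝ≥0∞ :=
  (Measure.pi fun _ : ι => cond μ K) {X | x ∉ convexHull ℝ (range X)}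

omit [NormedSpace ℝ E] [FiniteDimensional ℝ E] in
theorem ae_mem {K : Set E} (hK : IsCompact K) (h0 : μ K ≠ 0) :
    ∀ᵐ X ∂(Measure.pi fun _ : ι => cond μ K), ∀ i, X i ∈ K := by
  have : IsProbabilityMeasure (cond μ K) := cond_isProbabilityMeasure_of_finite h0 hK.measure_lt_top.ne
  rw [ae_all_iff]
  intro i
  have h1 : ∀ᵐ x ∂(cond μ K), x ∈ K := ae_cond_mem hK.measurableSet
  exact (measurePreserving_eval (fun _ : ι => cond μ K) i).quasiMeasurePreserving.ae h1

theorem meas_hull_prod : MeasurableSet {p : E × (ι → E) | p.1 ∈ convexHull ℝ (range p.2)} :=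
  closed_mem_hull.measurableSet

theorem meas_hull_fix (x : E) : MeasurableSet {X : ι → E | x ∈ convexHull ℝ (range X)} :=
  (meas_hull_prod (ι := ι)).preimage (measurable_const.prodMk measurable_id)

omit [μ.IsAddHaarMeasure] in
theorem missP_measurable (K : Set E) : Measurable (missP μ ι K) := by
  unfold missP
  have h : MeasurableSet {p : E × (ι → E) | p.1 ∉ convexHull ℝ (range p.2)} :=
    (meas_hull_prod (ι := ι)).compl
  exact measurable_measure_prodMk_left h

theorem expVol_add {K : Set E} (hK : IsCompact K) (hconv : Convex ℝ K) (h0 : μ K ≠ 0) :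
    ∫⁻ X : ι → E, μ (convexHull ℝ (range X)) ∂(Measure.pi fun _ : ι => cond μ K) +
      ∫⁻ x in K, missP μ ι K x ∂μ = μ K := by
  classical
  have hP : IsProbabilityMeasure (cond μ K) := cond_isProbabilityMeasure_of_finite h0 hK.measure_lt_top.ne
  have h1 : ∫⁻ X : ι → E, μ (convexHull ℝ (range X)) ∂(Measure.pi fun _ : ι => cond μ K) =
      ∫⁻ X : ι → E, ∫⁻ x in K, {p : E × (ι → E) | p.1 ∈ convexHull ℝ (range p.2)}.indicator 1 (x, X) ∂μ
        ∂(Measure.pi fun _ : ι => cond μ K) := by
    apply lintegral_congr_ae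
    filter_upwards [ae_mem μ hK h0] with X hX
    have hsub : convexHull ℝ (range X) ⊆ K := by
      apply convexHull_min _ hconv
      rintro _ ⟨i, rfl⟩
      exact hX i
    have hcl : IsClosed (convexHull ℝ (range X)) := (Set.finite_range X).isClosed_convexHull ℝ
    have h2 : (fun x => {p : E × (ι → E) | p.1 ∈ convexHull ℝ (range p.2)}.indicator (1 : E × (ι → E) → ℝ≥0∞) (x, X)) =
        (convexHull ℝ (range X)).indicator 1 := by
      ext x
      simp only [indicator, mem_ofPred_eq, Pi.one_apply]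
    rw [h2, lintegral_indicator_one hcl.measurableSet, Measure.restrict_apply hcl.measurableSet,
      inter_eq_self_of_subset_left hsub]
  rw [h1, lintegral_lintegral_swap, ← lintegral_add_right _ (missP_measurable μ K)]
  · have h3 : ∀ x, ∫⁻ (y : ι → E), {p : E × (ι → E) | p.1 ∈ convexHull ℝ (range p.2)}.indicator (1 : E × (ι → E) → ℝ≥0∞) (x, y)
        ∂Measure.pi (fun _ : ι => cond μ K) + missP μ ι K x = 1 := by
      intro x
      have h2 : (fun X => {p : E × (ι → E) | p.1 ∈ convexHull ℝ (range p.2)}.indicator (1 : E × (ι → E) → ℝ≥0∞) (x, X)) =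
          {X : ι → E | x ∈ convexHull ℝ (range X)}.indicator 1 := by
        ext X
        simp only [indicator, mem_ofPred_eq, Pi.one_apply]
      rw [h2, lintegral_indicator_one (meas_hull_fix x)]
      unfold missP
      have := measure_add_measure_compl (μ := Measure.pi fun _ : ι => cond μ K) (meas_hull_fix (ι := ι) x)
      rw [measure_univ] at this
      exact this
    simp only [h3]
    simp
  · have : Measurable (fun p : (ι → E) × E => {p : E × (ι → E) | p.1 ∈ convexHull ℝ (range p.2)}.indicator (1 : E × (ι → E) → ℝ≥0∞) (p.2, p.1)) :=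
      (measurable_one.indicator meas_hull_prod).comp measurable_swap
    exact this.aemeasurable

theorem miss_ge {K : Set E} (hK : IsCompact K) (h0 : μ K ≠ 0) (hn : 2 ≤ Fintype.card ι) {x : E}
    (l : E →L[ℝ] ℝ) (hl : μ (K ∩ {y | l x ≤ l y}) * Fintype.card ι ≤ μ K) :
    ENNReal.ofReal (Real.exp (-2)) ≤ missP μ ι K x := by
  have hP : IsProbabilityMeasure (cond μ K) := cond_isProbabilityMeasure_of_finite h0 hK.measure_lt_top.ne
  have hH : MeasurableSet {y | l x ≤ l y} := (isClosed_le continuous_const l.continuous).measurableSet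
  have hsub : Set.pi univ (fun _ : ι => {y | l x ≤ l y}ᶜ) ⊆ {X : ι → E | x ∉ convexHull ℝ (range X)} := by
    intro X hX hx
    have hconv : Convex ℝ {y | l y < l x} := convex_halfSpace_lt (l : E →ₗ[ℝ] ℝ).isLinear _
    have : convexHull ℝ (range X) ⊆ {y | l y < l x} := by
      apply convexHull_min _ hconv
      rintro _ ⟨i, rfl⟩
      have := hX i (mem_univ i)
      simpa using this
    have h1 := this hx
    simp at h1
  unfold missP
  refine le_trans ?_ (measure_mono hsub)
  rw [Measure.pi_pi]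
  simp only [Finset.prod_const, Finset.card_univ]
  rw [prob_compl_eq_one_sub hH, cond_apply hK.measurableSet]
  set n := Fintype.card ι with hn'
  have hnpos : (0:ℝ) < n := by
    have : 0 < n := by omega
    exact_mod_cast this
  have h1 : (μ K)⁻¹ * μ (K ∩ {y | l x ≤ l y}) ≤ ENNReal.ofReal (1 / n) := by
    have hfin : μ K ≠ ⊤ := hK.measure_lt_top.ne
    rw [ENNReal.ofReal_div_of_pos hnpos, ENNReal.ofReal_one, ENNReal.ofReal_natCast]
    rw [ENNReal.le_div_iff_mul_le (Or.inl (by simp; omega)) (Or.inl (by simp))]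
    rw [mul_assoc]
    calc (μ K)⁻¹ * (μ (K ∩ {y | l x ≤ l y}) * n) ≤ (μ K)⁻¹ * μ K := by gcongr
      _ = 1 := ENNReal.inv_mul_cancel h0 hfin
  calc ENNReal.ofReal (Real.exp (-2)) ≤ ENNReal.ofReal ((1 - 1 / n) ^ n) := by
        apply ENNReal.ofReal_le_ofReal
        have hn2 : (2:ℝ) ≤ n := by exact_mod_cast hn
        have hx2 : 1 / (n:ℝ) ≤ 1 / 2 := by
          apply one_div_le_one_div_of_le (by norm_num) hn2
        have hxpos : 0 < 1 / (n:ℝ) := by positivity
        have h3 : Real.exp (-(2 * (1 / n))) ≤ 1 - 1 / n := by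
          have h4 := Real.add_one_le_exp (2 * (1 / (n:ℝ)))
          rw [Real.exp_neg, inv_le_comm₀ (Real.exp_pos _) (by linarith)]
          refine le_trans ?_ h4
          rw [inv_le_iff_one_le_mul₀ (by linarith)]
          nlinarith
        calc Real.exp (-2) = (Real.exp (-(2 * (1 / n)))) ^ n := by
              rw [← Real.exp_nat_mul]
              congr 1
              field_simp
          _ ≤ (1 - 1 / n) ^ n := by
              apply pow_le_pow_left₀ (Real.exp_pos _).le h3
    _ = (ENNReal.ofReal (1 - 1 / n)) ^ n := by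
        rw [ENNReal.ofReal_pow]
        have hn2 : (2:ℝ) ≤ n := by exact_mod_cast hn
        have hx2 : 1 / (n:ℝ) ≤ 1 / 2 := by
          apply one_div_le_one_div_of_le (by norm_num) hn2
        linarith
    _ = (1 - ENNReal.ofReal (1 / n)) ^ n := by
        rw [ENNReal.ofReal_sub _ (by positivity), ENNReal.ofReal_one]
    _ ≤ _ := by
        gcongr

/-- points cut off by a cap of relative volume at most `1/n` -/
def LowSet (K : Set E) (n : ℕ) : Set E :=
  {x | x ∈ K ∧ ∃ l : E →L[ℝ] ℝ, μ (K ∩ {y | l x ≤ l y}) * n ≤ μ K}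

theorem deficit_ge {K : Set E} (hK : IsCompact K) (h0 : μ K ≠ 0) (hn : 2 ≤ Fintype.card ι)
    {S : Set E} (hSL : S ⊆ LowSet μ K (Fintype.card ι)) :
    ENNReal.ofReal (Real.exp (-2)) * μ S ≤ ∫⁻ x in K, missP μ ι K x ∂μ := by
  have hSK : S ⊆ K := fun x hx => (hSL hx).1
  calc ENNReal.ofReal (Real.exp (-2)) * μ S = ∫⁻ x in S, ENNReal.ofReal (Real.exp (-2)) ∂μ := by
        rw [setLIntegral_const]
    _ ≤ ∫⁻ x in S, missP μ ι K x ∂μ := by
        apply setLIntegral_mono (missP_measurable μ K)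
        intro x hx
        obtain ⟨_, l, hl⟩ := hSL hx
        exact miss_ge μ hK h0 hn l hl
    _ ≤ ∫⁻ x in K, missP μ ι K x ∂μ := lintegral_mono_set hSK

omit [NormedAddCommGroup E] [NormedSpace ℝ E] [FiniteDimensional ℝ E] [MeasurableSpace E] [BorelSpace E] in
theorem image_ne_eq {n : ℕ} (k : Fin (n + 1)) (X : Fin (n + 1) → E) :
    X '' {i | i ≠ k} = range (fun j => X (k.succAbove j)) := by
  ext y
  constructor
  · rintro ⟨i, hi, rfl⟩
    obtain ⟨j, rfl⟩ := Fin.exists_succAbove_eq hi
    exact ⟨j, rfl⟩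
  · rintro ⟨j, rfl⟩
    exact ⟨_, Fin.succAbove_ne k j, rfl⟩

theorem meas_vertex {n : ℕ} (k : Fin (n + 1)) :
    MeasurableSet {X : Fin (n + 1) → E | X k ∉ convexHull ℝ (X '' {i | i ≠ k})} := by
  have h : {X : Fin (n + 1) → E | X k ∉ convexHull ℝ (X '' {i | i ≠ k})} =
      (MeasurableEquiv.piFinSuccAbove (fun _ => E) k) ⁻¹'
        {p : E × (Fin n → E) | p.1 ∈ convexHull ℝ (range p.2)}ᶜ := by
    ext X
    simp only [mem_ofPred_eq, image_ne_eq, mem_preimage, mem_compl_iff]
    rfl
  rw [h]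
  exact (MeasurableEquiv.piFinSuccAbove (fun _ => E) k).measurable meas_hull_prod.compl

theorem prob_vertex {K : Set E} (hK : IsCompact K) (h0 : μ K ≠ 0) {n : ℕ} (k : Fin (n + 1)) :
    (Measure.pi fun _ : Fin (n + 1) => cond μ K) {X | X k ∉ convexHull ℝ (X '' {i | i ≠ k})} =
      ∫⁻ x, missP μ (Fin n) K x ∂(cond μ K) := by
  have hP : IsProbabilityMeasure (cond μ K) := cond_isProbabilityMeasure_of_finite h0 hK.measure_lt_top.ne
  have h : {X : Fin (n + 1) → E | X k ∉ convexHull ℝ (X '' {i | i ≠ k})} =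
      (MeasurableEquiv.piFinSuccAbove (fun _ => E) k) ⁻¹'
        {p : E × (Fin n → E) | p.1 ∈ convexHull ℝ (range p.2)}ᶜ := by
    ext X
    simp only [mem_ofPred_eq, image_ne_eq, mem_preimage, mem_compl_iff]
    rfl
  have hmp := measurePreserving_piFinSuccAbove (fun _ : Fin (n + 1) => cond μ K) k
  rw [h, hmp.measure_preimage meas_hull_prod.compl.nullMeasurableSet,
    Measure.prod_apply meas_hull_prod.compl]
  rfl

theorem faces_ge {K : Set E} (hK : IsCompact K) (h0 : μ K ≠ 0) {n : ℕ}
    (hn : finrank ℝ E ≤ n) {j : ℕ} (hj : j < finrank ℝ E) :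
    (n + 1 : ℝ≥0∞) * ∫⁻ x, missP μ (Fin n) K x ∂(cond μ K) ≤
      (j + 1) * ∫⁻ X : Fin (n + 1) → E, (faceCount (convexHull ℝ (range X)) j : ℝ≥0∞)
        ∂(Measure.pi fun _ : Fin (n + 1) => cond μ K) := by
  classical
  have hP : IsProbabilityMeasure (cond μ K) := cond_isProbabilityMeasure_of_finite h0 hK.measure_lt_top.ne
  have hac : cond μ K ≪ μ := cond_absolutelyContinuous
  have h1 : (n + 1 : ℝ≥0∞) * ∫⁻ x, missP μ (Fin n) K x ∂(cond μ K) =
      ∫⁻ X : Fin (n + 1) → E, ∑ k : Fin (n + 1),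
        {X : Fin (n + 1) → E | X k ∉ convexHull ℝ (X '' {i | i ≠ k})}.indicator 1 X
        ∂(Measure.pi fun _ : Fin (n + 1) => cond μ K) := by
    rw [lintegral_finsetSum]
    · simp only [lintegral_indicator_one (meas_vertex _), prob_vertex μ hK h0]
      simp
    · intro k _
      exact measurable_one.indicator (meas_vertex k)
  rw [h1, ← lintegral_const_mul' _ _ (by finiteness)]
  apply lintegral_mono_ae
  filter_upwards [ae_GP μ (cond μ K) hac] with X hX
  have h2 := card_vertices_le hX (by simpa using hn) hj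
  have h3 : ∑ k : Fin (n + 1), {X : Fin (n + 1) → E | X k ∉ convexHull ℝ (X '' {i | i ≠ k})}.indicator (1 : (Fin (n+1) → E) → ℝ≥0∞) X
      = ((Finset.univ.filter (fun k : Fin (n + 1) => X k ∉ convexHull ℝ (X '' {i | i ≠ k}))).card : ℝ≥0∞) := by
    rw [Finset.card_filter]
    push_cast
    apply Finset.sum_congr rfl
    intro k _
    simp only [indicator, mem_ofPred_eq, Pi.one_apply]
  rw [h3]
  have h4 : ((Finset.univ.filter (fun k : Fin (n + 1) => X k ∉ convexHull ℝ (X '' {i | i ≠ k}))).card : ℝ≥0∞) ≤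
      (((j + 1) * faceCount (convexHull ℝ (range X)) j : ℕ) : ℝ≥0∞) := by
    exact_mod_cast h2
  refine h4.trans ?_
  push_cast
  exact le_rfl

end Pool.Agent.Lib_helper31.RP
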