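import Pool.Agent.Lib_helper31.RPProduct

open MeasureTheory Set Module ProbabilityTheory
open scoped ENNReal NNReal Topology Pointwise RealInnerProductSpace

namespace Pool.Agent.Lib_helper31.RP

variable {m : ℕ} {d : Fin m → ℕ}

theorem Phi_mono (e : Fin m → ℝ) {s t : ℝ≥0} (h : s ≤ t) : Phi e s ≤ Phi e t := by
  unfold Phi
  apply measure_mono
  intro y hy
  exact le_trans hy h

theorem finrank_prod : finrank ℝ (∀ i, EuclideanSpace ℝ (Fin (d i))) = ∑ i, d i := by
  rw [Module.finrank_pi_fintype]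
  simp

theorem orders (hm : 0 < m) (hd : ∀ i, 0 < d i)
    (K : ∀ i, Set (EuclideanSpace ℝ (Fin (d i)))) (hK : ∀ i, IsCompact (K i))
    (hconv : ∀ i, Convex ℝ (K i)) (hint : ∀ i, (interior (K i)).Nonempty)
    (hcurv : ∀ i, ∀ x ∈ frontier (K i), ∃ κ > 0, OB (K i) κ x) :
    (∀ j < ∑ i, d i, SameOrd (fun n => expFaces (Set.pi univ K) n j)
      (fun n => n * Phi (ee d) (1 / (n:ℝ≥0)))) ∧
    SameOrd (fun n => volume (Set.pi univ K) - expVol (Set.pi univ K) n)
      (fun n => Phi (ee d) (1 / (n:ℝ≥0))) := by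
  have hPc : IsCompact (Set.pi univ K) := isCompact_univ_pi hK
  have hPconv : Convex ℝ (Set.pi univ K) := convex_pi (fun i _ => hconv i)
  have hVfin : volume (Set.pi univ K) ≠ ⊤ := hPc.measure_lt_top.ne
  have hVne : volume (Set.pi univ K) ≠ 0 := by
    rw [volume_pi_pi]
    apply Finset.prod_ne_zero_iff.2
    intro i _
    exact (isOpen_interior.measure_pos volume (hint i)).ne' ∘ (fun h => measure_mono_null interior_subset h)
  have hfr := finrank_prod (d := d)
  have hD : 0 < finrank ℝ (∀ i, EuclideanSpace ℝ (Fin (d i))) := by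
    rw [hfr]
    exact Finset.sum_pos (fun i _ => hd i) ⟨⟨0, hm⟩, Finset.mem_univ _⟩
  have ha : 0 < cD (finrank ℝ (∀ i, EuclideanSpace ℝ (Fin (d i)))) / 2 := by
    have := cD_pos hD; positivity
  obtain ⟨CU, hCU, hU⟩ := upInt_product_le hm hd K hK hconv hint _ ha
  obtain ⟨CL, hCL, hL⟩ := low_product hm hd K hK hconv hint hcurv
  have hexp : ENNReal.ofReal (Real.exp 2) * ENNReal.ofReal (Real.exp (-2)) = 1 := by
    rw [← ENNReal.ofReal_mul (Real.exp_pos _).le, ← Real.exp_add]; simp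
  refine ⟨fun j hj => ?_, ?_⟩
  · rw [← hfr] at hj
    apply SameOrd.mk'
      (C₁ := CL * (ENNReal.ofReal (Real.exp 2) * (volume (Set.pi univ K) * (j + 1))))
      (C₂ := ENNReal.ofReal (upC (finrank ℝ (∀ i, EuclideanSpace ℝ (Fin (d i)))) j) * ((volume (Set.pi univ K))⁻¹ * CU))
      _ _ (max 3 (∑ i, d i + 1))
    · intro n hn
      obtain ⟨n', rfl⟩ : ∃ n', n = n' + 1 := ⟨n - 1, by omega⟩
      obtain ⟨S, hS, hPS⟩ := hL n' (by omega)
      have h1 := summary_faces volume hPc hVne (n := n') (by omega) (by rw [hfr]; omega) hj hS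
      have h2 : Phi (ee d) (1 / ((n' + 1 : ℕ) : ℝ≥0)) ≤ CL * volume S := by
        refine (Phi_mono _ ?_).trans hPS
        push_cast
        have hn0 : (0:ℝ≥0) < n' := by
          have : 0 < n' := by omega
          exact_mod_cast this
        apply one_div_le_one_div_of_le hn0
        exact le_self_add
      calc ((n' + 1 : ℕ) : ℝ≥0∞) * Phi (ee d) (1 / ((n' + 1 : ℕ) : ℝ≥0))
          ≤ ((n' + 1 : ℕ) : ℝ≥0∞) * (CL * volume S) := by gcongr
        _ = CL * (ENNReal.ofReal (Real.exp 2) * ((volume (Set.pi univ K)) *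
              ((n' + 1 : ℝ≥0∞) * ((volume (Set.pi univ K))⁻¹ * (ENNReal.ofReal (Real.exp (-2)) * volume S))))) := by
            push_cast
            have e1 : ENNReal.ofReal (Real.exp 2) * ((volume (Set.pi univ K)) *
              ((n' + 1 : ℝ≥0∞) * ((volume (Set.pi univ K))⁻¹ * (ENNReal.ofReal (Real.exp (-2)) * volume S)))) =
              (ENNReal.ofReal (Real.exp 2) * ENNReal.ofReal (Real.exp (-2))) *
              ((volume (Set.pi univ K)) * (volume (Set.pi univ K))⁻¹) * ((n' + 1 : ℝ≥0∞) * volume S) := by ring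
            rw [e1, hexp, ENNReal.mul_inv_cancel hVne hVfin]
            ring
        _ ≤ CL * (ENNReal.ofReal (Real.exp 2) * ((volume (Set.pi univ K)) *
              ((j + 1) * expFaces (Set.pi univ K) (n' + 1) j))) :=
            mul_le_mul' le_rfl (mul_le_mul' le_rfl (mul_le_mul' le_rfl h1))
        _ = _ := by ring
    · intro n hn
      have hn0 : 0 < n := by omega
      have h1 := faces_le' volume hPc hPconv hVne n hj
      have h2 := hU n hn0
      calc expFaces (Set.pi univ K) n j ≤ _ := h1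
        _ ≤ ENNReal.ofReal (upC (finrank ℝ (∀ i, EuclideanSpace ℝ (Fin (d i)))) j) * ((volume (Set.pi univ K))⁻¹ *
            (n * (CU * Phi (ee d) (1 / (n:ℝ≥0))))) := by gcongr
        _ = _ := by ring
    · apply ENNReal.mul_ne_top hCL
      apply ENNReal.mul_ne_top ENNReal.ofReal_ne_top
      apply ENNReal.mul_ne_top hVfin
      finiteness
    · apply ENNReal.mul_ne_top ENNReal.ofReal_ne_top
      exact ENNReal.mul_ne_top (ENNReal.inv_ne_top.2 hVne) hCU
  · apply SameOrd.mk' (C₁ := CL * ENNReal.ofReal (Real.exp 2))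
      (C₂ := ENNReal.ofReal (2 ^ (finrank ℝ (∀ i, EuclideanSpace ℝ (Fin (d i))))) * CU) _ _ 2
    · intro n hn
      obtain ⟨S, hS, hPS⟩ := hL n (by omega)
      have h1 := (summary_deficit volume hPc hPconv hVne hD hn hS).1
      calc Phi (ee d) (1 / (n:ℝ≥0)) ≤ CL * volume S := hPS
        _ = CL * ENNReal.ofReal (Real.exp 2) * (ENNReal.ofReal (Real.exp (-2)) * volume S) := by
            have e1 : CL * ENNReal.ofReal (Real.exp 2) * (ENNReal.ofReal (Real.exp (-2)) * volume S) =
              CL * (ENNReal.ofReal (Real.exp 2) * ENNReal.ofReal (Real.exp (-2))) * volume S := by ring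
            rw [e1, hexp, mul_one]
        _ ≤ _ := by
            gcongr
            exact h1
    · intro n hn
      have hn0 : 0 < n := by omega
      have h1 := (summary_deficit volume hPc hPconv hVne hD hn (S := ∅) (empty_subset _)).2
      calc volume (Set.pi univ K) - expVol (Set.pi univ K) n ≤ _ := h1
        _ ≤ ENNReal.ofReal (2 ^ (finrank ℝ (∀ i, EuclideanSpace ℝ (Fin (d i))))) * (CU * Phi (ee d) (1 / (n:ℝ≥0))) := by
            gcongr
            exact hU n hn0
        _ = _ := by ring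
    · exact ENNReal.mul_ne_top hCL ENNReal.ofReal_ne_top
    · exact ENNReal.mul_ne_top ENNReal.ofReal_ne_top hCU

theorem IsSmoothBody.outer {k : ℕ} {K : Set (EuclideanSpace ℝ (Fin k))} (h : IsSmoothBody K) :
    ∀ x ∈ frontier K, ∃ κ > 0, OB K κ x := by
  intro x hx
  obtain ⟨g, h1, h2, h3, h4, h5⟩ := h.curvature_pos x hx
  exact outer_of_curv h.compact h.convex hx h1 h2 h3 h4 h5

theorem ball_smooth (k : ℕ) : IsSmoothBody (Metric.closedBall (0 : EuclideanSpace ℝ (Fin k)) 1) where
  convex := convex_closedBall _ _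
  compact := isCompact_closedBall _ _
  interior_nonempty := ⟨0, Metric.ball_subset_interior_closedBall (Metric.mem_ball_self one_pos)⟩
  curvature_pos := by
    intro x hx
    have hx1 : ‖x‖ = 1 := by
      have := Metric.frontier_closedBall_subset_sphere hx
      simpa using this
    have hder : ∀ y : EuclideanSpace ℝ (Fin k), HasFDerivAt (fun y => ‖y‖ ^ 2 - 1) (2 • innerSL ℝ y) y :=
      fun y => (hasStrictFDerivAt_norm_sq y).hasFDerivAt.sub_const 1
    have hfd : fderiv ℝ (fun y : EuclideanSpace ℝ (Fin k) => ‖y‖ ^ 2 - 1) =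
        fun y => (2 • innerSL ℝ : EuclideanSpace ℝ (Fin k) →L[ℝ] EuclideanSpace ℝ (Fin k) →L[ℝ] ℝ) y := by
      funext y
      rw [(hder y).fderiv]
      rfl
    have hne : (2 • innerSL ℝ x : EuclideanSpace ℝ (Fin k) →L[ℝ] ℝ) ≠ 0 := by
      intro h
      have := congrArg (fun f : EuclideanSpace ℝ (Fin k) →L[ℝ] ℝ => f x) h
      simp [hx1] at this
    refine ⟨fun y => ‖y‖ ^ 2 - 1, ?_, ?_, ?_, ?_, ?_⟩
    · apply Filter.Eventually.of_forall
      intro y
      rw [mem_closedBall_zero_iff]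
      constructor
      · intro h
        nlinarith [norm_nonneg y]
      · intro h
        have : ‖y‖ ^ 2 ≤ 1 := by linarith
        nlinarith [norm_nonneg y]
    · apply Filter.Eventually.of_forall
      intro y
      exact (differentiableAt_id.norm_sq ℝ).sub_const _
    · rw [hfd]
      exact (ContinuousLinearMap.hasFDerivAt _).differentiableAt
    · rw [(hder x).fderiv]
      exact hne
    · intro v hv _
      rw [hfd, (ContinuousLinearMap.hasFDerivAt _).fderiv]
      have : 0 < ‖v‖ := norm_pos_iff.2 hv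
      have e1 : (2 • innerSL ℝ : EuclideanSpace ℝ (Fin k) →L[ℝ] EuclideanSpace ℝ (Fin k) →L[ℝ] ℝ) v v
          = 2 * ‖v‖ ^ 2 := by
        rw [two_smul]
        simp only [_root_.add_apply]
        have e2 : ((innerSL ℝ : EuclideanSpace ℝ (Fin k) →L[ℝ] EuclideanSpace ℝ (Fin k) →L[ℝ] ℝ) v) v = ‖v‖ ^ 2 :=
          real_inner_self_eq_norm_sq v
        rw [e2]
        ring
      rw [e1]
      positivity

theorem Phi_finite (e : Fin m → ℝ) (t : ℝ≥0) : Phi e t < ⊤ := by
  unfold Phi
  exact measure_lt_top _ _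

theorem Phi_pos (hm : 0 < m) (e : Fin m → ℝ) (he : ∀ i, 1 ≤ e i) {t : ℝ≥0} (ht : 0 < t) : 0 < Phi e t := by
  have h1 : 1 ≤ Phi e 1 := by
    unfold Phi
    have hsub : Set.pi univ (fun _ : Fin m => Iic (1 : ℝ≥0)) ⊆ {y : Fin m → ℝ≥0 | ∏ i, y i ≤ 1} := by
      intro y hy
      have h0 : ∀ i ∈ (Finset.univ : Finset (Fin m)), y i ≤ 1 := fun i _ => hy i (mem_univ i)
      exact Finset.prod_le_one' h0
    refine le_trans (le_of_eq ?_) (measure_mono hsub)
    rw [Measure.pi_pi]
    symm
    apply Finset.prod_eq_one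
    intro i _
    rw [modM_Iic (by linarith [he i])]
    simp
  by_cases ht1 : 1 ≤ t
  · exact lt_of_lt_of_le one_pos (h1.trans (Phi_mono e ht1))
  · push Not at ht1
    have h2 := Phi_doubling hm e he t (1 / t) (by
      rw [le_div_iff₀ ht]; simpa using ht1.le)
    have h3 : 1 / t * t = 1 := by field_simp
    rw [h3] at h2
    rw [pos_iff_ne_zero]
    intro h0
    rw [h0, mul_zero] at h2
    exact absurd (h1.trans h2) (by simp)

theorem SameOrd.toSameOrder {a b c : ℕ → ℝ≥0∞} (h : SameOrd a c) (h' : SameOrd b c) {N : ℕ}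
    (hpos : ∀ n ≥ N, 0 < c n ∧ c n < ⊤) : SameOrder a b := by
  obtain ⟨c₁, C₁, hc₁, hcC₁, n₁, h1⟩ := h.trans h'.symm
  obtain ⟨c₂, C₂, hc₂, hcC₂, n₂, h2⟩ := h'
  refine ⟨c₁, C₁, hc₁, hcC₁, max N (max n₁ n₂), fun n hn => ?_⟩
  have hn0 : N ≤ n := (le_max_left _ _).trans hn
  have hn1 : n₁ ≤ n := (le_max_left _ _).trans ((le_max_right _ _).trans hn)
  have hn2 : n₂ ≤ n := (le_max_right _ _).trans ((le_max_right _ _).trans hn)
  obtain ⟨hp, hf⟩ := hpos n hn0
  refine ⟨?_, ?_, h1 n hn1⟩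
  · refine lt_of_lt_of_le ?_ (h2 n hn2).1
    exact ENNReal.mul_pos (ENNReal.ofReal_pos.2 hc₂).ne' hp.ne'
  · refine lt_of_le_of_lt (h2 n hn2).2 ?_
    exact ENNReal.mul_lt_top ENNReal.ofReal_lt_top hf

/-- The full statement. -/
theorem main (hm : 0 < m) (hd : ∀ i, 0 < d i)
    (K : ∀ i, Set (EuclideanSpace ℝ (Fin (d i)))) (hK : ∀ i, IsSmoothBody (K i)) :
    (∀ j < ∑ i, d i, SameOrder (fun n => expFaces (Set.pi univ K) n j)
      (fun n => expFaces (Set.pi univ fun i =>
        Metric.closedBall (0 : EuclideanSpace ℝ (Fin (d i))) 1) n j)) ∧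
    SameOrder (fun n => volume (Set.pi univ K) - expVol (Set.pi univ K) n)
      (fun n => volume (Set.pi univ fun i => Metric.closedBall (0 : EuclideanSpace ℝ (Fin (d i))) 1) -
        expVol (Set.pi univ fun i => Metric.closedBall (0 : EuclideanSpace ℝ (Fin (d i))) 1) n) := by
  have he : ∀ i, 1 ≤ ee d i := by
    intro i
    unfold ee
    have : (1:ℝ) ≤ d i := by exact_mod_cast hd i
    linarith
  have h1 := orders hm hd K (fun i => (hK i).compact) (fun i => (hK i).convex)
    (fun i => (hK i).interior_nonempty) (fun i => (hK i).outer)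
  have h2 := orders hm hd (fun i => Metric.closedBall (0 : EuclideanSpace ℝ (Fin (d i))) 1)
    (fun i => (ball_smooth (d i)).compact) (fun i => (ball_smooth (d i)).convex)
    (fun i => (ball_smooth (d i)).interior_nonempty) (fun i => (ball_smooth (d i)).outer)
  have hpos : ∀ n : ℕ, 1 ≤ n → 0 < Phi (ee d) (1 / (n:ℝ≥0)) := by
    intro n hn
    apply Phi_pos hm _ he
    have : (0:ℝ≥0) < n := by exact_mod_cast hn
    positivity
  refine ⟨fun j hj => (h1.1 j hj).toSameOrder (h2.1 j hj) (N := 1) (fun n hn => ⟨?_, ?_⟩),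
    h1.2.toSameOrder h2.2 (N := 1) (fun n hn => ⟨hpos n hn, Phi_finite _ _⟩)⟩
  · apply ENNReal.mul_pos _ (hpos n hn).ne'
    have : n ≠ 0 := by omega
    exact_mod_cast this
  · exact ENNReal.mul_lt_top (by simp) (Phi_finite _ _)

end Pool.Agent.Lib_helper31.RP
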