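import Pool.Agent.Lib_helper31.RPBox

open MeasureTheory Set Module ProbabilityTheory
open scoped ENNReal Pointwise

namespace Pool.Agent.Lib_helper31.RP

variable {E : Type*} [NormedAddCommGroup E] [NormedSpace ℝ E] [FiniteDimensional ℝ E]

/-- The (centred) Macbeath region of `K` at `x`. -/
def mac (K : Set E) (x : E) : Set E := {w | x + w ∈ K ∧ x - w ∈ K}

omit [FiniteDimensional ℝ E] in
theorem mac_convex {K : Set E} (hK : Convex ℝ K) (x : E) : Convex ℝ (mac K x) := by
  intro a ha b hb s t hs ht hst
  constructor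
  · have := hK ha.1 hb.1 hs ht hst
    convert this using 1
    rw [smul_add, smul_add]
    have : x = s • x + t • x := by rw [← add_smul, hst, one_smul]
    nth_rewrite 1 [this]
    abel
  · have := hK ha.2 hb.2 hs ht hst
    convert this using 1
    rw [smul_sub, smul_sub]
    have : x = s • x + t • x := by rw [← add_smul, hst, one_smul]
    nth_rewrite 1 [this]
    abel

omit [NormedSpace ℝ E] [FiniteDimensional ℝ E] in
theorem mac_symm {K : Set E} (x : E) : ∀ w ∈ mac K x, -w ∈ mac K x := by
  intro w hw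
  exact ⟨by simpa [sub_eq_add_neg] using hw.2, by simpa using hw.1⟩

omit [NormedSpace ℝ E] [FiniteDimensional ℝ E] in
theorem mac_closed {K : Set E} (hK : IsClosed K) (x : E) : IsClosed (mac K x) :=
  (hK.preimage (by fun_prop : Continuous fun w => x + w)).inter
    (hK.preimage (by fun_prop : Continuous fun w => x - w))

omit [NormedSpace ℝ E] [FiniteDimensional ℝ E] in
theorem mac_compact {K : Set E} (hK : IsCompact K) (x : E) : IsCompact (mac K x) := by
  have h1 : mac K x ⊆ (fun y => y - x) '' K := by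
    intro w hw
    exact ⟨x + w, hw.1, by simp⟩
  exact (hK.image (by fun_prop)).of_isClosed_subset (mac_closed hK.isClosed x) h1

variable [MeasurableSpace E] [BorelSpace E] (μ : Measure E) [μ.IsAddHaarMeasure]

omit [NormedSpace ℝ E] [FiniteDimensional ℝ E] in
theorem mac_measure_le {K : Set E} (x : E) : μ (mac K x) ≤ μ K := by
  have h1 : mac K x ⊆ (fun y => x + y) ⁻¹' K := fun w hw => hw.1
  calc μ (mac K x) ≤ μ ((fun y => x + y) ⁻¹' K) := measure_mono h1
    _ = μ K := measure_preimage_add _ _ _

theorem interior_nonempty_of_measure {M : Set E} (hM : Convex ℝ M) (h : μ M ≠ 0) :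
    (interior M).Nonempty := by
  by_contra hcon
  rw [not_nonempty_iff_eq_empty] at hcon
  apply h
  have h1 : M ⊆ frontier M := by
    intro y hy
    rw [frontier, hcon]
    simpa using subset_closure hy
  exact measure_mono_null h1 (hM.addHaar_frontier μ)

variable {ι : Type*} [Fintype ι]

/-- constant -/
noncomputable def cD (D : ℕ) : ℝ := (1 / (4 * (D : ℝ))) ^ D

theorem cD_pos {D : ℕ} (hD : 0 < D) : 0 < cD D := by
  unfold cD
  have : (0:ℝ) < D := by exact_mod_cast hD
  positivity

theorem prob_not_interior {K : Set E} (hK : IsCompact K) (hconv : Convex ℝ K) (h0 : μ K ≠ 0)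
    (hD : 0 < finrank ℝ E) (x : E) :
    (Measure.pi fun _ : ι => cond μ K) {X | x ∉ interior (convexHull ℝ (range X))} ≤
      2 ^ finrank ℝ E * (1 - ENNReal.ofReal (cD (finrank ℝ E)) * μ (mac K x) / μ K) ^ Fintype.card ι := by
  classical
  have hfinK : μ K ≠ ⊤ := hK.measure_lt_top.ne
  have : IsProbabilityMeasure (cond μ K) := cond_isProbabilityMeasure_of_finite h0 hfinK
  by_cases hu : μ (mac K x) = 0
  · rw [hu]
    simp only [mul_zero, ENNReal.zero_div, tsub_zero, one_pow, mul_one]
    calc _ ≤ (1 : ℝ≥0∞) := prob_le_one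
      _ ≤ 2 ^ finrank ℝ E := one_le_pow₀ (by norm_num)
  · set M := mac K x with hM
    have hMc : IsCompact M := mac_compact hK x
    have hMconv := mac_convex hconv x
    have hint := interior_nonempty_of_measure μ hMconv hu
    have hsymm := mac_symm (K := K) x
    obtain ⟨b, hb, hbox⟩ := exists_basis_box hMc hMconv hsymm hint
    have h0M : (0:E) ∈ M := interior_subset (zero_mem_interior_of_symm hMconv hsymm hint)
    have hcell : ∀ ε, (fun z => x + z) '' cell b M ε ⊆ K := by
      rintro ε _ ⟨z, hz, rfl⟩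
      exact (cell_subset hMconv hsymm b hb h0M hD ε hz).1
    have hcellc : ∀ ε, IsCompact (cell b M ε) := by
      intro ε
      exact hMc.image (by fun_prop)
    have hsub : {X : ι → E | x ∉ interior (convexHull ℝ (range X))} ⊆
        ⋃ ε : Fin (finrank ℝ E) → Bool, Set.pi univ (fun _ : ι => ((fun z => x + z) '' cell b M ε)ᶜ) := by
      intro X hX
      by_contra hcon
      apply hX
      apply mem_interior_of_cells b hbox hD (convex_convexHull ℝ _)
      intro ε
      simp only [mem_iUnion, not_exists, mem_pi, mem_univ, true_imp_iff, not_forall] at hcon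
      obtain ⟨k, hk⟩ := hcon ε
      simp only [mem_compl_iff, not_not] at hk
      obtain ⟨z, hz, hzX⟩ := hk
      exact ⟨z, hz, by
        have h2 : x + z = X k := hzX
        rw [h2]; exact subset_convexHull ℝ _ (mem_range_self k)⟩
    have hmeas : ∀ ε, (cond μ K) (((fun z => x + z) '' cell b M ε)ᶜ) =
        1 - ENNReal.ofReal (cD (finrank ℝ E)) * μ (mac K x) / μ K := by
      intro ε
      have hc : IsCompact ((fun z => x + z) '' cell b M ε) := (hcellc ε).image (by fun_prop)
      rw [prob_compl_eq_one_sub hc.measurableSet, cond_apply hK.measurableSet,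
        inter_eq_self_of_subset_right (hcell ε), image_add_left, measure_preimage_add, measure_cell]
      congr 1
      rw [ENNReal.div_eq_inv_mul]
      rfl
    calc (Measure.pi fun _ : ι => cond μ K) {X | x ∉ interior (convexHull ℝ (range X))}
        ≤ (Measure.pi fun _ : ι => cond μ K) (⋃ ε : Fin (finrank ℝ E) → Bool, Set.pi univ (fun _ : ι => ((fun z => x + z) '' cell b M ε)ᶜ)) := measure_mono hsub
      _ ≤ ∑ ε : Fin (finrank ℝ E) → Bool, (Measure.pi fun _ : ι => cond μ K) (Set.pi univ (fun _ : ι => ((fun z => x + z) '' cell b M ε)ᶜ)) := measure_iUnion_fintype_le _ _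
      _ = ∑ ε : Fin (finrank ℝ E) → Bool, (1 - ENNReal.ofReal (cD (finrank ℝ E)) * μ (mac K x) / μ K) ^ Fintype.card ι := by
          apply Finset.sum_congr rfl
          intro ε _
          rw [Measure.pi_pi]
          simp only [hmeas, Finset.prod_const, Finset.card_univ]
      _ = _ := by
          simp [hM]

/-- normalised volume of the Macbeath region -/
noncomputable def qv (K : Set E) (x : E) : ℝ := (μ (mac K x)).toReal / (μ K).toReal

omit [NormedSpace ℝ E] [FiniteDimensional ℝ E] [BorelSpace E] [μ.IsAddHaarMeasure] in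
theorem qv_nonneg (K : Set E) (x : E) : 0 ≤ qv μ K x := by unfold qv; positivity

omit [NormedSpace ℝ E] [FiniteDimensional ℝ E] in
theorem qv_le_one {K : Set E} (hK : IsCompact K) (x : E) : qv μ K x ≤ 1 := by
  unfold qv
  apply div_le_one_of_le₀ _ ENNReal.toReal_nonneg
  exact ENNReal.toReal_mono hK.measure_lt_top.ne (mac_measure_le μ x)

theorem prob_not_interior_exp {K : Set E} (hK : IsCompact K) (hconv : Convex ℝ K) (h0 : μ K ≠ 0)
    (hD : 0 < finrank ℝ E) (x : E) :
    (Measure.pi fun _ : ι => cond μ K) {X | x ∉ interior (convexHull ℝ (range X))} ≤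
      ENNReal.ofReal (2 ^ finrank ℝ E *
        Real.exp (-(cD (finrank ℝ E) * qv μ K x * (Fintype.card ι : ℝ)))) := by
  refine (prob_not_interior μ hK hconv h0 hD x).trans ?_
  have hfinK : μ K ≠ ⊤ := hK.measure_lt_top.ne
  have hfinM : μ (mac K x) ≠ ⊤ := (mac_compact hK x).measure_lt_top.ne
  have hc := (cD_pos hD).le
  have h1 : ENNReal.ofReal (cD (finrank ℝ E)) * μ (mac K x) / μ K = ENNReal.ofReal (cD (finrank ℝ E) * qv μ K x) := by
    unfold qv
    rw [ENNReal.ofReal_mul hc, ENNReal.ofReal_div_of_pos (ENNReal.toReal_pos h0 hfinK),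
      ENNReal.ofReal_toReal hfinK, ENNReal.ofReal_toReal hfinM, mul_div_assoc]
  rw [h1]
  have h2 : (1 : ℝ≥0∞) - ENNReal.ofReal (cD (finrank ℝ E) * qv μ K x) ≤
      ENNReal.ofReal (Real.exp (-(cD (finrank ℝ E) * qv μ K x))) := by
    rw [← ENNReal.ofReal_one, ← ENNReal.ofReal_sub _ (mul_nonneg hc (qv_nonneg μ K x))]
    apply ENNReal.ofReal_le_ofReal
    have := Real.add_one_le_exp (-(cD (finrank ℝ E) * qv μ K x))
    linarith
  rw [ENNReal.ofReal_mul (p := 2 ^ finrank ℝ E) (by positivity)]
  have h3 : (2 : ℝ≥0∞) ^ finrank ℝ E = ENNReal.ofReal (2 ^ finrank ℝ E) := by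
    rw [ENNReal.ofReal_pow (by norm_num)]
    norm_num
  rw [h3]
  refine mul_le_mul' le_rfl ?_
  calc _ ≤ (ENNReal.ofReal (Real.exp (-(cD (finrank ℝ E) * qv μ K x)))) ^ Fintype.card ι := by gcongr
    _ = _ := by
      rw [← ENNReal.ofReal_pow (Real.exp_pos _).le, ← Real.exp_nat_mul]
      congr 2
      ring

end Pool.Agent.Lib_helper31.RP
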