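import Pool.Agent.Lib_helper31.RPGeneral
import Pool.Agent.Lib_helper31.RPProb

open MeasureTheory Set ProbabilityTheory Module
open scoped ENNReal Topology

namespace Pool.Agent.Lib_helper31.RP

variable {E : Type*} [NormedAddCommGroup E] [NormedSpace ℝ E] [FiniteDimensional ℝ E]
variable {ι : Type*} [Fintype ι]

omit [FiniteDimensional ℝ E] in
theorem mem_hull_iff (X : ι → E) (x : E) : x ∈ convexHull ℝ (range X) ↔
    ∃ t : stdSimplex ℝ ι, ∑ i, (t : ι → ℝ) i • X i = x := by
  constructor
  · intro h
    rw [convexHull_range_eq_exists_affineCombination] at h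
    obtain ⟨s, w, hw0, hw1, hx⟩ := h
    classical
    rw [Finset.affineCombination_eq_linear_combination _ _ _ hw1] at hx
    have hmem : (fun i => if i ∈ s then w i else 0) ∈ stdSimplex ℝ ι := by
      refine ⟨fun i => ?_, ?_⟩
      · by_cases hi : i ∈ s
        · simp [hi, hw0 i hi]
        · simp [hi]
      · simpa using hw1
    refine ⟨⟨_, hmem⟩, ?_⟩
    rw [← hx]
    change ∑ i, (if i ∈ s then w i else 0) • X i = _
    simp
  · rintro ⟨t, rfl⟩
    apply (convex_convexHull ℝ (range X)).sum_mem
    · intro i _; exact t.2.1 i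
    · exact t.2.2
    · intro i _; exact subset_convexHull ℝ _ (mem_range_self i)

theorem closed_exists {Y T : Type*} [TopologicalSpace Y] [TopologicalSpace T] [CompactSpace T]
    {C : Set (Y × T)} (hC : IsClosed C) : IsClosed {y : Y | ∃ t : T, (y, t) ∈ C} := by
  have : {y : Y | ∃ t : T, (y, t) ∈ C} = Prod.fst '' C := by
    ext y
    constructor
    · rintro ⟨t, ht⟩; exact ⟨(y, t), ht, rfl⟩
    · rintro ⟨⟨y', t⟩, ht, rfl⟩; exact ⟨t, ht⟩
  rw [this]
  exact isClosedMap_fst_of_compactSpace C hC

omit [FiniteDimensional ℝ E] in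
theorem closed_mem_hull : IsClosed {p : E × (ι → E) | p.1 ∈ convexHull ℝ (range p.2)} := by
  have : CompactSpace (stdSimplex ℝ ι) := isCompact_iff_compactSpace.1 (isCompact_stdSimplex ℝ ι)
  have h : {p : E × (ι → E) | p.1 ∈ convexHull ℝ (range p.2)} =
      {p : E × (ι → E) | ∃ t : stdSimplex ℝ ι, (p, t) ∈
        {r : (E × (ι → E)) × stdSimplex ℝ ι | ∑ i, (r.2 : ι → ℝ) i • r.1.2 i = r.1.1}} := by
    ext p
    exact mem_hull_iff p.2 p.1
  rw [h]
  apply closed_exists
  apply isClosed_eq
  · apply continuous_finsetSum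
    intro i _
    apply Continuous.smul
    · exact (continuous_apply i).comp (continuous_subtype_val.comp continuous_snd)
    · exact (continuous_apply i).comp (continuous_snd.comp continuous_fst)
  · fun_prop

omit [Fintype ι] in
theorem closed_not_interior (hD : 0 < finrank ℝ E) :
    IsClosed {p : E × (ι → E) | p.1 ∉ interior (convexHull ℝ (range p.2))} := by
  have : ProperSpace (E →L[ℝ] ℝ) := FiniteDimensional.proper ℝ _
  have : CompactSpace (Metric.sphere (0 : E →L[ℝ] ℝ) 1) :=
    isCompact_iff_compactSpace.1 (isCompact_sphere _ _)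
  have h : {p : E × (ι → E) | p.1 ∉ interior (convexHull ℝ (range p.2))} =
      {p : E × (ι → E) | ∃ f : Metric.sphere (0 : E →L[ℝ] ℝ) 1, (p, f) ∈
        {r : (E × (ι → E)) × Metric.sphere (0 : E →L[ℝ] ℝ) 1 |
          ∀ i, (r.2 : E →L[ℝ] ℝ) (r.1.2 i) ≤ (r.2 : E →L[ℝ] ℝ) r.1.1}} := by
    ext p
    simp only [mem_ofPred_eq]
    constructor
    · intro hp
      obtain ⟨f, hf0, hf⟩ := exists_functional (convex_convexHull ℝ _) hp hD
      have hn : 0 < ‖f‖ := norm_pos_iff.2 hf0
      refine ⟨⟨‖f‖⁻¹ • f, ?_⟩, fun i => ?_⟩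
      · rw [mem_sphere_zero_iff_norm, norm_smul, norm_inv, norm_norm, inv_mul_cancel₀ hn.ne']
      · simp only [_root_.smul_apply, smul_eq_mul]
        exact mul_le_mul_of_nonneg_left (hf _ (subset_convexHull ℝ _ (mem_range_self i))) (by positivity)
    · rintro ⟨⟨f, hf⟩, hfi⟩ hint
      simp only at hfi
      have hf1 : ‖f‖ = 1 := by simpa using hf
      have hle : ∀ y ∈ convexHull ℝ (range p.2), f y ≤ f p.1 := by
        have hconv : Convex ℝ {y | f y ≤ f p.1} := convex_halfSpace_le (f : E →ₗ[ℝ] ℝ).isLinear _
        have : convexHull ℝ (range p.2) ⊆ {y | f y ≤ f p.1} := by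
          apply convexHull_min _ hconv
          rintro _ ⟨i, rfl⟩
          exact hfi i
        exact this
      have hl : ∀ v, f v ≤ 0 := by
        intro v
        have hopen : IsOpen (interior (convexHull ℝ (range p.2))) := isOpen_interior
        have hcont : Continuous (fun t : ℝ => p.1 + t • v) := by fun_prop
        have h0 : (0:ℝ) ∈ (fun t : ℝ => p.1 + t • v) ⁻¹' interior (convexHull ℝ (range p.2)) := by simpa using hint
        obtain ⟨r, hr, hball⟩ := Metric.isOpen_iff.1 (hopen.preimage hcont) 0 h0
        have hm : (r / 2) ∈ Metric.ball (0:ℝ) r := by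
          rw [Metric.mem_ball, dist_zero_right, Real.norm_eq_abs, abs_of_pos (half_pos hr)]
          linarith
        have h2 := interior_subset (hball hm)
        have h3 := hle _ h2
        simp only [map_add, map_smul, smul_eq_mul] at h3
        have h4 : r / 2 * f v ≤ 0 := by linarith
        by_contra hcon
        push Not at hcon
        have : 0 < r / 2 * f v := by positivity
        linarith
      have : f = 0 := by
        ext v
        apply le_antisymm
        · simpa using hl v
        · have := hl (-v)
          simp only [map_neg] at this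
          simp; linarith
      rw [this] at hf1
      simp at hf1
  rw [h]
  apply closed_exists
  simp only [ofPred_forall]
  apply isClosed_iInter
  intro i
  apply isClosed_le
  · have h1 : Continuous (fun r : (E × (ι → E)) × Metric.sphere (0 : E →L[ℝ] ℝ) 1 => ((r.2 : E →L[ℝ] ℝ), r.1.2 i)) := by fun_prop
    exact isBoundedBilinearMap_apply.continuous.comp h1
  · have h1 : Continuous (fun r : (E × (ι → E)) × Metric.sphere (0 : E →L[ℝ] ℝ) 1 => ((r.2 : E →L[ℝ] ℝ), r.1.1)) := by fun_prop
    exact isBoundedBilinearMap_apply.continuous.comp h1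

variable [MeasurableSpace E] [BorelSpace E]

/-- the set of configurations for which `X k` lies in the affine span of `X '' J` is measurable -/
theorem meas_mem_affineSpan (k : ι) (J : Finset ι) :
    MeasurableSet {X : ι → E | X k ∈ affineSpan ℝ (X '' J)} := by
  classical
  let Cn : ℕ → Set (ι → E) := fun n => {X | ∃ t : (Set.pi univ (fun _ : ι => Icc (-(n:ℝ)) n) : Set (ι → ℝ)),
    (X, t) ∈ {r : (ι → E) × (Set.pi univ (fun _ : ι => Icc (-(n:ℝ)) n) : Set (ι → ℝ)) |
      ∑ i ∈ J, (r.2 : ι → ℝ) i = 1 ∧ ∑ i ∈ J, (r.2 : ι → ℝ) i • r.1 i = r.1 k}}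
  have hC : ∀ n, IsClosed (Cn n) := by
    intro n
    have : CompactSpace (Set.pi univ (fun _ : ι => Icc (-(n:ℝ)) n) : Set (ι → ℝ)) :=
      isCompact_iff_compactSpace.1 (isCompact_univ_pi (fun _ => isCompact_Icc))
    apply closed_exists
    apply IsClosed.inter
    · apply isClosed_eq
      · apply continuous_finsetSum
        intro i _
        exact (continuous_apply i).comp (continuous_subtype_val.comp continuous_snd)
      · fun_prop
    · apply isClosed_eq
      · apply continuous_finsetSum
        intro i _
        apply Continuous.smul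
        · exact (continuous_apply i).comp (continuous_subtype_val.comp continuous_snd)
        · exact (continuous_apply i).comp continuous_fst
      · fun_prop
  have h : {X : ι → E | X k ∈ affineSpan ℝ (X '' J)} = ⋃ n, Cn n := by
    ext X
    simp only [mem_ofPred_eq, mem_iUnion, Cn]
    constructor
    · intro hX
      have hX' : X k ∈ affineSpan ℝ (range (fun i : J => X i)) := by
        have : range (fun i : J => X i) = X '' J := by ext y; simp
        rwa [this]
      rw [mem_affineSpan_iff_eq_affineCombination] at hX'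
      obtain ⟨s, w, hw, hXk⟩ := hX'
      rw [Finset.affineCombination_eq_linear_combination _ _ _ hw] at hXk
      let w' : ι → ℝ := fun i => if h : i ∈ J then (if (⟨i, h⟩ : J) ∈ s then w ⟨i, h⟩ else 0) else 0
      obtain ⟨n, hn⟩ : ∃ n : ℕ, ∀ i, |w' i| ≤ n := by
        obtain ⟨n, hn⟩ := exists_nat_ge (∑ i, |w' i|)
        exact ⟨n, fun i => (Finset.single_le_sum (f := fun i => |w' i|) (fun j _ => abs_nonneg _) (Finset.mem_univ i)).trans hn⟩
      refine ⟨n, ⟨w', fun i _ => abs_le.1 (hn i)⟩, ?_, ?_⟩
      · rw [← Finset.sum_coe_sort J]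
        simp only [w', Finset.coe_mem, dif_pos, Subtype.coe_eta]
        rw [Finset.sum_ite_mem, Finset.univ_eq_attach, Finset.inter_eq_right.2 (fun x _ => Finset.mem_attach _ x)]
        exact hw
      · rw [← Finset.sum_coe_sort J]
        simp only [w', Finset.coe_mem, dif_pos, Subtype.coe_eta, ite_smul, zero_smul]
        rw [Finset.sum_ite_mem, Finset.univ_eq_attach, Finset.inter_eq_right.2 (fun x _ => Finset.mem_attach _ x)]
        exact hXk.symm
    · rintro ⟨n, ⟨t, ht⟩, h1, h2⟩
      simp only at h1 h2
      have hX' : X k ∈ affineSpan ℝ (range (fun i : J => X i)) := by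
        rw [mem_affineSpan_iff_eq_affineCombination]
        refine ⟨Finset.univ, fun i => t i, ?_, ?_⟩
        · rw [← h1]; exact Finset.sum_coe_sort J t
        · rw [Finset.affineCombination_eq_linear_combination]
          · rw [← h2]; exact (Finset.sum_coe_sort J (fun i => t i • X i)).symm
          · rw [← h1]; exact Finset.sum_coe_sort J t
      have : range (fun i : J => X i) = X '' J := by ext y; simp
      rwa [this] at hX'
  rw [h]
  exact MeasurableSet.iUnion (fun n => (hC n).measurableSet)

end Pool.Agent.Lib_helper31.RP
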