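import Pool.Agent.Lib_helper31.RPCompare

open MeasureTheory Set Function
open scoped ENNReal NNReal Topology

namespace Pool.Agent.Lib_helper31.RP

theorem fam_compare {m : ℕ} {A : Fin m → Type*} [∀ i, MeasurableSpace (A i)]
    (α : ∀ i, Measure (A i)) [∀ i, IsFiniteMeasure (α i)] (f : ∀ i, A i → ℝ≥0)
    (hf : ∀ i, Measurable (f i)) (ρ : Fin m → Measure ℝ≥0) [∀ i, IsFiniteMeasure (ρ i)]
    (C : Fin m → ℝ≥0∞) (h : ∀ i, ∀ s : ℝ≥0, α i {x | f i x ≤ s} ≤ C i * ρ i (Iic s))
    (φ : ℝ≥0 → ℝ≥0∞) (hφ : Antitone φ) :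
    ∫⁻ x, φ (∏ i, f i (x i)) ∂(Measure.pi α) ≤ (∏ i, C i) * ∫⁻ y, φ (∏ i, y i) ∂(Measure.pi ρ) := by
  have h1 : ∫⁻ x, φ (∏ i, f i (x i)) ∂(Measure.pi α) =
      ∫⁻ y, φ (∏ i, y i) ∂(Measure.pi (fun i => (α i).map (f i))) := by
    rw [← Measure.pi_map_pi (fun i => (hf i).aemeasurable), lintegral_map]
    · exact hφ.measurable.comp (by fun_prop)
    · exact measurable_pi_lambda _ (fun i => (hf i).comp (measurable_pi_apply i))
  rw [h1]
  apply prod_compare m _ ρ C
  · intro i s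
    rw [Measure.map_apply (hf i) measurableSet_Iic]
    exact h i s
  · intro y z hyz
    apply hφ
    exact Finset.prod_le_prod' (fun i _ => hyz i)
  · exact hφ.measurable.comp (by fun_prop)

theorem fam_compare' {m : ℕ} {A : Fin m → Type*} [∀ i, MeasurableSpace (A i)]
    (α : ∀ i, Measure (A i)) [∀ i, IsFiniteMeasure (α i)] (f : ∀ i, A i → ℝ≥0)
    (hf : ∀ i, Measurable (f i)) (ρ : Fin m → Measure ℝ≥0) [∀ i, IsFiniteMeasure (ρ i)]
    (C : Fin m → ℝ≥0∞) (h : ∀ i, ∀ s : ℝ≥0, ρ i (Iic s) ≤ C i * α i {x | f i x ≤ s})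
    (φ : ℝ≥0 → ℝ≥0∞) (hφ : Antitone φ) :
    ∫⁻ y, φ (∏ i, y i) ∂(Measure.pi ρ) ≤ (∏ i, C i) * ∫⁻ x, φ (∏ i, f i (x i)) ∂(Measure.pi α) := by
  have h1 : ∫⁻ x, φ (∏ i, f i (x i)) ∂(Measure.pi α) =
      ∫⁻ y, φ (∏ i, y i) ∂(Measure.pi (fun i => (α i).map (f i))) := by
    rw [← Measure.pi_map_pi (fun i => (hf i).aemeasurable), lintegral_map]
    · exact hφ.measurable.comp (by fun_prop)
    · exact measurable_pi_lambda _ (fun i => (hf i).comp (measurable_pi_apply i))
  rw [h1]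
  apply prod_compare m ρ _ C
  · intro i s
    rw [Measure.map_apply (hf i) measurableSet_Iic]
    exact h i s
  · intro y z hyz
    apply hφ
    exact Finset.prod_le_prod' (fun i _ => hyz i)
  · exact hφ.measurable.comp (by fun_prop)

/-- the law of `y ^ e`, `y` uniform in `[0,1]` -/
noncomputable def modM (e : ℝ) : Measure ℝ≥0 :=
  (volume.restrict (Icc (0:ℝ) 1)).map (fun y => (y ^ e).toNNReal)

theorem modM_meas (e : ℝ) : Measurable (fun y : ℝ => (y ^ e).toNNReal) := by fun_prop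

instance (e : ℝ) : IsFiniteMeasure (modM e) := by
  unfold modM; infer_instance

theorem modM_Iic {e : ℝ} (he : 0 < e) (s : ℝ≥0) :
    modM e (Iic s) = ENNReal.ofReal (min 1 ((s:ℝ) ^ (1 / e))) := by
  unfold modM
  rw [Measure.map_apply (modM_meas e) measurableSet_Iic,
    Measure.restrict_apply ((modM_meas e) measurableSet_Iic)]
  have : (fun y : ℝ => (y ^ e).toNNReal) ⁻¹' Iic s ∩ Icc 0 1 = Icc 0 (min 1 ((s:ℝ) ^ (1 / e))) := by
    ext y
    simp only [mem_inter_iff, mem_preimage, mem_Iic, mem_Icc, le_min_iff, Real.toNNReal_le_iff_le_coe]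
    constructor
    · rintro ⟨h1, h2, h3⟩
      refine ⟨h2, h3, ?_⟩
      rw [one_div, ← Real.rpow_le_rpow_iff (z := e) h2 (by positivity) he, Real.rpow_inv_rpow s.coe_nonneg he.ne']
      exact h1
    · rintro ⟨h2, h3, h4⟩
      refine ⟨?_, h2, h3⟩
      rw [one_div, ← Real.rpow_le_rpow_iff (z := e) h2 (by positivity) he, Real.rpow_inv_rpow s.coe_nonneg he.ne'] at h4
      exact h4
  rw [this, Real.volume_Icc, sub_zero]

/-- distribution function of the model product -/
noncomputable def Phi {m : ℕ} (e : Fin m → ℝ) (t : ℝ≥0) : ℝ≥0∞ :=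
  (Measure.pi fun i => modM (e i)) {y | ∏ i, y i ≤ t}

theorem Phi_eq {m : ℕ} (e : Fin m → ℝ) (t : ℝ≥0) :
    Phi e t = ∫⁻ y, (Iic t).indicator 1 (∏ i, y i) ∂(Measure.pi fun i => modM (e i)) := by
  unfold Phi
  have hm : MeasurableSet {y : Fin m → ℝ≥0 | ∏ i, y i ≤ t} := by
    apply measurableSet_le (by fun_prop) measurable_const
  rw [← lintegral_indicator_one hm]
  rfl

theorem indicator_antitone (t : ℝ≥0) : Antitone ((Iic t).indicator (1 : ℝ≥0 → ℝ≥0∞)) := by
  intro a b hab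
  by_cases hb : b ∈ Iic t
  · have ha : a ∈ Iic t := hab.trans hb
    rw [indicator_of_mem hb, indicator_of_mem ha]; simp
  · rw [indicator_of_notMem hb]; exact zero_le

theorem Phi_doubling {m : ℕ} (hm : 0 < m) (e : Fin m → ℝ) (he : ∀ i, 1 ≤ e i) (t r : ℝ≥0)
    (hr : 1 ≤ r) : Phi e (r * t) ≤ r * Phi e t := by
  classical
  have hr0 : r ≠ 0 := (lt_of_lt_of_le one_pos hr).ne'
  let i₀ : Fin m := ⟨0, hm⟩
  rw [Phi_eq, Phi_eq]
  let f : Fin m → ℝ≥0 → ℝ≥0 := fun i x => if i = i₀ then x / r else x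
  have hf : ∀ i, Measurable (f i) := by
    intro i
    by_cases hi : i = i₀
    · simp only [f, hi, if_true]; fun_prop
    · simp only [f, hi, if_false]; fun_prop
  have hprod : ∀ y : Fin m → ℝ≥0, ∏ i, f i (y i) = (∏ i, y i) / r := by
    intro y
    rw [← Finset.mul_prod_erase Finset.univ _ (Finset.mem_univ i₀),
      ← Finset.mul_prod_erase Finset.univ y (Finset.mem_univ i₀)]
    have h1 : ∏ x ∈ Finset.univ.erase i₀, f x (y x) = ∏ x ∈ Finset.univ.erase i₀, y x := by
      apply Finset.prod_congr rfl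
      intro i hi
      simp only [f, Finset.ne_of_mem_erase hi, if_false]
    rw [h1]
    simp only [f, if_true]
    rw [div_mul_eq_mul_div]
  have h := fam_compare (fun i => modM (e i)) f hf (fun i => modM (e i))
    (fun i => if i = i₀ then (r : ℝ≥0∞) else 1) ?_ ((Iic t).indicator 1) (indicator_antitone t)
  · have h2 : (∏ i : Fin m, if i = i₀ then (r : ℝ≥0∞) else 1) = r := by simp
    rw [h2] at h
    refine le_trans (le_of_eq ?_) h
    apply lintegral_congr
    intro y
    rw [hprod]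
    by_cases hy : ∏ i, y i ≤ r * t
    · have hy' : (∏ i, y i) / r ≤ t := by rwa [div_le_iff₀' (lt_of_lt_of_le one_pos hr)]
      rw [indicator_of_mem (show _ ∈ Iic (r * t) from hy), indicator_of_mem (show _ ∈ Iic t from hy')]; rfl
    · have hy' : ¬ (∏ i, y i) / r ≤ t := by rwa [div_le_iff₀' (lt_of_lt_of_le one_pos hr)]
      rw [indicator_of_notMem (show _ ∉ Iic (r * t) from hy), indicator_of_notMem (show _ ∉ Iic t from hy')]
  · intro i s
    by_cases hi : i = i₀
    · simp only [hi, if_true, f]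
      have h1 : {x : ℝ≥0 | x / r ≤ s} = Iic (r * s) := by
        ext x
        simp only [mem_ofPred_eq, mem_Iic]
        rw [div_le_iff₀' (lt_of_lt_of_le one_pos hr)]
      rw [h1, modM_Iic (by linarith [he i₀]), modM_Iic (by linarith [he i₀])]
      rw [← ENNReal.ofReal_coe_nnreal, ← ENNReal.ofReal_mul (by positivity)]
      apply ENNReal.ofReal_le_ofReal
      have hr1 : (1:ℝ) ≤ r := by exact_mod_cast hr
      push_cast
      rw [Real.mul_rpow (by positivity) (by positivity)]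
      have he0 : 0 < e i₀ := by linarith [he i₀]
      have h3 : (r:ℝ) ^ (1 / e i₀) ≤ r := by
        calc (r:ℝ) ^ (1 / e i₀) ≤ (r:ℝ) ^ (1:ℝ) := by
              apply Real.rpow_le_rpow_of_exponent_le hr1
              rw [div_le_one he0]; exact he i₀
          _ = r := Real.rpow_one _
      have h4 : 0 ≤ (s:ℝ) ^ (1 / e i₀) := by positivity
      rw [mul_min_of_nonneg _ _ (by positivity)]
      apply min_le_min
      · linarith
      · exact mul_le_mul_of_nonneg_right h3 h4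
    · simp only [hi, if_false, f, one_mul]
      exact le_rfl

/-- constant for the exponential integral -/
noncomputable def expC (a : ℝ) : ℝ≥0∞ := ∑' k : ℕ, ENNReal.ofReal (((k:ℝ) + 1) * Real.exp (-(a * k)))

theorem expC_lt_top {a : ℝ} (ha : 0 < a) : expC a < ⊤ := by
  unfold expC
  have hs : Summable (fun k : ℕ => ((k:ℝ) + 1) * Real.exp (-(a * k))) := by
    have h1 : ∀ k : ℕ, Real.exp (-(a * k)) = (Real.exp (-a)) ^ k := by
      intro k
      rw [← Real.exp_nat_mul]; congr 1; ring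
    have hr : ‖Real.exp (-a)‖ < 1 := by
      rw [Real.norm_eq_abs, abs_of_pos (Real.exp_pos _), Real.exp_lt_one_iff]
      linarith
    have h2 := summable_pow_mul_geometric_of_norm_lt_one 1 hr
    have h3 := summable_geometric_of_norm_lt_one hr
    refine (h2.add h3).congr ?_
    intro k
    rw [h1]; ring
  rw [← ENNReal.ofReal_tsum_of_nonneg (fun k => by positivity) hs]
  exact ENNReal.ofReal_lt_top

theorem exp_integral_le {m : ℕ} (hm : 0 < m) (e : Fin m → ℝ) (he : ∀ i, 1 ≤ e i) (a : ℝ) (ha : 0 < a)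
    (t : ℝ≥0) (ht : 0 < t) :
    ∫⁻ y, ENNReal.ofReal (Real.exp (-(a * ((∏ i, y i : ℝ≥0) : ℝ) / t))) ∂(Measure.pi fun i => modM (e i)) ≤
      expC a * Phi e t := by
  have hpt : ∀ z : ℝ≥0, ENNReal.ofReal (Real.exp (-(a * (z : ℝ) / t))) ≤
      ∑' k : ℕ, ENNReal.ofReal (Real.exp (-(a * k))) * (Iic ((k + 1) * t)).indicator 1 z := by
    intro z
    let k : ℕ := ⌊(z:ℝ) / t⌋₊
    have htr : (0:ℝ) < t := by exact_mod_cast ht
    have hz : z ∈ Iic ((k + 1 : ℝ≥0) * t) := by
      have h1 := Nat.lt_floor_add_one ((z:ℝ) / t)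
      rw [div_lt_iff₀ htr] at h1
      rw [mem_Iic, ← NNReal.coe_le_coe]
      push_cast
      exact h1.le
    refine le_trans ?_ (ENNReal.le_tsum k)
    rw [indicator_of_mem hz]
    simp only [Pi.one_apply, mul_one]
    apply ENNReal.ofReal_le_ofReal
    apply Real.exp_le_exp.2
    have h2 : (k:ℝ) ≤ (z:ℝ) / t := Nat.floor_le (by positivity)
    have h3 : a * (z:ℝ) / t = a * ((z:ℝ) / t) := by ring
    rw [h3]
    nlinarith
  calc ∫⁻ y, ENNReal.ofReal (Real.exp (-(a * ((∏ i, y i : ℝ≥0) : ℝ) / t))) ∂(Measure.pi fun i => modM (e i))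
      ≤ ∫⁻ y, ∑' k : ℕ, ENNReal.ofReal (Real.exp (-(a * k))) * (Iic ((k + 1) * t)).indicator 1 (∏ i, y i) ∂(Measure.pi fun i => modM (e i)) :=
        lintegral_mono (fun y => hpt _)
    _ = ∑' k : ℕ, ENNReal.ofReal (Real.exp (-(a * k))) * Phi e ((k + 1) * t) := by
        have hmk : ∀ k : ℕ, Measurable (fun y : Fin m → ℝ≥0 => (Iic ((k + 1) * t)).indicator (1 : ℝ≥0 → ℝ≥0∞) (∏ i, y i)) :=
          fun k => (measurable_one.indicator measurableSet_Iic).comp (by fun_prop)
        rw [lintegral_tsum]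
        · congr 1
          ext k
          rw [lintegral_const_mul _ (hmk k), Phi_eq]
        · intro k
          exact ((hmk k).const_mul _).aemeasurable
    _ ≤ ∑' k : ℕ, ENNReal.ofReal (((k:ℝ) + 1) * Real.exp (-(a * k))) * Phi e t := by
        apply ENNReal.tsum_le_tsum
        intro k
        have h1 := Phi_doubling hm e he t (k + 1) (by simp)
        calc ENNReal.ofReal (Real.exp (-(a * k))) * Phi e ((k + 1) * t)
            ≤ ENNReal.ofReal (Real.exp (-(a * k))) * (((k + 1 : ℝ≥0) : ℝ≥0∞) * Phi e t) := by gcongr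
          _ = ENNReal.ofReal (((k:ℝ) + 1) * Real.exp (-(a * k))) * Phi e t := by
            rw [ENNReal.ofReal_mul (by positivity)]
            have : ENNReal.ofReal ((k:ℝ) + 1) = ((k + 1 : ℝ≥0) : ℝ≥0∞) := by
              rw [← ENNReal.ofReal_coe_nnreal]; push_cast; rfl
            rw [this]; ring
    _ = expC a * Phi e t := by
        rw [ENNReal.tsum_mul_right]; rfl

end Pool.Agent.Lib_helper31.RP
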