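import Pool.Agent.Lib_helper31.RPFactor

open MeasureTheory Set Module ProbabilityTheory
open scoped ENNReal NNReal Topology Pointwise RealInnerProductSpace

namespace Pool.Agent.Lib_helper31.RP

/-- comparability of two sequences up to constants -/
def SameOrd (a b : ℕ → ℝ≥0∞) : Prop :=
  ∃ c C : ℝ, 0 < c ∧ c ≤ C ∧ ∃ n₀ : ℕ, ∀ n ≥ n₀,
    ENNReal.ofReal c * b n ≤ a n ∧ a n ≤ ENNReal.ofReal C * b n

theorem SameOrd.mk' {a b : ℕ → ℝ≥0∞} {C₁ C₂ : ℝ≥0∞} (hC₁ : C₁ ≠ ⊤) (hC₂ : C₂ ≠ ⊤) (n₀ : ℕ)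
    (h1 : ∀ n ≥ n₀, b n ≤ C₁ * a n) (h2 : ∀ n ≥ n₀, a n ≤ C₂ * b n) : SameOrd a b := by
  have hc : 0 < 1 / (C₁.toReal + 1) := by positivity
  refine ⟨1 / (C₁.toReal + 1), max C₂.toReal (1 / (C₁.toReal + 1)), hc, le_max_right _ _, n₀,
    fun n hn => ⟨?_, ?_⟩⟩
  · calc ENNReal.ofReal (1 / (C₁.toReal + 1)) * b n ≤ ENNReal.ofReal (1 / (C₁.toReal + 1)) * (C₁ * a n) := by
          gcongr; exact h1 n hn
      _ = (ENNReal.ofReal (1 / (C₁.toReal + 1)) * C₁) * a n := by ring
      _ ≤ 1 * a n := by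
          gcongr
          have e1 : ENNReal.ofReal (1 / (C₁.toReal + 1)) * C₁ =
              ENNReal.ofReal (1 / (C₁.toReal + 1)) * ENNReal.ofReal C₁.toReal := by
            rw [ENNReal.ofReal_toReal hC₁]
          rw [e1, ← ENNReal.ofReal_mul hc.le, ← ENNReal.ofReal_one]
          apply ENNReal.ofReal_le_ofReal
          rw [one_div, inv_mul_le_iff₀ (by positivity)]
          linarith
      _ = a n := one_mul _
  · refine (h2 n hn).trans ?_
    gcongr
    rw [← ENNReal.ofReal_toReal hC₂]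
    apply ENNReal.ofReal_le_ofReal
    simp

theorem SameOrd.out {a b : ℕ → ℝ≥0∞} (h : SameOrd a b) :
    ∃ C₁ C₂ : ℝ≥0∞, C₁ ≠ ⊤ ∧ C₂ ≠ ⊤ ∧ ∃ n₀ : ℕ, ∀ n ≥ n₀, b n ≤ C₁ * a n ∧ a n ≤ C₂ * b n := by
  obtain ⟨c, C, hc, _, n₀, h⟩ := h
  refine ⟨ENNReal.ofReal (1 / c), ENNReal.ofReal C, ENNReal.ofReal_ne_top, ENNReal.ofReal_ne_top, n₀,
    fun n hn => ⟨?_, (h n hn).2⟩⟩
  calc b n = ENNReal.ofReal (1 / c) * (ENNReal.ofReal c * b n) := by
        rw [← mul_assoc, ← ENNReal.ofReal_mul (by positivity)]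
        rw [one_div, inv_mul_cancel₀ hc.ne']; simp
    _ ≤ _ := by
        gcongr; exact (h n hn).1

theorem SameOrd.symm {a b : ℕ → ℝ≥0∞} (h : SameOrd a b) : SameOrd b a := by
  obtain ⟨C₁, C₂, h1, h2, n₀, h⟩ := h.out
  exact SameOrd.mk' h2 h1 n₀ (fun n hn => (h n hn).2) (fun n hn => (h n hn).1)

theorem SameOrd.trans {a b c : ℕ → ℝ≥0∞} (h : SameOrd a b) (h' : SameOrd b c) : SameOrd a c := by
  obtain ⟨C₁, C₂, h1, h2, n₀, h⟩ := h.out
  obtain ⟨C₁', C₂', h1', h2', n₀', h'⟩ := h'.out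
  apply SameOrd.mk' (C₁ := C₁' * C₁) (C₂ := C₂ * C₂') (ENNReal.mul_ne_top h1' h1) (ENNReal.mul_ne_top h2 h2') (max n₀ n₀')
  · intro n hn
    have hn1 : n₀ ≤ n := (le_max_left _ _).trans hn
    have hn2 : n₀' ≤ n := (le_max_right _ _).trans hn
    calc c n ≤ C₁' * b n := (h' n hn2).1
      _ ≤ C₁' * (C₁ * a n) := by gcongr; exact (h n hn1).1
      _ = _ := by ring
  · intro n hn
    have hn1 : n₀ ≤ n := (le_max_left _ _).trans hn
    have hn2 : n₀' ≤ n := (le_max_right _ _).trans hn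
    calc a n ≤ C₂ * b n := (h n hn1).2
      _ ≤ C₂ * (C₂' * c n) := by gcongr; exact (h' n hn2).2
      _ = _ := by ring

variable {m : ℕ} {d : Fin m → ℕ}

/-- exponents -/
noncomputable def ee (d : Fin m → ℕ) (i : Fin m) : ℝ := ((d i : ℝ) + 1) / 2

theorem mac_pi (K : ∀ i, Set (EuclideanSpace ℝ (Fin (d i)))) (x : ∀ i, EuclideanSpace ℝ (Fin (d i))) :
    mac (Set.pi univ K) x = Set.pi univ (fun i => mac (K i) (x i)) := by
  ext w
  constructor
  · rintro ⟨h1, h2⟩ i _
    exact ⟨h1 i (mem_univ i), h2 i (mem_univ i)⟩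
  · intro h
    exact ⟨fun i _ => (h i (mem_univ i)).1, fun i _ => (h i (mem_univ i)).2⟩

theorem upInt_product_le (hm : 0 < m) (hd : ∀ i, 0 < d i)
    (K : ∀ i, Set (EuclideanSpace ℝ (Fin (d i)))) (hK : ∀ i, IsCompact (K i))
    (hconv : ∀ i, Convex ℝ (K i)) (hint : ∀ i, (interior (K i)).Nonempty) (a : ℝ) (ha : 0 < a) :
    ∃ C : ℝ≥0∞, C ≠ ⊤ ∧ ∀ n : ℕ, 0 < n →
      upInt volume (Set.pi univ K) a n ≤ C * Phi (ee d) (1 / (n:ℝ≥0)) := by
  have htail : ∀ i, ∃ C : ℝ≥0∞, C ≠ ⊤ ∧ ∀ s : ℝ≥0, volume {x | x ∈ K i ∧ (volume (mac (K i) x)).toNNReal ≤ s} ≤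
      C * modM (ee d i) (Iic s) := by
    intro i
    have := tail_bound (volume : Measure (EuclideanSpace ℝ (Fin (d i)))) (hK i) (hconv i) (hint i) (by simpa using hd i)
    simpa [ee] using this
  choose C hC htail using htail
  have hVfin : volume (Set.pi univ K) ≠ ⊤ := by
    rw [volume_pi_pi]
    exact ENNReal.prod_ne_top (fun i _ => (hK i).measure_lt_top.ne)
  have hVne : volume (Set.pi univ K) ≠ 0 := by
    rw [volume_pi_pi]
    apply Finset.prod_ne_zero_iff.2
    intro i _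
    exact (isOpen_interior.measure_pos volume (hint i)).ne' ∘ (fun h => measure_mono_null interior_subset h)
  obtain ⟨V, hV⟩ : ∃ V, V = (volume (Set.pi univ K)).toReal := ⟨_, rfl⟩
  have hVpos : 0 < V := by rw [hV]; exact ENNReal.toReal_pos hVne hVfin
  refine ⟨(∏ i, C i) * expC (a / V), ENNReal.mul_ne_top (ENNReal.prod_ne_top (fun i _ => hC i))
    (expC_lt_top (by positivity)).ne, fun n hn => ?_⟩
  have hnr : (0:ℝ) < n := by exact_mod_cast hn
  have hfin : ∀ i, IsFiniteMeasure ((volume : Measure (EuclideanSpace ℝ (Fin (d i)))).restrict (K i)) :=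
    fun i => ⟨by rw [Measure.restrict_apply_univ]; exact (hK i).measure_lt_top⟩
  let f : ∀ i, EuclideanSpace ℝ (Fin (d i)) → ℝ≥0 := fun i x => (volume (mac (K i) x)).toNNReal
  have hf : ∀ i, Measurable (f i) := fun i => (mac_meas volume (K i) (hK i).isClosed).ennreal_toNNReal
  let φ : ℝ≥0 → ℝ≥0∞ := fun z => ENNReal.ofReal (Real.exp (-((a / V) * (z:ℝ) / ((1 / (n:ℝ≥0) : ℝ≥0) : ℝ))))
  have hφ : Antitone φ := by
    intro z w hzw
    apply ENNReal.ofReal_le_ofReal
    apply Real.exp_le_exp.2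
    have : (z:ℝ) ≤ w := by exact_mod_cast hzw
    gcongr
  have e1 : upInt volume (Set.pi univ K) a n = ∫⁻ x, φ (∏ i, f i (x i))
      ∂(Measure.pi (fun i => (volume : Measure (EuclideanSpace ℝ (Fin (d i)))).restrict (K i))) := by
    unfold upInt
    rw [volume_pi, Measure.restrict_pi_pi]
    apply lintegral_congr
    intro x
    simp only [φ]
    congr 2
    unfold qv
    rw [mac_pi, ← volume_pi, volume_pi_pi, ENNReal.toReal_prod]
    rw [← hV]
    push_cast
    have : ∀ i, ((f i (x i) : ℝ≥0) : ℝ) = (volume (mac (K i) (x i))).toReal := fun i => rfl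
    simp only [this]
    field_simp
  rw [e1]
  calc _ ≤ (∏ i, C i) * ∫⁻ y, φ (∏ i, y i) ∂(Measure.pi (fun i => modM (ee d i))) := by
        apply fam_compare _ f hf _ C _ φ hφ
        intro i s
        rw [Measure.restrict_apply' (hK i).measurableSet]
        refine le_trans (measure_mono ?_) (htail i s)
        rintro x ⟨h1, h2⟩
        exact ⟨h2, h1⟩
    _ ≤ (∏ i, C i) * (expC (a / V) * Phi (ee d) (1 / (n:ℝ≥0))) := by
        gcongr
        apply exp_integral_le hm
        · intro i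
          unfold ee
          have : (1:ℝ) ≤ d i := by exact_mod_cast hd i
          linarith
        · positivity
        · positivity
    _ = _ := by ring

theorem low_product (hm : 0 < m) (hd : ∀ i, 0 < d i)
    (K : ∀ i, Set (EuclideanSpace ℝ (Fin (d i)))) (hK : ∀ i, IsCompact (K i))
    (hconv : ∀ i, Convex ℝ (K i)) (hint : ∀ i, (interior (K i)).Nonempty)
    (hcurv : ∀ i, ∀ x ∈ frontier (K i), ∃ κ > 0, OB (K i) κ x) :
    ∃ C : ℝ≥0∞, C ≠ ⊤ ∧ ∀ n : ℕ, 0 < n → ∃ S : Set (∀ i, EuclideanSpace ℝ (Fin (d i))),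
      S ⊆ LowSet volume (Set.pi univ K) n ∧ Phi (ee d) (1 / (n:ℝ≥0)) ≤ C * volume S := by
  classical
  have hfac := fun i => factor_lower (hK i) (hconv i) (hint i) (by simpa using hd i) (hcurv i)
  simp only [finrank_euclideanSpace_fin] at hfac
  choose G hGm hGK hL C₀ hC₀ hcap using hfac
  choose CL hCL hlow using hL
  have hVfin : volume (Set.pi univ K) ≠ ⊤ := by
    rw [volume_pi_pi]
    exact ENNReal.prod_ne_top (fun i _ => (hK i).measure_lt_top.ne)
  have hVne : volume (Set.pi univ K) ≠ 0 := by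
    rw [volume_pi_pi]
    apply Finset.prod_ne_zero_iff.2
    intro i _
    exact (isOpen_interior.measure_pos volume (hint i)).ne' ∘ (fun h => measure_mono_null interior_subset h)
  obtain ⟨V, hV⟩ : ∃ V, V = (volume (Set.pi univ K)).toReal := ⟨_, rfl⟩
  have hVpos : 0 < V := by rw [hV]; exact ENNReal.toReal_pos hVne hVfin
  have hepos : ∀ i, 0 < ee d i := fun i => by unfold ee; positivity
  have hmr : (0:ℝ) < m := by exact_mod_cast hm
  -- constants
  obtain ⟨c₀, hc₀⟩ : ∃ c₀ : ℝ, c₀ = ∏ i, (C₀ i * (m:ℝ) ^ (ee d i)) := ⟨_, rfl⟩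
  have hc₀pos : 0 < c₀ := by
    rw [hc₀]; apply Finset.prod_pos; intro i _
    have := hC₀ i
    positivity
  obtain ⟨c₁, hc₁⟩ : ∃ c₁ : ℝ≥0, c₁ = (V / c₀).toNNReal := ⟨_, rfl⟩
  have hc₁r : (c₁ : ℝ) = V / c₀ := by rw [hc₁, Real.coe_toNNReal _ (by positivity)]
  have hc₁pos : 0 < c₁ := by rw [← NNReal.coe_pos, hc₁r]; positivity
  obtain ⟨r, hr⟩ : ∃ r : ℝ≥0, r = max 1 (1 / c₁) := ⟨_, rfl⟩
  have hr1 : 1 ≤ r := by rw [hr]; exact le_max_left _ _
  have hrc : 1 ≤ r * c₁ := by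
    have : 1 / c₁ ≤ r := by rw [hr]; exact le_max_right _ _
    calc 1 = 1 / c₁ * c₁ := by field_simp
      _ ≤ r * c₁ := by gcongr
  refine ⟨r * ∏ i, CL i, ENNReal.mul_ne_top (by simp) (ENNReal.prod_ne_top (fun i _ => hCL i)), fun n hn => ?_⟩
  have hnr : (0:ℝ) < n := by exact_mod_cast hn
  let f : ∀ i, EuclideanSpace ℝ (Fin (d i)) → ℝ≥0 := fun i x => (bd (K i) x) ^ (ee d i)
  have hf : ∀ i, Measurable (f i) := fun i => (bd_measurable (K i)).pow_const _
  obtain ⟨t, ht⟩ : ∃ t : ℝ≥0, t = c₁ * (1 / n) := ⟨_, rfl⟩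
  refine ⟨{x | x ∈ Set.pi univ G ∧ ∏ i, f i (x i) ≤ t}, ?_, ?_⟩
  · rintro x ⟨hxG, hx⟩
    refine ⟨fun i _ => hGK i (hxG i (mem_univ i)), ?_⟩
    have hcx := fun i => hcap i (x i) (hxG i (mem_univ i))
    choose hδ l hl hM using hcx
    let δ : Fin m → ℝ := fun i => bd (K i) (x i)
    have hδpos : ∀ i, 0 < δ i := fun i => by exact_mod_cast hδ i
    let L : (∀ i, EuclideanSpace ℝ (Fin (d i))) →L[ℝ] ℝ :=
      ∑ i, (1 / δ i) • (l i).comp (ContinuousLinearMap.proj i)
    have hL : ∀ y, L y = ∑ i, (1 / δ i) * l i (y i) := by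
      intro y
      simp [L]
    refine ⟨L, ?_⟩
    have hsub : Set.pi univ K ∩ {y | L x ≤ L y} ⊆
        Set.pi univ (fun i => K i ∩ {y | l i (x i) - ((m:ℝ) - 1) * δ i ≤ l i y}) := by
      rintro y ⟨hyK, hy⟩ i _
      refine ⟨hyK i (mem_univ i), ?_⟩
      simp only [mem_ofPred_eq, hL] at hy ⊢
      have h1 : 0 ≤ ∑ j, (1 / δ j) * (l j (y j) - l j (x j)) := by
        simp only [mul_sub, Finset.sum_sub_distrib]; linarith
      have h2 : ∀ j, (1 / δ j) * (l j (y j) - l j (x j)) ≤ 1 := by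
        intro j
        have := hl j (y j) (hyK j (mem_univ j))
        have hp := hδpos j
        rw [one_div, inv_mul_le_iff₀ hp, mul_one]
        change _ ≤ ((bd (K j) (x j) : ℝ≥0) : ℝ)
        linarith
      rw [← Finset.add_sum_erase Finset.univ _ (Finset.mem_univ i)] at h1
      have h3 : ∑ j ∈ Finset.univ.erase i, (1 / δ j) * (l j (y j) - l j (x j)) ≤ (m:ℝ) - 1 := by
        calc _ ≤ ∑ j ∈ Finset.univ.erase i, (1:ℝ) := Finset.sum_le_sum (fun j _ => h2 j)
          _ = (m:ℝ) - 1 := by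
            rw [Finset.sum_const, Finset.card_erase_of_mem (Finset.mem_univ i), Finset.card_univ,
              Fintype.card_fin, nsmul_eq_mul, mul_one, Nat.cast_sub hm]
            simp
      have h4 : -((m:ℝ) - 1) ≤ (1 / δ i) * (l i (y i) - l i (x i)) := by linarith
      have h5 : -((m:ℝ) - 1) * δ i ≤ l i (y i) - l i (x i) := by
        calc -((m:ℝ) - 1) * δ i ≤ ((1 / δ i) * (l i (y i) - l i (x i))) * δ i :=
              mul_le_mul_of_nonneg_right h4 (hδpos i).le
          _ = _ := by have := (hδpos i).ne'; field_simp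
      linarith
    have hm1 : (0:ℝ) ≤ (m:ℝ) - 1 := by
      have : (1:ℝ) ≤ m := by exact_mod_cast hm
      linarith
    have hvol : volume (Set.pi univ K ∩ {y | L x ≤ L y}) ≤ ENNReal.ofReal (c₀ * t) := by
      calc volume (Set.pi univ K ∩ {y | L x ≤ L y})
          ≤ volume (Set.pi univ (fun i => K i ∩ {y | l i (x i) - ((m:ℝ) - 1) * δ i ≤ l i y})) := measure_mono hsub
        _ = ∏ i, volume (K i ∩ {y | l i (x i) - ((m:ℝ) - 1) * δ i ≤ l i y}) := volume_pi_pi _
        _ ≤ ∏ i, ENNReal.ofReal (C₀ i * (((m:ℝ) - 1 + 1) * δ i) ^ (ee d i)) :=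
            Finset.prod_le_prod' (fun i _ => hM i ((m:ℝ) - 1) hm1)
        _ = ENNReal.ofReal (∏ i, (C₀ i * (((m:ℝ) - 1 + 1) * δ i) ^ (ee d i))) := by
            rw [ENNReal.ofReal_prod_of_nonneg]
            intro i _
            have := (hC₀ i).le
            have := (hδpos i).le
            positivity
        _ ≤ ENNReal.ofReal (c₀ * t) := by
            apply ENNReal.ofReal_le_ofReal
            have h6 : ∏ i, (C₀ i * (((m:ℝ) - 1 + 1) * δ i) ^ (ee d i)) = c₀ * ∏ i, (δ i) ^ (ee d i) := by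
              rw [hc₀, ← Finset.prod_mul_distrib]
              apply Finset.prod_congr rfl
              intro i _
              rw [sub_add_cancel, Real.mul_rpow hmr.le (hδpos i).le]
              ring
            rw [h6]
            have h7 : ∏ i, (δ i) ^ (ee d i) ≤ (t:ℝ) := by
              have h8 : ((∏ i, f i (x i) : ℝ≥0) : ℝ) ≤ t := by exact_mod_cast hx
              refine le_trans (le_of_eq ?_) h8
              push_cast
              rfl
            gcongr
    calc volume (Set.pi univ K ∩ {y | L x ≤ L y}) * n ≤ ENNReal.ofReal (c₀ * t) * n := by gcongr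
      _ = ENNReal.ofReal V := by
        rw [← ENNReal.ofReal_natCast, ← ENNReal.ofReal_mul (by positivity)]
        congr 1
        rw [ht]
        push_cast
        rw [hc₁r]
        field_simp
      _ = volume (Set.pi univ K) := by rw [hV, ENNReal.ofReal_toReal hVfin]
  · have hfinG : ∀ i, IsFiniteMeasure ((volume : Measure (EuclideanSpace ℝ (Fin (d i)))).restrict (G i)) :=
      fun i => ⟨by
        rw [Measure.restrict_apply_univ]
        exact (measure_mono (hGK i)).trans_lt (hK i).measure_lt_top⟩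
    have h1 := fam_compare' (fun i => (volume : Measure (EuclideanSpace ℝ (Fin (d i)))).restrict (G i)) f hf
      (fun i => modM (ee d i)) CL (fun i s => hlow i s) ((Iic t).indicator 1) (indicator_antitone t)
    rw [← Phi_eq] at h1
    have hmeas : MeasurableSet {x : ∀ i, EuclideanSpace ℝ (Fin (d i)) | ∏ i, f i (x i) ≤ t} := by
      apply measurableSet_le _ measurable_const
      exact Finset.measurable_prod _ (fun i _ => (hf i).comp (measurable_pi_apply i))
    have h2 : ∫⁻ x, (Iic t).indicator 1 (∏ i, f i (x i))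
        ∂(Measure.pi (fun i => (volume : Measure (EuclideanSpace ℝ (Fin (d i)))).restrict (G i))) =
        volume {x | x ∈ Set.pi univ G ∧ ∏ i, f i (x i) ≤ t} := by
      have h3 : (fun x : ∀ i, EuclideanSpace ℝ (Fin (d i)) => (Iic t).indicator (1 : ℝ≥0 → ℝ≥0∞) (∏ i, f i (x i))) =
          {x | ∏ i, f i (x i) ≤ t}.indicator 1 := rfl
      rw [h3, lintegral_indicator_one hmeas, ← Measure.restrict_pi_pi, ← volume_pi,
        Measure.restrict_apply hmeas]
      congr 1
      ext x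
      simp only [mem_inter_iff, mem_ofPred_eq]
      exact and_comm
    rw [h2] at h1
    have h4 : Phi (ee d) (1 / (n:ℝ≥0)) ≤ r * Phi (ee d) t := by
      refine le_trans ?_ (Phi_doubling hm (ee d) ?_ t r hr1)
      · unfold Phi
        apply measure_mono
        intro y hy
        simp only [mem_ofPred_eq] at hy ⊢
        refine hy.trans ?_
        rw [ht, ← mul_assoc]
        exact le_mul_of_one_le_left zero_le hrc
      · intro i
        unfold ee
        have : (1:ℝ) ≤ d i := by exact_mod_cast hd i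
        linarith
    calc Phi (ee d) (1 / (n:ℝ≥0)) ≤ r * Phi (ee d) t := h4
      _ ≤ r * ((∏ i, CL i) * volume {x | x ∈ Set.pi univ G ∧ ∏ i, f i (x i) ≤ t}) := by gcongr
      _ = _ := by ring

end Pool.Agent.Lib_helper31.RP
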