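import Pool.Agent.Lib_helper31.RPCap

open MeasureTheory Set Module
open scoped ENNReal NNReal Topology Pointwise RealInnerProductSpace

namespace Pool.Agent.Lib_helper31.RP

section gen
variable {E : Type*} [NormedAddCommGroup E] [NormedSpace ℝ E] [FiniteDimensional ℝ E]
variable [MeasurableSpace E] [BorelSpace E] (μ : Measure E) [μ.IsAddHaarMeasure]

/-- Shell estimate for bodies with the origin in the interior. -/
theorem shell_zero {K : Set E} (hK : IsCompact K) (hconv : Convex ℝ K) (h0 : (0:E) ∈ interior K)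
    (hk : 0 < finrank ℝ E) {p : E} (hp : p ∈ frontier K) {ε : ℝ} (hε : 0 < ε) :
    ∃ c > 0, ∀ τ : ℝ, 0 < τ → ENNReal.ofReal (c * min 1 τ) ≤
      μ {x | x ∈ interior K ∧ dist x p < ε ∧ Metric.infDist x (frontier K) ≤ τ} := by
  have hnhds : K ∈ 𝓝 (0:E) := mem_interior_iff_mem_nhds.1 h0
  set g := gauge K with hg
  have hgcont : Continuous g := continuous_gauge hconv hnhds
  have hgp : g p = 1 := (gauge_eq_one_iff_mem_frontier hconv hnhds).2 hp
  have hgsmul : ∀ (a : ℝ), 0 ≤ a → ∀ v, g (a • v) = a * g v := fun a ha v => by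
    rw [hg, gauge_smul_of_nonneg ha]; rfl
  have hgnn : ∀ v, 0 ≤ g v := gauge_nonneg
  obtain ⟨Dm, hDm0, hDm⟩ : ∃ Dm : ℝ, 0 < Dm ∧ ∀ y ∈ K, ‖y‖ ≤ Dm := by
    obtain ⟨R, hR⟩ := hK.isBounded.subset_closedBall 0
    refine ⟨max R 1, lt_max_of_lt_right one_pos, fun y hy => ?_⟩
    have := hR hy
    rw [mem_closedBall_zero_iff] at this
    exact this.trans (le_max_left _ _)
  -- the cone
  set C : Set E := {v | g v ≠ 0 ∧ (1 / g v) • v ∈ Metric.ball p (ε / 2)} with hC
  have hCopen : IsOpen C := by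
    have h1 : IsOpen {v | g v ≠ 0} := isOpen_ne_fun hgcont continuous_const
    have h2 : ContinuousOn (fun v => (1 / g v) • v) {v | g v ≠ 0} := by
      apply ContinuousOn.smul _ continuousOn_id
      exact continuousOn_const.div hgcont.continuousOn (fun v hv => hv)
    exact h2.isOpen_inter_preimage h1 Metric.isOpen_ball
  have hCcone : ∀ (a : ℝ), 0 < a → ∀ v, a • v ∈ C ↔ v ∈ C := by
    intro a ha v
    simp only [hC, mem_ofPred_eq]
    rw [hgsmul a ha.le]
    by_cases hv : g v = 0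
    · simp [hv]
    · have : (1 / (a * g v)) • a • v = (1 / g v) • v := by
        rw [smul_smul]; congr 1; field_simp
      rw [this]
      simp [hv, ha.ne']
  set W : Set E := C ∩ {v | g v < 1} with hW
  have hWopen : IsOpen W := hCopen.inter (isOpen_lt hgcont continuous_const)
  have hpC : p ∈ C := by
    refine ⟨by rw [hgp]; norm_num, ?_⟩
    rw [hgp, one_div_one, one_smul]
    exact Metric.mem_ball_self (by positivity)
  have hWne : W.Nonempty := by
    refine ⟨(1 / 2 : ℝ) • p, (hCcone _ (by norm_num) p).2 hpC, ?_⟩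
    simp only [mem_ofPred_eq]
    rw [hgsmul _ (by norm_num), hgp]; norm_num
  have hWint : W ⊆ interior K := fun v hv => (gauge_lt_one_iff_mem_interior hconv hnhds).1 hv.2
  have hWfin : μ W ≠ ⊤ := ((measure_mono (hWint.trans interior_subset)).trans_lt hK.measure_lt_top).ne
  have hWpos : 0 < (μ W).toReal := ENNReal.toReal_pos (hWopen.measure_pos μ hWne).ne' hWfin
  -- the shell
  have hshell : ∀ l : ℝ, 0 < l → l ≤ 1 / 2 → 2 * l * Dm < ε / 2 →
      ENNReal.ofReal (l * (μ W).toReal) ≤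
      μ {x | x ∈ interior K ∧ dist x p < ε ∧ Metric.infDist x (frontier K) ≤ 2 * l * Dm} := by
    intro l hl hl2 hlε
    have h1l : 0 < 1 - l := by linarith
    have hscale : (1 - l) • W = C ∩ {v | g v < 1 - l} := by
      ext v
      rw [mem_smul_set_iff_inv_smul_mem₀ h1l.ne']
      constructor
      · rintro ⟨h1, h2⟩
        refine ⟨(hCcone _ (by positivity) v).1 h1, ?_⟩
        simp only [mem_ofPred_eq] at h2 ⊢
        rw [hgsmul _ (by positivity), inv_mul_lt_iff₀ h1l, mul_one] at h2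
        exact h2
      · rintro ⟨h1, h2⟩
        refine ⟨(hCcone _ (by positivity) v).2 h1, ?_⟩
        simp only [mem_ofPred_eq] at h2 ⊢
        rw [hgsmul _ (by positivity), inv_mul_lt_iff₀ h1l, mul_one]
        exact h2
    have hsub : W \ ((1 - l) • W) ⊆
        {x | x ∈ interior K ∧ dist x p < ε ∧ Metric.infDist x (frontier K) ≤ 2 * l * Dm} := by
      rintro v ⟨hvW, hv⟩
      rw [hscale] at hv
      have hgv1 : g v < 1 := hvW.2
      have hgvl : 1 - l ≤ g v := by
        by_contra hcon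
        push Not at hcon
        exact hv ⟨hvW.1, hcon⟩
      have hgv0 : 0 < g v := by linarith
      have hvK : v ∈ K := interior_subset (hWint hvW)
      obtain ⟨b, hb⟩ : ∃ b, b = (1 / g v) • v := ⟨_, rfl⟩
      have hbf : b ∈ frontier K := by
        rw [← gauge_eq_one_iff_mem_frontier hconv hnhds, ← hg, hb, hgsmul _ (by positivity)]
        field_simp
      have hdist : dist v b ≤ 2 * l * Dm := by
        rw [hb, dist_comm, dist_eq_norm]
        have : (1 / g v) • v - v = (1 / g v - 1) • v := by rw [sub_smul, one_smul]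
        rw [this, norm_smul, Real.norm_eq_abs]
        have h3 : 0 ≤ 1 / g v - 1 := by
          rw [sub_nonneg, le_div_iff₀ hgv0]; linarith
        rw [abs_of_nonneg h3]
        have h4 : 1 / g v - 1 ≤ 2 * l := by
          rw [sub_le_iff_le_add, div_le_iff₀ hgv0]
          nlinarith
        exact mul_le_mul h4 (hDm v hvK) (norm_nonneg _) (by positivity)
      refine ⟨hWint hvW, ?_, ?_⟩
      · have hbp : dist b p < ε / 2 := by rw [hb]; exact hvW.1.2
        calc dist v p ≤ dist v b + dist b p := dist_triangle _ _ _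
          _ < ε / 2 + ε / 2 := by linarith
          _ = ε := by ring
      · exact (Metric.infDist_le_dist_of_mem hbf).trans hdist
    refine le_trans ?_ (measure_mono hsub)
    have hsubW : (1 - l) • W ⊆ W := by
      rw [hscale]
      rintro v ⟨h1, h2⟩
      refine ⟨h1, ?_⟩
      simp only [mem_ofPred_eq] at h2 ⊢
      linarith
    have hmeas : μ ((1 - l) • W) = ENNReal.ofReal ((1 - l) ^ finrank ℝ E) * μ W := by
      rw [Measure.addHaar_smul, abs_of_nonneg (by positivity)]
    have hWl : MeasurableSet ((1 - l) • W) := (hWopen.smul₀ h1l.ne').measurableSet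
    have hfin2 : μ ((1 - l) • W) ≠ ⊤ := ((measure_mono hsubW).trans_lt (lt_top_iff_ne_top.2 hWfin)).ne
    rw [measure_sdiff hsubW hWl.nullMeasurableSet hfin2, hmeas]
    have e1 : μ W - ENNReal.ofReal ((1 - l) ^ finrank ℝ E) * μ W = ENNReal.ofReal (1 - (1 - l) ^ finrank ℝ E) * μ W := by
      rw [ENNReal.ofReal_sub _ (by positivity), ENNReal.ofReal_one, ENNReal.sub_mul (fun _ _ => hWfin), one_mul]
    rw [e1, ENNReal.ofReal_mul hl.le, ENNReal.ofReal_toReal hWfin]
    gcongr
    have : (1 - l) ^ finrank ℝ E ≤ 1 - l := by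
      calc (1 - l) ^ finrank ℝ E ≤ (1 - l) ^ 1 := pow_le_pow_of_le_one h1l.le (by linarith) hk
        _ = 1 - l := pow_one _
    linarith
  -- conclusion
  obtain ⟨l₀, hl₀⟩ : ∃ l₀, l₀ = min (1 / 2) (ε / (8 * Dm)) := ⟨_, rfl⟩
  have hl₀pos : 0 < l₀ := by rw [hl₀]; exact lt_min (by norm_num) (by positivity)
  have hl₀ε : 2 * l₀ * Dm < ε / 2 := by
    have : l₀ ≤ ε / (8 * Dm) := by rw [hl₀]; exact min_le_right _ _
    calc 2 * l₀ * Dm ≤ 2 * (ε / (8 * Dm)) * Dm := by gcongr
      _ = ε / 4 := by field_simp; ring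
      _ < ε / 2 := by linarith
  have hl₀2 : l₀ ≤ 1 / 2 := by rw [hl₀]; exact min_le_left _ _
  obtain ⟨l₁, hl₁⟩ : ∃ l₁, l₁ = min l₀ (1 / (2 * Dm)) := ⟨_, rfl⟩
  have hl₁pos : 0 < l₁ := by rw [hl₁]; exact lt_min hl₀pos (by positivity)
  refine ⟨l₁ * (μ W).toReal, by positivity, fun τ hτ => ?_⟩
  obtain ⟨l, hl⟩ : ∃ l, l = l₁ * min 1 τ := ⟨_, rfl⟩
  have hm1 : min 1 τ ≤ 1 := min_le_left _ _
  have hmτ : min 1 τ ≤ τ := min_le_right _ _
  have hm0 : 0 < min 1 τ := lt_min one_pos hτ
  have hlpos : 0 < l := by rw [hl]; positivity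
  have hll₀ : l ≤ l₀ := by
    rw [hl]
    calc l₁ * min 1 τ ≤ l₀ * 1 := by
          apply mul_le_mul _ hm1 hm0.le hl₀pos.le
          rw [hl₁]; exact min_le_left _ _
      _ = l₀ := mul_one _
  have hlτ : 2 * l * Dm ≤ τ := by
    have h5 : l₁ ≤ 1 / (2 * Dm) := by rw [hl₁]; exact min_le_right _ _
    rw [hl]
    calc 2 * (l₁ * min 1 τ) * Dm ≤ 2 * (1 / (2 * Dm) * τ) * Dm := by gcongr
      _ = τ := by field_simp
  have h6 := hshell l hlpos (hll₀.trans hl₀2) (lt_of_le_of_lt (by gcongr) hl₀ε)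
  calc ENNReal.ofReal (l₁ * (μ W).toReal * min 1 τ) = ENNReal.ofReal (l * (μ W).toReal) := by
        rw [hl]; congr 1; ring
    _ ≤ _ := h6
    _ ≤ _ := by
      apply measure_mono
      rintro x ⟨h1, h2, h3⟩
      exact ⟨h1, h2, h3.trans hlτ⟩

/-- Shell estimate. -/
theorem shell {K : Set E} (hK : IsCompact K) (hconv : Convex ℝ K) (hint : (interior K).Nonempty)
    (hk : 0 < finrank ℝ E) {p : E} (hp : p ∈ frontier K) {ε : ℝ} (hε : 0 < ε) :
    ∃ c > 0, ∀ τ : ℝ, 0 < τ → ENNReal.ofReal (c * min 1 τ) ≤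
      μ {x | x ∈ interior K ∧ dist x p < ε ∧ Metric.infDist x (frontier K) ≤ τ} := by
  obtain ⟨x₀, hx₀⟩ := hint
  let e : E ≃ₜ E := Homeomorph.addRight (-x₀)
  let K' : Set E := e '' K
  have heint : interior K' = e '' interior K := (e.image_interior K).symm
  have hefr : frontier K' = e '' frontier K := (e.image_frontier K).symm
  have he : ∀ y, e y = y - x₀ := fun y => by simp [e, sub_eq_add_neg]
  have hiso : Isometry e := by
    apply Isometry.of_dist_eq
    intro a b
    rw [he, he, dist_sub_right]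
  have hK' : IsCompact K' := hK.image e.continuous
  have hconv' : Convex ℝ K' := by
    have : K' = (fun y => -x₀ + y) '' K := by
      ext y
      constructor
      · rintro ⟨z, hz, rfl⟩
        refine ⟨z, hz, ?_⟩
        simp only
        rw [he]; abel_nf
      · rintro ⟨z, hz, rfl⟩
        refine ⟨z, hz, ?_⟩
        rw [he]; abel_nf
    rw [this]
    exact hconv.translate (-x₀)
  have h0 : (0:E) ∈ interior K' := by
    rw [heint]
    exact ⟨x₀, hx₀, by rw [he]; simp⟩
  have hp' : e p ∈ frontier K' := by rw [hefr]; exact ⟨p, hp, rfl⟩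
  obtain ⟨c, hc, h⟩ := shell_zero μ hK' hconv' h0 hk hp' hε
  refine ⟨c, hc, fun τ hτ => (h τ hτ).trans (le_of_eq ?_)⟩
  have hset : {x | x ∈ interior K ∧ dist x p < ε ∧ Metric.infDist x (frontier K) ≤ τ} =
      (fun y => y + (-x₀)) ⁻¹' {x | x ∈ interior K' ∧ dist x (e p) < ε ∧ Metric.infDist x (frontier K') ≤ τ} := by
    ext y
    have hy : y + (-x₀) = e y := rfl
    simp only [mem_preimage, mem_ofPred_eq]
    rw [hy, heint, hefr]
    rw [hiso.dist_eq, Metric.infDist_image hiso]
    rw [e.injective.mem_set_image]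
  rw [hset, measure_preimage_add_right]

end gen

end Pool.Agent.Lib_helper31.RP
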