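import Pool.Agent.Lib_helper31.RPUpper

open MeasureTheory Set ProbabilityTheory Module
open scoped ENNReal Topology Pointwise

namespace Pool.Agent.Lib_helper31.RP

variable {E : Type*} [NormedAddCommGroup E] [NormedSpace ℝ E] [FiniteDimensional ℝ E]
variable {ι : Type*} [Fintype ι]
variable [MeasurableSpace E] [BorelSpace E] (μ : Measure E) [μ.IsAddHaarMeasure]

/-- the upper integral -/
noncomputable def upInt (K : Set E) (a : ℝ) (n : ℕ) : ℝ≥0∞ :=
  ∫⁻ x in K, ENNReal.ofReal (Real.exp (-(a * qv μ K x * n))) ∂μ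

theorem qv_measurable {K : Set E} (hK : IsClosed K) : Measurable (fun x => qv μ K x) := by
  unfold qv
  exact ((mac_meas μ K hK).ennreal_toReal).div_const _

theorem deficit_le {K : Set E} (hK : IsCompact K) (hconv : Convex ℝ K) (h0 : μ K ≠ 0)
    (hD : 0 < finrank ℝ E) (n : ℕ) :
    ∫⁻ x in K, missP μ (Fin n) K x ∂μ ≤
      ENNReal.ofReal (2 ^ finrank ℝ E) * upInt μ K (cD (finrank ℝ E) / 2) n := by
  unfold upInt
  have hq := qv_measurable μ hK.isClosed
  rw [← lintegral_const_mul _ (by fun_prop)]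
  apply lintegral_mono
  intro x
  have h1 : missP μ (Fin n) K x ≤ (Measure.pi fun _ : Fin n => cond μ K) {X | x ∉ interior (convexHull ℝ (range X))} := by
    unfold missP
    apply measure_mono
    intro X hX hint
    exact hX (interior_subset hint)
  refine (h1.trans (prob_not_interior_exp μ hK hconv h0 hD x)).trans ?_
  simp only
  rw [← ENNReal.ofReal_mul (by positivity)]
  apply ENNReal.ofReal_le_ofReal
  apply mul_le_mul_of_nonneg_left _ (by positivity)
  apply Real.exp_le_exp.2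
  have := cD_pos hD
  have h2 := qv_nonneg μ K x
  simp only [Fintype.card_fin]
  have h3 : 0 ≤ cD (finrank ℝ E) * qv μ K x * n := by positivity
  nlinarith

theorem faces_le' {K : Set E} (hK : IsCompact K) (hconv : Convex ℝ K) (h0 : μ K ≠ 0)
    (n : ℕ) {j : ℕ} (hj : j < finrank ℝ E) :
    ∫⁻ X : Fin n → E, (faceCount (convexHull ℝ (range X)) j : ℝ≥0∞)
        ∂(Measure.pi fun _ : Fin n => cond μ K) ≤
      ENNReal.ofReal (upC (finrank ℝ E) j) * ((μ K)⁻¹ * (n * upInt μ K (cD (finrank ℝ E) / 2) n)) := by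
  refine (faces_le μ hK hconv h0 n hj).trans (le_of_eq ?_)
  unfold upInt
  have hq := qv_measurable μ hK.isClosed
  congr 2
  rw [← lintegral_const_mul _ (by fun_prop)]
  apply lintegral_congr
  intro x
  rw [ENNReal.ofReal_mul (by positivity), ENNReal.ofReal_natCast]

/-- Summary: bounds of the volume deficit and of the expected face numbers of a convex body in
terms of the set `LowSet` (from below) and of `upInt` (from above). -/
theorem summary_deficit {K : Set E} (hK : IsCompact K) (hconv : Convex ℝ K) (h0 : μ K ≠ 0)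
    (hD : 0 < finrank ℝ E) {n : ℕ} (hn : 2 ≤ n) {S : Set E} (hS : S ⊆ LowSet μ K n) :
    ENNReal.ofReal (Real.exp (-2)) * μ S ≤
      μ K - ∫⁻ X : Fin n → E, μ (convexHull ℝ (range X)) ∂(Measure.pi fun _ : Fin n => cond μ K) ∧
    μ K - ∫⁻ X : Fin n → E, μ (convexHull ℝ (range X)) ∂(Measure.pi fun _ : Fin n => cond μ K) ≤
      ENNReal.ofReal (2 ^ finrank ℝ E) * upInt μ K (cD (finrank ℝ E) / 2) n := by
  have hfinK : μ K ≠ ⊤ := hK.measure_lt_top.ne
  have h1 := expVol_add (ι := Fin n) μ hK hconv h0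
  have h2 : ∫⁻ X : Fin n → E, μ (convexHull ℝ (range X)) ∂(Measure.pi fun _ : Fin n => cond μ K) ≠ ⊤ := by
    intro h
    rw [h, top_add] at h1
    exact hfinK h1.symm
  have h3 : μ K - ∫⁻ X : Fin n → E, μ (convexHull ℝ (range X)) ∂(Measure.pi fun _ : Fin n => cond μ K) =
      ∫⁻ x in K, missP μ (Fin n) K x ∂μ := by
    rw [← h1]
    exact ENNReal.add_sub_cancel_left h2
  rw [h3]
  refine ⟨?_, deficit_le μ hK hconv h0 hD n⟩
  exact deficit_ge (ι := Fin n) μ hK h0 (by simpa using hn) (by simpa using hS)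

theorem summary_faces {K : Set E} (hK : IsCompact K) (h0 : μ K ≠ 0)
    {n : ℕ} (hn : 2 ≤ n) (hn' : finrank ℝ E ≤ n) {j : ℕ} (hj : j < finrank ℝ E)
    {S : Set E} (hS : S ⊆ LowSet μ K n) :
    (n + 1 : ℝ≥0∞) * ((μ K)⁻¹ * (ENNReal.ofReal (Real.exp (-2)) * μ S)) ≤
      (j + 1) * ∫⁻ X : Fin (n + 1) → E, (faceCount (convexHull ℝ (range X)) j : ℝ≥0∞)
        ∂(Measure.pi fun _ : Fin (n + 1) => cond μ K) := by
  refine le_trans ?_ (faces_ge μ hK h0 hn' hj)
  gcongr
  rw [ProbabilityTheory.cond, lintegral_smul_measure, smul_eq_mul]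
  gcongr
  exact deficit_ge (ι := Fin n) μ hK h0 (by simpa using hn) (by simpa using hS)

end Pool.Agent.Lib_helper31.RP
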