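import Pool.Agent.Lib_helper31.RPDudley
import Pool.Agent.Lib_helper31.RPSummary
import Pool.Agent.Lib_helper31.RPModel

open MeasureTheory Set Module
open scoped ENNReal NNReal Topology Pointwise RealInnerProductSpace

namespace Pool.Agent.Lib_helper31.RP

section general
variable {E : Type*} [NormedAddCommGroup E] [NormedSpace ℝ E] [FiniteDimensional ℝ E]
variable [MeasurableSpace E] [BorelSpace E] (μ : Measure E) [μ.IsAddHaarMeasure]

theorem parallel_volume {T : Set E} (hconv : Convex ℝ T) (hTc : IsCompact T) (x₀ : E) {r : ℝ} (hr : 0 < r)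
    (hball : Metric.closedBall x₀ r ⊆ T) {η : ℝ} (hη : 0 ≤ η) (hη1 : η ≤ 1) :
    μ ({y | ∃ t ∈ T, dist y t ≤ η} \ T) ≤
      ENNReal.ofReal (finrank ℝ E * (η / r) * (1 + 1 / r) ^ (finrank ℝ E - 1)) * μ T := by
  set k := finrank ℝ E with hk
  have hTfin : μ T ≠ ⊤ := hTc.measure_lt_top.ne
  set h := AffineMap.homothety x₀ (1 + η / r) with hh
  have hηr : 0 ≤ η / r := by positivity
  have hsub : {y | ∃ t ∈ T, dist y t ≤ η} ⊆ h '' T := by
    rintro y ⟨t, ht, hyt⟩
    -- y = x₀ + (1 + η/r) (y' - x₀)
    refine ⟨x₀ + (1 / (1 + η / r)) • (y - x₀), ?_, ?_⟩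
    · -- convex combination
      rcases eq_or_lt_of_le hη with h0 | h0
      · have : y = t := by
          rw [← h0] at hyt
          exact dist_le_zero.1 hyt
        rw [← h0, this]
        simpa using ht
      · have hb : x₀ + (r / η) • (y - t) ∈ T := by
          apply hball
          rw [Metric.mem_closedBall, dist_eq_norm, add_sub_cancel_left, norm_smul, Real.norm_eq_abs,
            abs_of_pos (by positivity)]
          rw [dist_eq_norm] at hyt
          calc r / η * ‖y - t‖ ≤ r / η * η := by gcongr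
            _ = r := by field_simp
        have := hconv ht hb (a := 1 / (1 + η / r)) (b := (η / r) / (1 + η / r)) (by positivity) (by positivity)
          (by field_simp)
        convert this using 1
        have e1 : (η / r / (1 + η / r)) • (x₀ + (r / η) • (y - t)) =
            (η / r / (1 + η / r)) • x₀ + (1 / (1 + η / r)) • (y - t) := by
          rw [smul_add, smul_smul]
          congr 2
          field_simp
        rw [e1]
        have e2 : x₀ = (1 / (1 + η / r)) • x₀ + (η / r / (1 + η / r)) • x₀ := by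
          rw [← add_smul]
          have : 1 / (1 + η / r) + η / r / (1 + η / r) = 1 := by field_simp
          rw [this, one_smul]
        nth_rewrite 1 [e2]
        rw [smul_sub, smul_sub]
        abel
    · rw [hh, AffineMap.homothety_apply, vsub_eq_sub, vadd_eq_add, add_sub_cancel_left, smul_smul,
        mul_one_div_cancel (by positivity), one_smul]
      abel
  have hTsub : T ⊆ h '' T := by
    intro t ht
    exact hsub ⟨t, ht, by rw [dist_self]; exact hη⟩
  calc μ ({y | ∃ t ∈ T, dist y t ≤ η} \ T) ≤ μ ((h '' T) \ T) := measure_mono (sdiff_subset_sdiff_left hsub)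
    _ = μ (h '' T) - μ T := measure_sdiff hTsub hTc.measurableSet.nullMeasurableSet hTfin
    _ = ENNReal.ofReal ((1 + η / r) ^ k) * μ T - μ T := by
        rw [hh, Measure.addHaar_image_homothety, abs_of_nonneg (by positivity)]
    _ = ENNReal.ofReal ((1 + η / r) ^ k - 1) * μ T := by
        rw [ENNReal.ofReal_sub _ zero_le_one, ENNReal.ofReal_one, ENNReal.sub_mul (fun _ _ => hTfin), one_mul]
    _ ≤ _ := by
        gcongr
        have h1 := pow_sub_le k (a := 1 + η / r) (b := 1) zero_le_one (by linarith)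
        rw [one_pow] at h1
        refine h1.trans ?_
        have h2 : (1 + η / r) ^ (k - 1) ≤ (1 + 1 / r) ^ (k - 1) := by
          apply pow_le_pow_left₀ (by positivity)
          gcongr
        calc (k:ℝ) * (1 + η / r - 1) * (1 + η / r) ^ (k - 1) = k * (η / r) * (1 + η / r) ^ (k - 1) := by ring
          _ ≤ _ := by gcongr

theorem midpoint_measure {K A : Set E} (hK : IsCompact K) (hA : MeasurableSet A) :
    (μ.prod μ) {p : E × E | p.1 ∈ K ∧ p.2 ∈ K ∧ (1 / 2 : ℝ) • (p.1 + p.2) ∈ A} =
      ENNReal.ofReal (2 ^ finrank ℝ E) * ∫⁻ x in A, μ (mac K x) ∂μ := by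
  have hKm := hK.measurableSet
  have hS : MeasurableSet {p : E × E | p.1 ∈ K ∧ p.2 ∈ K ∧ (1 / 2 : ℝ) • (p.1 + p.2) ∈ A} := by
    apply (measurable_fst hKm).inter
    apply (measurable_snd hKm).inter
    have : Measurable (fun p : E × E => (1 / 2 : ℝ) • (p.1 + p.2)) := by fun_prop
    exact this hA
  rw [Measure.prod_apply hS]
  have hslice : ∀ a, Prod.mk a ⁻¹' {p : E × E | p.1 ∈ K ∧ p.2 ∈ K ∧ (1 / 2 : ℝ) • (p.1 + p.2) ∈ A} =
      {b | a ∈ K ∧ b ∈ K ∧ (1 / 2 : ℝ) • (a + b) ∈ A} := fun a => rfl
  have h1 : ∀ a, μ (Prod.mk a ⁻¹' {p : E × E | p.1 ∈ K ∧ p.2 ∈ K ∧ (1 / 2 : ℝ) • (p.1 + p.2) ∈ A}) =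
      ENNReal.ofReal (2 ^ finrank ℝ E) * ∫⁻ x, A.indicator 1 x * (K.indicator 1 a * K.indicator 1 ((2:ℝ) • x - a)) ∂μ := by
    intro a
    have hm : MeasurableSet {b | a ∈ K ∧ b ∈ K ∧ (1 / 2 : ℝ) • (a + b) ∈ A} := by
      have := measurable_prodMk_left (x := a) hS
      exact this
    rw [hslice, ← lintegral_indicator_one hm, lintegral_subst μ _ (measurable_one.indicator hm) 2 (by norm_num) a]
    congr 1
    apply lintegral_congr
    intro x
    have h2 : (1 / 2 : ℝ) • (a + ((2:ℝ) • x - a)) = x := by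
      rw [add_sub_cancel, smul_smul]; norm_num
    simp only [indicator, mem_ofPred_eq, h2, Pi.one_apply]
    by_cases hx : x ∈ A <;> by_cases ha : a ∈ K <;> by_cases hb : (2:ℝ) • x - a ∈ K <;> simp [hx, ha, hb]
  simp only [h1]
  have hmeas : Measurable (fun p : E × E => A.indicator (1 : E → ℝ≥0∞) p.2 * (K.indicator 1 p.1 * K.indicator 1 ((2:ℝ) • p.2 - p.1))) := by
    apply ((measurable_one.indicator hA).comp measurable_snd).mul
    apply ((measurable_one.indicator hKm).comp measurable_fst).mul
    exact (measurable_one.indicator hKm).comp (by fun_prop)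
  rw [lintegral_const_mul _ hmeas.lintegral_prod_right']
  congr 1
  rw [lintegral_lintegral_swap hmeas.aemeasurable, ← lintegral_indicator hA]
  apply lintegral_congr
  intro x
  have hm2 : Measurable (fun a => K.indicator (1 : E → ℝ≥0∞) a * K.indicator (1 : E → ℝ≥0∞) ((2:ℝ) • x - a)) :=
    (measurable_one.indicator hKm).mul ((measurable_one.indicator hKm).comp (by fun_prop))
  simp only
  rw [lintegral_const_mul _ hm2]
  have h3 : ∫⁻ a, K.indicator (1 : E → ℝ≥0∞) a * K.indicator (1 : E → ℝ≥0∞) ((2:ℝ) • x - a) ∂μ = μ (mac K x) := by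
    have h4 : (fun a => K.indicator (1 : E → ℝ≥0∞) a * K.indicator (1 : E → ℝ≥0∞) ((2:ℝ) • x - a)) =
        ((fun a => a - x) ⁻¹' mac K x).indicator 1 := by
      ext a
      have h5 : a ∈ (fun a => a - x) ⁻¹' mac K x ↔ a ∈ K ∧ (2:ℝ) • x - a ∈ K := by
        simp only [mem_preimage, mac, mem_ofPred_eq]
        have e1 : x + (a - x) = a := by abel
        have e2 : x - (a - x) = (2:ℝ) • x - a := by rw [two_smul]; abel
        rw [e1, e2]
      by_cases ha : a ∈ K <;> by_cases hb : (2:ℝ) • x - a ∈ K <;> simp [indicator, ha, hb, h5]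
    have hmm : MeasurableSet ((fun a => a - x) ⁻¹' mac K x) :=
      (mac_closed hK.isClosed x).measurableSet.preimage (by fun_prop)
    rw [h4, lintegral_indicator_one hmm]
    simp only [sub_eq_add_neg]
    exact measure_preimage_add_right μ (-x) _
  rw [h3]
  by_cases hx : x ∈ A <;> simp [indicator, hx]

/-- pairs lying in a common member of a finite family -/
theorem pairs_lower {α : Type*} [MeasurableSpace α] (ν : Measure α) [IsFiniteMeasure ν] {β : Type*}
    (Z : Finset β) (D : β → Set α) (hD : ∀ z, MeasurableSet (D z)) :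
    (ν (⋃ z ∈ Z, D z)) ^ 2 ≤ Z.card * (ν.prod ν) (⋃ z ∈ Z, (D z) ×ˢ (D z)) := by
  classical
  induction Z using Finset.induction_on with
  | empty => simp
  | insert z Z hz ih =>
    set U := ⋃ y ∈ Z, D y with hU
    set P := ⋃ y ∈ Z, (D y) ×ˢ (D y) with hP
    have hUm : MeasurableSet U := Finset.measurableSet_biUnion _ (fun y _ => hD y)
    have hPm : MeasurableSet P := Finset.measurableSet_biUnion _ (fun y _ => (hD y).prod (hD y))
    set A := D z \ U with hA
    have hAm : MeasurableSet A := (hD z).diff hUm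
    have e1 : (⋃ y ∈ insert z Z, D y) = U ∪ A := by
      rw [Finset.set_biUnion_insert, hA, union_sdiff_self, union_comm]
    have e2 : P ∪ A ×ˢ A ⊆ (⋃ y ∈ insert z Z, (D y) ×ˢ (D y)) := by
      rw [Finset.set_biUnion_insert, union_comm]
      apply union_subset_union_left
      exact prod_mono sdiff_subset sdiff_subset
    have hdisj : Disjoint P (A ×ˢ A) := by
      rw [Set.disjoint_left]
      rintro ⟨a, b⟩ hp ha
      simp only [hP, mem_iUnion, exists_prop, mem_prod] at hp
      obtain ⟨y, hy, hay, _⟩ := hp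
      apply ha.1.2
      rw [hU]
      simp only [mem_iUnion, exists_prop]
      exact ⟨y, hy, hay⟩
    have hUA : Disjoint U A := disjoint_sdiff_right
    rw [e1, measure_union hUA hAm, Finset.card_insert_of_notMem hz]
    clear_value A
    have h3 : (ν.prod ν) (P ∪ A ×ˢ A) = (ν.prod ν) P + ν A * ν A := by
      rw [measure_union hdisj (hAm.prod hAm), Measure.prod_prod]
    refine le_trans ?_ (mul_le_mul' le_rfl (measure_mono e2))
    rw [h3]
    -- now a real inequality
    have hx : ν U ≠ ⊤ := measure_ne_top _ _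
    have hy : ν A ≠ ⊤ := measure_ne_top _ _
    have hp : (ν.prod ν) P ≠ ⊤ := measure_ne_top _ _
    lift ν U to ℝ≥0 using hx with x
    lift ν A to ℝ≥0 using hy with y
    lift (ν.prod ν) P to ℝ≥0 using hp with p
    norm_cast at ih ⊢
    have ihr : (x:ℝ) ^ 2 ≤ Z.card * p := by exact_mod_cast ih
    rw [← NNReal.coe_le_coe]
    push_cast
    rcases Nat.eq_zero_or_pos Z.card with h0 | h0
    · rw [h0] at ihr ⊢
      have : (x:ℝ) = 0 := by
        have : (x:ℝ) ^ 2 ≤ 0 := by simpa using ihr
        nlinarith [sq_nonneg (x:ℝ)]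
      rw [this]
      have hp0 : (0:ℝ) ≤ p := p.coe_nonneg
      nlinarith
    · have hN : (0:ℝ) < Z.card := by exact_mod_cast h0
      have h4 : 2 * (x:ℝ) * y ≤ p + Z.card * y ^ 2 := by
        have h5 : (x:ℝ) ^ 2 / Z.card ≤ p := by
          rw [div_le_iff₀ hN]; linarith
        have h6 : 2 * (x:ℝ) * y ≤ x ^ 2 / Z.card + Z.card * y ^ 2 := by
          have h7 : (0:ℝ) ≤ ((x:ℝ) - Z.card * y) ^ 2 / Z.card := by positivity
          have h8 : ((x:ℝ) - Z.card * y) ^ 2 / Z.card = x ^ 2 / Z.card - 2 * x * y + Z.card * y ^ 2 := by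
            field_simp
            ring
          rw [h8] at h7
          linarith
        linarith
      nlinarith

/-- lower bound of `u` on the convex hull of a superlevel set -/
theorem mac_lower_on_hull {K : Set E} (hconv : Convex ℝ K) (s : ℝ≥0∞) {x : E}
    (hx : x ∈ convexHull ℝ {y | y ∈ K ∧ s < μ (mac K y)}) :
    ENNReal.ofReal ((1 / ((finrank ℝ E : ℝ) + 1)) ^ finrank ℝ E) * s ≤ μ (mac K x) := by
  obtain ⟨κ, _, z, w, hz, hind, hw, hw1, hsum⟩ := eq_pos_convex_span_of_mem_convexHull hx
  have hcard : Fintype.card κ ≤ finrank ℝ E + 1 := by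
    have := hind.card_le_finrank_succ
    have h2 := Submodule.finrank_le (vectorSpan ℝ (range z))
    omega
  have hκ : Nonempty κ := by
    by_contra hcon
    rw [not_nonempty_iff] at hcon
    simp at hw1
  -- a large weight
  obtain ⟨i, hi⟩ : ∃ i, 1 / ((finrank ℝ E : ℝ) + 1) ≤ w i := by
    by_contra hcon
    push Not at hcon
    have h1 : ∑ i, w i < ∑ _i : κ, 1 / ((finrank ℝ E : ℝ) + 1) :=
      Finset.sum_lt_sum_of_nonempty Finset.univ_nonempty (fun i _ => hcon i)
    rw [hw1] at h1
    simp only [Finset.sum_const, Finset.card_univ, nsmul_eq_mul] at h1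
    have h2 : (Fintype.card κ : ℝ) * (1 / ((finrank ℝ E : ℝ) + 1)) ≤ 1 := by
      rw [mul_one_div, div_le_one (by positivity)]
      exact_mod_cast hcard
    linarith
  have hzi : z i ∈ {y | y ∈ K ∧ s < μ (mac K y)} := hz (mem_range_self i)
  have hwi : 0 ≤ w i := (hw i).le
  have hsub : (w i) • mac K (z i) ⊆ mac K x := by
    classical
    rintro _ ⟨v, ⟨hv1, hv2⟩, rfl⟩
    have hstep : ∀ c : E, c ∈ K → x + (w i) • (c - z i) ∈ K := by
      intro c hc
      have h1 : x + (w i) • (c - z i) = ∑ j, w j • (if j = i then c else z j) := by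
        rw [← hsum]
        rw [← Finset.add_sum_erase Finset.univ _ (Finset.mem_univ i),
          ← Finset.add_sum_erase Finset.univ (fun j => w j • (if j = i then c else z j)) (Finset.mem_univ i)]
        have h2 : ∑ j ∈ Finset.univ.erase i, w j • (if j = i then c else z j) = ∑ j ∈ Finset.univ.erase i, w j • z j := by
          apply Finset.sum_congr rfl
          intro j hj
          rw [if_neg (Finset.ne_of_mem_erase hj)]
        rw [h2]
        simp only [if_true, smul_sub]
        abel
      rw [h1]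
      apply hconv.sum_mem (fun j _ => (hw j).le) hw1
      intro j _
      by_cases hj : j = i
      · simp only [hj, if_true]; exact hc
      · simp only [hj, if_false]; exact (hz (mem_range_self j)).1
    constructor
    · have := hstep _ hv1
      simpa using this
    · have := hstep _ hv2
      rw [show z i - v - z i = -v by abel, smul_neg, ← sub_eq_add_neg] at this
      exact this
  calc ENNReal.ofReal ((1 / ((finrank ℝ E : ℝ) + 1)) ^ finrank ℝ E) * s
      ≤ ENNReal.ofReal ((w i) ^ finrank ℝ E) * μ (mac K (z i)) := by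
        gcongr
        exact hzi.2.le
    _ = μ ((w i) • mac K (z i)) := by
        rw [Measure.addHaar_smul, abs_of_nonneg (by positivity)]
    _ ≤ μ (mac K x) := measure_mono hsub

end general

end Pool.Agent.Lib_helper31.RP
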