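import Pool.Agent.Lib_helper31.RPCentroid

open MeasureTheory Set ProbabilityTheory Module
open scoped ENNReal Topology Pointwise

namespace Pool.Agent.Lib_helper31.RP

variable {E : Type*} [NormedAddCommGroup E] [NormedSpace ℝ E] [FiniteDimensional ℝ E]
variable {ι : Type*} [Fintype ι]
variable [MeasurableSpace E] [BorelSpace E] (μ : Measure E) [μ.IsAddHaarMeasure]

theorem centroid_general {K : Set E} (hK : IsCompact K) (hconv : Convex ℝ K) (h0 : μ K ≠ 0) (j : ℕ)
    {κ : Type*} [Fintype κ] (hκ : Fintype.card κ = j + 1)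
    (φ : E → ℝ≥0∞) (hφ : Measurable φ) :
    ∫⁻ Y : κ → E, φ ((1 / ((j:ℝ) + 1)) • ∑ k, Y k) ∂(Measure.pi fun _ => cond μ K) ≤
      ENNReal.ofReal (((j:ℝ) + 1) ^ finrank ℝ E) * ((μ K)⁻¹ *
        ∫⁻ x in K, φ x * ((μ K)⁻¹ * (ENNReal.ofReal ((j:ℝ) ^ finrank ℝ E) * μ (mac K x))) ^ j ∂μ) := by
  refine le_trans (le_of_eq ?_) (centroid_fin μ hK hconv h0 j φ hφ)
  have hP : IsProbabilityMeasure (cond μ K) := cond_isProbabilityMeasure_of_finite h0 hK.measure_lt_top.ne
  let e : Fin (j + 1) ≃ κ := (Fintype.equivFinOfCardEq hκ).symm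
  have hmp := measurePreserving_piCongrLeft (fun _ : κ => cond μ K) e
  have hmeas : Measurable (fun Y : κ → E => φ ((1 / ((j:ℝ) + 1)) • ∑ k, Y k)) := by fun_prop
  rw [← hmp.lintegral_comp hmeas]
  apply lintegral_congr
  intro Y
  congr 2
  rw [← e.sum_comp]
  apply Finset.sum_congr rfl
  intro i _
  exact MeasurableEquiv.piCongrLeft_apply_apply (β := fun _ : κ => E) e Y i

/-- event attached to the index set `I` -/
def badEvent (j : ℕ) (I : Finset ι) : Set (ι → E) :=
  {X | (1 / ((j:ℝ) + 1)) • ∑ i : {i // i ∈ I}, X i ∉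
    interior (convexHull ℝ (range (fun i : {i // i ∉ I} => X i)))}

theorem meas_badEvent (hD : 0 < finrank ℝ E) (j : ℕ) (I : Finset ι) :
    MeasurableSet (badEvent (E := E) j I) := by
  have h := (closed_not_interior (E := E) (ι := {i // i ∉ I}) hD).measurableSet
  have hm : Measurable (fun X : ι → E => ((1 / ((j:ℝ) + 1)) • ∑ i : {i // i ∈ I}, X i,
      fun i : {i // i ∉ I} => X i)) := by fun_prop
  exact hm h

theorem prob_badEvent [DecidableEq ι] {K : Set E} (hK : IsCompact K) (hconv : Convex ℝ K) (h0 : μ K ≠ 0)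
    (hD : 0 < finrank ℝ E) {j : ℕ} {I : Finset ι} (hI : I.card = j + 1) :
    (Measure.pi fun _ : ι => cond μ K) (badEvent j I) ≤
      ENNReal.ofReal (((j:ℝ) + 1) ^ finrank ℝ E) * ((μ K)⁻¹ *
        ∫⁻ x in K, ENNReal.ofReal (2 ^ finrank ℝ E *
          Real.exp (-(cD (finrank ℝ E) * qv μ K x * ((Fintype.card ι - (j + 1) : ℕ) : ℝ)))) *
            ((μ K)⁻¹ * (ENNReal.ofReal ((j:ℝ) ^ finrank ℝ E) * μ (mac K x))) ^ j ∂μ) := by
  have hP : IsProbabilityMeasure (cond μ K) := cond_isProbabilityMeasure_of_finite h0 hK.measure_lt_top.ne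
  have hmp := measurePreserving_piEquivPiSubtypeProd (fun _ : ι => cond μ K) (fun i => i ∈ I)
  set A : Set (({i // i ∈ I} → E) × ({i // i ∉ I} → E)) :=
    {p | (1 / ((j:ℝ) + 1)) • ∑ i, p.1 i ∉ interior (convexHull ℝ (range p.2))} with hA
  have hAm : MeasurableSet A := by
    have h := (closed_not_interior (E := E) (ι := {i // i ∉ I}) hD).measurableSet
    have hm : Measurable (fun p : ({i // i ∈ I} → E) × ({i // i ∉ I} → E) =>
      ((1 / ((j:ℝ) + 1)) • ∑ i, p.1 i, p.2)) := by fun_prop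
    exact hm h
  have h1 : badEvent j I = (MeasurableEquiv.piEquivPiSubtypeProd (fun _ => E) (fun i => i ∈ I)) ⁻¹' A := rfl
  rw [h1, hmp.measure_preimage hAm.nullMeasurableSet, Measure.prod_apply hAm]
  have hcard : Fintype.card {i // i ∉ I} = Fintype.card ι - (j + 1) := by
    rw [Fintype.card_subtype_compl]
    simp [hI]
  have hq : Measurable (fun x => qv μ K x) := by
    unfold qv
    exact ((mac_meas μ K hK.isClosed).ennreal_toReal).div_const _
  have e1 : (Subtype.fintype (fun i => i ∈ I) : Fintype {i // i ∈ I}) = Finset.Subtype.fintype I :=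
    Subsingleton.elim _ _
  have hc1 : @Fintype.card {i // i ∈ I} (Finset.Subtype.fintype I) = j + 1 := by
    rw [Fintype.card_coe]; exact hI
  rw [e1]
  refine le_trans ?_ (@centroid_general E _ _ _ _ _ μ _ K hK hconv h0 j {i // i ∈ I}
    (Finset.Subtype.fintype I) hc1 (fun x => ENNReal.ofReal (2 ^ finrank ℝ E *
          Real.exp (-(cD (finrank ℝ E) * qv μ K x * ((Fintype.card ι - (j + 1) : ℕ) : ℝ))))) ?_)
  · apply lintegral_mono
    intro Y
    have key : ∀ (inst : Fintype {i // i ∉ I}),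
        (@Measure.pi {i // i ∉ I} (fun _ => E) inst _ fun _ => cond μ K)
          {X | (1 / ((j:ℝ) + 1)) • ∑ i, Y i ∉ interior (convexHull ℝ (range X))} ≤
        ENNReal.ofReal (2 ^ finrank ℝ E * Real.exp (-(cD (finrank ℝ E) *
          qv μ K ((1 / ((j:ℝ) + 1)) • ∑ i, Y i) * ((Fintype.card ι - (j + 1) : ℕ) : ℝ)))) := by
      intro inst
      have h2 := @prob_not_interior_exp E _ _ _ _ _ μ _ {i // i ∉ I} inst K hK hconv h0 hD
        ((1 / ((j:ℝ) + 1)) • ∑ i, Y i)
      have hcard' : @Fintype.card _ inst = Fintype.card ι - (j + 1) := by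
        rw [← hcard]
        exact congrArg (fun i => @Fintype.card {i // i ∉ I} i) (Subsingleton.elim _ _)
      rw [hcard'] at h2
      exact h2
    exact key _
  · fun_prop

open Classical in
omit [MeasurableSpace E] [BorelSpace E] in
theorem faceCount_le_sum (X : ι → E) {j : ℕ} (hj : j < finrank ℝ E) :
    (faceCount (convexHull ℝ (range X)) j : ℝ≥0∞) ≤
      ∑ I ∈ Finset.univ.filter (fun I : Finset ι => I.card = j + 1), (badEvent j I).indicator 1 X := by
  have h1 := faceCount_le X hj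
  have h2 : (Finset.univ.filter (fun I : Finset ι => I.card = j + 1 ∧
        cen X I ∉ interior (convexHull ℝ (range X)))).card ≤
      ((Finset.univ.filter (fun I : Finset ι => I.card = j + 1)).filter (fun I => X ∈ badEvent j I)).card := by
    apply Finset.card_le_card
    intro I hI
    simp only [Finset.mem_filter, Finset.mem_univ, true_and] at hI ⊢
    refine ⟨hI.1, ?_⟩
    simp only [badEvent, mem_ofPred_eq]
    intro hmem
    apply hI.2
    have hcen : cen X I = (1 / ((j:ℝ) + 1)) • ∑ i : {i // i ∈ I}, X i := by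
      unfold cen
      rw [hI.1, ← Finset.sum_coe_sort I]
      push_cast
      rfl
    rw [hcen]
    apply interior_mono _ hmem
    apply convexHull_mono
    rintro _ ⟨i, rfl⟩
    exact ⟨i, rfl⟩
  have h3 : ∑ I ∈ Finset.univ.filter (fun I : Finset ι => I.card = j + 1),
      (badEvent j I).indicator (1 : (ι → E) → ℝ≥0∞) X =
      (((Finset.univ.filter (fun I : Finset ι => I.card = j + 1)).filter (fun I => X ∈ badEvent j I)).card : ℝ≥0∞) := by
    rw [Finset.card_filter]
    push_cast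
    apply Finset.sum_congr rfl
    intro k _
    simp only [indicator, Pi.one_apply]
  rw [h3]
  exact_mod_cast h1.trans h2

/-- the real inequality behind the upper bound -/
theorem real_ineq (c : ℝ) (hc : 0 < c) (j n : ℕ) (q : ℝ) (hq0 : 0 ≤ q) (hq1 : q ≤ 1) :
    (n:ℝ) ^ (j + 1) * (Real.exp (-(c * q * ((n - (j + 1) : ℕ) : ℝ))) * q ^ j) ≤
      (Real.exp (c * (j + 1)) * ((j.factorial : ℝ) * (2 / c) ^ j)) * (n * Real.exp (-(c / 2 * q * n))) := by
  have h1 : Real.exp (-(c * q * ((n - (j + 1) : ℕ) : ℝ))) ≤ Real.exp (c * (j + 1)) * Real.exp (-(c * q * n)) := by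
    rw [← Real.exp_add]
    apply Real.exp_le_exp.2
    have h2 : (n:ℝ) - (j + 1) ≤ ((n - (j + 1) : ℕ) : ℝ) := by
      have : n ≤ (n - (j + 1)) + (j + 1) := by omega
      have h3 : (n:ℝ) ≤ ((n - (j + 1) : ℕ) : ℝ) + ((j + 1 : ℕ) : ℝ) := by exact_mod_cast this
      push_cast at h3
      linarith
    have h4 : c * q * ((n:ℝ) - (j + 1)) ≤ c * q * ((n - (j + 1) : ℕ) : ℝ) :=
      mul_le_mul_of_nonneg_left h2 (by positivity)
    have h5 : c * q * (j + 1) ≤ c * (j + 1) := by
      have : (0:ℝ) ≤ c * (j + 1) := by positivity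
      nlinarith
    linarith
  have h6 : ((n:ℝ) * q) ^ j * Real.exp (-(c / 2 * q * n)) ≤ (j.factorial : ℝ) * (2 / c) ^ j := by
    have h7 := Real.pow_div_factorial_le_exp (x := c / 2 * q * n) (by positivity) j
    rw [Real.exp_neg]
    rw [div_le_iff₀ (by positivity)] at h7
    rw [mul_inv_le_iff₀ (Real.exp_pos _)]
    have h8 : ((n:ℝ) * q) ^ j = (2 / c) ^ j * (c / 2 * q * n) ^ j := by
      rw [← mul_pow]
      congr 1
      field_simp
    rw [h8]
    calc (2 / c) ^ j * (c / 2 * q * n) ^ j ≤ (2 / c) ^ j * (Real.exp (c / 2 * q * n) * (j.factorial : ℝ)) := by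
          gcongr
      _ = _ := by ring
  have h9 : Real.exp (-(c * q * n)) = Real.exp (-(c / 2 * q * n)) * Real.exp (-(c / 2 * q * n)) := by
    rw [← Real.exp_add]; congr 1; ring
  calc (n:ℝ) ^ (j + 1) * (Real.exp (-(c * q * ((n - (j + 1) : ℕ) : ℝ))) * q ^ j)
      ≤ (n:ℝ) ^ (j + 1) * (Real.exp (c * (j + 1)) * Real.exp (-(c * q * n)) * q ^ j) := by gcongr
    _ = Real.exp (c * (j + 1)) * (((n:ℝ) * q) ^ j * Real.exp (-(c / 2 * q * n))) * (n * Real.exp (-(c / 2 * q * n))) := by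
        rw [h9, mul_pow]; ring
    _ ≤ Real.exp (c * (j + 1)) * ((j.factorial : ℝ) * (2 / c) ^ j) * (n * Real.exp (-(c / 2 * q * n))) := by
        gcongr

/-- constant in the upper bound -/
noncomputable def upC (D j : ℕ) : ℝ :=
  ((j:ℝ) + 1) ^ D * (2 ^ D * ((j:ℝ) ^ D) ^ j * (Real.exp (cD D * (j + 1)) * ((j.factorial : ℝ) * (2 / cD D) ^ j)))

theorem faces_le {K : Set E} (hK : IsCompact K) (hconv : Convex ℝ K) (h0 : μ K ≠ 0)
    (n : ℕ) {j : ℕ} (hj : j < finrank ℝ E) :
    ∫⁻ X : Fin n → E, (faceCount (convexHull ℝ (range X)) j : ℝ≥0∞)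
        ∂(Measure.pi fun _ : Fin n => cond μ K) ≤
      ENNReal.ofReal (upC (finrank ℝ E) j) * ((μ K)⁻¹ *
        ∫⁻ x in K, ENNReal.ofReal (n * Real.exp (-(cD (finrank ℝ E) / 2 * qv μ K x * n))) ∂μ) := by
  classical
  have hD : 0 < finrank ℝ E := by omega
  have hP : IsProbabilityMeasure (cond μ K) := cond_isProbabilityMeasure_of_finite h0 hK.measure_lt_top.ne
  have hfinK : μ K ≠ ⊤ := hK.measure_lt_top.ne
  have hc := cD_pos hD
  set D := finrank ℝ E with hDdef
  have hq : Measurable (fun x => qv μ K x) := by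
    unfold qv
    exact ((mac_meas μ K hK.isClosed).ennreal_toReal).div_const _
  set T := Finset.univ.filter (fun I : Finset (Fin n) => I.card = j + 1) with hT
  have hTcard : (T.card : ℝ≥0∞) ≤ ENNReal.ofReal ((n:ℝ) ^ (j + 1)) := by
    have h1 : T = Finset.powersetCard (j + 1) Finset.univ := by
      ext I; simp [hT, Finset.mem_powersetCard]
    have h2 : T.card ≤ n ^ (j + 1) := by
      rw [h1, Finset.card_powersetCard]
      simp only [Finset.card_univ, Fintype.card_fin]
      exact Nat.choose_le_pow n (j + 1)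
    rw [ENNReal.ofReal_pow (by positivity), ENNReal.ofReal_natCast]
    exact_mod_cast h2
  have hstep1 : ∫⁻ X : Fin n → E, (faceCount (convexHull ℝ (range X)) j : ℝ≥0∞)
        ∂(Measure.pi fun _ : Fin n => cond μ K) ≤
      ∑ I ∈ T, (Measure.pi fun _ : Fin n => cond μ K) (badEvent j I) := by
    calc _ ≤ ∫⁻ X : Fin n → E, ∑ I ∈ T, (badEvent j I).indicator 1 X ∂(Measure.pi fun _ : Fin n => cond μ K) :=
          lintegral_mono (fun X => faceCount_le_sum X hj)
      _ = _ := by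
        rw [lintegral_finsetSum]
        · apply Finset.sum_congr rfl
          intro I _
          rw [lintegral_indicator_one (meas_badEvent hD j I)]
        · intro I _
          exact measurable_one.indicator (meas_badEvent hD j I)
  refine hstep1.trans ?_
  have hstep2 : ∀ I ∈ T, (Measure.pi fun _ : Fin n => cond μ K) (badEvent j I) ≤
      ENNReal.ofReal (((j:ℝ) + 1) ^ D) * ((μ K)⁻¹ *
        ∫⁻ x in K, ENNReal.ofReal (2 ^ D * ((j:ℝ) ^ D) ^ j *
          (Real.exp (-(cD D * qv μ K x * ((n - (j + 1) : ℕ) : ℝ))) * (qv μ K x) ^ j)) ∂μ) := by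
    intro I hI
    have hI' : I.card = j + 1 := by simpa [hT] using hI
    refine (prob_badEvent μ hK hconv h0 hD hI').trans (le_of_eq ?_)
    congr 2
    apply lintegral_congr
    intro x
    have hfinM : μ (mac K x) ≠ ⊤ := (mac_compact hK x).measure_lt_top.ne
    have h1 : (μ K)⁻¹ * (ENNReal.ofReal ((j:ℝ) ^ D) * μ (mac K x)) = ENNReal.ofReal ((j:ℝ) ^ D * qv μ K x) := by
      unfold qv
      rw [ENNReal.ofReal_mul (by positivity), ENNReal.ofReal_div_of_pos (ENNReal.toReal_pos h0 hfinK),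
        ENNReal.ofReal_toReal hfinK, ENNReal.ofReal_toReal hfinM, ENNReal.div_eq_inv_mul]
      ring
    rw [h1, ← ENNReal.ofReal_pow (by have := qv_nonneg μ K x; positivity),
      ← ENNReal.ofReal_mul (by positivity)]
    congr 1
    rw [mul_pow]
    simp only [Fintype.card_fin]
    ring
  calc ∑ I ∈ T, (Measure.pi fun _ : Fin n => cond μ K) (badEvent j I)
      ≤ ∑ I ∈ T, ENNReal.ofReal (((j:ℝ) + 1) ^ D) * ((μ K)⁻¹ *
        ∫⁻ x in K, ENNReal.ofReal (2 ^ D * ((j:ℝ) ^ D) ^ j *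
          (Real.exp (-(cD D * qv μ K x * ((n - (j + 1) : ℕ) : ℝ))) * (qv μ K x) ^ j)) ∂μ) :=
        Finset.sum_le_sum hstep2
    _ = (T.card : ℝ≥0∞) * (ENNReal.ofReal (((j:ℝ) + 1) ^ D) * ((μ K)⁻¹ *
        ∫⁻ x in K, ENNReal.ofReal (2 ^ D * ((j:ℝ) ^ D) ^ j *
          (Real.exp (-(cD D * qv μ K x * ((n - (j + 1) : ℕ) : ℝ))) * (qv μ K x) ^ j)) ∂μ)) := by
        rw [Finset.sum_const, nsmul_eq_mul]
    _ ≤ ENNReal.ofReal ((n:ℝ) ^ (j + 1)) * (ENNReal.ofReal (((j:ℝ) + 1) ^ D) * ((μ K)⁻¹ *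
        ∫⁻ x in K, ENNReal.ofReal (2 ^ D * ((j:ℝ) ^ D) ^ j *
          (Real.exp (-(cD D * qv μ K x * ((n - (j + 1) : ℕ) : ℝ))) * (qv μ K x) ^ j)) ∂μ)) := by
        gcongr
    _ = ENNReal.ofReal (((j:ℝ) + 1) ^ D) * ((μ K)⁻¹ *
        ∫⁻ x in K, ENNReal.ofReal (2 ^ D * ((j:ℝ) ^ D) ^ j * ((n:ℝ) ^ (j + 1) *
          (Real.exp (-(cD D * qv μ K x * ((n - (j + 1) : ℕ) : ℝ))) * (qv μ K x) ^ j))) ∂μ) := by
        rw [mul_left_comm, mul_left_comm (ENNReal.ofReal ((n:ℝ) ^ (j + 1)))]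
        congr 2
        rw [← lintegral_const_mul _ (by fun_prop)]
        apply lintegral_congr
        intro x
        rw [← ENNReal.ofReal_mul (by positivity)]
        congr 1
        ring
    _ ≤ ENNReal.ofReal (((j:ℝ) + 1) ^ D) * ((μ K)⁻¹ *
        ∫⁻ x in K, ENNReal.ofReal (2 ^ D * ((j:ℝ) ^ D) ^ j * (
          (Real.exp (cD D * (j + 1)) * ((j.factorial : ℝ) * (2 / cD D) ^ j)) * (n * Real.exp (-(cD D / 2 * qv μ K x * n))))) ∂μ) := by
        refine mul_le_mul' le_rfl (mul_le_mul' le_rfl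
          (lintegral_mono (fun x => ENNReal.ofReal_le_ofReal ?_)))
        exact mul_le_mul_of_nonneg_left
          (real_ineq (cD D) hc j n _ (qv_nonneg μ K x) (qv_le_one μ hK x)) (by positivity)
    _ = _ := by
        rw [mul_left_comm, mul_left_comm (ENNReal.ofReal (upC D j))]
        congr 1
        rw [← lintegral_const_mul _ (by fun_prop), ← lintegral_const_mul _ (by fun_prop)]
        apply lintegral_congr
        intro x
        unfold upC
        rw [← ENNReal.ofReal_mul (by positivity), ← ENNReal.ofReal_mul (by positivity)]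
        congr 1
        ring

end Pool.Agent.Lib_helper31.RP
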